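import Pool.Agent.H83.F.OneStep

/-!
# The one-step properties, continued: amoeba forcing and countable forcing notions
-/

set_option linter.unusedSectionVars false
set_option linter.unusedVariables false

open Set MeasureTheory

namespace Pool.Agent.H83.F

/-- the measure of the union of finitely many basic intervals -/
noncomputable def mu (K : Finset ℕ) : ℝ := volume.real (Op' (K : Set ℕ))

theorem Op'_fin (K : Finset ℕ) : volume (Op' (K : Set ℕ)) ≠ ⊤ := by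
  unfold Op'
  refine ne_of_lt (lt_of_le_of_lt (measure_biUnion_finset_le K _) ?_)
  refine ENNReal.sum_lt_top.2 fun j _ => ?_
  unfold Iv
  rw [Real.volume_Ioo]
  exact ENNReal.ofReal_lt_top

theorem Op'_meas (K : Set ℕ) : MeasurableSet (Op' K) := by
  unfold Op'
  exact (isOpen_biUnion fun j _ => by unfold Iv; exact isOpen_Ioo).measurableSet

theorem Op'_mono {K L : Set ℕ} (h : K ⊆ L) : Op' K ⊆ Op' L := biUnion_subset_biUnion_left h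

theorem Op'_union (K L : Set ℕ) : Op' (K ∪ L) = Op' K ∪ Op' L := by
  unfold Op'
  exact biUnion_union K L Iv

theorem mu_mono {K L : Finset ℕ} (h : K ⊆ L) : mu K ≤ mu L := by
  unfold mu
  exact measureReal_mono (Op'_mono (by exact_mod_cast h)) (Op'_fin L)

theorem mu_nonneg (K : Finset ℕ) : 0 ≤ mu K := measureReal_nonneg

theorem mu_union (K K1 K2 : Finset ℕ) :
    mu (K1 ∪ K2 ∪ K) + mu K ≤ mu (K1 ∪ K) + mu (K2 ∪ K) := by
  have h1 : volume.real (Op' ((K1 ∪ K : Finset ℕ) : Set ℕ) ∪ Op' ((K2 ∪ K : Finset ℕ) : Set ℕ)) +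
      volume.real (Op' ((K1 ∪ K : Finset ℕ) : Set ℕ) ∩ Op' ((K2 ∪ K : Finset ℕ) : Set ℕ)) =
      volume.real (Op' ((K1 ∪ K : Finset ℕ) : Set ℕ)) +
      volume.real (Op' ((K2 ∪ K : Finset ℕ) : Set ℕ)) :=
    measureReal_union_add_inter (Op'_meas _) (Op'_fin _) (Op'_fin _)
  have h2 : Op' ((K1 ∪ K2 ∪ K : Finset ℕ) : Set ℕ) =
      Op' ((K1 ∪ K : Finset ℕ) : Set ℕ) ∪ Op' ((K2 ∪ K : Finset ℕ) : Set ℕ) := by
    push_cast
    rw [Op'_union, Op'_union, Op'_union, Op'_union]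
    ext y
    simp only [mem_union]
    tauto
  have h3 : mu K ≤ volume.real (Op' ((K1 ∪ K : Finset ℕ) : Set ℕ) ∩
      Op' ((K2 ∪ K : Finset ℕ) : Set ℕ)) := by
    unfold mu
    refine measureReal_mono (subset_inter (Op'_mono ?_) (Op'_mono ?_)) ?_
    · push_cast; exact subset_union_right
    · push_cast; exact subset_union_right
    · exact ne_top_of_le_ne_top (Op'_fin (K1 ∪ K)) (measure_mono inter_subset_left)
  unfold mu at h3 ⊢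
  rw [h2]
  linarith

section Abs

variable {P Λ : Type} [Preorder P] {S : Set P}

/-- `p` forces that the union of the open sets `u_l`, `l ∈ s`, has measure at most `b` -/
def MB (S : Set P) (u : Λ → ℕ → Set P) (s : Finset Λ) (b : ℝ) (p : P) : Prop :=
  ∀ r ∈ S, r ≤ p → ∀ K : Finset ℕ, (∀ j ∈ K, ∃ l ∈ s, Pos (u l j) r) → mu K ≤ b

theorem MB.mono {u : Λ → ℕ → Set P} {s : Finset Λ} {b : ℝ} {p q : P} (h : q ≤ p)
    (hp : MB S u s b p) : MB S u s b q := fun r hr hrq => hp r hr (hrq.trans h)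

/-- Deciding a finite part of an open set that has almost full measure. -/
theorem approx {u : Λ → ℕ → Set P} {s : Finset Λ} {b : ℝ} {p : P} (hp : p ∈ S)
    (h : MB S u s b p) {δ : ℝ} (hδ : 0 < δ) :
    ∃ r ∈ S, r ≤ p ∧ ∃ K : Finset ℕ, (∀ j ∈ K, ∃ l ∈ s, Pos (u l j) r) ∧
      ∀ r' ∈ S, r' ≤ r → ∀ K' : Finset ℕ, (∀ j ∈ K', ∃ l ∈ s, Pos (u l j) r') →
        mu (K' ∪ K) ≤ mu K + δ := by
  set V : Set ℝ := {v | ∃ r ∈ S, r ≤ p ∧ ∃ K : Finset ℕ, (∀ j ∈ K, ∃ l ∈ s, Pos (u l j) r) ∧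
    mu K = v} with hV
  have hne : V.Nonempty := ⟨mu ∅, p, hp, le_rfl, ∅, fun j hj => absurd hj (Finset.notMem_empty j),
    rfl⟩
  have hbd : BddAbove V := by
    refine ⟨b, ?_⟩
    rintro v ⟨r, hr, hrp, K, hK, rfl⟩
    exact h r hr hrp K hK
  obtain ⟨v, ⟨r, hr, hrp, K, hK, rfl⟩, hv⟩ := exists_lt_of_lt_csSup hne
    (show sSup V - δ < sSup V by linarith)
  refine ⟨r, hr, hrp, K, hK, fun r' hr' hrr K' hK' => ?_⟩
  have : mu (K' ∪ K) ≤ sSup V := by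
    refine le_csSup hbd ⟨r', hr', hrr.trans hrp, K' ∪ K, fun j hj => ?_, rfl⟩
    rcases Finset.mem_union.1 hj with hj | hj
    · exact hK' j hj
    · obtain ⟨l, hl, h'⟩ := hK j hj
      exact ⟨l, hl, h'.mono hrr⟩
  linarith

/-- validity for amoeba forcing -/
def AmV (S : Set P) (u : Λ → ℕ → Set P) (a : ℝ) (s : Finset Λ) (p : P) : Prop :=
  ∃ b < a, MB S u s b p

theorem AmV.mono {u : Λ → ℕ → Set P} {s : Finset Λ} {a : ℝ} {p q : P} (h : q ≤ p)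
    (hp : AmV S u a s p) : AmV S u a s q := by
  obtain ⟨b, hb, h'⟩ := hp
  exact ⟨b, hb, h'.mono h⟩

theorem am_union {u : Λ → ℕ → Set P} {s s' : Finset Λ} {b δ : ℝ} {K : Finset ℕ} {p : P}
    [DecidableEq Λ] (h : MB S u s b p) (hK : ∀ j ∈ K, ∃ l ∈ s, Pos (u l j) p)
    (h' : ∀ r' ∈ S, r' ≤ p → ∀ K' : Finset ℕ, (∀ j ∈ K', ∃ l ∈ s', Pos (u l j) r') →
        mu (K' ∪ K) ≤ mu K + δ) : MB S u (s ∪ s') (b + δ) p := by
  classical
  intro r hr hrp K' hK'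
  set K1 := K'.filter (fun j => ∃ l ∈ s, Pos (u l j) r)
  set K2 := K'.filter (fun j => ∃ l ∈ s', Pos (u l j) r)
  have h0 : K' ⊆ K1 ∪ K2 ∪ K := by
    intro j hj
    obtain ⟨l, hl, hjl⟩ := hK' j hj
    refine Finset.mem_union_left _ ?_
    rcases Finset.mem_union.1 hl with hl | hl
    · exact Finset.mem_union_left _ (Finset.mem_filter.2 ⟨hj, l, hl, hjl⟩)
    · exact Finset.mem_union_right _ (Finset.mem_filter.2 ⟨hj, l, hl, hjl⟩)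
  have h1 : mu (K1 ∪ K) ≤ b := by
    refine h r hr hrp _ fun j hj => ?_
    rcases Finset.mem_union.1 hj with hj | hj
    · exact (Finset.mem_filter.1 hj).2
    · obtain ⟨l, hl, hjl⟩ := hK j hj
      exact ⟨l, hl, hjl.mono hrp⟩
  have h2 : mu (K2 ∪ K) ≤ mu K + δ := h' r hr hrp K2 fun j hj => (Finset.mem_filter.1 hj).2
  have h3 := mu_union K K1 K2
  have h4 := mu_mono h0
  linarith

/-- Amoeba forcing is ccc. -/
theorem am_onestep (hS : CC S) (u : Λ → ℕ → Set P) (a : ℝ) {B : Set W1} (hB : ¬ B.Countable)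
    (f : W1 → P) (s : W1 → Finset Λ) (hf : ∀ ξ ∈ B, f ξ ∈ S)
    (hv : ∀ ξ ∈ B, AmV S u a (s ξ) (f ξ)) :
    ∃ ξ ∈ B, ∃ η ∈ B, ξ < η ∧ ∃ r ∈ S, r ≤ f ξ ∧ r ≤ f η ∧
      ∃ s' : Finset Λ, s ξ ⊆ s' ∧ s η ⊆ s' ∧ AmV S u a s' r := by
  classical
  have h1 : ∀ ξ, ∃ (r : P) (K : Finset ℕ) (k : ℕ) (b : ℝ), ξ ∈ B → r ∈ S ∧ r ≤ f ξ ∧
      b + 1 / ((k : ℝ) + 1) < a ∧ MB S u (s ξ) b r ∧ (∀ j ∈ K, ∃ l ∈ s ξ, Pos (u l j) r) ∧
      ∀ r' ∈ S, r' ≤ r → ∀ K' : Finset ℕ, (∀ j ∈ K', ∃ l ∈ s ξ, Pos (u l j) r') →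
        mu (K' ∪ K) ≤ mu K + 1 / ((k : ℝ) + 1) := by
    intro ξ
    by_cases h : ξ ∈ B
    · obtain ⟨b, hb, hMB⟩ := hv ξ h
      obtain ⟨k, hk⟩ := exists_nat_one_div_lt (show 0 < a - b by linarith)
      obtain ⟨r, hr, hrp, K, hK, hK'⟩ := approx (hf ξ h) hMB
        (show (0 : ℝ) < 1 / ((k : ℝ) + 1) by positivity)
      exact ⟨r, K, k, b, fun _ => ⟨hr, hrp, by linarith, hMB.mono hrp, hK, hK'⟩⟩
    · exact ⟨f ξ, ∅, 0, 0, fun h' => absurd h' h⟩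
  choose r K k b hh using h1
  obtain ⟨⟨K0, k0⟩, hB1⟩ := unc_fiber hB (fun ξ => (K ξ, k ξ))
  obtain ⟨ξ, hξ, η, hη, hlt, t, ht, ht1, ht2⟩ := hS _ hB1 r (fun ξ hξ => (hh ξ hξ.1).1)
  obtain ⟨a1, a2, a3, a4, a5, a6⟩ := hh ξ hξ.1
  obtain ⟨b1, b2, b3, b4, b5, b6⟩ := hh η hη.1
  have eξ : K ξ = K0 ∧ k ξ = k0 := by simpa using hξ.2
  have eη : K η = K0 ∧ k η = k0 := by simpa using hη.2
  refine ⟨ξ, hξ.1, η, hη.1, hlt, t, ht, ht1.trans a2, ht2.trans b2, s ξ ∪ s η,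
    Finset.subset_union_left, Finset.subset_union_right, _, a3, ?_⟩
  refine am_union (K := K0) (a4.mono ht1) ?_ ?_
  · rw [eξ.1] at a5
    intro j hj
    obtain ⟨l, hl, h'⟩ := a5 j hj
    exact ⟨l, hl, h'.mono ht1⟩
  · rw [eη.1, eη.2] at b6
    rw [eξ.2]
    exact fun r' hr' hrt => b6 r' hr' (hrt.trans ht2)

/-- validity for a countable forcing notion with underlying set `Fe` and order `Be` -/
def CohV (Fe : ℕ → Set P) (Be : ℕ → ℕ → Set P) (s : List ℕ) (p : P) : Prop :=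
  (∀ n ∈ s, Pos (Fe n) p) ∧ ∀ k, ∀ h : k + 1 < s.length, Pos (Be s[k + 1] s[k]) p

theorem CohV.mono {Fe : ℕ → Set P} {Be : ℕ → ℕ → Set P} {s : List ℕ} {p q : P} (h : q ≤ p)
    (hp : CohV Fe Be s p) : CohV Fe Be s q :=
  ⟨fun n hn => (hp.1 n hn).mono h, fun k hk => (hp.2 k hk).mono h⟩

theorem coh_onestep (hS : CC S) (Fe : ℕ → Set P) (Be : ℕ → ℕ → Set P) {B : Set W1}
    (hB : ¬ B.Countable) (f : W1 → P) (s : W1 → List ℕ) (hf : ∀ ξ ∈ B, f ξ ∈ S)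
    (hv : ∀ ξ ∈ B, CohV Fe Be (s ξ) (f ξ)) :
    ∃ ξ ∈ B, ∃ η ∈ B, ξ < η ∧ ∃ r ∈ S, r ≤ f ξ ∧ r ≤ f η ∧
      s ξ = s η ∧ CohV Fe Be (s ξ) r := by
  obtain ⟨s0, hB1⟩ := unc_fiber hB s
  obtain ⟨ξ, hξ, η, hη, hlt, t, ht, ht1, ht2⟩ := hS _ hB1 f (fun ξ hξ => hf ξ hξ.1)
  exact ⟨ξ, hξ.1, η, hη.1, hlt, t, ht, ht1, ht2, hξ.2.trans hη.2.symm, (hv ξ hξ.1).mono ht1⟩

end Abs

end Pool.Agent.H83.F
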