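import Pool.Agent.H83.F.Fam

/-!
# The real numbers of a nice model: interface

`cut x` is the set of (codes of) rational numbers below the real number `x`; `N.Cd m x` says that
the element `m` of the model is (the set `cut x`, so it codes) the real number `x`. The reals of
the model are the actual real numbers `x` with `N.PM (cut x)`.

`N.Reals R A T L` says that `R ∈ M` is the set of all codes of reals of the model, and `A`, `T`,
`L` are the sets in `M` that give addition, multiplication and the order.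

`N.NullS R X` is the characterisation of null sets by coded open sets.
-/

open MeasureTheory

namespace Pool.Agent.H83.F

/-- The (codes of) rational numbers below `x`. -/
def cut (x : ℝ) : Set ℕ := {n | (qd n : ℝ) < x}

theorem cut_lt_iff {x y : ℝ} : x < y ↔ ∃ n, n ∉ cut x ∧ n ∈ cut y := by
  constructor
  · intro h
    obtain ⟨q, h1, h2⟩ := exists_rat_btwn h
    obtain ⟨n, rfl⟩ := qd_surj q
    exact ⟨n, not_lt.2 h1.le, h2⟩
  · rintro ⟨n, h1, h2⟩
    exact (not_lt.1 h1).trans_lt h2

theorem cut_subset_iff {x y : ℝ} : cut x ⊆ cut y ↔ x ≤ y := by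
  constructor
  · intro h
    by_contra hc
    obtain ⟨n, h1, h2⟩ := cut_lt_iff.1 (not_le.1 hc)
    exact h1 (h h2)
  · exact fun h n hn => lt_of_lt_of_le hn h

theorem cut_inj {x y : ℝ} (h : cut x = cut y) : x = y :=
  le_antisymm (cut_subset_iff.1 h.subset) (cut_subset_iff.1 h.symm.subset)

namespace Nice

variable {𝒯 : Set (Set ℕ)} (N : Nice 𝒯)

/-- The element `m` of the model codes the real number `x`. -/
def Cd (m : N.M) (x : ℝ) : Prop := Sub N.E m N.om ∧ N.val m = cut x

/-- The real numbers of the model. -/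
def RM : Set ℝ := {x | N.PM (cut x)}

theorem mem_RM {x : ℝ} : x ∈ N.RM ↔ ∃ m, N.Cd m x := Iff.rfl

variable {N} in
theorem Cd.left {m m' : N.M} {x : ℝ} (h : N.Cd m x) (h' : N.Cd m' x) : m = m' :=
  N.eq_of_val h.1 h'.1 (h.2.trans h'.2.symm)

variable {N} in
theorem Cd.right {m : N.M} {x x' : ℝ} (h : N.Cd m x) (h' : N.Cd m x') : x = x' :=
  cut_inj (h.2.symm.trans h'.2)

/-- `R`, `A`, `T`, `L` are the set of reals of the model with addition, multiplication, order. -/
structure Reals (R A T L : N.M) : Prop where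
  mem : ∀ m, N.E m R ↔ ∃ x, N.Cd m x
  add : ∀ m n k x y, N.Cd m x → N.Cd n y → (Op N.E A m n k ↔ N.Cd k (x + y))
  mul : ∀ m n k x y, N.Cd m x → N.Cd n y → (Op N.E T m n k ↔ N.Cd k (x * y))
  lt : ∀ m n x y, N.Cd m x → N.Cd n y → (Rel N.E L m n ↔ x < y)
  /-- `L` only contains pairs of reals -/
  lt_mem : ∀ m n, Rel N.E L m n → N.E m R ∧ N.E n R
  /-- `A` only contains triples of reals -/
  add_mem : ∀ m n k, Op N.E A m n k → N.E m R ∧ N.E n R ∧ N.E k R
  field : IsRealField N.E R A T L

/-- Semantic characterisation of null sets: for every `m` the set `X` is covered by the open set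
`Op' z` for some `z ⊆ ℕ` in the model, with Lebesgue measure at most `2⁻ᵐ`. -/
def NullS (R X : N.M) : Prop :=
  Sub N.E X R ∧ ∀ m : ℕ, ∃ z : Set ℕ, N.PM z ∧ volume (Op' z) ≤ ENNReal.ofReal ((1 / 2) ^ m) ∧
    ∀ c x, N.E c X → N.Cd c x → x ∈ Op' z

end Nice

end Pool.Agent.H83.F
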