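import Pool.Agent.H86.Sym
import Pool.Agent.H86.Model

/-!
# Forcing over the universe `Type u`, without symmetries

Group-free version of (part of) `Pool.Agent.H86`: the forcing interpretation of formulas in the
class of all names over a preorder with top.
-/

set_option linter.unusedVariables false
set_option linter.unusedSectionVars false

universe u v w

namespace Pool.Agent.H83.F

open Pool.Agent.H86 Pool.Agent.H86.Name

variable {Q : Type u} [Preorder Q] [OrderTop Q]

/-- The forcing interpretation on all names. -/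
def FS (Q : Type u) [Preorder Q] : LogicStr (Name Q) (Om Q) where
  mem := fun X Y => Om.memv X Y
  eq := fun X Y => Om.eqv X Y
  bot := Om.bot
  imp := Om.imp
  and := Om.and
  or := Om.or
  iff := Om.iff
  all := Om.all
  ex := Om.ex

/-- Forced equalities can be substituted in formulas. -/
theorem eval_eq_iff (φ : Fml) : ∀ (f f' : ℕ → Name Q) (p : Q)
    (_ : ∀ i < φ.bd, (f i).feq (f' i) p),
    (φ.eval (FS Q) f).holds p ↔ (φ.eval (FS Q) f').holds p := by
  induction φ with
  | mem i j =>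
    intro f f' p h
    have hi := h i (by simp [Fml.bd])
    have hj := h j (by simp [Fml.bd])
    constructor
    · intro h1
      exact Name.fmem_congr_left hi (Name.fmem_congr_right hj h1)
    · intro h1
      exact Name.fmem_congr_left (Name.feq_symm hi) (Name.fmem_congr_right (Name.feq_symm hj) h1)
  | eq i j =>
    intro f f' p h
    have hi := h i (by simp [Fml.bd])
    have hj := h j (by simp [Fml.bd])
    constructor
    · intro h1
      exact Name.feq_trans (Name.feq_symm hi) (Name.feq_trans h1 hj)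
    · intro h1
      exact Name.feq_trans hi (Name.feq_trans h1 (Name.feq_symm hj))
  | bot => intro f f' p h; exact Iff.rfl
  | imp φ ψ ih1 ih2 =>
    intro f f' p h
    have h1 : ∀ q ≤ p, ((φ.eval (FS Q) f).holds q ↔ (φ.eval (FS Q) f').holds q) := fun q hq =>
      ih1 f f' q fun i hi => Name.feq_mono hq (h i (lt_of_lt_of_le hi (le_max_left _ _)))
    have h2 : ∀ q ≤ p, ((ψ.eval (FS Q) f).holds q ↔ (ψ.eval (FS Q) f').holds q) := fun q hq =>
      ih2 f f' q fun i hi => Name.feq_mono hq (h i (lt_of_lt_of_le hi (le_max_right _ _)))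
    exact ⟨fun h3 q hq hq' => (h2 q hq).1 (h3 q hq ((h1 q hq).2 hq')),
      fun h3 q hq hq' => (h2 q hq).2 (h3 q hq ((h1 q hq).1 hq'))⟩
  | and φ ψ ih1 ih2 =>
    intro f f' p h
    exact and_congr (ih1 f f' p fun i hi => h i (lt_of_lt_of_le hi (le_max_left _ _)))
      (ih2 f f' p fun i hi => h i (lt_of_lt_of_le hi (le_max_right _ _)))
  | or φ ψ ih1 ih2 =>
    intro f f' p h
    have h1 : ∀ q ≤ p, ((φ.eval (FS Q) f).holds q ↔ (φ.eval (FS Q) f').holds q) := fun q hq =>
      ih1 f f' q fun i hi => Name.feq_mono hq (h i (lt_of_lt_of_le hi (le_max_left _ _)))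
    have h2 : ∀ q ≤ p, ((ψ.eval (FS Q) f).holds q ↔ (ψ.eval (FS Q) f').holds q) := fun q hq =>
      ih2 f f' q fun i hi => Name.feq_mono hq (h i (lt_of_lt_of_le hi (le_max_right _ _)))
    constructor
    · intro h3 q hq
      obtain ⟨r, hr, h4⟩ := h3 q hq
      exact ⟨r, hr, h4.imp (h1 r (hr.trans hq)).1 (h2 r (hr.trans hq)).1⟩
    · intro h3 q hq
      obtain ⟨r, hr, h4⟩ := h3 q hq
      exact ⟨r, hr, h4.imp (h1 r (hr.trans hq)).2 (h2 r (hr.trans hq)).2⟩
  | iff φ ψ ih1 ih2 =>
    intro f f' p h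
    have h1 : ∀ q ≤ p, ((φ.eval (FS Q) f).holds q ↔ (φ.eval (FS Q) f').holds q) := fun q hq =>
      ih1 f f' q fun i hi => Name.feq_mono hq (h i (lt_of_lt_of_le hi (le_max_left _ _)))
    have h2 : ∀ q ≤ p, ((ψ.eval (FS Q) f).holds q ↔ (ψ.eval (FS Q) f').holds q) := fun q hq =>
      ih2 f f' q fun i hi => Name.feq_mono hq (h i (lt_of_lt_of_le hi (le_max_right _ _)))
    exact and_congr
      ⟨fun h3 q hq hq' => (h2 q hq).1 (h3 q hq ((h1 q hq).2 hq')),
        fun h3 q hq hq' => (h2 q hq).2 (h3 q hq ((h1 q hq).1 hq'))⟩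
      ⟨fun h3 q hq hq' => (h1 q hq).1 (h3 q hq ((h2 q hq).2 hq')),
        fun h3 q hq hq' => (h1 q hq).2 (h3 q hq ((h2 q hq).1 hq'))⟩
  | all k φ ih =>
    intro f f' p h
    refine forall_congr' fun x => ih _ _ _ fun i hi => ?_
    by_cases hk : i = k
    · subst hk; simpa using Name.feq_refl _ _
    · rw [upd_ne _ _ hk, upd_ne _ _ hk]; exact h i hi
  | ex k φ ih =>
    intro f f' p h
    have h1 : ∀ x, ∀ q ≤ p, ((φ.eval (FS Q) (upd f k x)).holds q ↔
        (φ.eval (FS Q) (upd f' k x)).holds q) := fun x q hq =>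
      ih _ _ _ fun i hi => by
        by_cases hk : i = k
        · subst hk; simpa using Name.feq_refl _ _
        · rw [upd_ne _ _ hk, upd_ne _ _ hk]; exact Name.feq_mono hq (h i hi)
    constructor
    · intro h3 q hq
      obtain ⟨r, hr, x, h4⟩ := h3 q hq
      exact ⟨r, hr, x, (h1 x r (hr.trans hq)).1 h4⟩
    · intro h3 q hq
      obtain ⟨r, hr, x, h4⟩ := h3 q hq
      exact ⟨r, hr, x, (h1 x r (hr.trans hq)).2 h4⟩

end Pool.Agent.H83.F
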