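import Pool.Agent.H83.F.CccQ

/-!
# Generic models over `QQ`: ordinals, constants, regularity
-/

set_option linter.unusedVariables false
set_option linter.unusedSectionVars false

open Set

namespace Pool.Agent.H83.F

open Pool.Agent.H86 Pool.Agent.H86.Name

universe v w

/-- a generic model over `QQ` with the basic elements -/
structure GB where
  /-- the generic model -/
  G : GModel QQ
  /-- natural numbers -/
  nat : ℕ → G.M
  /-- `ω` -/
  om : G.M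
  /-- `ω₁` -/
  w1 : G.M
  /-- `ω₂` -/
  w2 : G.M
  hnat : ∀ n : ℕ, G.Nm (nat n) (oName QQ n)
  hom : G.Nm om (oName QQ Ordinal.omega0)
  hw1 : G.Nm w1 (oName QQ O1)
  hw2 : G.Nm w2 (oName QQ O2)

namespace GB

variable (B : GB)

theorem E_om (x : B.G.M) : B.G.E x B.om ↔ ∃ n, x = B.nat n := by
  rw [GModel.mem_o B.hom]
  constructor
  · rintro ⟨β, hβ, h⟩
    obtain ⟨n, rfl⟩ := Ordinal.lt_omega0.1 hβ
    exact ⟨n, (GModel.o_eq h (B.hnat n)).2 rfl⟩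
  · rintro ⟨n, rfl⟩
    exact ⟨n, Ordinal.nat_lt_omega0 n, B.hnat n⟩

theorem E_nat (x : B.G.M) (n : ℕ) : B.G.E x (B.nat n) ↔ ∃ m < n, x = B.nat m := by
  rw [GModel.mem_o (B.hnat n)]
  constructor
  · rintro ⟨β, hβ, h⟩
    obtain ⟨m, rfl⟩ := Ordinal.lt_omega0.1 (hβ.trans (Ordinal.nat_lt_omega0 n))
    exact ⟨m, by exact_mod_cast hβ, (GModel.o_eq h (B.hnat m)).2 rfl⟩
  · rintro ⟨m, hm, rfl⟩
    exact ⟨m, by exact_mod_cast hm, B.hnat m⟩

theorem E_w1 (x : B.G.M) : B.G.E x B.w1 ↔ ∃ i, B.G.Nm x (oName QQ (o1 i)) := by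
  rw [GModel.mem_o B.hw1]
  constructor
  · rintro ⟨β, hβ, h⟩
    obtain ⟨i, rfl⟩ := o1_surj hβ
    exact ⟨i, h⟩
  · rintro ⟨i, h⟩
    exact ⟨_, o1_lt i, h⟩

theorem E_w2 (x : B.G.M) : B.G.E x B.w2 ↔ ∃ i, B.G.Nm x (oName QQ (o2 i)) := by
  rw [GModel.mem_o B.hw2]
  constructor
  · rintro ⟨β, hβ, h⟩
    obtain ⟨i, rfl⟩ := o2_surj hβ
    exact ⟨i, h⟩
  · rintro ⟨i, h⟩
    exact ⟨_, o2_lt i, h⟩

theorem om_lt_O1 : Ordinal.omega0 < O1 := by
  unfold O1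
  rw [Cardinal.lt_ord, Ordinal.card_omega0]
  exact Cardinal.aleph0_lt_aleph_one

theorem O1_lt_O2 : O1 < O2 := by
  unfold O1 O2
  rw [Cardinal.ord_lt_ord]
  exact Cardinal.aleph_lt_aleph.2 (by norm_num)

theorem om_w1 (x : B.G.M) (h : B.G.E x B.om) : B.G.E x B.w1 := by
  rw [GModel.mem_o B.hom] at h
  rw [GModel.mem_o B.hw1]
  obtain ⟨β, hβ, h⟩ := h
  exact ⟨β, hβ.trans om_lt_O1, h⟩

theorem w1_w2 (x : B.G.M) (h : B.G.E x B.w1) : B.G.E x B.w2 := by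
  rw [GModel.mem_o B.hw1] at h
  rw [GModel.mem_o B.hw2]
  obtain ⟨β, hβ, h⟩ := h
  exact ⟨β, hβ.trans O1_lt_O2, h⟩

theorem w1_w2' : B.G.E B.w1 B.w2 := (GModel.o_mem B.hw1 B.hw2).2 O1_lt_O2

theorem trans_o {m x y : B.G.M} {α : Ordinal.{0}} (hm : B.G.Nm m (oName QQ α)) (h1 : B.G.E x y)
    (h2 : B.G.E y m) : B.G.E x m := by
  rw [GModel.mem_o hm] at h2 ⊢
  obtain ⟨β, hβ, h⟩ := h2
  rw [GModel.mem_o h] at h1
  obtain ⟨γ, hγ, h'⟩ := h1
  exact ⟨γ, hγ.trans hβ, h'⟩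

theorem lim_o {κ : Ordinal.{0}} (hκ : Order.IsSuccLimit κ) {m x : B.G.M}
    (hm : B.G.Nm m (oName QQ κ)) (hx : B.G.E x m) : ∃ y, B.G.E y m ∧ B.G.E x y := by
  obtain ⟨α, hα, h⟩ := (GModel.mem_o hm).1 hx
  -- the formula `∃ y ∈ m, x ∈ y`
  have h1 := B.G.tr (bex codeStr 0 (fun y => codeStr.mem 1 y) 10) (B.G.el hm)
    [B.G.el hm, B.G.el h]
  have h2 : (∃ y, B.G.E y m ∧ B.G.E x y) ↔ ∃ n, (bex (FS QQ) (oName QQ κ)
      (fun y => (FS QQ).mem (oName QQ α) y)).holds (B.G.qs n) := h1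
  rw [h2]
  refine ⟨0, fun q hq => ⟨q, le_rfl, oName QQ (α + 1), ?_, ?_⟩⟩
  · exact fmem_oName_of_lt (hκ.add_one_lt hα) q
  · exact fmem_oName_of_lt (Order.lt_add_one_iff.2 le_rfl) q

theorem O1_lim : Order.IsSuccLimit O1 := Cardinal.isSuccLimit_ord (Cardinal.aleph0_le_aleph 1)

theorem O2_lim : Order.IsSuccLimit O2 := Cardinal.isSuccLimit_ord (Cardinal.aleph0_le_aleph 2)

open Classical in
/-- the ordinal of an element -/
noncomputable def rk (m : B.G.M) : Ordinal.{0} :=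
  if h : ∃ α, B.G.Nm m (oName QQ α) then h.choose else 0

theorem rk_eq {m : B.G.M} {α : Ordinal.{0}} (h : B.G.Nm m (oName QQ α)) : B.rk m = α := by
  have h' : ∃ α, B.G.Nm m (oName QQ α) := ⟨α, h⟩
  unfold rk
  rw [dif_pos h']
  exact (GModel.o_eq h'.choose_spec h).1 rfl

theorem zfc : IsZFCModel B.G.E := GModel.zfc B.G ⟨B.om⟩

end GB

/-! ### Functions -/

/-- `f` is a function from `a` to `b` -/
def fFn {N : Type v} {Ω : Type w} (L : LogicStr N Ω) (f a b : N) : Ω :=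
  L.and (L.all fun z => L.imp (L.mem z f) (L.ex fun x => L.ex fun y =>
      L.and (fPr L z x y) (L.and (L.mem x a) (L.mem y b))))
    (L.all fun x => L.imp (L.mem x a) (L.ex fun y => L.and (fRel L f x y)
      (L.all fun y' => L.imp (fRel L f x y') (L.eq y' y))))

theorem fFn_prop {M : Type} (E : M → M → Prop) (f a b : M) :
    fFn (propStr E) f a b ↔ IsFun E f a b := Iff.rfl

section Fn

variable {Q : Type} [Preorder Q] [OrderTop Q]

theorem fun_rel {F A B x y : Name Q} {p q : Q} (h : (fFn (FS Q) F A B).holds p) (hq : q ≤ p)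
    (hxy : RR F x y q) : fmem x A q ∧ fmem y B q := by
  have key : ∀ r ≤ q, ∃ s ≤ r, fmem x A s ∧ fmem y B s := by
    intro r hr
    obtain ⟨s, hs, x', h1⟩ := h.1 _ q hq hxy r hr
    obtain ⟨t, ht, y', h2, h3, h4⟩ := h1 s le_rfl
    have h5 := feq_opair_iff.1 (holds_fPr.1 h2)
    exact ⟨t, ht.trans hs, fmem_congr_left (feq_symm h5.1) h3,
      fmem_congr_left (feq_symm h5.2) h4⟩
  exact ⟨fmem_reg fun r hr => (key r hr).imp fun s hs => ⟨hs.1, hs.2.1⟩,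
    fmem_reg fun r hr => (key r hr).imp fun s hs => ⟨hs.1, hs.2.2⟩⟩

theorem fun_unique {F A B x y y' : Name Q} {p q : Q} (h : (fFn (FS Q) F A B).holds p)
    (hq : q ≤ p) (hxy : RR F x y q) (hxy' : RR F x y' q) : feq y y' q := by
  apply feq_reg
  intro r hr
  obtain ⟨s, hs, z, h1, h2⟩ := h.2 x q hq (fun_rel h hq hxy).1 r hr
  have hsq : s ≤ q := hs.trans hr
  exact ⟨s, hs, feq_trans (h2 y s le_rfl (holds_fRel.2 (fmem_mono hsq hxy)))
    (feq_symm (h2 y' s le_rfl (holds_fRel.2 (fmem_mono hsq hxy'))))⟩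

theorem fun_bdd {F : Name Q} {δ κ α : Ordinal.{0}} {p : Q}
    (h : (fFn (FS Q) F (oName Q δ) (oName Q κ)).holds p)
    (hα : ∀ γ < δ, ∀ β, (∃ q ≤ p, RR F (oName Q γ) (oName Q β) q) → β < α) {x y : Name Q} {q : Q}
    (hq : q ≤ p) (hxy : RR F x y q) : fmem y (oName Q α) q := by
  apply fmem_reg
  intro r hr
  obtain ⟨h1, h2⟩ := fun_rel h hq hxy
  obtain ⟨s, hs, γ, hγ, h3⟩ := fmem_oName.1 h1 r hr
  obtain ⟨t, ht, β, hβ, h4⟩ := fmem_oName.1 h2 s (hs.trans hr)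
  have htq : t ≤ q := ht.trans (hs.trans hr)
  have h5 : RR F (oName Q γ) (oName Q β) t :=
    RR_congr (feq_refl _ _) (feq_mono ht h3) h4 (fmem_mono htq hxy)
  exact ⟨t, ht.trans hs, fmem_congr_left (feq_symm h4)
    (fmem_oName_of_lt (hα γ hγ β ⟨t, htq.trans hq, h5⟩) t)⟩

/-- names of functions between ordinals -/
theorem fFn_relO {ι : Type} {a b : ι → Ordinal.{0}} {κ l : Ordinal.{0}}
    (ha : ∀ i, a i < κ) (hb : ∀ i, b i < l) (hinj : ∀ i j, a i = a j → b i = b j)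
    (hsurj : ∀ α < κ, ∃ i, a i = α) (p : Q) :
    (fFn (FS Q) (relO ι a b (fun _ => ⊤)) (oName Q κ) (oName Q l)).holds p := by
  constructor
  · intro Z q hq hZ r hr
    obtain ⟨s, hs, i, -, h1⟩ := fmem_relO.1 hZ r hr
    refine ⟨s, hs, oName Q (a i), fun t ht => ⟨t, le_rfl, oName Q (b i), ?_, ?_, ?_⟩⟩
    · exact holds_fPr.2 (feq_mono ht h1)
    · exact fmem_oName_of_lt (ha i) t
    · exact fmem_oName_of_lt (hb i) t
  · intro x q hq hx r hr
    obtain ⟨s, hs, α, hα, h1⟩ := fmem_oName.1 hx r hr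
    obtain ⟨i, rfl⟩ := hsurj α hα
    refine ⟨s, hs, oName Q (b i), ?_, ?_⟩
    · rw [holds_fRel, RR_relO]
      exact fun t ht => ⟨t, le_rfl, i, le_top, feq_mono ht h1, feq_refl _ _⟩
    · intro y' t ht hy'
      rw [holds_fRel, RR_relO] at hy'
      show feq y' (oName Q (b i)) t
      apply feq_reg
      intro t' ht'
      obtain ⟨t2, ht2, j, -, h2, h3⟩ := hy' t' ht'
      refine ⟨t2, ht2, ?_⟩
      have h4 : a i = a j := feq_oName_iff.1
        (feq_trans (feq_symm (feq_mono (ht2.trans (ht'.trans ht)) h1)) h2)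
      rw [hinj i j h4]
      exact h3

end Fn

theorem O2_bdd_set {s : Set Ordinal.{0}} (hs : s.Countable) (h : ∀ β ∈ s, β < O2) :
    ∃ α < O2, ∀ β ∈ s, β < α := by
  rcases s.eq_empty_or_nonempty with rfl | hne
  · exact ⟨0, (Ordinal.omega0_pos.trans (GB.om_lt_O1.trans GB.O1_lt_O2)), by simp⟩
  · obtain ⟨g, rfl⟩ := hs.exists_eq_range hne
    obtain ⟨α, hα, h1⟩ := O2_bdd (ι := ℕ) (lt_of_le_of_lt Cardinal.mk_le_aleph0
      (Cardinal.aleph0_lt_aleph_one.trans (Cardinal.aleph_lt_aleph.2 (by norm_num)))) g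
      (fun i => h _ (mem_range_self i))
    refine ⟨α, hα, ?_⟩
    rintro _ ⟨i, rfl⟩
    exact h1 i

theorem O1_bdd_set {s : Set Ordinal.{0}} (hs : s.Countable) (h : ∀ β ∈ s, β < O1) :
    ∃ α < O1, ∀ β ∈ s, β < α := by
  rcases s.eq_empty_or_nonempty with rfl | hne
  · exact ⟨0, (Ordinal.omega0_pos.trans GB.om_lt_O1), by simp⟩
  · obtain ⟨g, rfl⟩ := hs.exists_eq_range hne
    obtain ⟨α, hα, h1⟩ := O1_bdd (ι := ℕ) g (fun i => h _ (mem_range_self i))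
    refine ⟨α, hα, ?_⟩
    rintro _ ⟨i, rfl⟩
    exact h1 i

theorem fun_vals {F : Name QQ} {A B x : Name QQ} {p : QQ} (h : (fFn (FS QQ) F A B).holds p) :
    {β | ∃ q ≤ p, RR F x (oName QQ β) q}.Countable :=
  vals_countable (fun β => ⟨RR F x (oName QQ β), fmem_mono, fmem_reg⟩) p
    fun q hq β β' h1 h2 => feq_oName_iff.1 (fun_unique h hq h1 h2)

/-- `f : a → b` is bounded -/
def fBd {N : Type v} {Ω : Type w} (L : LogicStr N Ω) (f a b : N) : Ω :=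
  L.imp (fFn L f a b) (bex L b fun c => L.all fun x => L.all fun y =>
    L.imp (fRel L f x y) (L.mem y c))

theorem forced_bd1 (F : Name QQ) (p : QQ) :
    (fBd (FS QQ) F (oName QQ Ordinal.omega0) (oName QQ O1)).holds p := by
  intro q hq h r hr
  have h1 : ∀ n : ℕ, ∃ α < O1, ∀ β, (∃ s ≤ q, RR F (oName QQ n) (oName QQ β) s) → β < α := by
    intro n
    refine O1_bdd_set (fun_vals (x := oName QQ n) h) ?_
    rintro β ⟨s, hs, h1⟩
    exact fmem_oName_iff.1 (fun_rel h hs h1).2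
  choose α hα h2 using h1
  obtain ⟨α', hα', h3⟩ := O1_bdd α hα
  refine ⟨r, le_rfl, oName QQ α', fmem_oName_of_lt hα' r, fun x y s hs hxy => ?_⟩
  rw [holds_fRel] at hxy
  refine fun_bdd h (α := α') ?_ (hs.trans hr) hxy
  intro γ hγ β hβ
  obtain ⟨n, rfl⟩ := Ordinal.lt_omega0.1 hγ
  exact (h2 n β hβ).trans (h3 n)

theorem forced_bd2 (F : Name QQ) {δ : Ordinal.{0}} (hδ : δ < O2) (p : QQ) :
    (fBd (FS QQ) F (oName QQ δ) (oName QQ O2)).holds p := by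
  intro q hq h r hr
  have h1 : ∀ γ : δ.ToType, ∃ α < O2, ∀ β,
      (∃ s ≤ q, RR F (oName QQ (Ordinal.ToType.toOrd γ).1) (oName QQ β) s) → β < α := by
    intro γ
    refine O2_bdd_set (fun_vals (x := oName QQ (Ordinal.ToType.toOrd γ).1) h) ?_
    rintro β ⟨s, hs, h1⟩
    exact fmem_oName_iff.1 (fun_rel h hs h1).2
  choose α hα h2 using h1
  obtain ⟨α', hα', h3⟩ := O2_bdd (by
    rw [Cardinal.mk_toType]
    exact Cardinal.lt_ord.1 hδ) α hα
  refine ⟨r, le_rfl, oName QQ α', fmem_oName_of_lt hα' r, fun x y s hs hxy => ?_⟩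
  rw [holds_fRel] at hxy
  refine fun_bdd h (α := α') ?_ (hs.trans hr) hxy
  intro γ hγ β hβ
  have e : (Ordinal.ToType.toOrd (Ordinal.ToType.mk ⟨γ, hγ⟩)).1 = γ := by
    simp [Ordinal.ToType.toOrd]
  exact (h2 (Ordinal.ToType.mk ⟨γ, hγ⟩) β (by rw [e]; exact hβ)).trans (h3 _)

/-- diagonal sequences -/
def fDiag {N : Type v} {Ω : Type w} (L : LogicStr N Ω) (f w1 w2 : N) : Ω :=
  L.imp (fFn L f w2 w2) (L.ex fun a => L.and (fFn L a w1 w2)
    (L.all fun j => L.all fun i => L.all fun u => L.all fun v => L.all fun v' =>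
      L.imp (L.mem i w1) (L.imp (L.mem j i) (L.imp (fRel L a j u) (L.imp (fRel L a i v)
        (L.imp (fRel L f u v') (L.mem v' v)))))))

theorem forced_diag (F : Name QQ) (p : QQ) :
    (fDiag (FS QQ) F (oName QQ O1) (oName QQ O2)).holds p := by
  classical
  intro q hq h r hr
  -- bounds for the values
  set Vals : Ordinal.{0} → Set Ordinal.{0} := fun γ =>
    {β | ∃ s ≤ q, RR F (oName QQ γ) (oName QQ β) s} with hVals
  have hVc : ∀ γ, (Vals γ).Countable := fun γ => fun_vals h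
  have hVl : ∀ γ, ∀ β ∈ Vals γ, β < O2 := by
    rintro γ β ⟨s, hs, h1⟩
    exact fmem_oName_iff.1 (fun_rel h hs h1).2
  let bd : Set Ordinal.{0} → Ordinal.{0} := fun s =>
    if h : ∃ α < O2, ∀ β ∈ s, β < α then h.choose else 0
  have hbd : ∀ s : Set Ordinal.{0}, s.Countable → (∀ β ∈ s, β < O2) →
      bd s < O2 ∧ ∀ β ∈ s, β < bd s := by
    intro s hs hs'
    have h1 := O2_bdd_set hs hs'
    have h2 : bd s = h1.choose := dif_pos h1
    rw [h2]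
    exact ⟨h1.choose_spec.1, h1.choose_spec.2⟩
  let g : W1 → Ordinal.{0} := (wellFounded_lt (α := W1)).fix fun i rec =>
    bd {β | ∃ (j : W1) (hj : j < i), β ∈ Vals (rec j hj)}
  have hg : ∀ i, g i = bd {β | ∃ (j : W1) (_ : j < i), β ∈ Vals (g j)} := by
    intro i
    exact WellFounded.fix_eq _ _ i
  have hg' : ∀ i, g i < O2 ∧ ∀ j < i, ∀ β ∈ Vals (g j), β < g i := by
    intro i
    have h1 : {β | ∃ (j : W1) (_ : j < i), β ∈ Vals (g j)} = ⋃ j ∈ Iio i, Vals (g j) := by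
      ext β
      simp
    have h2 := hbd {β | ∃ (j : W1) (_ : j < i), β ∈ Vals (g j)} (by
        rw [h1]
        exact (W1_Iio i).biUnion fun j _ => hVc _) (by
        rintro β ⟨j, _, hβ⟩
        exact hVl _ β hβ)
    rw [hg i]
    exact ⟨h2.1, fun j hj β hβ => h2.2 β ⟨j, hj, hβ⟩⟩
  refine ⟨r, le_rfl, relO W1 o1 g (fun _ => ⊤), ?_, ?_⟩
  · exact fFn_relO o1_lt (fun i => (hg' i).1) (fun i j hij => by rw [o1_inj hij])
      (fun α hα => o1_surj hα) r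
  · intro j i u v v' r1 hr1 hi r2 hr2 hj r3 hr3 hu r4 hr4 hv r5 hr5 hv'
    have hi' : fmem i (oName QQ O1) r1 := hi
    have hj' : fmem j i r2 := hj
    rw [holds_fRel] at hu hv hv'
    show fmem v' v r5
    apply fmem_reg
    intro s hs
    obtain ⟨s1, hs1, α, hα, h1⟩ := fmem_oName.1 hi' s (hs.trans (hr5.trans (hr4.trans
      (hr3.trans hr2))))
    obtain ⟨i0, rfl⟩ := o1_surj hα
    have hsr5 : s1 ≤ r5 := hs1.trans hs
    have h2 : fmem j (oName QQ (o1 i0)) s1 := fmem_congr_right h1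
      (fmem_mono (hsr5.trans (hr5.trans (hr4.trans hr3))) hj')
    obtain ⟨s2, hs2, β, hβ, h3⟩ := fmem_oName.1 h2 s1 le_rfl
    obtain ⟨j0, rfl⟩ := o1_surj (hβ.trans hα)
    have hs2r5 : s2 ≤ r5 := hs2.trans hsr5
    obtain ⟨s3, hs3, i1, -, h4, h5⟩ := RR_relO.1 hv s2 (hs2r5.trans hr5)
    obtain ⟨s4, hs4, j1, -, h6, h7⟩ := RR_relO.1 hu s3 (hs3.trans (hs2r5.trans
      (hr5.trans hr4)))
    have e1 : o1 i1 = o1 i0 := feq_oName_iff.1
      (feq_trans (feq_symm h4) (feq_mono (hs3.trans hs2) h1))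
    have e2 : o1 j1 = o1 j0 := feq_oName_iff.1
      (feq_trans (feq_symm h6) (feq_mono (hs4.trans hs3) h3))
    have e3 := o1_inj e1
    have e4 := o1_inj e2
    subst e3 e4
    have hlt : j1 < i1 := o1_lt_iff.1 hβ
    have hs4r5 : s4 ≤ r5 := hs4.trans (hs3.trans hs2r5)
    have h8 : RR F (oName QQ (g j1)) v' s4 :=
      RR_congr (feq_refl _ _) h7 (feq_refl _ _) (fmem_mono hs4r5 hv')
    have hs4q : s4 ≤ q := hs4r5.trans (hr5.trans (hr4.trans (hr3.trans (hr2.trans (hr1.trans hr)))))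
    obtain ⟨s5, hs5, β', hβ', h9⟩ := fmem_oName.1 (fun_rel h hs4q h8).2 s4 le_rfl
    have h10 : β' ∈ Vals (g j1) := ⟨s5, hs5.trans hs4q,
      RR_congr (feq_refl _ _) (feq_refl _ _) h9 (fmem_mono hs5 h8)⟩
    refine ⟨s5, hs5.trans (hs4.trans (hs3.trans (hs2.trans hs1))), ?_⟩
    exact fmem_congr_left (feq_symm h9) (fmem_congr_right
      (feq_symm (feq_mono (hs5.trans hs4) h5))
      (fmem_oName_of_lt ((hg' i1).2 j1 hlt β' h10) s5))

namespace GB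

variable (B : GB)

theorem reg1 (f : B.G.M) (hf : IsFun B.G.E f B.om B.w1) :
    ∃ b, B.G.E b B.w1 ∧ ∀ x y, Rel B.G.E f x y → B.G.E y b := by
  obtain ⟨F, hF⟩ := B.G.named f
  have h1 := B.G.of_forced (fBd codeStr 0 1 2 10) (B.G.el hF)
    [B.G.el hF, B.G.el B.hom, B.G.el B.hw1] (fun p => forced_bd1 F p)
  exact h1 hf

theorem reg2 (d : B.G.M) (hd : B.G.E d B.w2) (f : B.G.M) (hf : IsFun B.G.E f d B.w2) :
    ∃ b, B.G.E b B.w2 ∧ ∀ x y, Rel B.G.E f x y → B.G.E y b := by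
  obtain ⟨F, hF⟩ := B.G.named f
  obtain ⟨δ, hδ, hd'⟩ := (GModel.mem_o B.hw2).1 hd
  have h1 := B.G.of_forced (fBd codeStr 0 1 2 10) (B.G.el hF)
    [B.G.el hF, B.G.el hd', B.G.el B.hw2] (fun p => forced_bd2 F hδ p)
  exact h1 hf

theorem diag (f : B.G.M) (hf : IsFun B.G.E f B.w2 B.w2) :
    ∃ a, IsFun B.G.E a B.w1 B.w2 ∧ ∀ j i u v v', B.G.E i B.w1 → B.G.E j i →
      Rel B.G.E a j u → Rel B.G.E a i v → Rel B.G.E f u v' → B.G.E v' v := by
  obtain ⟨F, hF⟩ := B.G.named f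
  have h1 := B.G.of_forced (fDiag codeStr 0 1 2 10) (B.G.el hF)
    [B.G.el hF, B.G.el B.hw1, B.G.el B.hw2] (fun p => forced_diag F p)
  exact h1 hf

end GB

/-! ### Constants -/

/-- name of a binary relation on natural numbers -/
noncomputable def cN (T : Set (ℕ × ℕ)) : Name QQ :=
  relO T (fun x => (x.1.1 : Ordinal.{0})) (fun x => (x.1.2 : Ordinal.{0})) (fun _ => ⊤)

theorem RR_cN {T : Set (ℕ × ℕ)} {a b : ℕ} {p : QQ} :
    RR (cN T) (oName QQ a) (oName QQ b) p ↔ (a, b) ∈ T := by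
  unfold cN
  rw [RR_relO_o]
  constructor
  · intro h
    obtain ⟨r, -, ⟨⟨a', b'⟩, hx⟩, -, h1, h2⟩ := h p le_rfl
    simp only [Nat.cast_inj] at h1 h2
    subst h1 h2
    exact hx
  · intro h q _
    exact ⟨q, le_rfl, ⟨(a, b), h⟩, le_top, rfl, rfl⟩

namespace GB

variable (B : GB)

theorem rel_cN {T : Set (ℕ × ℕ)} {g : B.G.M} (hg : B.G.Nm g (cN T)) (a b : ℕ) :
    Rel B.G.E g (B.nat a) (B.nat b) ↔ (a, b) ∈ T := by
  rw [GModel.rel_iff hg (B.hnat a) (B.hnat b)]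
  exact ⟨fun ⟨n, hn⟩ => RR_cN.1 hn, fun h => ⟨0, RR_cN.2 h⟩⟩

theorem mem_cN {T : Set (ℕ × ℕ)} {g z : B.G.M} (hg : B.G.Nm g (cN T)) (hz : B.G.E z g) :
    ∃ a b, IsPair B.G.E z (B.nat a) (B.nat b) := by
  obtain ⟨Z, hZ⟩ := B.G.named z
  obtain ⟨n, hn⟩ := (GModel.mem_iff hZ hg).1 hz
  have h1 := B.G.tr (bex codeStr 0 (fun x => bex codeStr 0 fun y => fPr codeStr 1 x y) 10)
    (B.G.el B.hom) [B.G.el B.hom, B.G.el hZ]
  have h2 : (∃ x, B.G.E x B.om ∧ ∃ y, B.G.E y B.om ∧ IsPair B.G.E z x y) ↔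
      ∃ n, (bex (FS QQ) (oName QQ Ordinal.omega0) fun x =>
        bex (FS QQ) (oName QQ Ordinal.omega0) fun y => fPr (FS QQ) Z x y).holds (B.G.qs n) := h1
  have h3 : ∃ x, B.G.E x B.om ∧ ∃ y, B.G.E y B.om ∧ IsPair B.G.E z x y := by
    rw [h2]
    refine ⟨n, fun q hq => ?_⟩
    obtain ⟨r, hr, i, -, h4⟩ := fmem_relO.1 hn q hq
    refine ⟨r, hr, oName QQ (i.1.1 : ℕ), fmem_oName_of_lt (Ordinal.nat_lt_omega0 i.1.1) r,
      fun s hs => ⟨s, le_rfl, oName QQ (i.1.2 : ℕ),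
        fmem_oName_of_lt (Ordinal.nat_lt_omega0 i.1.2) s, ?_⟩⟩
    exact holds_fPr.2 (feq_mono hs h4)
  obtain ⟨x, hx, y, hy, hxy⟩ := h3
  obtain ⟨a, rfl⟩ := (B.E_om x).1 hx
  obtain ⟨b, rfl⟩ := (B.E_om y).1 hy
  exact ⟨a, b, hxy⟩

end GB

end Pool.Agent.H83.F
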