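import Pool.Agent.H83.F.C1

/-!
# The tower of null sets
-/

set_option linter.unusedVariables false
set_option linter.unusedSectionVars false

open Set MeasureTheory

namespace Pool.Agent.H83.F

open Pool.Agent.H86 Pool.Agent.H86.Name

universe v w

/-- events coding open sets -/
abbrev evO (l : Lam) (j : ℕ) : Set Cn := ev l false w0 j

/-- a label of the amoeba kind -/
noncomputable def lam (n : ℕ) : Lam := (kind_surj (.am n)).choose

theorem kind_lam (n : ℕ) : kind (lam n) = .am n := (kind_surj (.am n)).choose_spec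

/-- the amoeba coordinates -/
noncomputable def cam (a : W2) (n : ℕ) : Co := toLex (a, lam n)

theorem kind_cam (a : W2) (n : ℕ) : kind (ofLex (cam a n)).2 = .am n := kind_lam n

/-- the event that `j` belongs to the code of the `n`-th open set at level `a` -/
def TowC (a : W2) (n j : ℕ) : Set Cn :=
  {q | q ∈ PP Val ∧ ∃ l ∈ (q.f (cam a n)).a, Pos (evO l j) (q.res (cam a n))}

theorem TowC_down {a : W2} {n j : ℕ} {p q : Cn} (hp : p ∈ TowC a n j) (hq : q ∈ PP Val)
    (h : q ≤ p) : q ∈ TowC a n j := by
  obtain ⟨_, l, hl, hpos⟩ := hp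
  exact ⟨hq, l, (h (cam a n)).2.2.2 hl, hpos.mono (Con.res_mono h _)⟩

theorem TowC_res {a : W2} {n j : ℕ} {c : Co} (hc : cam a n < c) {p : Cn} (hp : p ∈ TowC a n j) :
    p.res c ∈ TowC a n j := by
  obtain ⟨hp, l, hl, hpos⟩ := hp
  refine ⟨SS_sub Val c (res_mem Val hp c), l, ?_, ?_⟩
  · rw [Con.res_f _ hc]; exact hl
  · rw [Con.res_res _ hc.le]; exact hpos

/-- Validity at an amoeba coordinate. -/
theorem am_valid {q : Cn} (hq : q ∈ PP Val) (a : W2) (n : ℕ) :
    AmV (SS Val (cam a n)) evO ((1 / 2) ^ n) (q.f (cam a n)).a (q.res (cam a n)) := by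
  by_cases h : q.f (cam a n) = ⊤
  · rw [h]
    refine ⟨0, by positivity, fun r _ _ K hK => ?_⟩
    have : K = ∅ := by
      rw [Finset.eq_empty_iff_forall_notMem]
      intro j hj
      obtain ⟨l, hl, _⟩ := hK j hj
      rw [DD.top_def] at hl
      exact absurd hl (Finset.notMem_empty l)
    rw [this]
    simp [mu, Op']
  · exact ((Val_am (kind_cam a n) _ _ _).1 (hq _ h)).2.2.2

/-- other components at an amoeba coordinate -/
theorem am_comp {q : Cn} (hq : q ∈ PP Val) (a : W2) (n : ℕ) :
    (q.f (cam a n)).J = {[]} ∧ (q.f (cam a n)).F = ∅ ∧ (q.f (cam a n)).s = [] := by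
  by_cases h : q.f (cam a n) = ⊤
  · rw [h, DD.top_def]; exact ⟨rfl, rfl, rfl⟩
  · have := (Val_am (kind_cam a n) _ _ _).1 (hq _ h)
    exact ⟨this.1, this.2.1, this.2.2.1⟩

theorem TowC_small {q : Cn} {a : W2} {n : ℕ} {K : Finset ℕ} (hq : q ∈ PP Val)
    (h : ∀ j ∈ K, q ∈ TowC a n j) : mu K ≤ (1 / 2) ^ n := by
  obtain ⟨b, hb, hMB⟩ := am_valid hq a n
  refine le_trans (hMB (q.res (cam a n)) (res_mem Val hq _) le_rfl K fun j hj => (h j hj).2) hb.le

/-- Adding a small open set. -/
theorem am_add {q : QQ} {a : W2} {n : ℕ} {b δ : ℝ} {l : Lam}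
    (h : MB (SS Val (cam a n)) evO (q.1.f (cam a n)).a b (q.1.res (cam a n)))
    (hb : b + δ < (1 / 2) ^ n)
    (hsm : ∀ r ∈ SS Val (cam a n), r ≤ q.1.res (cam a n) → ∀ K : Finset ℕ,
      (∀ j ∈ K, Pos (evO l j) r) → mu K ≤ δ) :
    ∃ q' : QQ, q' ≤ q ∧ l ∈ (q'.1.f (cam a n)).a := by
  classical
  have h1 : MB (SS Val (cam a n)) evO ((q.1.f (cam a n)).a ∪ {l}) (b + δ)
      (q.1.res (cam a n)) := by
    refine am_union (K := ∅) h (fun j hj => absurd hj (Finset.notMem_empty j)) ?_
    intro r hr hrq K hK
    rw [Finset.union_empty]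
    have := hsm r hr hrq K (fun j hj => by
      obtain ⟨l', hl', hpos⟩ := hK j hj
      rw [Finset.mem_singleton] at hl'
      exact hl' ▸ hpos)
    have h0 := mu_nonneg ∅
    linarith
  obtain ⟨c1, c2, c3⟩ := am_comp q.2 a n
  obtain ⟨q', hq', _, he, _⟩ := extend_at q (cam a n) (res_mem Val q.2 _) le_rfl
    (e := ⟨{[]}, ∅, [], (q.1.f (cam a n)).a ∪ {l}⟩) (by
      rw [DD.le_def, c1, c2, c3]
      exact ⟨fun σ hσ => ⟨σ, hσ, List.prefix_rfl⟩, Finset.Subset.refl _, List.prefix_rfl,
        Finset.subset_union_left⟩)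
    ((Val_am (kind_cam a n) _ _ _).2 ⟨rfl, rfl, rfl, _, hb, h1⟩)
  refine ⟨q', hq', ?_⟩
  rw [he]
  exact Finset.mem_union_right _ (Finset.mem_singleton_self l)

theorem TowC_of {q : QQ} {a : W2} {n j : ℕ} {l : Lam} (hl : evO l j ⊆ SS Val (cam a n))
    (h : l ∈ (q.1.f (cam a n)).a) (hpos : Pos (evO l j) q.1) : q.1 ∈ TowC a n j :=
  ⟨q.2, l, h, (Pos_res hl q.1).1 hpos⟩

/-- the name of the tower -/
noncomputable def Tow : Name QQ :=
  relO {x : W2 × ℕ × ℕ × QQ // x.2.2.2.1 ∈ TowC x.1 x.2.1 x.2.2.1}
    (fun x => o2 x.1.1) (fun x => (Nat.pair x.1.2.1 x.1.2.2.1 : ℕ)) (fun x => x.1.2.2.2)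

theorem RR_Tow {a : W2} {n j : ℕ} {p : QQ} :
    RR Tow (oName QQ (o2 a)) (oName QQ (Nat.pair n j : ℕ)) p ↔
      ∀ q ≤ p, ∃ r ≤ q, r.1 ∈ TowC a n j := by
  unfold Tow
  rw [RR_relO_o]
  refine forall_congr' fun q => forall_congr' fun _ => exists_congr fun r =>
    and_congr_right fun _ => ?_
  constructor
  · rintro ⟨⟨⟨a', n', j', t⟩, ht⟩, h1, h2, h3⟩
    simp only at h1 h2 h3 ht
    have e1 := o2_inj h2
    have e2 : Nat.pair n' j' = Nat.pair n j := by exact_mod_cast h3
    rw [Nat.pair_eq_pair] at e2
    obtain ⟨rfl, rfl⟩ := e2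
    subst e1
    exact TowC_down ht r.2 h1
  · intro h
    exact ⟨⟨(a, n, j, r), h⟩, le_rfl, rfl, rfl⟩

/-- Labels with restricted support. -/
theorem exists_label_at (c : Co) (X : ℕ → Set Cn)
    (hd : ∀ m, ∀ p ∈ X m, ∀ q ∈ PP Val, q ≤ p → q ∈ X m)
    (hr : ∀ m, ∀ p ∈ X m, p ∈ PP Val ∧ p.res c ∈ X m) :
    ∃ l : Lam, (∀ j, evO l j ⊆ SS Val c ∧ evO l j ⊆ X j) ∧
      ∀ j, ∀ p ∈ X j, ∃ r ∈ PP Val, r ≤ p ∧ Pos (evO l j) r := by
  choose g hg1 hg2 using fun m => exists_predense (X m) (fun p hp => (hr m p hp).1) (hd m)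
  obtain ⟨l, hl⟩ := lab_surj (fun _ _ m k => (g m k).map fun t => t.res c)
  refine ⟨l, ?_, ?_⟩
  · intro j
    have : ∀ t ∈ evO l j, ∃ t' ∈ X j, t = t'.res c := by
      rintro t ⟨k, hk⟩
      rw [hl] at hk
      simp only [Option.map_eq_some_iff] at hk
      obtain ⟨t', ht', rfl⟩ := hk
      exact ⟨t', hg1 j k t' ht', rfl⟩
    refine ⟨fun t ht => ?_, fun t ht => ?_⟩
    · obtain ⟨t', ht', rfl⟩ := this t ht
      exact res_mem Val (hr j t' ht').1 c
    · obtain ⟨t', ht', rfl⟩ := this t ht
      exact (hr j t' ht').2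
  · intro j p hp
    obtain ⟨r, hr', hrp, k, t, hk, hrt⟩ := hg2 j p hp
    refine ⟨r, hr', hrp, t.res c, ⟨k, ?_⟩, hrt.trans (t.le_res c)⟩
    rw [hl]
    simp [hk]

/-! ### Formulas -/

/-- every `x ∈ ω` with first coordinate `m` that satisfies `A` has a counterpart at level `β` -/
def fCov {N : Type v} {Ω : Type w} (L : LogicStr N Ω) (om fst ss tow β n : N) (A : N → Ω) : Ω :=
  bex L om fun m => ball L om fun x => L.imp (fRel L fst x m) (L.imp (A x)
    (bex L om fun y => L.and (fRel L fst y n) (L.and (fRel L ss x y) (fRel L tow β y))))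

/-- `(x, m)` with `m` the first coordinate of `x` -/
def TFst : Set (ℕ × ℕ) := {x | (Nat.unpair x.1).1 = x.2}

/-- `(x, y)` with the same second coordinate -/
def TSnd : Set (ℕ × ℕ) := {x | (Nat.unpair x.1).2 = (Nat.unpair x.2).2}

theorem cov_holds {A : Name QQ → Om QQ} (hA : Cg A) {a : W2} {n : ℕ} {p : QQ}
    (h : ∀ q ≤ p, ∃ r ≤ q, ∃ m : ℕ, ∀ j : ℕ, ∀ s ≤ r, (A (oName QQ (Nat.pair m j : ℕ))).holds s →
      RR Tow (oName QQ (o2 a)) (oName QQ (Nat.pair n j : ℕ)) s) :
    (fCov (FS QQ) (oName QQ Ordinal.omega0) (cN TFst) (cN TSnd) Tow (oName QQ (o2 a))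
      (oName QQ n) A).holds p := by
  unfold fCov
  rw [bex_om (by repeat' (first | with_reducible assumption
                                | with_reducible exact cg_const _ | with_reducible exact cg_mem1 _
                                | with_reducible exact cg_mem2 _ | with_reducible exact cg_eq1 _
                                | with_reducible exact cg_eq2 _ | with_reducible exact cg_rel1 _ _
                                | with_reducible exact cg_rel2 _ _ | with_reducible exact cg_rel3 _ _
                                | with_reducible apply cg_imp | with_reducible apply cg_and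
                                | with_reducible apply cg_or | with_reducible apply cg_iff
                                | (with_reducible refine cg_all' fun _ => ?_) | (with_reducible refine cg_ex' fun _ => ?_)))]
  intro q hq
  obtain ⟨r, hr, m, h1⟩ := h q hq
  refine ⟨r, hr, m, ?_⟩
  rw [ball_om (by repeat' (first | with_reducible assumption
                                 | with_reducible exact cg_const _ | with_reducible exact cg_mem1 _
                                 | with_reducible exact cg_mem2 _ | with_reducible exact cg_eq1 _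
                                 | with_reducible exact cg_eq2 _ | with_reducible exact cg_rel1 _ _
                                 | with_reducible exact cg_rel2 _ _ | with_reducible exact cg_rel3 _ _
                                 | with_reducible apply cg_imp | with_reducible apply cg_and
                                 | with_reducible apply cg_or | with_reducible apply cg_iff
                                 | (with_reducible refine cg_all' fun _ => ?_) | (with_reducible refine cg_ex' fun _ => ?_)))]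
  intro x s hs hx s' hs' hAx
  rw [holds_fRel, RR_cN] at hx
  have hx' : (Nat.unpair x).1 = m := hx
  have hxe : x = Nat.pair m (Nat.unpair x).2 := by rw [← hx', Nat.pair_unpair]
  rw [bex_om (by repeat' (first | with_reducible assumption
                                | with_reducible exact cg_const _ | with_reducible exact cg_mem1 _
                                | with_reducible exact cg_mem2 _ | with_reducible exact cg_eq1 _
                                | with_reducible exact cg_eq2 _ | with_reducible exact cg_rel1 _ _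
                                | with_reducible exact cg_rel2 _ _ | with_reducible exact cg_rel3 _ _
                                | with_reducible apply cg_imp | with_reducible apply cg_and
                                | with_reducible apply cg_or | with_reducible apply cg_iff
                                | (with_reducible refine cg_all' fun _ => ?_) | (with_reducible refine cg_ex' fun _ => ?_)))]
  intro t ht
  refine ⟨t, le_rfl, Nat.pair n (Nat.unpair x).2, ?_, ?_, ?_⟩
  · rw [holds_fRel, RR_cN]
    show (Nat.unpair _).1 = n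
    rw [Nat.unpair_pair]
  · rw [holds_fRel, RR_cN]
    show (Nat.unpair x).2 = (Nat.unpair _).2
    rw [Nat.unpair_pair]
  · rw [holds_fRel]
    refine h1 _ t (ht.trans (hs'.trans hs)) ?_
    rw [← hxe]
    exact Om.mono _ ht hAx

/-- The tower is increasing. -/
theorem forced_mono {a b : W2} (hab : a < b) (n : ℕ) (p : QQ) :
    (fCov (FS QQ) (oName QQ Ordinal.omega0) (cN TFst) (cN TSnd) Tow (oName QQ (o2 b))
      (oName QQ n) (fun x => fRel (FS QQ) Tow (oName QQ (o2 a)) x)).holds p := by
  apply cov_holds (cg_rel3 _ _)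
  intro q hq
  obtain ⟨v, hv, hMB⟩ := am_valid q.2 b n
  obtain ⟨m, hm⟩ := exists_pow_lt_of_lt_one (show 0 < (1 / 2 : ℝ) ^ n - v by linarith)
    (show (1 / 2 : ℝ) < 1 by norm_num)
  have hlt : cam a m < cam b n := by
    rw [Prod.Lex.lt_iff]; exact Or.inl hab
  obtain ⟨l, hl1, hl2⟩ := exists_label_at (cam b n) (fun j => TowC a m j)
    (fun j p hp q hq hqp => TowC_down hp hq hqp)
    (fun j p hp => ⟨hp.1, TowC_res hlt hp⟩)
  obtain ⟨q', hq', hlq⟩ := am_add (l := l) (δ := (1 / 2 : ℝ) ^ m) hMB (by linarith) (by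
    intro r hr _ K hK
    refine TowC_small (a := a) (SS_sub Val _ hr) fun j hj => ?_
    obtain ⟨t, ht, hrt⟩ := hK j hj
    exact TowC_down ((hl1 j).2 ht) (SS_sub Val _ hr) hrt)
  refine ⟨q', hq', m, fun j s hs hA => ?_⟩
  rw [holds_fRel, RR_Tow] at hA
  rw [RR_Tow]
  intro t ht
  obtain ⟨t1, ht1, h1⟩ := hA t ht
  obtain ⟨t2, ht2, h2, h3⟩ := hl2 j t1.1 h1
  have h4 : (⟨t2, ht2⟩ : QQ) ≤ t1 := h2
  refine ⟨⟨t2, ht2⟩, h4.trans ht1, TowC_of (hl1 j).1 ?_ h3⟩
  exact ((h4.trans (ht1.trans (ht.trans hs))) (cam b n)).2.2.2 hlq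

/-! ### Cofinality -/

/-- the codes of large finite sets -/
def BadS : Set (Finset ℕ) :=
  {K' | ∃ (m : ℕ) (K : Finset ℕ), (1 / 2 : ℝ) ^ m < mu K ∧ K' = K.image (Nat.pair m)}

theorem mu_large : ∃ K : Finset ℕ, (1 : ℝ) < mu K := by
  obtain ⟨n, hn⟩ := iv_surj (0, 2)
  refine ⟨{n}, ?_⟩
  unfold mu Op'
  simp only [Finset.coe_singleton, mem_singleton_iff, iUnion_iUnion_eq_left]
  unfold Iv
  rw [hn, measureReal_def, Real.volume_Ioo]
  norm_num

theorem exists_bad : ∃ f : ℕ → Finset ℕ, range f = BadS := by
  obtain ⟨K, hK⟩ := mu_large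
  have hne : BadS.Nonempty := ⟨K.image (Nat.pair 0), 0, K, by simpa using hK, rfl⟩
  obtain ⟨f, hf⟩ := (BadS.to_countable).exists_eq_range hne
  exact ⟨f, hf.symm⟩

/-- enumeration of the bad sets -/
noncomputable def bad : ℕ → Finset ℕ := exists_bad.choose

theorem range_bad : range bad = BadS := exists_bad.choose_spec

/-- `(j, k)` with `j ∈ bad k` -/
def TBad : Set (ℕ × ℕ) := {x | x.1 ∈ bad x.2}

/-- `z` codes small open sets -/
def fSm {N : Type v} {Ω : Type w} (L : LogicStr N Ω) (om bd z : N) : Ω :=
  ball L om fun k => bex L om fun j => L.and (fRel L bd j k) (L.imp (L.mem j z) L.bot)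

/-- The tower is cofinal. -/
theorem forced_cof (Z : Name QQ) (p : QQ) :
    ((FS QQ).imp (fSm (FS QQ) (oName QQ Ordinal.omega0) (cN TBad) Z)
      (bex (FS QQ) (oName QQ O2) fun β => ball (FS QQ) (oName QQ Ordinal.omega0) fun n =>
        fCov (FS QQ) (oName QQ Ordinal.omega0) (cN TFst) (cN TSnd) Tow β n
          fun x => (FS QQ).mem x Z)).holds p := by
  intro p1 hp1 hsm
  -- labels
  choose l a h1 h2 h3 using fun m : ℕ => label_of
    (fun _ _ j => ⟨fmem (oName QQ (Nat.pair m j : ℕ)) Z, fmem_mono, fmem_reg⟩)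
  obtain ⟨b, hb⟩ := W2_bdd' a
  rw [bex_o (by unfold fCov; repeat' (first | with_reducible assumption
                                            | with_reducible exact cg_const _ | with_reducible exact cg_mem1 _
                                            | with_reducible exact cg_mem2 _ | with_reducible exact cg_eq1 _
                                            | with_reducible exact cg_eq2 _ | with_reducible exact cg_rel1 _ _
                                            | with_reducible exact cg_rel2 _ _ | with_reducible exact cg_rel3 _ _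
                                            | with_reducible apply cg_imp | with_reducible apply cg_and
                                            | with_reducible apply cg_or | with_reducible apply cg_iff
                                            | (with_reducible refine cg_all' fun _ => ?_) | (with_reducible refine cg_ex' fun _ => ?_)))]
  intro p2 hp2
  refine ⟨p2, le_rfl, o2 b, o2_lt b, ?_⟩
  rw [ball_om (by unfold fCov; repeat' (first | with_reducible assumption
                                              | with_reducible exact cg_const _ | with_reducible exact cg_mem1 _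
                                              | with_reducible exact cg_mem2 _ | with_reducible exact cg_eq1 _
                                              | with_reducible exact cg_eq2 _ | with_reducible exact cg_rel1 _ _
                                              | with_reducible exact cg_rel2 _ _ | with_reducible exact cg_rel3 _ _
                                              | with_reducible apply cg_imp | with_reducible apply cg_and
                                              | with_reducible apply cg_or | with_reducible apply cg_iff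
                                              | (with_reducible refine cg_all' fun _ => ?_) | (with_reducible refine cg_ex' fun _ => ?_)))]
  intro n
  apply cov_holds (cg_mem1 _)
  intro q hq
  obtain ⟨v, hv, hMB⟩ := am_valid q.2 b n
  obtain ⟨m, hm⟩ := exists_pow_lt_of_lt_one (show 0 < (1 / 2 : ℝ) ^ n - v by linarith)
    (show (1 / 2 : ℝ) < 1 by norm_num)
  have hlS : ∀ j, evO (l m) j ⊆ SS Val (cam b n) := fun j =>
    h1 m (cam b n) (hb m).le false w0 j
  obtain ⟨q', hq', hlq⟩ := am_add (l := l m) (δ := (1 / 2 : ℝ) ^ m) hMB (by linarith) (by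
    intro r hr hrq K hK
    by_contra hcon
    push Not at hcon
    have hbad : K.image (Nat.pair m) ∈ BadS := ⟨m, K, hcon, rfl⟩
    rw [← range_bad] at hbad
    obtain ⟨k, hk⟩ := hbad
    obtain ⟨q1, hq1, hq1r⟩ := extend_res q (cam b n) hr hrq
    have hsm1 : (bex (FS QQ) (oName QQ Ordinal.omega0) fun j => (FS QQ).and
        (fRel (FS QQ) (cN TBad) j (oName QQ k)) ((FS QQ).imp ((FS QQ).mem j Z)
          (FS QQ).bot)).holds p1 := by
      have := (ball_om (by repeat' (first | with_reducible assumption
                                          | with_reducible exact cg_const _ | with_reducible exact cg_mem1 _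
                                          | with_reducible exact cg_mem2 _ | with_reducible exact cg_eq1 _
                                          | with_reducible exact cg_eq2 _ | with_reducible exact cg_rel1 _ _
                                          | with_reducible exact cg_rel2 _ _ | with_reducible exact cg_rel3 _ _
                                          | with_reducible apply cg_imp | with_reducible apply cg_and
                                          | with_reducible apply cg_or | with_reducible apply cg_iff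
                                          | (with_reducible refine cg_all' fun _ => ?_) | (with_reducible refine cg_ex' fun _ => ?_))) (p := p1)).1 hsm k
      exact this
    rw [bex_om (by repeat' (first | with_reducible assumption
                                  | with_reducible exact cg_const _ | with_reducible exact cg_mem1 _
                                  | with_reducible exact cg_mem2 _ | with_reducible exact cg_eq1 _
                                  | with_reducible exact cg_eq2 _ | with_reducible exact cg_rel1 _ _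
                                  | with_reducible exact cg_rel2 _ _ | with_reducible exact cg_rel3 _ _
                                  | with_reducible apply cg_imp | with_reducible apply cg_and
                                  | with_reducible apply cg_or | with_reducible apply cg_iff
                                  | (with_reducible refine cg_all' fun _ => ?_) | (with_reducible refine cg_ex' fun _ => ?_)))] at hsm1
    obtain ⟨s, hs, x, hx1, hx2⟩ := hsm1 q1 (hq1.trans (hq.trans hp2))
    rw [holds_fRel, RR_cN] at hx1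
    have hx3 : x ∈ K.image (Nat.pair m) := hk ▸ hx1
    obtain ⟨j, hj, rfl⟩ := Finset.mem_image.1 hx3
    have h4 : Pos (ev (l m) false w0 j) s.1 := (hK j hj).mono
      (le_trans (show s.1 ≤ q1.1 from hs) hq1r)
    exact hx2 s le_rfl (h2 m false w0 j s h4))
  refine ⟨q', hq', m, fun j s hs hA => ?_⟩
  rw [RR_Tow]
  intro t ht
  obtain ⟨t1, ht1, h4⟩ := h3 m false w0 j t (fmem_mono ht hA)
  refine ⟨t1, ht1, TowC_of (hlS j) ?_ h4⟩
  exact ((ht1.trans (ht.trans hs)) (cam b n)).2.2.2 hlq

/-! ### In the model -/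

theorem vol_le {U : Set ℕ} {b : ℝ} (h : ∀ K : Finset ℕ, (K : Set ℕ) ⊆ U → mu K ≤ b) :
    volume (Op' U) ≤ ENNReal.ofReal b := by
  classical
  let K : ℕ → Finset ℕ := fun N => (Finset.range N).filter (· ∈ U)
  have hU : Op' U = ⋃ N, Op' (K N : Set ℕ) := by
    unfold Op'
    ext y
    simp only [mem_iUnion, K, Finset.coe_filter, Finset.mem_range, mem_setOf_eq]
    constructor
    · rintro ⟨j, hj, hy⟩
      exact ⟨j + 1, j, ⟨Nat.lt_succ_self j, hj⟩, hy⟩
    · rintro ⟨_, j, ⟨_, hj⟩, hy⟩
      exact ⟨j, hj, hy⟩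
  have hmono : Monotone fun N => Op' (K N : Set ℕ) := by
    intro M N hMN
    apply Op'_mono
    intro j hj
    simp only [K, Finset.coe_filter, Finset.mem_range, mem_setOf_eq] at hj ⊢
    exact ⟨hj.1.trans_le hMN, hj.2⟩
  rw [hU, hmono.measure_iUnion]
  refine iSup_le fun N => ?_
  have h1 : mu (K N) ≤ b := h (K N) (by
    intro j hj
    simp only [K, Finset.coe_filter, mem_setOf_eq] at hj
    exact hj.2)
  rw [← ENNReal.ofReal_toReal (Op'_fin (K N))]
  exact ENNReal.ofReal_le_ofReal h1

theorem mu_of_vol {U : Set ℕ} {b : ℝ} (hb : 0 ≤ b) (h : volume (Op' U) ≤ ENNReal.ofReal b)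
    {K : Finset ℕ} (hK : (K : Set ℕ) ⊆ U) : mu K ≤ b := by
  unfold mu
  rw [measureReal_def]
  exact ENNReal.toReal_le_of_le_ofReal hb ((measure_mono (Op'_mono hK)).trans h)

namespace GB

variable (B : GB) {tow fst ss bd : B.G.M}

theorem tow_small (ht : B.G.Nm tow Tow) (α : B.G.M) (hα : B.G.E α B.w2) (n : ℕ) :
    volume (Op' {j | Rel B.G.E tow α (B.nat (Nat.pair n j))}) ≤
      ENNReal.ofReal ((1 / 2) ^ n) := by
  classical
  obtain ⟨a, ha⟩ := (B.E_w2 α).1 hα
  apply vol_le
  intro K hK
  have h1 : ∀ j, ∃ N, j ∈ K → RR Tow (oName QQ (o2 a)) (oName QQ (Nat.pair n j : ℕ))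
      (B.G.qs N) := by
    intro j
    by_cases hj : j ∈ K
    · obtain ⟨N, hN⟩ := (GModel.rel_iff ht ha (B.hnat _)).1 (hK hj)
      exact ⟨N, fun _ => hN⟩
    · exact ⟨0, fun h => absurd h hj⟩
  choose N hN using h1
  obtain ⟨r, -, hr, h2⟩ := dense_finite (P := QQ) (S := univ) (p := B.G.qs (K.sup N))
    (fun j r => r.1 ∈ TowC a n j) (fun j r r' _ _ hle h => TowC_down h r'.2 hle) K
    (fun j hj q _ hq => by
      obtain ⟨r, hr, h⟩ := RR_Tow.1 (hN j hj) q (hq.trans (B.G.anti (Finset.le_sup hj)))
      exact ⟨r, mem_univ _, hr, h⟩) (mem_univ _)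
  exact TowC_small r.2 h2

theorem cov_dec {A : B.G.M → Prop} {β : B.G.M} {n : ℕ} (hf : B.G.Nm fst (cN TFst))
    (hs : B.G.Nm ss (cN TSnd))
    (h : fCov (propStr B.G.E) B.om fst ss tow β (B.nat n) A) :
    ∃ m, ∀ j, A (B.nat (Nat.pair m j)) → Rel B.G.E tow β (B.nat (Nat.pair n j)) := by
  obtain ⟨m, hm, h1⟩ := h
  obtain ⟨m, rfl⟩ := (B.E_om m).1 hm
  refine ⟨m, fun j hj => ?_⟩
  obtain ⟨y, hy, h2, h3, h4⟩ := h1 (B.nat (Nat.pair m j)) ((B.E_om _).2 ⟨_, rfl⟩)
    ((B.rel_cN hf _ _).2 (by show (Nat.unpair _).1 = m; rw [Nat.unpair_pair])) hj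
  obtain ⟨y, rfl⟩ := (B.E_om y).1 hy
  have h5 : (y, n) ∈ TFst := (B.rel_cN hf _ _).1 h2
  have h6 : (Nat.pair m j, y) ∈ TSnd := (B.rel_cN hs _ _).1 h3
  have h5' : (Nat.unpair y).1 = n := h5
  have h6' : (Nat.unpair (Nat.pair m j)).2 = (Nat.unpair y).2 := h6
  rw [Nat.unpair_pair] at h6'
  have : y = Nat.pair n j := by
    rw [← Nat.pair_unpair y, h5', ← h6']
  rw [← this]
  exact h4

theorem tow_mono (ht : B.G.Nm tow Tow) (hf : B.G.Nm fst (cN TFst))
    (hs : B.G.Nm ss (cN TSnd)) (α β : B.G.M) (hβ : B.G.E β B.w2) (hαβ : B.G.E α β) (n : ℕ) :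
    ∃ m, ∀ j, Rel B.G.E tow α (B.nat (Nat.pair m j)) →
      Rel B.G.E tow β (B.nat (Nat.pair n j)) := by
  obtain ⟨b, hb⟩ := (B.E_w2 β).1 hβ
  obtain ⟨γ, hγ, hα⟩ := (GModel.mem_o hb).1 hαβ
  obtain ⟨a, rfl⟩ := o2_surj (hγ.trans (o2_lt b))
  have h1 := B.G.of_forced (fCov codeStr 0 1 2 3 4 5 (fun x => fRel codeStr 3 6 x) 10)
    (B.G.el hb) [B.G.el B.hom, B.G.el hf, B.G.el hs, B.G.el ht, B.G.el hb, B.G.el (B.hnat n),
      B.G.el hα] (fun p => forced_mono (o2_lt_iff.1 hγ) n p)
  exact B.cov_dec hf hs (A := fun x => Rel B.G.E tow α x) h1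

theorem tow_cof (ht : B.G.Nm tow Tow) (hf : B.G.Nm fst (cN TFst))
    (hs : B.G.Nm ss (cN TSnd)) (hbd : B.G.Nm bd (cN TBad)) (z : B.G.M)
    (hz : ∀ m : ℕ, volume (Op' {j | B.G.E (B.nat (Nat.pair m j)) z}) ≤
      ENNReal.ofReal ((1 / 2) ^ m)) :
    ∃ α, B.G.E α B.w2 ∧ ∀ n, ∃ m, ∀ j, B.G.E (B.nat (Nat.pair m j)) z →
      Rel B.G.E tow α (B.nat (Nat.pair n j)) := by
  obtain ⟨Z, hZ⟩ := B.G.named z
  have h1 := B.G.of_forced (codeStr.imp (fSm codeStr 0 1 2)
      (bex codeStr 3 fun β => ball codeStr 0 fun n =>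
        fCov codeStr 0 4 5 6 β n fun x => codeStr.mem x 2) 10)
    (B.G.el hZ) [B.G.el B.hom, B.G.el hbd, B.G.el hZ, B.G.el B.hw2, B.G.el hf, B.G.el hs,
      B.G.el ht] (fun p => forced_cof Z p)
  have h2 : fSm (propStr B.G.E) B.om bd z := by
    intro k hk
    obtain ⟨k, rfl⟩ := (B.E_om k).1 hk
    have hb : bad k ∈ BadS := range_bad ▸ mem_range_self k
    obtain ⟨m, K, hK1, hK2⟩ := hb
    by_contra hcon
    have hall : ∀ j ∈ K, B.G.E (B.nat (Nat.pair m j)) z := by
      intro j hj
      by_contra hj'
      apply hcon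
      refine ⟨B.nat (Nat.pair m j), (B.E_om _).2 ⟨_, rfl⟩, ?_, fun h => hj' h⟩
      refine (B.rel_cN hbd _ _).2 ?_
      show Nat.pair m j ∈ bad k
      rw [hK2]
      exact Finset.mem_image_of_mem _ hj
    exact absurd (mu_of_vol (by positivity) (hz m) (K := K) fun j hj => hall j hj) (not_le.2 hK1)
  obtain ⟨α, hα, h3⟩ := h1 h2
  refine ⟨α, hα, fun n => ?_⟩
  exact B.cov_dec hf hs (A := fun x => B.G.E x z) (h3 (B.nat n) ((B.E_om _).2 ⟨_, rfl⟩))

end GB

end Pool.Agent.H83.F
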