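import Pool.Agent.H83.F.C2

/-!
# Countable forcing notions
-/

set_option linter.unusedVariables false
set_option linter.unusedSectionVars false

open Set MeasureTheory

namespace Pool.Agent.H83.F

open Pool.Agent.H86 Pool.Agent.H86.Name

universe v w

section Coh

variable (c : Co)

/-- the event that the `k`-th entry of the generic sequence at `c` is `m` -/
def GamC (k m : ℕ) : Set Cn := {q | (q.f c).s[k]? = some m}

theorem GamC_down {k m : ℕ} {p q : Cn} (hp : p ∈ GamC c k m) (h : q ≤ p) : q ∈ GamC c k m := by
  obtain ⟨t, ht⟩ := (h c).2.2.1
  have hp' : (p.f c).s[k]? = some m := hp
  have hk : k < (p.f c).s.length := by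
    by_contra hc
    rw [List.getElem?_eq_none (by omega)] at hp'
    exact absurd hp' (by simp)
  show (q.f c).s[k]? = some m
  rw [← ht, List.getElem?_append_left hk]
  exact hp'

/-- the name of the generic sequence -/
noncomputable def Gam : Name QQ :=
  relO {x : ℕ × ℕ × QQ // x.2.2.1 ∈ GamC c x.1 x.2.1}
    (fun x => (x.1.1 : ℕ)) (fun x => (x.1.2.1 : ℕ)) (fun x => x.1.2.2)

theorem RR_Gam {k m : ℕ} {p : QQ} :
    RR (Gam c) (oName QQ (k : ℕ)) (oName QQ (m : ℕ)) p ↔
      ∀ q ≤ p, ∃ r ≤ q, r.1 ∈ GamC c k m := by
  unfold Gam
  rw [RR_relO_o]
  refine forall_congr' fun q => forall_congr' fun _ => exists_congr fun r =>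
    and_congr_right fun _ => ?_
  constructor
  · rintro ⟨⟨⟨k', m', t⟩, ht⟩, h1, h2, h3⟩
    simp only [Nat.cast_inj] at h1 h2 h3 ht
    subst h2 h3
    exact GamC_down c ht h1
  · intro h
    exact ⟨⟨(k, m, r), h⟩, le_rfl, rfl, rfl⟩

variable {c} {l : Lam} (hk : kind (ofLex c).2 = .co l)
include hk

theorem co_valid {q : Cn} (hq : q ∈ PP Val) :
    (q.f c).J = {[]} ∧ (q.f c).F = ∅ ∧ (q.f c).a = ∅ ∧
      CohV (ev l false w0) (fun m n => ev l true w0 (Nat.pair m n)) (q.f c).s (q.res c) := by
  by_cases h : q.f c = ⊤
  · rw [h, DD.top_def]
    refine ⟨rfl, rfl, rfl, ⟨fun n hn => ?_, fun k hk => ?_⟩⟩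
    · simp at hn
    · simp at hk
  · exact (Val_co hk _ _ _).1 (hq _ h)

/-- adding the first entry -/
theorem co_first {q : QQ} {n : ℕ} {r : QQ} (hr : r ≤ q)
    (hl : ev l false w0 n ⊆ SS Val c) (h : Pos (ev l false w0 n) r.1) :
    ∃ q' : QQ, q' ≤ q ∧ (q'.1.f c).s ≠ [] := by
  by_cases hs : (q.1.f c).s = []
  · obtain ⟨a1, a2, a3, a4⟩ := co_valid hk q.2
    obtain ⟨q', hq', _, he, _⟩ := extend_at q c (res_mem Val r.2 c) (Con.res_mono hr c)
      (e := ⟨{[]}, ∅, [n], ∅⟩) (by
        rw [DD.le_def, a1, a2, a3, hs]
        exact ⟨fun σ hσ => ⟨σ, hσ, List.prefix_rfl⟩, Finset.Subset.refl _, List.nil_prefix,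
          Finset.Subset.refl _⟩)
      ((Val_co hk _ _ _).2 ⟨rfl, rfl, rfl, ⟨fun m hm => by
          rw [List.mem_singleton] at hm
          subst hm
          exact (Pos_res hl r.1).1 h, fun k hk => by simp at hk⟩⟩)
    refine ⟨q', hq', ?_⟩
    rw [he]
    simp
  · exact ⟨q, le_rfl, hs⟩

/-- adding an entry -/
theorem co_next {q : QQ} {m : ℕ} {r : QQ} (hr : r ≤ q) (hne : (q.1.f c).s ≠ [])
    (hl : ∀ b n, ev l b w0 n ⊆ SS Val c) (h1 : Pos (ev l false w0 m) r.1)
    (h2 : Pos (ev l true w0 (Nat.pair m ((q.1.f c).s.getLast hne))) r.1) :
    ∃ q' : QQ, q' ≤ q ∧ q'.1 ≤ r.1.res c ∧ (q'.1.f c).s = (q.1.f c).s ++ [m] := by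
  obtain ⟨a1, a2, a3, a4⟩ := co_valid hk q.2
  have hle : r.1.res c ≤ q.1.res c := Con.res_mono hr c
  obtain ⟨q', hq', _, he, h5⟩ := extend_at q c (res_mem Val r.2 c) hle
    (e := ⟨{[]}, ∅, (q.1.f c).s ++ [m], ∅⟩) (by
      rw [DD.le_def, a1, a2, a3]
      exact ⟨fun σ hσ => ⟨σ, hσ, List.prefix_rfl⟩, Finset.Subset.refl _,
        List.prefix_append _ _, Finset.Subset.refl _⟩)
    ((Val_co hk _ _ _).2 ⟨rfl, rfl, rfl, by
      constructor
      · intro n hn
        rcases List.mem_append.1 hn with hn | hn
        · exact (a4.1 n hn).mono hle
        · rw [List.mem_singleton] at hn
          subst hn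
          exact (Pos_res (hl false _) r.1).1 h1
      · intro k hk'
        simp only [List.length_append, List.length_singleton] at hk'
        by_cases hk2 : k + 1 < (q.1.f c).s.length
        · have e1 : ((q.1.f c).s ++ [m])[k + 1]'(by simp; omega) = (q.1.f c).s[k + 1] :=
            List.getElem_append_left hk2
          have e2 : ((q.1.f c).s ++ [m])[k]'(by simp; omega) = (q.1.f c).s[k] :=
            List.getElem_append_left (by omega)
          simp only [e1, e2]
          exact (a4.2 k hk2).mono hle
        · have hk3 : k + 1 = (q.1.f c).s.length := by omega
          have e1 : ((q.1.f c).s ++ [m])[k + 1]'(by simp; omega) = m := by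
            rw [List.getElem_append_right (by omega)]
            simp
          have e2 : ((q.1.f c).s ++ [m])[k]'(by simp; omega) = (q.1.f c).s.getLast hne := by
            rw [List.getElem_append_left (by omega), List.getLast_eq_getElem]
            congr 1
            omega
          simp only [e1, e2]
          exact (Pos_res (hl true _) r.1).1 h2⟩)
  exact ⟨q', hq', h5, by rw [he]⟩

end Coh

/-- the hypothesis of the principle for countable forcing notions -/
def fCohH {N : Type v} {Ω : Type w} (L : LogicStr N Ω) (om w1 F B D : N) : Ω :=
  L.and (bex L om fun n => L.mem n F)
    (ball L w1 fun i => ball L om fun n => L.imp (L.mem n F)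
      (bex L om fun m => L.and (L.mem m F) (L.and (fRel L B m n) (fRel L D i m))))

/-- the conclusion of the principle for countable forcing notions -/
def fCohC {N : Type v} {Ω : Type w} (L : LogicStr N Ω) (om w1 suc F B D γ : N) : Ω :=
  L.and (ball L om fun a => bex L om fun b => L.and (fRel L γ a b)
      (ball L om fun b' => L.imp (fRel L γ a b') (L.eq b' b)))
    (L.and (ball L om fun a => ball L om fun b => L.imp (fRel L γ a b) (L.mem b F))
    (L.and (ball L om fun a => ball L om fun b => ball L om fun a' => ball L om fun b' =>
        L.imp (fRel L suc a a') (L.imp (fRel L γ a b) (L.imp (fRel L γ a' b')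
          (fRel L B b' b))))
      (ball L w1 fun i => bex L om fun a => bex L om fun b =>
        L.and (fRel L γ a b) (fRel L D i b))))

/-- the successor relation -/
def TSuc : Set (ℕ × ℕ) := {x | x.2 = x.1 + 1}

theorem forced_coh (F B D : Name QQ) (p : QQ) :
    ((FS QQ).imp (fCohH (FS QQ) (oName QQ Ordinal.omega0) (oName QQ O1) F B D)
      ((FS QQ).ex fun γ => fCohC (FS QQ) (oName QQ Ordinal.omega0) (oName QQ O1) (cN TSuc)
        F B D γ)).holds p := by
  intro p1 hp1 hH
  obtain ⟨hH1, hH2⟩ := hH
  rw [bex_om (by repeat' (first | with_reducible assumption
                                | with_reducible exact cg_const _ | with_reducible exact cg_mem1 _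
                                | with_reducible exact cg_mem2 _ | with_reducible exact cg_eq1 _
                                | with_reducible exact cg_eq2 _ | with_reducible exact cg_rel1 _ _
                                | with_reducible exact cg_rel2 _ _ | with_reducible exact cg_rel3 _ _
                                | with_reducible apply cg_imp | with_reducible apply cg_and
                                | with_reducible apply cg_or | with_reducible apply cg_iff
                                | (with_reducible refine cg_all' fun _ => ?_) | (with_reducible refine cg_ex' fun _ => ?_)))] at hH1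
  -- labels
  obtain ⟨l, a1, hl1, hl2, hl3⟩ := label_of (fun b i x =>
    if b = true then ⟨RR B (oName QQ ((Nat.unpair x).1 : ℕ)) (oName QQ ((Nat.unpair x).2 : ℕ)),
      fmem_mono, fmem_reg⟩ else ⟨fmem (oName QQ (x : ℕ)) F, fmem_mono, fmem_reg⟩)
  obtain ⟨lD, a2, hD1, hD2, hD3⟩ := label_of (fun b i x =>
    ⟨RR D (oName QQ (o1 i)) (oName QQ (x : ℕ)), fmem_mono, fmem_reg⟩)
  obtain ⟨lam', hlam⟩ := kind_surj (.co l)
  set c : Co := toLex (max a1 a2, lam') with hc
  have hk : kind (ofLex c).2 = .co l := hlam
  have hlS : ∀ b i n, ev l b i n ⊆ SS Val c := fun b i n => hl1 c (le_max_left _ _) b i n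
  have hDS : ∀ b i n, ev lD b i n ⊆ SS Val c := fun b i n => hD1 c (le_max_right _ _) b i n
  have hF : ∀ (n : ℕ) (q : QQ), Pos (ev l false w0 n) q.1 → fmem (oName QQ n) F q :=
    fun n q h => by simpa using hl2 false w0 n q h
  have hF' : ∀ (n : ℕ) (q : QQ), fmem (oName QQ n) F q → ∃ r ≤ q, Pos (ev l false w0 n) r.1 :=
    fun n q h => hl3 false w0 n q (by simpa using h)
  have hB : ∀ (m n : ℕ) (q : QQ), Pos (ev l true w0 (Nat.pair m n)) q.1 →
      RR B (oName QQ m) (oName QQ n) q :=
    fun m n q h => by simpa using hl2 true w0 (Nat.pair m n) q h
  have hB' : ∀ (m n : ℕ) (q : QQ), RR B (oName QQ m) (oName QQ n) q →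
      ∃ r ≤ q, Pos (ev l true w0 (Nat.pair m n)) r.1 :=
    fun m n q h => hl3 true w0 (Nat.pair m n) q (by simpa using h)
  -- one step
  have hstep : ∀ q ≤ p1, ∀ i : W1, ∃ q' ≤ q, (q.1.f c).s.length < (q'.1.f c).s.length ∧
      ∃ k m, q'.1 ∈ GamC c k m ∧ RR D (oName QQ (o1 i)) (oName QQ (m : ℕ)) q' := by
    intro q hq i
    obtain ⟨q1, hq1, hne⟩ : ∃ q1 ≤ q, (q1.1.f c).s ≠ [] := by
      obtain ⟨r, hr, n, hn⟩ := hH1 q hq
      obtain ⟨r', hr', hpos⟩ := hF' n r hn
      exact co_first hk (hr'.trans hr) (hlS false w0 n) hpos
    set n := (q1.1.f c).s.getLast hne with hn
    have hnF : fmem (oName QQ n) F q1 := by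
      apply hF
      exact ((co_valid hk q1.2).2.2.2.1 n (List.getLast_mem hne)).mono (q1.1.le_res c)
    rw [ball_o (by repeat' (first | with_reducible assumption
                                  | with_reducible exact cg_const _ | with_reducible exact cg_mem1 _
                                  | with_reducible exact cg_mem2 _ | with_reducible exact cg_eq1 _
                                  | with_reducible exact cg_eq2 _ | with_reducible exact cg_rel1 _ _
                                  | with_reducible exact cg_rel2 _ _ | with_reducible exact cg_rel3 _ _
                                  | with_reducible apply cg_imp | with_reducible apply cg_and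
                                  | with_reducible apply cg_or | with_reducible apply cg_iff
                                  | (with_reducible refine cg_all' fun _ => ?_) | (with_reducible refine cg_ex' fun _ => ?_)))] at hH2
    have h1 := hH2 (o1 i) (o1_lt i)
    rw [ball_om (by repeat' (first | with_reducible assumption
                                   | with_reducible exact cg_const _ | with_reducible exact cg_mem1 _
                                   | with_reducible exact cg_mem2 _ | with_reducible exact cg_eq1 _
                                   | with_reducible exact cg_eq2 _ | with_reducible exact cg_rel1 _ _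
                                   | with_reducible exact cg_rel2 _ _ | with_reducible exact cg_rel3 _ _
                                   | with_reducible apply cg_imp | with_reducible apply cg_and
                                   | with_reducible apply cg_or | with_reducible apply cg_iff
                                   | (with_reducible refine cg_all' fun _ => ?_) | (with_reducible refine cg_ex' fun _ => ?_)))] at h1
    have h2 := h1 n q1 (hq1.trans hq) hnF
    rw [bex_om (by repeat' (first | with_reducible assumption
                                  | with_reducible exact cg_const _ | with_reducible exact cg_mem1 _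
                                  | with_reducible exact cg_mem2 _ | with_reducible exact cg_eq1 _
                                  | with_reducible exact cg_eq2 _ | with_reducible exact cg_rel1 _ _
                                  | with_reducible exact cg_rel2 _ _ | with_reducible exact cg_rel3 _ _
                                  | with_reducible apply cg_imp | with_reducible apply cg_and
                                  | with_reducible apply cg_or | with_reducible apply cg_iff
                                  | (with_reducible refine cg_all' fun _ => ?_) | (with_reducible refine cg_ex' fun _ => ?_)))] at h2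
    obtain ⟨r, hr, m, h3, h4, h5⟩ := h2 q1 le_rfl
    rw [holds_fRel] at h4 h5
    obtain ⟨r1, hr1, h6⟩ := hF' m r h3
    obtain ⟨r2, hr2, h7⟩ := hB' m n r1 (fmem_mono hr1 h4)
    obtain ⟨r3, hr3, h8⟩ := hD3 false i m r2 (fmem_mono (hr2.trans hr1) h5)
    obtain ⟨q', hq', hq'r, hs⟩ := co_next hk (m := m) (hr3.trans (hr2.trans (hr1.trans hr))) hne
      (fun b n => hlS b w0 n) (h6.mono (hr3.trans hr2)) (h7.mono hr3)
    refine ⟨q', hq'.trans hq1, ?_, (q1.1.f c).s.length, m, ?_, ?_⟩
    · rw [hs, List.length_append]
      have := (hq1 c).2.2.1.length_le
      simp only [List.length_singleton]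
      omega
    · show (q'.1.f c).s[_]? = some m
      rw [hs]
      simp
    · have h9 : Pos (ev lD false i m) q'.1 := ((Pos_res (hDS false i m) r3.1).1 h8).mono hq'r
      exact hD2 false i m q' h9
  have hlen : ∀ N, ∀ q ≤ p1, ∃ q' ≤ q, N ≤ (q'.1.f c).s.length := by
    intro N
    induction N with
    | zero => exact fun q _ => ⟨q, le_rfl, Nat.zero_le _⟩
    | succ N ih =>
      intro q hq
      obtain ⟨q1, hq1, h1⟩ := ih q hq
      obtain ⟨q2, hq2, h2, _⟩ := hstep q1 (hq1.trans hq) w0
      exact ⟨q2, hq2.trans hq1, by omega⟩
  intro p2 hp2
  refine ⟨p2, le_rfl, Gam c, ?_, ?_, ?_, ?_⟩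
  · rw [ball_om (by repeat' (first | with_reducible assumption
                                   | with_reducible exact cg_const _ | with_reducible exact cg_mem1 _
                                   | with_reducible exact cg_mem2 _ | with_reducible exact cg_eq1 _
                                   | with_reducible exact cg_eq2 _ | with_reducible exact cg_rel1 _ _
                                   | with_reducible exact cg_rel2 _ _ | with_reducible exact cg_rel3 _ _
                                   | with_reducible apply cg_imp | with_reducible apply cg_and
                                   | with_reducible apply cg_or | with_reducible apply cg_iff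
                                   | (with_reducible refine cg_all' fun _ => ?_) | (with_reducible refine cg_ex' fun _ => ?_)))]
    intro a
    rw [bex_om (by repeat' (first | with_reducible assumption
                                  | with_reducible exact cg_const _ | with_reducible exact cg_mem1 _
                                  | with_reducible exact cg_mem2 _ | with_reducible exact cg_eq1 _
                                  | with_reducible exact cg_eq2 _ | with_reducible exact cg_rel1 _ _
                                  | with_reducible exact cg_rel2 _ _ | with_reducible exact cg_rel3 _ _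
                                  | with_reducible apply cg_imp | with_reducible apply cg_and
                                  | with_reducible apply cg_or | with_reducible apply cg_iff
                                  | (with_reducible refine cg_all' fun _ => ?_) | (with_reducible refine cg_ex' fun _ => ?_)))]
    intro q hq
    obtain ⟨r, hr, hlr⟩ := hlen (a + 1) q (hq.trans hp2)
    have hG : r.1 ∈ GamC c a (r.1.f c).s[a] := by
      show (r.1.f c).s[a]? = some _
      rw [List.getElem?_eq_getElem]
    refine ⟨r, hr, (r.1.f c).s[a], ?_, ?_⟩
    · rw [holds_fRel, RR_Gam]
      exact fun s hs => ⟨s, le_rfl, GamC_down c hG hs⟩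
    · rw [ball_om (by repeat' (first | with_reducible assumption
                                     | with_reducible exact cg_const _ | with_reducible exact cg_mem1 _
                                     | with_reducible exact cg_mem2 _ | with_reducible exact cg_eq1 _
                                     | with_reducible exact cg_eq2 _ | with_reducible exact cg_rel1 _ _
                                     | with_reducible exact cg_rel2 _ _ | with_reducible exact cg_rel3 _ _
                                     | with_reducible apply cg_imp | with_reducible apply cg_and
                                     | with_reducible apply cg_or | with_reducible apply cg_iff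
                                     | (with_reducible refine cg_all' fun _ => ?_) | (with_reducible refine cg_ex' fun _ => ?_)))]
      intro b' s hs hb'
      rw [holds_fRel, RR_Gam] at hb'
      obtain ⟨t, ht, h1⟩ := hb' s le_rfl
      have h2 := GamC_down c hG (ht.trans hs)
      have h3 : some b' = some (r.1.f c).s[a] := by
        rw [← (show (t.1.f c).s[a]? = some b' from h1)]
        exact h2
      simp only [Option.some.injEq] at h3
      rw [h3]
      exact feq_refl _ _
  · rw [ball_om (by repeat' (first | with_reducible assumption
                                   | with_reducible exact cg_const _ | with_reducible exact cg_mem1 _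
                                   | with_reducible exact cg_mem2 _ | with_reducible exact cg_eq1 _
                                   | with_reducible exact cg_eq2 _ | with_reducible exact cg_rel1 _ _
                                   | with_reducible exact cg_rel2 _ _ | with_reducible exact cg_rel3 _ _
                                   | with_reducible apply cg_imp | with_reducible apply cg_and
                                   | with_reducible apply cg_or | with_reducible apply cg_iff
                                   | (with_reducible refine cg_all' fun _ => ?_) | (with_reducible refine cg_ex' fun _ => ?_)))]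
    intro a
    rw [ball_om (by repeat' (first | with_reducible assumption
                                   | with_reducible exact cg_const _ | with_reducible exact cg_mem1 _
                                   | with_reducible exact cg_mem2 _ | with_reducible exact cg_eq1 _
                                   | with_reducible exact cg_eq2 _ | with_reducible exact cg_rel1 _ _
                                   | with_reducible exact cg_rel2 _ _ | with_reducible exact cg_rel3 _ _
                                   | with_reducible apply cg_imp | with_reducible apply cg_and
                                   | with_reducible apply cg_or | with_reducible apply cg_iff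
                                   | (with_reducible refine cg_all' fun _ => ?_) | (with_reducible refine cg_ex' fun _ => ?_)))]
    intro b s hs hab
    rw [holds_fRel, RR_Gam] at hab
    apply fmem_reg
    intro t ht
    obtain ⟨t1, ht1, h1⟩ := hab t ht
    have h1' : (t1.1.f c).s[a]? = some b := h1
    refine ⟨t1, ht1, hF b t1 ?_⟩
    have h2 : b ∈ (t1.1.f c).s := List.mem_of_getElem? h1'
    exact ((co_valid hk t1.2).2.2.2.1 b h2).mono (t1.1.le_res c)
  · rw [ball_om (by repeat' (first | with_reducible assumption
                                   | with_reducible exact cg_const _ | with_reducible exact cg_mem1 _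
                                   | with_reducible exact cg_mem2 _ | with_reducible exact cg_eq1 _
                                   | with_reducible exact cg_eq2 _ | with_reducible exact cg_rel1 _ _
                                   | with_reducible exact cg_rel2 _ _ | with_reducible exact cg_rel3 _ _
                                   | with_reducible apply cg_imp | with_reducible apply cg_and
                                   | with_reducible apply cg_or | with_reducible apply cg_iff
                                   | (with_reducible refine cg_all' fun _ => ?_) | (with_reducible refine cg_ex' fun _ => ?_)))]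
    intro a
    rw [ball_om (by repeat' (first | with_reducible assumption
                                   | with_reducible exact cg_const _ | with_reducible exact cg_mem1 _
                                   | with_reducible exact cg_mem2 _ | with_reducible exact cg_eq1 _
                                   | with_reducible exact cg_eq2 _ | with_reducible exact cg_rel1 _ _
                                   | with_reducible exact cg_rel2 _ _ | with_reducible exact cg_rel3 _ _
                                   | with_reducible apply cg_imp | with_reducible apply cg_and
                                   | with_reducible apply cg_or | with_reducible apply cg_iff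
                                   | (with_reducible refine cg_all' fun _ => ?_) | (with_reducible refine cg_ex' fun _ => ?_)))]
    intro b
    rw [ball_om (by repeat' (first | with_reducible assumption
                                   | with_reducible exact cg_const _ | with_reducible exact cg_mem1 _
                                   | with_reducible exact cg_mem2 _ | with_reducible exact cg_eq1 _
                                   | with_reducible exact cg_eq2 _ | with_reducible exact cg_rel1 _ _
                                   | with_reducible exact cg_rel2 _ _ | with_reducible exact cg_rel3 _ _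
                                   | with_reducible apply cg_imp | with_reducible apply cg_and
                                   | with_reducible apply cg_or | with_reducible apply cg_iff
                                   | (with_reducible refine cg_all' fun _ => ?_) | (with_reducible refine cg_ex' fun _ => ?_)))]
    intro a'
    rw [ball_om (by repeat' (first | with_reducible assumption
                                   | with_reducible exact cg_const _ | with_reducible exact cg_mem1 _
                                   | with_reducible exact cg_mem2 _ | with_reducible exact cg_eq1 _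
                                   | with_reducible exact cg_eq2 _ | with_reducible exact cg_rel1 _ _
                                   | with_reducible exact cg_rel2 _ _ | with_reducible exact cg_rel3 _ _
                                   | with_reducible apply cg_imp | with_reducible apply cg_and
                                   | with_reducible apply cg_or | with_reducible apply cg_iff
                                   | (with_reducible refine cg_all' fun _ => ?_) | (with_reducible refine cg_ex' fun _ => ?_)))]
    intro b' s1 hs1 h1 s2 hs2 h2 s3 hs3 h3
    rw [holds_fRel, RR_cN] at h1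
    have h1' : a' = a + 1 := h1
    rw [holds_fRel, RR_Gam] at h2 h3
    rw [holds_fRel]
    apply fmem_reg
    intro t ht
    obtain ⟨t1, ht1, h4⟩ := h3 t ht
    obtain ⟨t2, ht2, h5⟩ := h2 t1 (ht1.trans (ht.trans hs3))
    have h6 : (t2.1.f c).s[a']? = some b' := GamC_down c h4 ht2
    have h7 : (t2.1.f c).s[a]? = some b := h5
    refine ⟨t2, ht2.trans ht1, hB b' b t2 ?_⟩
    subst h1'
    obtain ⟨h8, h9⟩ := List.getElem?_eq_some_iff.1 h6
    obtain ⟨h10, h11⟩ := List.getElem?_eq_some_iff.1 h7
    have h12 := (co_valid hk t2.2).2.2.2.2 a h8
    rw [h9, h11] at h12
    exact h12.mono (t2.1.le_res c)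
  · rw [ball_o (by repeat' (first | with_reducible assumption
                                  | with_reducible exact cg_const _ | with_reducible exact cg_mem1 _
                                  | with_reducible exact cg_mem2 _ | with_reducible exact cg_eq1 _
                                  | with_reducible exact cg_eq2 _ | with_reducible exact cg_rel1 _ _
                                  | with_reducible exact cg_rel2 _ _ | with_reducible exact cg_rel3 _ _
                                  | with_reducible apply cg_imp | with_reducible apply cg_and
                                  | with_reducible apply cg_or | with_reducible apply cg_iff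
                                  | (with_reducible refine cg_all' fun _ => ?_) | (with_reducible refine cg_ex' fun _ => ?_)))]
    intro β hβ
    obtain ⟨i, rfl⟩ := o1_surj hβ
    rw [bex_om (by repeat' (first | with_reducible assumption
                                  | with_reducible exact cg_const _ | with_reducible exact cg_mem1 _
                                  | with_reducible exact cg_mem2 _ | with_reducible exact cg_eq1 _
                                  | with_reducible exact cg_eq2 _ | with_reducible exact cg_rel1 _ _
                                  | with_reducible exact cg_rel2 _ _ | with_reducible exact cg_rel3 _ _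
                                  | with_reducible apply cg_imp | with_reducible apply cg_and
                                  | with_reducible apply cg_or | with_reducible apply cg_iff
                                  | (with_reducible refine cg_all' fun _ => ?_) | (with_reducible refine cg_ex' fun _ => ?_)))]
    intro q hq
    obtain ⟨q', hq', _, k, m, h1, h2⟩ := hstep q (hq.trans hp2) i
    refine ⟨q', hq', k, ?_⟩
    rw [bex_om (by repeat' (first | with_reducible assumption
                                  | with_reducible exact cg_const _ | with_reducible exact cg_mem1 _
                                  | with_reducible exact cg_mem2 _ | with_reducible exact cg_eq1 _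
                                  | with_reducible exact cg_eq2 _ | with_reducible exact cg_rel1 _ _
                                  | with_reducible exact cg_rel2 _ _ | with_reducible exact cg_rel3 _ _
                                  | with_reducible apply cg_imp | with_reducible apply cg_and
                                  | with_reducible apply cg_or | with_reducible apply cg_iff
                                  | (with_reducible refine cg_all' fun _ => ?_) | (with_reducible refine cg_ex' fun _ => ?_)))]
    intro r hr
    refine ⟨r, le_rfl, m, ?_, ?_⟩
    · rw [holds_fRel, RR_Gam]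
      exact fun s hs => ⟨s, le_rfl, GamC_down c h1 (hs.trans hr)⟩
    · rw [holds_fRel]
      exact fmem_mono hr h2

namespace GB

variable (B : GB) {suc : B.G.M}

theorem coh (hsuc : B.G.Nm suc (cN TSuc)) (F R D : B.G.M) (h0 : ∃ n, B.G.E (B.nat n) F)
    (h : ∀ i, B.G.E i B.w1 → ∀ n, B.G.E (B.nat n) F → ∃ m, B.G.E (B.nat m) F ∧
      Rel B.G.E R (B.nat m) (B.nat n) ∧ Rel B.G.E D i (B.nat m)) :
    ∃ g : ℕ → ℕ, (∃ γ, ∀ a b, Rel B.G.E γ (B.nat a) (B.nat b) ↔ b = g a) ∧
      (∀ k, B.G.E (B.nat (g k)) F) ∧
      (∀ k, Rel B.G.E R (B.nat (g (k + 1))) (B.nat (g k))) ∧
      ∀ i, B.G.E i B.w1 → ∃ k, Rel B.G.E D i (B.nat (g k)) := by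
  obtain ⟨F', hF⟩ := B.G.named F
  obtain ⟨R', hR⟩ := B.G.named R
  obtain ⟨D', hD⟩ := B.G.named D
  have h1 := B.G.of_forced (codeStr.imp (fCohH codeStr 0 1 2 3 4)
      (codeStr.ex fun γ => fCohC codeStr 0 1 5 2 3 4 γ) 10)
    (B.G.el hF) [B.G.el B.hom, B.G.el B.hw1, B.G.el hF, B.G.el hR, B.G.el hD, B.G.el hsuc]
    (fun p => forced_coh F' R' D' p)
  have h2 : fCohH (propStr B.G.E) B.om B.w1 F R D := by
    refine ⟨?_, ?_⟩
    · obtain ⟨n, hn⟩ := h0
      exact ⟨B.nat n, (B.E_om _).2 ⟨n, rfl⟩, hn⟩
    · intro i hi n hn hnF
      obtain ⟨n, rfl⟩ := (B.E_om n).1 hn
      obtain ⟨m, h3, h4, h5⟩ := h i hi n hnF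
      exact ⟨B.nat m, (B.E_om _).2 ⟨m, rfl⟩, h3, h4, h5⟩
  obtain ⟨γ, h3, h4, h5, h6⟩ := h1 h2
  have hin : ∀ n, B.G.E (B.nat n) B.om := fun n => (B.E_om _).2 ⟨n, rfl⟩
  have hinj : ∀ a b, B.nat a = B.nat b → a = b := fun a b hab => by
    have := (GModel.o_eq (B.hnat a) (B.hnat b)).1 hab
    exact_mod_cast this
  have h7 : ∀ a : ℕ, ∃ b : ℕ, Rel B.G.E γ (B.nat a) (B.nat b) ∧
      ∀ b', Rel B.G.E γ (B.nat a) (B.nat b') → b' = b := by
    intro a
    obtain ⟨b, hb, h8, h9⟩ := h3 (B.nat a) (hin a)
    obtain ⟨b, rfl⟩ := (B.E_om b).1 hb
    exact ⟨b, h8, fun b' hb' => hinj _ _ (h9 _ (hin b') hb')⟩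
  choose g hg1 hg2 using h7
  refine ⟨g, ⟨γ, fun a b => ⟨fun h => hg2 a b h, fun h => h ▸ hg1 a⟩⟩,
    fun k => h4 _ (hin k) _ (hin _) (hg1 k), fun k => ?_, fun i hi => ?_⟩
  · exact h5 _ (hin k) _ (hin (g k)) _ (hin (k + 1)) _ (hin (g (k + 1)))
      ((B.rel_cN hsuc k (k + 1)).2 rfl) (hg1 k) (hg1 (k + 1))
  · obtain ⟨a, ha, b, hb, h8, h9⟩ := h6 i hi
    obtain ⟨a, rfl⟩ := (B.E_om a).1 ha
    obtain ⟨b, rfl⟩ := (B.E_om b).1 hb
    exact ⟨a, hg2 a b h8 ▸ h9⟩

end GB

end Pool.Agent.H83.F
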