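import Pool.Agent.H83.F.C3

/-!
# The principle for closed sets
-/

set_option linter.unusedVariables false
set_option linter.unusedSectionVars false

open Set MeasureTheory

namespace Pool.Agent.H83.F

open Pool.Agent.H86 Pool.Agent.H86.Name

universe v w

/-- the string with code `s` is an initial segment of the `i`-th section of `Z` -/
def fIS {N : Type v} {Ω : Type w} (L : LogicStr N Ω) (om len bt Z i s : N) : Ω :=
  ball L om fun m => L.imp (fRel L len s m) (L.iff (fRel L bt s m) (fRel L Z i m))

/-- positions -/
def TLen : Set (ℕ × ℕ) := {x | x.2 < (nd x.1).length}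

/-- true positions -/
def TBt : Set (ℕ × ℕ) := {x | ∃ h : x.2 < (nd x.1).length, (nd x.1)[x.2] = true}

/-- elements of finite sets -/
def TEl : Set (ℕ × ℕ) := {x | x.1 ∈ fs x.2}

/-- fine sets of strings -/
def TFine : Set (ℕ × ℕ) := {x | (∀ s ∈ fs x.1, x.2 ≤ (nd s).length) ∧
  ∑ s ∈ fs x.1, (1 / 2 : ℝ) ^ (nd s).length ≤ (1 / 2 : ℝ) ^ x.2}

/-- prefixes -/
def TPre : Set (ℕ × ℕ) := {x | nd x.1 <+: nd x.2}

/-- the hypothesis -/
def fClH {N : Type v} {Ω : Type w} (L : LogicStr N Ω) (om w1 len bt Z0 Z1 : N) : Ω :=
  ball L w1 fun i => ball L i fun k => bex L om fun t =>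
    L.and (fIS L om len bt Z0 k t) (fRel L Z1 i t)

/-- the conclusion -/
def fClC {N : Type v} {Ω : Type w} (L : LogicStr N Ω) (om w1 len bt elf fine pre Z0 Z1 X J : N) :
    Ω :=
  L.and (ball L X fun z => L.mem z w1)
  (L.and (ball L J fun z => L.mem z om)
  (L.and (ball L w1 fun k => bex L w1 fun i => L.and (L.mem i X) (L.mem k i))
  (L.and (ball L w1 fun i => ball L om fun n => L.imp (L.mem i X) (L.imp (L.mem n J)
      (bex L om fun s => L.and (fRel L elf s n) (fIS L om len bt Z0 i s))))
    (ball L w1 fun i => ball L om fun m => L.imp (L.mem i X) (bex L om fun n =>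
      L.and (L.mem n J) (L.and (fRel L fine n m) (ball L om fun s => L.imp (fRel L elf s n)
        (L.or (fIS L om len bt Z0 i s)
          (bex L om fun t => L.and (fRel L pre t s) (fRel L Z1 i t))))))))))

/-- names of the constants -/
noncomputable abbrev nOm : Name QQ := oName QQ Ordinal.omega0

theorem cg_IS1 (Z s : Name QQ) : Cg fun x => fIS (FS QQ) nOm (cN TLen) (cN TBt) Z x s := by
  unfold fIS
  repeat' (first | with_reducible assumption
                 | with_reducible exact cg_const _ | with_reducible exact cg_mem1 _
                 | with_reducible exact cg_mem2 _ | with_reducible exact cg_eq1 _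
                 | with_reducible exact cg_eq2 _ | with_reducible exact cg_rel1 _ _
                 | with_reducible exact cg_rel2 _ _ | with_reducible exact cg_rel3 _ _
                 | with_reducible apply cg_imp | with_reducible apply cg_and
                 | with_reducible apply cg_or | with_reducible apply cg_iff
                 | (with_reducible refine cg_all' fun _ => ?_) | (with_reducible refine cg_ex' fun _ => ?_))

theorem cg_IS2 (Z i : Name QQ) : Cg fun x => fIS (FS QQ) nOm (cN TLen) (cN TBt) Z i x := by
  unfold fIS
  repeat' (first | with_reducible assumption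
                 | with_reducible exact cg_const _ | with_reducible exact cg_mem1 _
                 | with_reducible exact cg_mem2 _ | with_reducible exact cg_eq1 _
                 | with_reducible exact cg_eq2 _ | with_reducible exact cg_rel1 _ _
                 | with_reducible exact cg_rel2 _ _ | with_reducible exact cg_rel3 _ _
                 | with_reducible apply cg_imp | with_reducible apply cg_and
                 | with_reducible apply cg_or | with_reducible apply cg_iff
                 | (with_reducible refine cg_all' fun _ => ?_) | (with_reducible refine cg_ex' fun _ => ?_))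

section Cl

variable {Z0 Z1 : Name QQ} {l : Lam}
  (h2 : ∀ (b : Bool) (i : W1) (m : ℕ) (q : QQ), Pos (ev l b i m) q.1 →
    RR (if b = true then Z1 else Z0) (oName QQ (o1 i)) (oName QQ (m : ℕ)) q)
  (h3 : ∀ (b : Bool) (i : W1) (m : ℕ) (q : QQ),
    RR (if b = true then Z1 else Z0) (oName QQ (o1 i)) (oName QQ (m : ℕ)) q →
    ∃ r ≤ q, Pos (ev l b i m) r.1)
include h2 h3

theorem IS_of_seg {i : W1} {s : ℕ} {q : QQ} (h : Seg (PP Val) (ev l false i) (nd s) q.1) :
    (fIS (FS QQ) nOm (cN TLen) (cN TBt) Z0 (oName QQ (o1 i)) (oName QQ (s : ℕ))).holds q := by
  unfold fIS nOm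
  rw [ball_om (by repeat' (first | with_reducible assumption
                                 | with_reducible exact cg_const _ | with_reducible exact cg_mem1 _
                                 | with_reducible exact cg_mem2 _ | with_reducible exact cg_eq1 _
                                 | with_reducible exact cg_eq2 _ | with_reducible exact cg_rel1 _ _
                                 | with_reducible exact cg_rel2 _ _ | with_reducible exact cg_rel3 _ _
                                 | with_reducible apply cg_imp | with_reducible apply cg_and
                                 | with_reducible apply cg_or | with_reducible apply cg_iff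
                                 | (with_reducible refine cg_all' fun _ => ?_) | (with_reducible refine cg_ex' fun _ => ?_)))]
  intro m r hr hlen
  rw [holds_fRel, RR_cN] at hlen
  have hlen' : m < (nd s).length := hlen
  have h4 := h m hlen'
  unfold Bit at h4
  constructor
  · intro t ht hbt
    rw [holds_fRel, RR_cN] at hbt
    obtain ⟨_, hb⟩ := hbt
    have hb' : (nd s)[m] = true := hb
    rw [if_pos hb'] at h4
    rw [holds_fRel]
    have h5 := h2 false i m q h4
    exact fmem_mono (ht.trans hr) (by simpa using h5)
  · intro t ht hZ
    rw [holds_fRel] at hZ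
    rw [holds_fRel, RR_cN]
    refine ⟨hlen', ?_⟩
    show (nd s)[m] = true
    by_contra hb
    rw [if_neg hb] at h4
    obtain ⟨r', hr', hpos⟩ := h3 false i m t (by simpa using hZ)
    exact h4 r'.1 r'.2 (hr'.trans (ht.trans hr)) hpos

theorem seg_of_IS {i : W1} {s : ℕ} {q : QQ}
    (h : (fIS (FS QQ) nOm (cN TLen) (cN TBt) Z0 (oName QQ (o1 i)) (oName QQ (s : ℕ))).holds q) :
    ∃ r ≤ q, Seg (PP Val) (ev l false i) (nd s) r.1 := by
  unfold fIS nOm at h
  rw [ball_om (by repeat' (first | with_reducible assumption
                                 | with_reducible exact cg_const _ | with_reducible exact cg_mem1 _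
                                 | with_reducible exact cg_mem2 _ | with_reducible exact cg_eq1 _
                                 | with_reducible exact cg_eq2 _ | with_reducible exact cg_rel1 _ _
                                 | with_reducible exact cg_rel2 _ _ | with_reducible exact cg_rel3 _ _
                                 | with_reducible apply cg_imp | with_reducible apply cg_and
                                 | with_reducible apply cg_or | with_reducible apply cg_iff
                                 | (with_reducible refine cg_all' fun _ => ?_) | (with_reducible refine cg_ex' fun _ => ?_)))] at h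
  obtain ⟨r, hr, hrq, h4⟩ := dense_finite (P := Cn) (S := PP Val) (p := q.1)
    (fun (m : ℕ) (r : Cn) => ∀ hm : m < (nd s).length, Bit (PP Val) (ev l false i m) (nd s)[m] r)
    (fun m r r' _ _ hle h hm => (h hm).mono hle) (Finset.range (nd s).length)
    (fun m hm' t ht htq => by
      have hm : m < (nd s).length := Finset.mem_range.1 hm'
      have h5 := h m (⟨t, ht⟩ : QQ) htq (holds_fRel.2 (RR_cN.2 hm))
      by_cases hb : (nd s)[m] = true
      · have h6 := h5.1 (⟨t, ht⟩ : QQ) le_rfl (holds_fRel.2 (RR_cN.2 ⟨hm, hb⟩))
        rw [holds_fRel] at h6
        obtain ⟨r, hr, hpos⟩ := h3 false i m _ (by simpa using h6)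
        exact ⟨r.1, r.2, hr, fun _ => by unfold Bit; rw [if_pos hb]; exact hpos⟩
      · refine ⟨t, ht, le_rfl, fun _ => ?_⟩
        unfold Bit
        rw [if_neg hb]
        intro r hr hrt hpos
        have h6 := h2 false i m (⟨r, hr⟩ : QQ) hpos
        have h7 := h5.2 (⟨r, hr⟩ : QQ) hrt (holds_fRel.2 (by simpa using h6))
        rw [holds_fRel, RR_cN] at h7
        obtain ⟨_, h8⟩ := h7
        exact hb h8) q.2
  exact ⟨⟨r, hr⟩, hrq, fun m hm => h4 m (Finset.mem_range.2 hm) hm⟩

theorem legit_PP {p : QQ} (hH : (fClH (FS QQ) nOm (oName QQ O1) (cN TLen) (cN TBt)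
    Z0 Z1).holds p) : Legit (PP Val) (ev l false) (ev l true) p.1 := by
  intro k i hki q hq hqp
  unfold fClH at hH
  have h4 := hH (oName QQ (o1 i)) (⟨q, hq⟩ : QQ) hqp (fmem_oName_of_lt (o1_lt i) _)
    (oName QQ (o1 k)) (⟨q, hq⟩ : QQ) le_rfl (fmem_oName_of_lt (o1_lt_iff.2 hki) _)
  rw [bex_om (by
    have := cg_IS2 Z0 (oName QQ (o1 k))
    repeat' (first | with_reducible assumption
                   | with_reducible exact cg_const _ | with_reducible exact cg_mem1 _
                   | with_reducible exact cg_mem2 _ | with_reducible exact cg_eq1 _
                   | with_reducible exact cg_eq2 _ | with_reducible exact cg_rel1 _ _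
                   | with_reducible exact cg_rel2 _ _ | with_reducible exact cg_rel3 _ _
                   | with_reducible apply cg_imp | with_reducible apply cg_and
                   | with_reducible apply cg_or | with_reducible apply cg_iff
                   | (with_reducible refine cg_all' fun _ => ?_) | (with_reducible refine cg_ex' fun _ => ?_)))] at h4
  obtain ⟨r, hr, t, h5, h6⟩ := h4 _ le_rfl
  rw [holds_fRel] at h6
  obtain ⟨r1, hr1, h7⟩ := seg_of_IS h2 h3 h5
  obtain ⟨r2, hr2, h8⟩ := h3 true i t r1 (by simpa using fmem_mono hr1 h6)
  exact ⟨r2.1, r2.2, hr2.trans (hr1.trans hr), t, h7.mono hr2, h8⟩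

end Cl

theorem Out_res {c : Co} {l : Lam} (hl : ∀ b i m, ev l b i m ⊆ SS Val c) {q : Cn}
    (hq : q ∈ PP Val) (k i : W1) :
    Out (SS Val c) (ev l false) (ev l true) k i (q.res c) ↔
      Out (PP Val) (ev l false) (ev l true) k i q := by
  unfold Out
  refine exists_congr fun t => and_congr ?_ ?_
  · exact Seg_res (hl false k) hq _
  · exact (Pos_res (hl true i t) q).symm

theorem Legit_res {c : Co} {l : Lam} (hl : ∀ b i m, ev l b i m ⊆ SS Val c) {q : QQ}
    (h : Legit (PP Val) (ev l false) (ev l true) q.1) :
    Legit (SS Val c) (ev l false) (ev l true) (q.1.res c) := by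
  intro k i hki r hr hrq
  obtain ⟨q1, hq1, hq1r⟩ := extend_res q c hr hrq
  obtain ⟨s, hs, hsq, hout⟩ := h k i hki q1.1 q1.2 hq1
  refine ⟨s.res c, res_mem Val hs c, ?_, (Out_res hl hs k i).2 hout⟩
  have := Con.res_mono (hsq.trans hq1r) c
  rwa [res_of_mem Val hr] at this

section Gen

variable (c : Co)

/-- the name of the generic set of countable ordinals -/
noncomputable def XN : Name QQ :=
  setN {x : W1 × QQ // x.1 ∈ (x.2.1.f c).F} (fun x => o1 x.1.1) (fun x => x.1.2)

theorem mem_XN {i : W1} {p : QQ} :
    fmem (oName QQ (o1 i)) (XN c) p ↔ ∀ q ≤ p, ∃ r ≤ q, i ∈ (r.1.f c).F := by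
  unfold XN
  rw [fmem_setN_o]
  refine forall_congr' fun q => forall_congr' fun _ => exists_congr fun r =>
    and_congr_right fun _ => ?_
  constructor
  · rintro ⟨⟨⟨j, t⟩, ht⟩, h1, h2⟩
    simp only at h1 h2 ht
    have := o1_inj h2
    subst this
    exact (h1 c).2.1 ht
  · intro h
    exact ⟨⟨(i, r), h⟩, le_rfl, rfl⟩

/-- `n` is the code of the finite set of nodes -/
def JC (n : ℕ) (q : Cn) : Prop := (fs n).image nd = (q.f c).J

/-- the name of the generic set of codes of finite sets of nodes -/
noncomputable def JN : Name QQ :=
  setN {x : ℕ × QQ // JC c x.1 x.2.1} (fun x => (x.1.1 : ℕ)) (fun x => x.1.2)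

theorem mem_JN {n : ℕ} {p : QQ} :
    fmem (oName QQ (n : ℕ)) (JN c) p ↔
      ∀ q ≤ p, ∃ r ≤ q, ∃ t : QQ, r ≤ t ∧ JC c n t.1 := by
  unfold JN
  rw [fmem_setN_o]
  refine forall_congr' fun q => forall_congr' fun _ => exists_congr fun r =>
    and_congr_right fun _ => ?_
  constructor
  · rintro ⟨⟨⟨j, t⟩, ht⟩, h1, h2⟩
    simp only [Nat.cast_inj] at h1 h2 ht
    subst h2
    exact ⟨t, h1, ht⟩
  · rintro ⟨t, h1, h2⟩
    exact ⟨⟨(n, t), h2⟩, h1, rfl⟩

end Gen

theorem exists_code (J : Finset (List Bool)) : ∃ n, (fs n).image nd = J ∧
    ∀ s ∈ fs n, ∀ s' ∈ fs n, nd s = nd s' → s = s' := by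
  obtain ⟨n, hn⟩ := fs_surj (J.image Encodable.encode)
  have h : ∀ σ : List Bool, nd (Encodable.encode σ) = σ := fun σ => by simp [nd]
  refine ⟨n, ?_, ?_⟩
  · rw [hn, Finset.image_image]
    have : nd ∘ (Encodable.encode : List Bool → ℕ) = id := funext h
    rw [this, Finset.image_id]
  · rw [hn]
    intro s hs s' hs' e
    obtain ⟨σ, _, rfl⟩ := Finset.mem_image.1 hs
    obtain ⟨σ', _, rfl⟩ := Finset.mem_image.1 hs'
    rw [h, h] at e
    rw [e]

theorem forced_cl (Z0 Z1 : Name QQ) (p : QQ) :
    ((FS QQ).imp (fClH (FS QQ) nOm (oName QQ O1) (cN TLen) (cN TBt) Z0 Z1)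
      ((FS QQ).ex fun X => (FS QQ).ex fun J => fClC (FS QQ) nOm (oName QQ O1) (cN TLen) (cN TBt)
        (cN TEl) (cN TFine) (cN TPre) Z0 Z1 X J)).holds p := by
  classical
  intro p1 hp1 hH
  -- the label
  obtain ⟨l, a1, hl1, hl2, hl3⟩ := label_of (fun b i x =>
    ⟨RR (if b = true then Z1 else Z0) (oName QQ (o1 i)) (oName QQ (x : ℕ)), fmem_mono, fmem_reg⟩)
  have h2 : ∀ (b : Bool) (i : W1) (m : ℕ) (q : QQ), Pos (ev l b i m) q.1 →
    RR (if b = true then Z1 else Z0) (oName QQ (o1 i)) (oName QQ (m : ℕ)) q := hl2
  have h3 : ∀ (b : Bool) (i : W1) (m : ℕ) (q : QQ),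
    RR (if b = true then Z1 else Z0) (oName QQ (o1 i)) (oName QQ (m : ℕ)) q →
    ∃ r ≤ q, Pos (ev l b i m) r.1 := hl3
  intro q0 hq0
  obtain ⟨a2, ha2⟩ := exists_stg q0.1
  obtain ⟨lam', hlam⟩ := kind_surj (.cl l)
  set c : Co := toLex (max a1 a2, lam') with hc
  have hk : kind (ofLex c).2 = .cl l := hlam
  have hlS : ∀ b i n, ev l b i n ⊆ SS Val c := fun b i n => hl1 c (le_max_left _ _) b i n
  have hq0c : q0.1.f c = ⊤ := by
    by_contra h
    exact absurd (ha2 c h) (not_lt.2 (le_max_right _ _))
  have hlegit : ∀ q ≤ p1, Legit (SS Val c) (ev l false) (ev l true) (q.1.res c) :=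
    fun q hq => Legit_res hlS ((legit_PP h2 h3 hH).mono hq)
  have hvalid : ∀ q ≤ p1, (q.1.f c).s = [] ∧ (q.1.f c).a = ∅ ∧
      CV (SS Val c) (ev l false) (ev l true) (q.1.f c).J (q.1.f c).F (q.1.res c) := by
    intro q hq
    by_cases h : q.1.f c = ⊤
    · rw [h, DD.top_def]
      refine ⟨rfl, rfl, fun i hi => ?_, fun i hi => ?_, hlegit q hq⟩
      · exact absurd hi (Finset.notMem_empty i)
      · exact absurd hi (Finset.notMem_empty i)
    · exact (Val_cl hk _ _ _).1 (q.2 _ h)
  -- some condition forces that the generic set is unbounded
  have hext : ∀ i : W1, ∃ q ≤ q0, i ∈ (q.1.f c).F := by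
    intro i
    obtain ⟨q', hq', _, he, _⟩ := extend_at q0 c (res_mem Val q0.2 c) le_rfl
      (e := ⟨{[]}, {i}, [], ∅⟩) (by
        rw [hq0c]
        exact le_top)
      ((Val_cl hk _ _ _).2 ⟨rfl, rfl, fun j hj => ⟨[], by simp, fun m hm => by simp at hm⟩,
        fun j hj k hk' hne => by
          simp only [Finset.mem_singleton] at hj hk'
          exact absurd (hk'.trans hj.symm) hne, hlegit q0 hq0⟩)
    refine ⟨q', hq', ?_⟩
    rw [he]
    exact Finset.mem_singleton_self i
  obtain ⟨r0, hr0, hunb⟩ : ∃ r0 ≤ q0, ∀ β : W1, ∀ q ≤ r0, ∃ q' ≤ q, ∃ i, β < i ∧
      i ∈ (q'.1.f c).F := by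
    by_contra hcon
    push Not at hcon
    choose g hg1 hg2 using hext
    choose! β q hq hq' using hcon
    obtain ⟨B, _, hB, hgood⟩ := exists_unc_good W1_unc (fun ξ η => β (g ξ) < η) (by
      intro ξ _
      exact (W1_Iic (β (g ξ))).mono fun η hη => not_lt.1 hη.2)
    obtain ⟨ξ, hξ, η, hη, hlt, s, hs, h4, h5⟩ := cc_all.2 B hB (fun ξ => (q (g ξ)).1)
      (fun ξ _ => (q (g ξ)).2)
    have h6 : (⟨s, hs⟩ : QQ) ≤ q (g ξ) := h4
    have h7 : (⟨s, hs⟩ : QQ) ≤ q (g η) := h5
    refine hq' (g ξ) (hg1 ξ) ⟨s, hs⟩ h6 η (hgood ξ hξ η hη hlt) ?_
    exact ((h7.trans (hq (g η) (hg1 η))) c).2.1 (hg2 η)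
  have hr0p : r0 ≤ p1 := hr0.trans hq0
  refine ⟨r0, hr0, XN c, fun q00 hq00 => ⟨q00, le_rfl, JN c, ?_, ?_, ?_, ?_, ?_⟩⟩
  · -- `X ⊆ ω₁`
    intro z q hq hz
    apply fmem_reg
    intro r hr
    obtain ⟨s, hs, i, _, h4⟩ := fmem_setN.1 hz r hr
    exact ⟨s, hs, fmem_congr_left (feq_symm h4) (fmem_oName_of_lt (o1_lt _) s)⟩
  · -- `J ⊆ ω`
    intro z q hq hz
    apply fmem_reg
    intro r hr
    obtain ⟨s, hs, i, _, h4⟩ := fmem_setN.1 hz r hr
    exact ⟨s, hs, fmem_congr_left (feq_symm h4) (fmem_oName_of_lt (Ordinal.nat_lt_omega0 _) s)⟩
  · -- unbounded
    rw [ball_o (by repeat' (first | with_reducible assumption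
                                  | with_reducible exact cg_const _ | with_reducible exact cg_mem1 _
                                  | with_reducible exact cg_mem2 _ | with_reducible exact cg_eq1 _
                                  | with_reducible exact cg_eq2 _ | with_reducible exact cg_rel1 _ _
                                  | with_reducible exact cg_rel2 _ _ | with_reducible exact cg_rel3 _ _
                                  | with_reducible apply cg_imp | with_reducible apply cg_and
                                  | with_reducible apply cg_or | with_reducible apply cg_iff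
                                  | (with_reducible refine cg_all' fun _ => ?_) | (with_reducible refine cg_ex' fun _ => ?_)))]
    intro β hβ
    obtain ⟨k, rfl⟩ := o1_surj hβ
    rw [bex_o (by repeat' (first | with_reducible assumption
                                 | with_reducible exact cg_const _ | with_reducible exact cg_mem1 _
                                 | with_reducible exact cg_mem2 _ | with_reducible exact cg_eq1 _
                                 | with_reducible exact cg_eq2 _ | with_reducible exact cg_rel1 _ _
                                 | with_reducible exact cg_rel2 _ _ | with_reducible exact cg_rel3 _ _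
                                 | with_reducible apply cg_imp | with_reducible apply cg_and
                                 | with_reducible apply cg_or | with_reducible apply cg_iff
                                 | (with_reducible refine cg_all' fun _ => ?_) | (with_reducible refine cg_ex' fun _ => ?_)))]
    intro q hq
    obtain ⟨q', hq', i, hki, hi⟩ := hunb k q (hq.trans hq00)
    refine ⟨q', hq', o1 i, o1_lt i, ?_, fmem_oName_of_lt (o1_lt_iff.2 hki) q'⟩
    exact (mem_XN c).2 fun r hr => ⟨r, le_rfl, (hr c).2.1 hi⟩
  · -- initial segments
    have hc1 := fun Z s => cg_IS1 Z s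
    have hc2 := fun Z s => cg_IS2 Z s
    rw [ball_o (by unfold fIS; repeat' (first | with_reducible assumption
                                              | with_reducible exact cg_const _ | with_reducible exact cg_mem1 _
                                              | with_reducible exact cg_mem2 _ | with_reducible exact cg_eq1 _
                                              | with_reducible exact cg_eq2 _ | with_reducible exact cg_rel1 _ _
                                              | with_reducible exact cg_rel2 _ _ | with_reducible exact cg_rel3 _ _
                                              | with_reducible apply cg_imp | with_reducible apply cg_and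
                                              | with_reducible apply cg_or | with_reducible apply cg_iff
                                              | (with_reducible refine cg_all' fun _ => ?_) | (with_reducible refine cg_ex' fun _ => ?_)))]
    intro β hβ
    obtain ⟨i, rfl⟩ := o1_surj hβ
    rw [show nOm = oName QQ Ordinal.omega0 from rfl, ball_om (by unfold fIS; repeat' (first | with_reducible assumption
                                                                                            | with_reducible exact cg_const _ | with_reducible exact cg_mem1 _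
                                                                                            | with_reducible exact cg_mem2 _ | with_reducible exact cg_eq1 _
                                                                                            | with_reducible exact cg_eq2 _ | with_reducible exact cg_rel1 _ _
                                                                                            | with_reducible exact cg_rel2 _ _ | with_reducible exact cg_rel3 _ _
                                                                                            | with_reducible apply cg_imp | with_reducible apply cg_and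
                                                                                            | with_reducible apply cg_or | with_reducible apply cg_iff
                                                                                            | (with_reducible refine cg_all' fun _ => ?_) | (with_reducible refine cg_ex' fun _ => ?_)))]
    intro n q hq hi r hr hn
    have hi' := (mem_XN c).1 hi
    have hn' := (mem_JN c).1 hn
    rw [bex_om (by unfold fIS; repeat' (first | with_reducible assumption
                                              | with_reducible exact cg_const _ | with_reducible exact cg_mem1 _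
                                              | with_reducible exact cg_mem2 _ | with_reducible exact cg_eq1 _
                                              | with_reducible exact cg_eq2 _ | with_reducible exact cg_rel1 _ _
                                              | with_reducible exact cg_rel2 _ _ | with_reducible exact cg_rel3 _ _
                                              | with_reducible apply cg_imp | with_reducible apply cg_and
                                              | with_reducible apply cg_or | with_reducible apply cg_iff
                                              | (with_reducible refine cg_all' fun _ => ?_) | (with_reducible refine cg_ex' fun _ => ?_)))]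
    intro q1 hq1
    obtain ⟨q2, hq2, h4⟩ := hi' q1 (hq1.trans hr)
    obtain ⟨q3, hq3, t, ht, h5⟩ := hn' q2 (hq2.trans hq1)
    have h6 : i ∈ (q3.1.f c).F := (hq3 c).2.1 h4
    have hq3p : q3 ≤ p1 := hq3.trans (hq2.trans (hq1.trans (hr.trans (hq.trans
      (hq00.trans hr0p)))))
    obtain ⟨σ, hσ, hseg⟩ := (hvalid q3 hq3p).2.2.1 i h6
    obtain ⟨τ, hτ, hpre⟩ := (ht c).1 σ hσ
    have hτ' : τ ∈ (fs n).image nd := by rw [h5]; exact hτ
    obtain ⟨s, hs, rfl⟩ := Finset.mem_image.1 hτ'
    refine ⟨q3, hq3.trans hq2, s, ?_, ?_⟩
    · rw [holds_fRel, RR_cN]; exact hs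
    · exact IS_of_seg h2 h3 ((Seg_res (hlS false i) q3.2 _).1 (seg_prefix hpre hseg))
  · -- fine sets
    rw [ball_o (by unfold fIS; repeat' (first | with_reducible assumption
                                              | with_reducible exact cg_const _ | with_reducible exact cg_mem1 _
                                              | with_reducible exact cg_mem2 _ | with_reducible exact cg_eq1 _
                                              | with_reducible exact cg_eq2 _ | with_reducible exact cg_rel1 _ _
                                              | with_reducible exact cg_rel2 _ _ | with_reducible exact cg_rel3 _ _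
                                              | with_reducible apply cg_imp | with_reducible apply cg_and
                                              | with_reducible apply cg_or | with_reducible apply cg_iff
                                              | (with_reducible refine cg_all' fun _ => ?_) | (with_reducible refine cg_ex' fun _ => ?_)))]
    intro β hβ
    obtain ⟨i, rfl⟩ := o1_surj hβ
    rw [show nOm = oName QQ Ordinal.omega0 from rfl, ball_om (by unfold fIS; repeat' (first | with_reducible assumption
                                                                                            | with_reducible exact cg_const _ | with_reducible exact cg_mem1 _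
                                                                                            | with_reducible exact cg_mem2 _ | with_reducible exact cg_eq1 _
                                                                                            | with_reducible exact cg_eq2 _ | with_reducible exact cg_rel1 _ _
                                                                                            | with_reducible exact cg_rel2 _ _ | with_reducible exact cg_rel3 _ _
                                                                                            | with_reducible apply cg_imp | with_reducible apply cg_and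
                                                                                            | with_reducible apply cg_or | with_reducible apply cg_iff
                                                                                            | (with_reducible refine cg_all' fun _ => ?_) | (with_reducible refine cg_ex' fun _ => ?_)))]
    intro m q hq hi
    have hi' := (mem_XN c).1 hi
    rw [bex_om (by unfold fIS; repeat' (first | with_reducible assumption
                                              | with_reducible exact cg_const _ | with_reducible exact cg_mem1 _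
                                              | with_reducible exact cg_mem2 _ | with_reducible exact cg_eq1 _
                                              | with_reducible exact cg_eq2 _ | with_reducible exact cg_rel1 _ _
                                              | with_reducible exact cg_rel2 _ _ | with_reducible exact cg_rel3 _ _
                                              | with_reducible apply cg_imp | with_reducible apply cg_and
                                              | with_reducible apply cg_or | with_reducible apply cg_iff
                                              | (with_reducible refine cg_all' fun _ => ?_) | (with_reducible refine cg_ex' fun _ => ?_)))]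
    intro q1 hq1
    obtain ⟨q2, hq2, h4⟩ := hi' q1 hq1
    have hq2p : q2 ≤ p1 := hq2.trans (hq1.trans (hq.trans (hq00.trans hr0p)))
    obtain ⟨e1, e2, hCV⟩ := hvalid q2 hq2p
    obtain ⟨r, hr, hrq, J', N', hN', hJ1, hJ2, hJ3, hJ4, hJ5⟩ :=
      shrink (res_mem Val q2.2 c) hCV (m + (q2.1.f c).F.card)
    obtain ⟨q', hq', hres, he, hle⟩ := extend_at q2 c hr hrq (e := ⟨J', (q2.1.f c).F, [], ∅⟩)
      (by
        rw [DD.le_def, e1, e2]
        exact ⟨hJ3, Finset.Subset.refl _, List.prefix_rfl, Finset.Subset.refl _⟩)
      ((Val_cl hk _ _ _).2 ⟨rfl, rfl, hJ4⟩)
    obtain ⟨n, hn1, hn2⟩ := exists_code J'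
    have hnJ : ∀ s ∈ fs n, nd s ∈ J' := fun s hs => by
      rw [← hn1]; exact Finset.mem_image_of_mem _ hs
    refine ⟨q', hq'.trans hq2, n, ?_, ?_, ?_⟩
    · refine (mem_JN c).2 fun s hs => ⟨s, le_rfl, q', hs, ?_⟩
      show (fs n).image nd = (q'.1.f c).J
      rw [he, hn1]
    · rw [holds_fRel, RR_cN]
      constructor
      · intro s hs
        have hs' : s ∈ fs n := hs
        rw [hJ1 _ (hnJ s hs')]
        show m ≤ N'
        omega
      · show ∑ s ∈ fs n, (1 / 2 : ℝ) ^ (nd s).length ≤ (1 / 2 : ℝ) ^ m
        rw [Finset.sum_congr rfl (fun s hs => by rw [hJ1 _ (hnJ s hs)])]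
        rw [Finset.sum_const, nsmul_eq_mul]
        have hcard : (fs n).card ≤ (q2.1.f c).F.card := by
          have h5 : ((fs n).image nd).card = (fs n).card :=
            Finset.card_image_of_injOn fun s hs s' hs' => hn2 s hs s' hs'
          rw [← h5, hn1]; exact hJ2
        have h6 : ((fs n).card : ℝ) ≤ 2 ^ (q2.1.f c).F.card := by
          calc ((fs n).card : ℝ) ≤ ((q2.1.f c).F.card : ℝ) := by exact_mod_cast hcard
            _ ≤ 2 ^ (q2.1.f c).F.card := by
              exact_mod_cast (Nat.lt_two_pow_self (n := (q2.1.f c).F.card)).le
        calc ((fs n).card : ℝ) * (1 / 2) ^ N'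
            ≤ 2 ^ (q2.1.f c).F.card * (1 / 2) ^ (m + (q2.1.f c).F.card) := by
              refine mul_le_mul h6 ?_ (by positivity) (by positivity)
              exact pow_le_pow_of_le_one (by norm_num) (by norm_num) hN'
          _ = (1 / 2) ^ m := by
              rw [pow_add, mul_comm, mul_assoc, ← mul_pow]
              norm_num
    · rw [ball_om (by unfold fIS; repeat' (first | with_reducible assumption
                                                 | with_reducible exact cg_const _ | with_reducible exact cg_mem1 _
                                                 | with_reducible exact cg_mem2 _ | with_reducible exact cg_eq1 _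
                                                 | with_reducible exact cg_eq2 _ | with_reducible exact cg_rel1 _ _
                                                 | with_reducible exact cg_rel2 _ _ | with_reducible exact cg_rel3 _ _
                                                 | with_reducible apply cg_imp | with_reducible apply cg_and
                                                 | with_reducible apply cg_or | with_reducible apply cg_iff
                                                 | (with_reducible refine cg_all' fun _ => ?_) | (with_reducible refine cg_ex' fun _ => ?_)))]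
      intro s q3 hq3 hs
      rw [holds_fRel, RR_cN] at hs
      have hs' : s ∈ fs n := hs
      intro q4 hq4
      refine ⟨q4, le_rfl, ?_⟩
      have hq4r : q4.1 ≤ r := le_trans (show q4.1 ≤ q'.1 from hq4.trans hq3) hle
      rcases hJ5 i h4 (nd s) (hnJ s hs') with h7 | ⟨t, h7, h8⟩
      · left
        refine IS_of_seg h2 h3 ?_
        have h9 : r = q'.1.res c := hres.symm
        rw [h9] at h7
        exact ((Seg_res (hlS false i) q'.2 _).1 h7).mono (show q4.1 ≤ q'.1 from hq4.trans hq3)
      · right
        rw [bex_om (by repeat' (first | with_reducible assumption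
                                      | with_reducible exact cg_const _ | with_reducible exact cg_mem1 _
                                      | with_reducible exact cg_mem2 _ | with_reducible exact cg_eq1 _
                                      | with_reducible exact cg_eq2 _ | with_reducible exact cg_rel1 _ _
                                      | with_reducible exact cg_rel2 _ _ | with_reducible exact cg_rel3 _ _
                                      | with_reducible apply cg_imp | with_reducible apply cg_and
                                      | with_reducible apply cg_or | with_reducible apply cg_iff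
                                      | (with_reducible refine cg_all' fun _ => ?_) | (with_reducible refine cg_ex' fun _ => ?_)))]
        intro q5 hq5
        refine ⟨q5, le_rfl, t, ?_, ?_⟩
        · rw [holds_fRel, RR_cN]; exact h7
        · rw [holds_fRel]
          have h9 := h2 true i t q5 (h8.mono (le_trans (show q5.1 ≤ q4.1 from hq5) hq4r))
          simpa using h9

namespace GB

variable (B : GB) {len bt elf fine pre : B.G.M}

theorem IS_iff (hlen : B.G.Nm len (cN TLen)) (hbt : B.G.Nm bt (cN TBt)) (Z i : B.G.M) (s : ℕ) :
    fIS (propStr B.G.E) B.om len bt Z i (B.nat s) ↔ InSeg B.G.E B.nat Z i (nd s) := by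
  constructor
  · intro h m hm
    have h1 := h (B.nat m) ((B.E_om _).2 ⟨m, rfl⟩) ((B.rel_cN hlen s m).2 hm)
    constructor
    · intro hb
      exact h1.1 ((B.rel_cN hbt s m).2 ⟨hm, hb⟩)
    · intro hZ
      obtain ⟨_, hb⟩ := (B.rel_cN hbt s m).1 (h1.2 hZ)
      exact hb
  · intro h m hm hl
    obtain ⟨m, rfl⟩ := (B.E_om m).1 hm
    have hm' : m < (nd s).length := (B.rel_cN hlen s m).1 hl
    constructor
    · intro hb
      obtain ⟨_, hb'⟩ := (B.rel_cN hbt s m).1 hb
      exact (h m hm').1 hb'
    · intro hZ
      exact (B.rel_cN hbt s m).2 ⟨hm', (h m hm').2 hZ⟩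

theorem closedP (hlen : B.G.Nm len (cN TLen)) (hbt : B.G.Nm bt (cN TBt))
    (hel : B.G.Nm elf (cN TEl)) (hfine : B.G.Nm fine (cN TFine)) (hpre : B.G.Nm pre (cN TPre))
    (Z0 Z1 : B.G.M) (h : ∀ k i, B.G.E i B.w1 → B.G.E k i →
      ∃ t, InSeg B.G.E B.nat Z0 k (nd t) ∧ Rel B.G.E Z1 i (B.nat t)) :
    ∃ X J : B.G.M, Sub B.G.E X B.w1 ∧ Sub B.G.E J B.om ∧
      (∀ k, B.G.E k B.w1 → ∃ i, B.G.E i X ∧ B.G.E k i) ∧
      (∀ i, B.G.E i X → ∀ n, B.G.E (B.nat n) J → ∃ s ∈ fs n, InSeg B.G.E B.nat Z0 i (nd s)) ∧
      ∀ i, B.G.E i X → ∀ m : ℕ, ∃ n, B.G.E (B.nat n) J ∧ (∀ s ∈ fs n, m ≤ (nd s).length) ∧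
        (∑ s ∈ fs n, (1 / 2 : ℝ) ^ (nd s).length ≤ (1 / 2 : ℝ) ^ m) ∧
        ∀ s ∈ fs n, InSeg B.G.E B.nat Z0 i (nd s) ∨
          ∃ t, nd t <+: nd s ∧ Rel B.G.E Z1 i (B.nat t) := by
  obtain ⟨Z0', hZ0⟩ := B.G.named Z0
  obtain ⟨Z1', hZ1⟩ := B.G.named Z1
  have h1 := B.G.of_forced (codeStr.imp (fClH codeStr 0 1 2 3 4 5)
      (codeStr.ex fun X => codeStr.ex fun J => fClC codeStr 0 1 2 3 6 7 8 4 5 X J) 10)
    (B.G.el hZ0) [B.G.el B.hom, B.G.el B.hw1, B.G.el hlen, B.G.el hbt, B.G.el hZ0, B.G.el hZ1,
      B.G.el hel, B.G.el hfine, B.G.el hpre] (fun p => forced_cl Z0' Z1' p)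
  have h2 : fClH (propStr B.G.E) B.om B.w1 len bt Z0 Z1 := by
    intro i hi k hk
    obtain ⟨t, h3, h4⟩ := h k i hi hk
    exact ⟨B.nat t, (B.E_om _).2 ⟨t, rfl⟩, (B.IS_iff hlen hbt Z0 k t).2 h3, h4⟩
  obtain ⟨X, J, hX, hJ, h3, h4, h5⟩ := h1 h2
  refine ⟨X, J, hX, hJ, ?_, ?_, ?_⟩
  · intro k hk
    obtain ⟨i, _, hi, hki⟩ := h3 k hk
    exact ⟨i, hi, hki⟩
  · intro i hi n hn
    obtain ⟨s, hs, h6, h7⟩ := h4 i (hX i hi) (B.nat n) ((B.E_om _).2 ⟨n, rfl⟩) hi hn
    obtain ⟨s, rfl⟩ := (B.E_om s).1 hs
    exact ⟨s, (B.rel_cN hel s n).1 h6, (B.IS_iff hlen hbt Z0 i s).1 h7⟩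
  · intro i hi m
    obtain ⟨n, hn, h6, h7, h8⟩ := h5 i (hX i hi) (B.nat m) ((B.E_om _).2 ⟨m, rfl⟩) hi
    obtain ⟨n, rfl⟩ := (B.E_om n).1 hn
    obtain ⟨h9, h10⟩ := (B.rel_cN hfine n m).1 h7
    refine ⟨n, h6, h9, h10, ?_⟩
    intro s hs
    rcases h8 (B.nat s) ((B.E_om _).2 ⟨s, rfl⟩) ((B.rel_cN hel s n).2 hs) with h11 | h11
    · exact Or.inl ((B.IS_iff hlen hbt Z0 i s).1 h11)
    · right
      obtain ⟨t, ht, h12, h13⟩ := h11
      obtain ⟨t, rfl⟩ := (B.E_om t).1 ht
      exact ⟨t, (B.rel_cN hpre t s).1 h12, h13⟩

end GB

end Pool.Agent.H83.F
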