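import Pool.Agent.H83.F.C4

/-!
# Existence of nice models
-/

set_option linter.unusedVariables false
set_option linter.unusedSectionVars false

open Set MeasureTheory

namespace Pool.Agent.H83.F

open Pool.Agent.H86 Pool.Agent.H86.Name

/-- **Existence of nice models** containing countably many given sets of natural numbers. -/
theorem exists_nice (T : ℕ → Set ℕ) : Nonempty (Nice (range T)) := by
  classical
  let L : List (Name QQ) := [oName QQ Ordinal.omega0, oName QQ O1, oName QQ O2, Tow, cN TFst,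
    cN TSnd, cN TBad, cN TSuc, cN TLen, cN TBt, cN TEl, cN TFine, cN TPre]
  let x₀ : ℕ → Name QQ := fun i =>
    if (Nat.unpair i).1 = 0 then oName QQ ((Nat.unpair i).2 : ℕ)
    else if (Nat.unpair i).1 = 1 then cN {x | Nat.pair x.1 x.2 ∈ T (Nat.unpair i).2}
    else L.getD (Nat.unpair i).2 (oName QQ 0)
  obtain ⟨G, -, hG⟩ := exists_gmodel (⊤ : QQ) x₀
  have hn : ∀ n : ℕ, ∃ m, G.Nm m (oName QQ (n : ℕ)) := fun n => by
    obtain ⟨m, hm⟩ := hG (Nat.pair 0 n)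
    exact ⟨m, by simpa [x₀, Nat.unpair_pair] using hm⟩
  have hT : ∀ k : ℕ, ∃ m, G.Nm m (cN {x | Nat.pair x.1 x.2 ∈ T k}) := fun n => by
    obtain ⟨m, hm⟩ := hG (Nat.pair 1 n)
    exact ⟨m, by simpa [x₀, Nat.unpair_pair] using hm⟩
  have hL : ∀ k : ℕ, ∃ m, G.Nm m (L.getD k (oName QQ 0)) := fun n => by
    obtain ⟨m, hm⟩ := hG (Nat.pair 2 n)
    exact ⟨m, by simpa [x₀, Nat.unpair_pair] using hm⟩
  choose nat hnat using hn
  obtain ⟨om, hom⟩ := hL 0
  obtain ⟨w1, hw1⟩ := hL 1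
  obtain ⟨w2, hw2⟩ := hL 2
  obtain ⟨tow, htow⟩ := hL 3
  obtain ⟨fst, hfst⟩ := hL 4
  obtain ⟨ss, hss⟩ := hL 5
  obtain ⟨bd, hbd⟩ := hL 6
  obtain ⟨suc, hsuc⟩ := hL 7
  obtain ⟨len, hlen⟩ := hL 8
  obtain ⟨bt, hbt⟩ := hL 9
  obtain ⟨elf, helf⟩ := hL 10
  obtain ⟨fine, hfine⟩ := hL 11
  obtain ⟨pre, hpre⟩ := hL 12
  let B : GB := ⟨G, nat, om, w1, w2, hnat, hom, hw1, hw2⟩
  exact ⟨{
    M := G.M
    E := G.E
    om := om
    w1 := w1
    w2 := w2
    nat := nat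
    rk := B.rk
    zfc := B.zfc
    E_om := B.E_om
    E_nat := B.E_nat
    om_w1 := B.om_w1
    w1_w2 := B.w1_w2
    w1_w2' := B.w1_w2'
    w1_trans := fun x y h1 h2 => B.trans_o B.hw1 h1 h2
    w2_trans := fun x y h1 h2 => B.trans_o B.hw2 h1 h2
    w2_ord := by
      intro y hy z hz t ht
      obtain ⟨a, ha⟩ := (B.E_w2 y).1 hy
      exact B.trans_o ha ht hz
    rk_lt := by
      intro x y hx hy
      obtain ⟨a, ha⟩ := (B.E_w2 x).1 hx
      obtain ⟨b, hb⟩ := (B.E_w2 y).1 hy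
      rw [B.rk_eq ha, B.rk_eq hb]
      exact GModel.o_mem ha hb
    rk_inj := by
      intro x y hx hy h
      obtain ⟨a, ha⟩ := (B.E_w2 x).1 hx
      obtain ⟨b, hb⟩ := (B.E_w2 y).1 hy
      rw [B.rk_eq ha, B.rk_eq hb] at h
      exact (GModel.o_eq ha hb).2 h
    w1_lim := fun x hx => B.lim_o GB.O1_lim B.hw1 hx
    w2_lim := fun x hx => B.lim_o GB.O2_lim B.hw2 hx
    const := by
      rintro _ ⟨k, rfl⟩
      obtain ⟨g, hg⟩ := hT k
      exact ⟨g, fun z hz => B.mem_cN hg hz, fun a b => B.rel_cN hg a b⟩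
    reg1 := B.reg1
    reg2 := B.reg2
    diag := B.diag
    closedP := B.closedP hlen hbt helf hfine hpre
    cohenP := B.coh hsuc
    tow := tow
    tow_small := B.tow_small htow
    tow_mono := B.tow_mono htow hfst hss
    tow_cof := B.tow_cof htow hfst hss hbd }⟩

end Pool.Agent.H83.F
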