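import Pool.Agent.H83.F.Frc

/-!
# Tools for generic models
-/

set_option linter.unusedVariables false
set_option linter.unusedSectionVars false

universe u v w

namespace Pool.Agent.H83.F

open Pool.Agent.H86 Pool.Agent.H86.Name

variable {Q : Type u} [Preorder Q] [OrderTop Q]

namespace GModel

variable (G : GModel Q)

/-- elements with names -/
abbrev NM : Type _ := {x : G.M × Name Q // G.Nm x.1 x.2}

/-- an element with a given name -/
def el {m : G.M} {x : Name Q} (h : G.Nm m x) : G.NM := ⟨(m, x), h⟩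

/-- The truth lemma for formulas with a list of parameters. -/
theorem tr (φ : Fml) (d : G.NM) (l : List G.NM) :
    φ.eval (propStr G.E) (fun i => (l.getD i d).1.1) ↔
      ∃ n, (φ.eval (FS Q) (fun i => (l.getD i d).1.2)).holds (G.qs n) :=
  G.truth φ _ _ (fun i => (l.getD i d).2)

variable {G}

theorem mem_iff {m m' : G.M} {x x' : Name Q} (h : G.Nm m x) (h' : G.Nm m' x') :
    G.E m m' ↔ ∃ n, fmem x x' (G.qs n) :=
  G.tr (Fml.mem 0 1) (G.el h) [G.el h, G.el h']

theorem eq_iff {m m' : G.M} {x x' : Name Q} (h : G.Nm m x) (h' : G.Nm m' x') :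
    m = m' ↔ ∃ n, feq x x' (G.qs n) :=
  G.tr (Fml.eq 0 1) (G.el h) [G.el h, G.el h']

theorem rel_iff {f m m' : G.M} {F x x' : Name Q} (hf : G.Nm f F) (h : G.Nm m x)
    (h' : G.Nm m' x') : Rel G.E f m m' ↔ ∃ n, RR F x x' (G.qs n) := by
  have h1 := G.tr (fRel codeStr 0 1 2 10) (G.el h) [G.el hf, G.el h, G.el h']
  have h2 : Rel G.E f m m' ↔ ∃ n, (fRel (FS Q) F x x').holds (G.qs n) := h1
  rw [h2]
  exact exists_congr fun n => holds_fRel

theorem o_mem {m m' : G.M} {α β : Ordinal.{u}} (h : G.Nm m (oName Q α))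
    (h' : G.Nm m' (oName Q β)) : G.E m m' ↔ α < β := by
  rw [mem_iff h h']
  exact ⟨fun ⟨n, hn⟩ => fmem_oName_iff.1 hn, fun h => ⟨0, fmem_oName_iff.2 h⟩⟩

theorem o_eq {m m' : G.M} {α β : Ordinal.{u}} (h : G.Nm m (oName Q α))
    (h' : G.Nm m' (oName Q β)) : m = m' ↔ α = β := by
  rw [eq_iff h h']
  exact ⟨fun ⟨n, hn⟩ => feq_oName_iff.1 hn, fun h => ⟨0, feq_oName_iff.2 h⟩⟩

theorem mem_o {m x : G.M} {α : Ordinal.{u}} (h : G.Nm m (oName Q α)) :
    G.E x m ↔ ∃ β < α, G.Nm x (oName Q β) := by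
  constructor
  · intro hx
    obtain ⟨X, hX⟩ := G.named x
    obtain ⟨n, hn⟩ := (mem_iff hX h).1 hx
    exact G.ord hX hn
  · rintro ⟨β, hβ, h'⟩
    exact (o_mem h' h).2 hβ

/-- Generic models satisfy ZFC. -/
theorem zfc (G : GModel Q) (hM : Nonempty G.M) : IsZFCModel G.E :=
  zfc_of_true (p₀ := G.qs 0) G.named hM
    fun φ f g h h' => (G.truth φ f g h).2 ⟨0, h'⟩

/-- transfer of forced formulas -/
theorem of_forced (G : GModel Q) (φ : Fml) (d : G.NM) (l : List G.NM)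
    (h : ∀ p, (φ.eval (FS Q) (fun i => (l.getD i d).1.2)).holds p) :
    φ.eval (propStr G.E) (fun i => (l.getD i d).1.1) :=
  (G.tr φ d l).2 ⟨0, h _⟩

end GModel

end Pool.Agent.H83.F
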