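import Pool.Agent.H83.F.Dat
import Pool.Agent.H83.F.Frc2

/-!
# The forcing notion `QQ`: antichains, labels, restrictions
-/

set_option linter.unusedVariables false
set_option linter.unusedSectionVars false

universe v

open Set

namespace Pool.Agent.H83.F

open Pool.Agent.H86 Pool.Agent.H86.Name

/-! ### Ordinals -/

/-- `ω₁` -/
noncomputable def O1 : Ordinal.{0} := (Cardinal.aleph 1).ord

/-- `ω₂` -/
noncomputable def O2 : Ordinal.{0} := (Cardinal.aleph 2).ord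

/-- the ordinal of an element of `W1` -/
noncomputable def o1 (i : W1) : Ordinal.{0} := (Ordinal.ToType.toOrd i).1

/-- the ordinal of an element of `W2` -/
noncomputable def o2 (i : W2) : Ordinal.{0} := (Ordinal.ToType.toOrd i).1

theorem o1_lt (i : W1) : o1 i < O1 := (Ordinal.ToType.toOrd i).2

theorem o2_lt (i : W2) : o2 i < O2 := (Ordinal.ToType.toOrd i).2

theorem o1_surj {α : Ordinal.{0}} (h : α < O1) : ∃ i, o1 i = α :=
  ⟨Ordinal.ToType.mk ⟨α, h⟩, by simp [o1, Ordinal.ToType.toOrd]⟩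

theorem o2_surj {α : Ordinal.{0}} (h : α < O2) : ∃ i, o2 i = α :=
  ⟨Ordinal.ToType.mk ⟨α, h⟩, by simp [o2, Ordinal.ToType.toOrd]⟩

theorem o1_lt_iff {i j : W1} : o1 i < o1 j ↔ i < j := by
  unfold o1
  rw [Subtype.coe_lt_coe]
  exact OrderIso.lt_iff_lt _

theorem o2_lt_iff {i j : W2} : o2 i < o2 j ↔ i < j := by
  unfold o2
  rw [Subtype.coe_lt_coe]
  exact OrderIso.lt_iff_lt _

theorem o1_inj {i j : W1} (h : o1 i = o1 j) : i = j := by
  rcases lt_trichotomy i j with h' | h' | h'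
  · exact absurd h (o1_lt_iff.2 h').ne
  · exact h'
  · exact absurd h.symm (o1_lt_iff.2 h').ne

theorem o2_inj {i j : W2} (h : o2 i = o2 j) : i = j := by
  rcases lt_trichotomy i j with h' | h' | h'
  · exact absurd h (o2_lt_iff.2 h').ne
  · exact h'
  · exact absurd h.symm (o2_lt_iff.2 h').ne

open Cardinal in
theorem O2_bdd {ι : Type} (h : #ι < aleph 2) (f : ι → Ordinal.{0}) (hf : ∀ i, f i < O2) :
    ∃ α < O2, ∀ i, f i < α := by
  have hreg : Cardinal.IsRegular (aleph 2) := by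
    have : (2 : Ordinal.{0}) = Order.succ 1 := by
      rw [Ordinal.succ_one]
    rw [this]
    exact isRegular_aleph_succ 1
  have hc : #ι < O2.cof := by
    unfold O2
    rw [hreg.cof_ord]; exact h
  refine ⟨⨆ i, f i + 1, Ordinal.iSup_add_one_lt_of_lt_cof hc hf, fun i => ?_⟩
  exact Ordinal.lt_iSup_add_one _ i

open Cardinal in
theorem O1_bdd {ι : Type} [Countable ι] (f : ι → Ordinal.{0}) (hf : ∀ i, f i < O1) :
    ∃ α < O1, ∀ i, f i < α := by
  choose g hg using fun i => o1_surj (hf i)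
  obtain ⟨a, ha⟩ := W1_bdd (countable_range g)
  exact ⟨o1 a, o1_lt a, fun i => hg i ▸ o1_lt_iff.2 (ha _ (mem_range_self i))⟩

open Cardinal in
theorem W2_bdd {ι : Type} (h : #ι < aleph 2) (f : ι → W2) : ∃ a : W2, ∀ i, f i < a := by
  obtain ⟨α, hα, h1⟩ := O2_bdd h (fun i => o2 (f i)) (fun i => o2_lt _)
  obtain ⟨a, rfl⟩ := o2_surj hα
  exact ⟨a, fun i => o2_lt_iff.1 (h1 i)⟩

open Cardinal in
theorem W2_bdd' {ι : Type} [Countable ι] (f : ι → W2) : ∃ a : W2, ∀ i, f i < a :=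
  W2_bdd (lt_of_le_of_lt (mk_le_aleph0 (α := ι)) (aleph0_lt_aleph_one.trans
    (aleph_lt_aleph.2 (by norm_num)))) f

open Cardinal in
theorem W2_bdd1 {ι : Type} (h : #ι ≤ aleph 1) (f : ι → W2) : ∃ a : W2, ∀ i, f i < a :=
  W2_bdd (lt_of_le_of_lt h (aleph_lt_aleph.2 (by norm_num))) f

open Cardinal in
theorem card_idx : #(Bool × W1 × ℕ × ℕ) ≤ aleph 1 := by
  have h3 : ℵ₀ ≤ aleph 1 := aleph0_le_aleph 1
  rw [mk_prod, mk_prod, mk_prod]
  simp only [lift_id]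
  refine mul_le_of_le h3 (mk_le_aleph0.trans h3) (mul_le_of_le h3 ?_
    (mul_le_of_le h3 (mk_le_aleph0.trans h3) (mk_le_aleph0.trans h3)))
  rw [W1_card]

/-! ### Antichains -/

open Cardinal in
theorem exists_inj_W1 {I : Type v} {s : Set I} (h : ¬ s.Countable) :
    ∃ g : W1 → I, Function.Injective g ∧ ∀ i, g i ∈ s := by
  have h1 : ℵ₀ < #s := by
    rw [← not_le, le_aleph0_iff_set_countable]; exact h
  have h2 : lift.{v} #W1 ≤ lift.{0} #s := by
    rw [W1_card, lift_aleph]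
    have h3 : ℵ₀ < lift.{0} #s := by rwa [aleph0_lt_lift]
    have h4 : Order.succ ℵ₀ ≤ lift.{0} #s := Order.succ_le_of_lt h3
    rw [succ_aleph0] at h4
    simpa using h4
  obtain ⟨g⟩ := lift_mk_le'.1 h2
  exact ⟨fun i => (g i).1, fun i j hij => g.injective (Subtype.ext hij), fun i => (g i).2⟩

theorem countable_of_incompat {I : Type*} (s : Set I) (f : I → Cn) (hf : ∀ i ∈ s, f i ∈ PP Val)
    (h : ∀ i ∈ s, ∀ j ∈ s, i ≠ j → ∀ r ∈ PP Val, r ≤ f i → ¬ r ≤ f j) : s.Countable := by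
  by_contra hc
  obtain ⟨g, hg, hgs⟩ := exists_inj_W1 hc
  obtain ⟨ξ, _, η, _, hlt, r, hr, h1, h2⟩ := cc_all.2 univ W1_unc (fun i => f (g i))
    (fun i _ => hf _ (hgs i))
  exact h _ (hgs ξ) _ (hgs η) (fun he => hlt.ne (hg he)) r hr h1 h2

/-- Countable predense subsets. -/
theorem exists_predense (X : Set Cn) (hX : X ⊆ PP Val)
    (hd : ∀ p ∈ X, ∀ q ∈ PP Val, q ≤ p → q ∈ X) :
    ∃ g : ℕ → Option Cn, (∀ k t, g k = some t → t ∈ X) ∧
      ∀ p ∈ X, ∃ r ∈ PP Val, r ≤ p ∧ ∃ k t, g k = some t ∧ r ≤ t := by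
  classical
  obtain ⟨Y, hY⟩ : ∃ Y : Set Cn, Maximal (fun Y : Set Cn => Y ⊆ X ∧
      ∀ s ∈ Y, ∀ t ∈ Y, s ≠ t → ∀ r ∈ PP Val, r ≤ s → ¬ r ≤ t) Y := by
    apply zorn_subset
    intro c hc hchain
    refine ⟨⋃₀ c, ⟨sUnion_subset fun s hs => (hc hs).1, ?_⟩,
      fun s hs => subset_sUnion_of_mem hs⟩
    rintro x ⟨s, hs, hxs⟩ y ⟨t, ht, hyt⟩ hxy
    rcases hchain.total hs ht with hst | hts
    · exact (hc ht).2 x (hst hxs) y hyt hxy
    · exact (hc hs).2 x hxs y (hts hyt) hxy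
  have hYc : Y.Countable := countable_of_incompat Y id (fun s hs => hX (hY.1.1 hs)) hY.1.2
  have hpre : ∀ p ∈ X, ∃ r ∈ PP Val, r ≤ p ∧ ∃ t ∈ Y, r ≤ t := by
    intro p hp
    by_contra hcon
    push Not at hcon
    have hpY : p ∉ Y := fun h => hcon p (hX hp) le_rfl p h le_rfl
    refine hpY (hY.2 (y := insert p Y) ⟨insert_subset hp hY.1.1, ?_⟩ (subset_insert _ _)
      (mem_insert _ _))
    rintro s hs t ht hne r hr h1 h2
    rcases hs with rfl | hs
    · rcases ht with rfl | ht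
      · exact hne rfl
      · exact hcon r hr h1 t ht h2
    · rcases ht with rfl | ht
      · exact hcon r hr h2 s hs h1
      · exact hY.1.2 s hs t ht hne r hr h1 h2
  rcases Y.eq_empty_or_nonempty with he | hne
  · refine ⟨fun _ => none, fun k t h => by simp at h, fun p hp => ?_⟩
    obtain ⟨r, _, _, t, ht, _⟩ := hpre p hp
    rw [he] at ht
    exact absurd ht (notMem_empty t)
  · obtain ⟨g, hg⟩ := hYc.exists_eq_range hne
    refine ⟨fun k => some (g k), ?_, ?_⟩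
    · intro k t h
      simp only [Option.some.injEq] at h
      exact h ▸ hY.1.1 (hg ▸ mem_range_self k)
    · intro p hp
      obtain ⟨r, hr, hrp, t, ht, hrt⟩ := hpre p hp
      rw [hg] at ht
      obtain ⟨k, rfl⟩ := ht
      exact ⟨r, hr, hrp, k, _, rfl, hrt⟩

/-- A label for a system of downward closed sets. -/
theorem exists_label (X : Bool → W1 → ℕ → Set Cn) (hX : ∀ b i m, X b i m ⊆ PP Val)
    (hd : ∀ b i m, ∀ p ∈ X b i m, ∀ q ∈ PP Val, q ≤ p → q ∈ X b i m) :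
    ∃ l : Lam, (∀ b i m, ev l b i m ⊆ X b i m) ∧
      ∀ b i m, ∀ p ∈ X b i m, ∃ r ∈ PP Val, r ≤ p ∧ Pos (ev l b i m) r := by
  choose g hg1 hg2 using fun b i m => exists_predense (X b i m) (hX b i m) (hd b i m)
  obtain ⟨l, hl⟩ := lab_surj g
  refine ⟨l, ?_, ?_⟩
  · rintro b i m t ⟨k, hk⟩
    rw [hl] at hk
    exact hg1 b i m k t hk
  · intro b i m p hp
    obtain ⟨r, hr, hrp, k, t, hk, hrt⟩ := hg2 b i m p hp
    exact ⟨r, hr, hrp, t, ⟨k, by rw [hl]; exact hk⟩, hrt⟩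

/-! ### Stages -/

/-- the conditions with support in the stages below `a` -/
def Stg (a : W2) (t : Cn) : Prop := ∀ c, t.f c ≠ ⊤ → (ofLex c).1 < a

theorem exists_stg (t : Cn) : ∃ a, Stg a t := by
  haveI : Finite {c | t.f c ≠ ⊤} := t.fin
  obtain ⟨a, ha⟩ := W2_bdd' (fun c : {c | t.f c ≠ ⊤} => (ofLex c.1).1)
  exact ⟨a, fun c hc => ha ⟨c, hc⟩⟩

theorem Stg.mono {a b : W2} {t : Cn} (h : a ≤ b) (ht : Stg a t) : Stg b t :=
  fun c hc => (ht c hc).trans_le h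

/-- Labels are bounded. -/
theorem lab_stg (l : Lam) : ∃ a, ∀ b i m, ∀ t ∈ ev l b i m, Stg a t := by
  have h : ∀ x : Bool × W1 × ℕ × ℕ, ∃ a, ∀ t, lab l x.1 x.2.1 x.2.2.1 x.2.2.2 = some t →
      Stg a t := by
    intro x
    cases hx : lab l x.1 x.2.1 x.2.2.1 x.2.2.2 with
    | none => exact ⟨(exists_stg (⊤ : Cn)).choose, fun t ht => by simp at ht⟩
    | some t =>
      obtain ⟨a, ha⟩ := exists_stg t
      refine ⟨a, fun t' ht' => ?_⟩
      simp only [Option.some.injEq] at ht'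
      exact ht' ▸ ha
  choose a ha using h
  obtain ⟨b, hb⟩ := W2_bdd1 card_idx a
  refine ⟨b, ?_⟩
  rintro b' i m t ⟨k, hk⟩
  exact (ha (b', i, m, k) t hk).mono (hb _).le

theorem stg_mem {a : W2} {t : Cn} (ht : t ∈ PP Val) (h : Stg a t) {c : Co}
    (hc : a ≤ (ofLex c).1) : t ∈ SS Val c := by
  rw [mem_SS_iff]
  refine ⟨ht, fun x hx => ?_⟩
  rw [Prod.Lex.lt_iff]
  exact Or.inl ((h x hx).trans_le hc)

/-! ### Restrictions -/

theorem le_iff_res {c : Co} {t : Cn} (ht : t ∈ SS Val c) (q : Cn) : q ≤ t ↔ q.res c ≤ t := by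
  constructor
  · intro h
    have := Con.res_mono h c
    rwa [res_of_mem Val ht] at this
  · intro h
    exact (q.le_res c).trans h

theorem Pos_res {c : Co} {X : Set Cn} (hX : X ⊆ SS Val c) (q : Cn) :
    Pos X q ↔ Pos X (q.res c) := by
  unfold Pos
  refine exists_congr fun t => and_congr_right fun ht => le_iff_res (hX ht) q

theorem Neg_res {c : Co} {X : Set Cn} (hX : X ⊆ SS Val c) {q : Cn} (hq : q ∈ PP Val) :
    Neg (SS Val c) X (q.res c) ↔ Neg (PP Val) X q := by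
  constructor
  · intro h r hr hrq hpos
    exact h (r.res c) (res_mem Val hr c) (Con.res_mono hrq c) ((Pos_res hX r).1 hpos)
  · intro h r hr hrq hpos
    obtain ⟨s, hs, h1, h2, h3, _⟩ := amal_mem' anti_Val hq hr hrq
    exact h s hs h1 (hpos.mono h2)

theorem Bit_res {c : Co} {X : Set Cn} (hX : X ⊆ SS Val c) {q : Cn} (hq : q ∈ PP Val) (b : Bool) :
    Bit (SS Val c) X b (q.res c) ↔ Bit (PP Val) X b q := by
  unfold Bit
  split_ifs
  · exact (Pos_res hX q).symm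
  · exact Neg_res hX hq

theorem Seg_res {c : Co} {x : ℕ → Set Cn} (hX : ∀ m, x m ⊆ SS Val c) {q : Cn} (hq : q ∈ PP Val)
    (σ : List Bool) : Seg (SS Val c) x σ (q.res c) ↔ Seg (PP Val) x σ q := by
  unfold Seg
  exact forall_congr' fun m => forall_congr' fun h => Bit_res (hX m) hq _

/-- Changing a condition at one coordinate. -/
theorem extend_at (q : QQ) (c : Co) {r : Cn} (hr : r ∈ SS Val c) (hrq : r ≤ q.1.res c) {e : DD}
    (he : e ≤ q.1.f c) (hv : Val c (SS Val c) r e) :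
    ∃ q' : QQ, q' ≤ q ∧ q'.1.res c = r ∧ q'.1.f c = e ∧ q'.1 ≤ r := by
  obtain ⟨h1, h2, h3, h4⟩ := amal_mem anti_Val (e := e) q.2 hr hrq he (fun _ => hv)
  exact ⟨⟨_, h1⟩, h2, h4, amal_self _ _ _ _, h3⟩

theorem extend_res (q : QQ) (c : Co) {r : Cn} (hr : r ∈ SS Val c) (hrq : r ≤ q.1.res c) :
    ∃ q' : QQ, q' ≤ q ∧ q'.1 ≤ r := by
  obtain ⟨s, hs, h1, h2, h3, _⟩ := amal_mem' anti_Val q.2 hr hrq
  exact ⟨⟨s, hs⟩, h1, h2⟩

/-! ### Labels for names -/

/-- A label for a system of truth values. -/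
theorem label_of (u : Bool → W1 → ℕ → Om QQ) :
    ∃ l : Lam, ∃ a : W2, (∀ c : Co, a ≤ (ofLex c).1 → ∀ b i m, ev l b i m ⊆ SS Val c) ∧
      (∀ b i m (p : QQ), Pos (ev l b i m) p.1 → (u b i m).holds p) ∧
      ∀ b i m (p : QQ), (u b i m).holds p → ∃ r : QQ, r ≤ p ∧ Pos (ev l b i m) r.1 := by
  obtain ⟨l, h1, h2⟩ := exists_label (fun b i m => {t | ∃ h : t ∈ PP Val, (u b i m).holds ⟨t, h⟩})
    (fun b i m t ht => ht.1) (by
      rintro b i m p ⟨hp, h⟩ q hq hqp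
      exact ⟨hq, Om.mono _ (show (⟨q, hq⟩ : QQ) ≤ ⟨p, hp⟩ from hqp) h⟩)
  obtain ⟨a, ha⟩ := lab_stg l
  refine ⟨l, a, ?_, ?_, ?_⟩
  · intro c hc b i m t ht
    exact stg_mem (h1 b i m ht).1 (ha b i m t ht) hc
  · rintro b i m p ⟨t, ht, hpt⟩
    obtain ⟨ht', h⟩ := h1 b i m ht
    exact Om.mono _ (show p ≤ ⟨t, ht'⟩ from hpt) h
  · intro b i m p hp
    obtain ⟨r, hr, hrp, hpos⟩ := h2 b i m p.1 ⟨p.2, hp⟩
    exact ⟨⟨r, hr⟩, hrp, hpos⟩

/-! ### Values of functions -/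

/-- The possible values of a function in the extension. -/
theorem vals_countable (u : Ordinal.{0} → Om QQ) (p : QQ)
    (hfun : ∀ q ≤ p, ∀ β β', (u β).holds q → (u β').holds q → β = β') :
    {β | ∃ q ≤ p, (u β).holds q}.Countable := by
  classical
  have hch : ∀ β, ∃ q : QQ, (∃ q ≤ p, (u β).holds q) → q ≤ p ∧ (u β).holds q := by
    intro β
    by_cases h : ∃ q ≤ p, (u β).holds q
    · obtain ⟨q, hq⟩ := h
      exact ⟨q, fun _ => hq⟩
    · exact ⟨p, fun h' => absurd h' h⟩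
  choose f hf using hch
  refine countable_of_incompat _ (fun β => (f β).1) (fun β _ => (f β).2) ?_
  intro β hβ β' hβ' hne r hr h1 h2
  apply hne
  obtain ⟨a1, a2⟩ := hf β hβ
  obtain ⟨b1, b2⟩ := hf β' hβ'
  exact hfun ⟨r, hr⟩ (le_trans (show (⟨r, hr⟩ : QQ) ≤ f β from h1) a1) β β'
    (Om.mono _ (show (⟨r, hr⟩ : QQ) ≤ f β from h1) a2)
    (Om.mono _ (show (⟨r, hr⟩ : QQ) ≤ f β' from h2) b2)

end Pool.Agent.H83.F
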