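import Pool.Agent.H83.F.D1Base

/-!
# D1: the complete ordered field of reals of a nice model
-/

universe v w

set_option linter.unusedSectionVars false
set_option linter.unusedVariables false

open MeasureTheory

namespace Pool.Agent.H83.F

open Pool.Agent.H86

section Formulas

variable {N : Type v} {Ω : Type w} (L : LogicStr N Ω)

/-- `m` is a Dedekind cut -/
def f1Cut (om g m : N) : Ω :=
  L.and (L.ex fun n => L.and (L.mem n om) (L.mem n m))
    (L.and (L.ex fun n => L.and (L.mem n om) (L.imp (L.mem n m) L.bot))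
      (L.and (L.all fun n => L.all fun n' => L.imp (fRel L g n n') (L.imp (L.mem n' m)
        (L.mem n m))) (L.all fun n => L.imp (L.mem n om) (L.imp (L.mem n m) (L.ex fun n' =>
          L.and (L.mem n' m) (fRel L g n n'))))))

/-- order of cuts -/
def f1Lt (om m n : N) : Ω :=
  L.ex fun q => L.and (L.mem q om) (L.and (L.imp (L.mem q m) L.bot) (L.mem q n))

/-- `k` is the sum of `m` and `n` -/
def f1Add (om gf gs ga m n k : N) : Ω :=
  L.all fun q => L.imp (L.mem q om) (L.iff (L.mem q k) (L.ex fun a => L.ex fun b => L.ex fun t =>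
    L.and (L.mem a m) (L.and (L.mem b n) (L.and (fRel L gf t a) (L.and (fRel L gs t b)
      (fRel L ga q t))))))

/-- `k` is the product of `m` and `n` -/
def f1Mul (om gf gs gu m n k : N) : Ω :=
  L.all fun q => L.imp (L.mem q om) (L.iff (L.mem q k)
    (L.ex fun a => L.ex fun a' => L.ex fun b => L.ex fun b' => L.ex fun s => L.ex fun t =>
      L.ex fun r => L.and (L.mem a m) (L.and (L.and (L.mem a' om) (L.imp (L.mem a' m) L.bot))
      (L.and (L.mem b n) (L.and (L.and (L.mem b' om) (L.imp (L.mem b' n) L.bot))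
      (L.and (L.and (fRel L gf s a) (fRel L gs s a')) (L.and (L.and (fRel L gf t b)
      (fRel L gs t b')) (L.and (L.and (fRel L gf r s) (fRel L gs r t)) (fRel L gu q r)))))))))

/-- addition as a relation between pairs and reals -/
def f1A (om gf gs ga u k : N) : Ω :=
  L.ex fun m => L.ex fun n => L.and (fPr L u m n) (f1Add L om gf gs ga m n k)

/-- multiplication as a relation between pairs and reals -/
def f1M (om gf gs gu u k : N) : Ω :=
  L.ex fun m => L.ex fun n => L.and (fPr L u m n) (f1Mul L om gf gs gu m n k)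

end Formulas

namespace Nice

variable {𝒯 : Set (Set ℕ)} {N : Nice 𝒯}

theorem cut_iff {g : N.M} (hg : N.CR g ltQT) {m : N.M} (hm : Sub N.E m N.om) :
    f1Cut (propStr N.E) N.om g m ↔ ∃ x, N.Cd m x := by
  have hgn : ∀ a b, Rel N.E g (N.nat a) (N.nat b) ↔ qd a < qd b := fun a b => by
    rw [hg.nat]; simp [ltQT]
  have h1 : f1Cut (propStr N.E) N.om g m ↔ IsCut (N.val m) := by
    constructor
    · rintro ⟨⟨n, hn, hnm⟩, ⟨n', hn', hnm'⟩, h3, h4⟩
      obtain ⟨a, rfl⟩ := (N.E_om n).1 hn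
      obtain ⟨a', rfl⟩ := (N.E_om n').1 hn'
      refine ⟨⟨a, hnm⟩, ⟨a', hnm'⟩, fun b b' h5 h6 => h3 (N.nat b) (N.nat b') ((hgn _ _).2 h5) h6,
        fun b hb => ?_⟩
      obtain ⟨c, h5, h6⟩ := h4 (N.nat b) (N.nat_om b) hb
      obtain ⟨c', rfl⟩ := (N.E_om c).1 (hm c h5)
      exact ⟨c', h5, (hgn _ _).1 h6⟩
    · rintro ⟨⟨a, ha⟩, ⟨a', ha'⟩, h3, h4⟩
      refine ⟨⟨N.nat a, N.nat_om a, ha⟩, ⟨N.nat a', N.nat_om a', ha'⟩, fun b b' h5 h6 => ?_,
        fun b hb hbm => ?_⟩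
      · obtain ⟨c, c', rfl, rfl, h7⟩ := (hg _ _).1 h5
        exact h3 c c' (by simpa [ltQT] using h7) h6
      · obtain ⟨c, rfl⟩ := (N.E_om b).1 hb
        obtain ⟨c', h5, h6⟩ := h4 c hbm
        exact ⟨N.nat c', h5, (hgn _ _).2 h6⟩
  rw [h1, isCut_iff]
  exact ⟨fun ⟨x, hx⟩ => ⟨x, hm, hx⟩, fun ⟨x, hx⟩ => ⟨x, hx.2⟩⟩

theorem lt_iff' {m n : N.M} {x y : ℝ} (hm : N.Cd m x) (hn : N.Cd n y) :
    f1Lt (propStr N.E) N.om m n ↔ x < y := by
  rw [cut_lt_iff]
  constructor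
  · rintro ⟨q, h1, h2, h3⟩
    obtain ⟨a, rfl⟩ := (N.E_om q).1 h1
    refine ⟨a, ?_, ?_⟩
    · rw [← hm.2]; exact h2
    · rw [← hn.2]; exact h3
  · rintro ⟨a, h1, h2⟩
    refine ⟨N.nat a, N.nat_om a, ?_, ?_⟩
    · rw [← hm.2] at h1; exact h1
    · rw [← hn.2] at h2; exact h2

/-- pairs of natural numbers -/
theorem pr_iff {gf gs gm gl gr : N.M} (h : N.SC gf gs gm gl gr) {t x y : N.M} :
    (Rel N.E gf t x ∧ Rel N.E gs t y) ↔
      ∃ a b, x = N.nat a ∧ y = N.nat b ∧ t = N.nat (Nat.pair a b) := by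
  constructor
  · rintro ⟨h1, h2⟩
    obtain ⟨a, b, rfl, rfl, h3⟩ := (h.gf _ _).1 h1
    obtain ⟨a', b', e, rfl, h4⟩ := (h.gs _ _).1 h2
    rw [← N.nat_inj e] at h4
    have h3' : (Nat.unpair a).1 = b := by simpa [fstT] using h3
    have h4' : (Nat.unpair a).2 = b' := by simpa [sndT] using h4
    refine ⟨b, b', rfl, rfl, ?_⟩
    rw [← h3', ← h4', Nat.pair_unpair]
  · rintro ⟨a, b, rfl, rfl, rfl⟩
    exact ⟨h.gf.nat.2 (by simp [fstT]), h.gs.nat.2 (by simp [sndT])⟩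

theorem add_iff {gf gs gm gl gr ga : N.M} (h : N.SC gf gs gm gl gr) (ha : N.CR ga addT)
    {m n k : N.M} {x y : ℝ} (hm : N.Cd m x) (hn : N.Cd n y) (hk : Sub N.E k N.om) :
    f1Add (propStr N.E) N.om gf gs ga m n k ↔ N.Cd k (x + y) := by
  have key : ∀ q, (∃ a b t, N.E a m ∧ N.E b n ∧ Rel N.E gf t a ∧ Rel N.E gs t b ∧
      Rel N.E ga (N.nat q) t) ↔ q ∈ cut (x + y) := by
    intro q
    rw [cut_add]
    constructor
    · rintro ⟨a, b, t, h1, h2, h3, h4, h5⟩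
      obtain ⟨a', b', rfl, rfl, rfl⟩ := (pr_iff h).1 ⟨h3, h4⟩
      refine ⟨a', ?_, b', ?_, ha.nat.1 h5⟩
      · rw [← hm.2]; exact h1
      · rw [← hn.2]; exact h2
    · rintro ⟨a, h1, b, h2, h3⟩
      rw [← hm.2] at h1
      rw [← hn.2] at h2
      obtain ⟨h4, h5⟩ := (pr_iff h (t := N.nat (Nat.pair a b))).2 ⟨a, b, rfl, rfl, rfl⟩
      exact ⟨N.nat a, N.nat b, N.nat (Nat.pair a b), h1, h2, h4, h5, ha.nat.2 h3⟩
  constructor
  · intro h1
    refine ⟨hk, ?_⟩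
    ext q
    exact (h1 (N.nat q) (N.nat_om q)).trans (key q)
  · rintro ⟨-, h1⟩ q hq
    obtain ⟨a, rfl⟩ := (N.E_om q).1 hq
    have : N.E (N.nat a) k ↔ a ∈ cut (x + y) := by rw [← h1]; rfl
    exact this.trans (key a).symm

theorem mul_iff {gf gs gm gl gr gu : N.M} (h : N.SC gf gs gm gl gr) (hu : N.CR gu mulT)
    {m n k : N.M} {x y : ℝ} (hm : N.Cd m x) (hn : N.Cd n y) (hk : Sub N.E k N.om) :
    f1Mul (propStr N.E) N.om gf gs gu m n k ↔ N.Cd k (x * y) := by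
  have key : ∀ q, (∃ a a' b b' s t r, N.E a m ∧ (N.E a' N.om ∧ ¬ N.E a' m) ∧ N.E b n ∧
      (N.E b' N.om ∧ ¬ N.E b' n) ∧ (Rel N.E gf s a ∧ Rel N.E gs s a') ∧
      (Rel N.E gf t b ∧ Rel N.E gs t b') ∧ (Rel N.E gf r s ∧ Rel N.E gs r t) ∧
      Rel N.E gu (N.nat q) r) ↔ q ∈ cut (x * y) := by
    intro q
    rw [cut_mul]
    constructor
    · rintro ⟨a, a', b, b', s, t, r, h1, ⟨_, h2⟩, h3, ⟨_, h4⟩, h5, h6, h7, h8⟩
      obtain ⟨c, c', rfl, rfl, rfl⟩ := (pr_iff h).1 h5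
      obtain ⟨d, d', rfl, rfl, rfl⟩ := (pr_iff h).1 h6
      obtain ⟨e, e', h9, h10, rfl⟩ := (pr_iff h).1 h7
      rw [← N.nat_inj h9, ← N.nat_inj h10] at h8
      refine ⟨c, ?_, c', ?_, d, ?_, d', ?_, hu.nat.1 h8⟩
      · rw [← hm.2]; exact h1
      · rw [← hm.2]; exact h2
      · rw [← hn.2]; exact h3
      · rw [← hn.2]; exact h4
    · rintro ⟨a, h1, a', h2, b, h3, b', h4, h5⟩
      rw [← hm.2] at h1 h2
      rw [← hn.2] at h3 h4
      exact ⟨N.nat a, N.nat a', N.nat b, N.nat b', N.nat (Nat.pair a a'), N.nat (Nat.pair b b'),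
        N.nat (Nat.pair (Nat.pair a a') (Nat.pair b b')), h1, ⟨N.nat_om _, h2⟩, h3,
        ⟨N.nat_om _, h4⟩, (pr_iff h).2 ⟨_, _, rfl, rfl, rfl⟩, (pr_iff h).2 ⟨_, _, rfl, rfl, rfl⟩,
        (pr_iff h).2 ⟨_, _, rfl, rfl, rfl⟩, hu.nat.2 h5⟩
  constructor
  · intro h1
    refine ⟨hk, ?_⟩
    ext q
    exact (h1 (N.nat q) (N.nat_om q)).trans (key q)
  · rintro ⟨-, h1⟩ q hq
    obtain ⟨a, rfl⟩ := (N.E_om q).1 hq
    have : N.E (N.nat a) k ↔ a ∈ cut (x * y) := by rw [← h1]; rfl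
    exact this.trans (key a).symm

/-- The real field structure. -/
theorem isRealField_of (hT : T1 ⊆ 𝒯) {R A T L : N.M}
    (mem : ∀ m, N.E m R ↔ ∃ x, N.Cd m x)
    (add : ∀ m n k x y, N.Cd m x → N.Cd n y → (Op N.E A m n k ↔ N.Cd k (x + y)))
    (mul : ∀ m n k x y, N.Cd m x → N.Cd n y → (Op N.E T m n k ↔ N.Cd k (x * y)))
    (lt : ∀ m n x y, N.Cd m x → N.Cd n y → (Rel N.E L m n ↔ x < y)) :
    IsRealField N.E R A T L := by
  classical
  constructor
  · let F := N.RMf hT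
    let e0 : {m : N.M // N.E m R} → F := fun m =>
      ⟨((mem m.1).1 m.2).choose, ⟨m.1, ((mem m.1).1 m.2).choose_spec⟩⟩
    have he0 : ∀ m : {m : N.M // N.E m R}, N.Cd m.1 (e0 m : ℝ) := fun m =>
      ((mem m.1).1 m.2).choose_spec
    have hbij : Function.Bijective e0 := by
      constructor
      · intro m m' h
        have h1 := he0 m
        rw [h] at h1
        exact Subtype.ext (h1.left (he0 m'))
      · rintro ⟨x, ⟨m, hm⟩⟩
        refine ⟨⟨m, (mem m).2 ⟨x, hm⟩⟩, Subtype.ext ?_⟩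
        exact (he0 ⟨m, (mem m).2 ⟨x, hm⟩⟩).right hm
    let e : {m : N.M // N.E m R} ≃ F := Equiv.ofBijective e0 hbij
    have he : ∀ m : {m : N.M // N.E m R}, N.Cd m.1 (e m : ℝ) := he0
    have hinj : Function.Injective (fun m : {m : N.M // N.E m R} => (e m : ℝ)) :=
      Subtype.val_injective.comp e.injective
    letI iF : Field {m : N.M // N.E m R} := e.field
    letI iL : LinearOrder {m : N.M // N.E m R} :=
      LinearOrder.lift' (fun m => (e m : ℝ)) hinj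
    have hadd : ∀ x y : {m : N.M // N.E m R}, (e (x + y) : ℝ) = e x + e y := by
      intro x y
      rw [Equiv.add_def, Equiv.apply_symm_apply]
      rfl
    have hmul : ∀ x y : {m : N.M // N.E m R}, (e (x * y) : ℝ) = e x * e y := by
      intro x y
      rw [Equiv.mul_def, Equiv.apply_symm_apply]
      rfl
    have hzero : ((e 0 : F) : ℝ) = 0 := by
      rw [Equiv.zero_def, Equiv.apply_symm_apply]
      rfl
    have hone : ((e 1 : F) : ℝ) = 1 := by
      rw [Equiv.one_def, Equiv.apply_symm_apply]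
      rfl
    refine ⟨iF, iL, ?_, fun x y z => ?_, fun x y z => ?_, fun x y => ?_⟩
    · exact Function.Injective.isStrictOrderedRing (fun m : {m : N.M // N.E m R} => (e m : ℝ))
        hzero hone hadd hmul Iff.rfl Iff.rfl
    · rw [add _ _ _ _ _ (he x) (he y)]
      constructor
      · intro h
        apply hinj
        show (e (x + y) : ℝ) = e z
        rw [hadd]
        exact h.right (he z)
      · rintro rfl
        rw [← hadd]; exact he _
    · rw [mul _ _ _ _ _ (he x) (he y)]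
      constructor
      · intro h
        apply hinj
        show (e (x * y) : ℝ) = e z
        rw [hmul]
        exact h.right (he z)
      · rintro rfl
        rw [← hmul]; exact he _
    · rw [lt _ _ _ _ (he x) (he y)]
      rfl
  · rintro X hXR ⟨c0, hc0⟩ ⟨b, hbR, hb⟩
    obtain ⟨x0, hx0⟩ := (mem c0).1 (hXR c0 hc0)
    obtain ⟨y, hy⟩ := (mem b).1 hbR
    have hle : ∀ c c' x x', N.Cd c x → N.Cd c' x' → ((c = c' ∨ Rel N.E L c c') ↔ x ≤ x') := by
      intro c c' x x' hc hc'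
      rw [lt _ _ _ _ hc hc', le_iff_eq_or_lt]
      refine or_congr ⟨?_, ?_⟩ Iff.rfl
      · rintro rfl; exact hc.right hc'
      · rintro rfl; exact hc.left hc'
    have hZ := exists_set (N := N) ((codeStr.ex fun c => codeStr.and (codeStr.mem c 1)
        (codeStr.mem 0 c)) 10) (asn R [X])
      (P := fun n => ∃ c, N.E c X ∧ N.E n c) (fun x => Iff.rfl)
    have hbdd : BddAbove {x | ∃ c, N.E c X ∧ N.Cd c x} := by
      refine ⟨y, ?_⟩
      rintro x ⟨c, hc, hx⟩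
      exact (hle _ _ _ _ hx hy).1 (hb c hc)
    have hne : {x | ∃ c, N.E c X ∧ N.Cd c x}.Nonempty := ⟨x0, c0, hc0, hx0⟩
    have e : {n | ∃ c, N.E c X ∧ N.E (N.nat n) c} = cut (sSup {x | ∃ c, N.E c X ∧ N.Cd c x}) := by
      ext n
      constructor
      · rintro ⟨c, hc, hn⟩
        obtain ⟨x, hx⟩ := (mem c).1 (hXR c hc)
        have h1 : n ∈ cut x := by rw [← hx.2]; exact hn
        have h2 : x ≤ sSup {x | ∃ c, N.E c X ∧ N.Cd c x} := le_csSup hbdd ⟨c, hc, hx⟩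
        exact lt_of_lt_of_le h1 h2
      · intro hn
        obtain ⟨x, ⟨c, hc, hx⟩, h1⟩ := exists_lt_of_lt_csSup hne hn
        refine ⟨c, hc, ?_⟩
        have h2 : n ∈ cut x := h1
        rw [← hx.2] at h2; exact h2
    rw [e] at hZ
    obtain ⟨s, hs⟩ := hZ
    refine ⟨s, (mem s).2 ⟨_, hs⟩, fun c hc => ?_, fun b' hb' h => ?_⟩
    · obtain ⟨x, hx⟩ := (mem c).1 (hXR c hc)
      exact (hle _ _ _ _ hx hs).2 (le_csSup hbdd ⟨c, hc, hx⟩)
    · obtain ⟨y', hy'⟩ := (mem b').1 hb'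
      refine (hle _ _ _ _ hs hy').2 (csSup_le hne ?_)
      rintro x ⟨c, hc, hx⟩
      exact (hle _ _ _ _ hx hy').1 (h c hc)

end Nice

open Nice in
/-- The reals of a nice model. -/
theorem target_d1 : TargetD1 T1 := by
  intro 𝒯 N hT
  have hT3 : T3 ⊆ 𝒯 := T3_sub_T1.trans hT
  obtain ⟨gf, gs, gm, gl, gr, hSC⟩ := exists_SC (N := N) (T4_sub_T3.trans hT3)
  obtain ⟨glt, hglt⟩ := exists_CR (N := N) (T := ltQT) (hT3 (by simp [T3]))
  obtain ⟨ga, hga⟩ := exists_CR (N := N) (T := addT) (hT (by simp [T1]))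
  obtain ⟨gu, hgu⟩ := exists_CR (N := N) (T := mulT) (hT (by simp [T1]))
  obtain ⟨p, hp⟩ := exists_pow_om (N := N)
  obtain ⟨R, hR⟩ := sep_of N.zf (f1Cut codeStr 1 2 0 10) (asn p [N.om, glt])
    (P := fun m => f1Cut (propStr N.E) N.om glt m) (fun x => Iff.rfl) p
  have mem : ∀ m, N.E m R ↔ ∃ x, N.Cd m x := by
    intro m
    rw [hR, hp]
    constructor
    · rintro ⟨h1, h2⟩
      exact (cut_iff hglt h1).1 h2
    · rintro ⟨x, hx⟩
      exact ⟨hx.1, (cut_iff hglt hx.1).2 ⟨x, hx⟩⟩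
  obtain ⟨RR, hRR⟩ := exists_prod N.zf R R
  obtain ⟨A, _, hA⟩ := exists_rel N.zf (pairCode (fun u k => f1A codeStr 1 2 3 4 u k) 30)
    (asn p [N.om, gf, gs, ga]) (P := fun u k => f1A (propStr N.E) N.om gf gs ga u k)
    (fun x => Iff.rfl) RR R
  obtain ⟨T, _, hT'⟩ := exists_rel N.zf (pairCode (fun u k => f1M codeStr 1 2 3 4 u k) 30)
    (asn p [N.om, gf, gs, gu]) (P := fun u k => f1M (propStr N.E) N.om gf gs gu u k)
    (fun x => Iff.rfl) RR R
  obtain ⟨L, _, hL⟩ := exists_rel N.zf (pairCode (fun m n => f1Lt codeStr 1 m n) 30)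
    (asn p [N.om]) (P := fun m n => f1Lt (propStr N.E) N.om m n) (fun x => Iff.rfl) R R
  have hAop : ∀ m n k, Op N.E A m n k ↔ (N.E m R ∧ N.E n R ∧ N.E k R ∧
      f1Add (propStr N.E) N.om gf gs ga m n k) := by
    intro m n k
    constructor
    · rintro ⟨u, hu, hrel⟩
      obtain ⟨h1, h2, m', n', h3, h4⟩ := (hA u k).1 hrel
      obtain ⟨rfl, rfl⟩ := pair_inj N.zf hu h3
      obtain ⟨m', n', h5, h6, h7⟩ := (hRR u).1 h1
      obtain ⟨rfl, rfl⟩ := pair_inj N.zf hu h5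
      exact ⟨h6, h7, h2, h4⟩
    · rintro ⟨h1, h2, h3, h4⟩
      obtain ⟨u, hu⟩ := exists_pair N.zf m n
      exact ⟨u, hu, (hA u k).2 ⟨(hRR u).2 ⟨m, n, hu, h1, h2⟩, h3, m, n, hu, h4⟩⟩
  have hTop : ∀ m n k, Op N.E T m n k ↔ (N.E m R ∧ N.E n R ∧ N.E k R ∧
      f1Mul (propStr N.E) N.om gf gs gu m n k) := by
    intro m n k
    constructor
    · rintro ⟨u, hu, hrel⟩
      obtain ⟨h1, h2, m', n', h3, h4⟩ := (hT' u k).1 hrel
      obtain ⟨rfl, rfl⟩ := pair_inj N.zf hu h3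
      obtain ⟨m', n', h5, h6, h7⟩ := (hRR u).1 h1
      obtain ⟨rfl, rfl⟩ := pair_inj N.zf hu h5
      exact ⟨h6, h7, h2, h4⟩
    · rintro ⟨h1, h2, h3, h4⟩
      obtain ⟨u, hu⟩ := exists_pair N.zf m n
      exact ⟨u, hu, (hT' u k).2 ⟨(hRR u).2 ⟨m, n, hu, h1, h2⟩, h3, m, n, hu, h4⟩⟩
  have add : ∀ m n k x y, N.Cd m x → N.Cd n y → (Op N.E A m n k ↔ N.Cd k (x + y)) := by
    intro m n k x y hm hn
    rw [hAop]
    constructor
    · rintro ⟨_, _, h1, h2⟩
      obtain ⟨z, hz⟩ := (mem k).1 h1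
      exact (add_iff hSC hga hm hn hz.1).1 h2
    · intro h
      exact ⟨(mem m).2 ⟨x, hm⟩, (mem n).2 ⟨y, hn⟩, (mem k).2 ⟨_, h⟩,
        (add_iff hSC hga hm hn h.1).2 h⟩
  have mul : ∀ m n k x y, N.Cd m x → N.Cd n y → (Op N.E T m n k ↔ N.Cd k (x * y)) := by
    intro m n k x y hm hn
    rw [hTop]
    constructor
    · rintro ⟨_, _, h1, h2⟩
      obtain ⟨z, hz⟩ := (mem k).1 h1
      exact (mul_iff hSC hgu hm hn hz.1).1 h2
    · intro h
      exact ⟨(mem m).2 ⟨x, hm⟩, (mem n).2 ⟨y, hn⟩, (mem k).2 ⟨_, h⟩,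
        (mul_iff hSC hgu hm hn h.1).2 h⟩
  have lt : ∀ m n x y, N.Cd m x → N.Cd n y → (Rel N.E L m n ↔ x < y) := by
    intro m n x y hm hn
    rw [hL]
    constructor
    · rintro ⟨_, _, h⟩
      exact (lt_iff' hm hn).1 h
    · intro h
      exact ⟨(mem m).2 ⟨x, hm⟩, (mem n).2 ⟨y, hn⟩, (lt_iff' hm hn).2 h⟩
  exact ⟨R, A, T, L, mem, add, mul, lt, fun m n h => ⟨((hL m n).1 h).1, ((hL m n).1 h).2.1⟩,
    fun m n k h => ⟨((hAop m n k).1 h).1, ((hAop m n k).1 h).2.1, ((hAop m n k).1 h).2.2.1⟩,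
    isRealField_of hT mem add mul lt⟩

end Pool.Agent.H83.F
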