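import Pool.Agent.H83.F.D3Base

/-!
# D1: the reals of a nice model form a subfield of the reals
-/

universe v w

set_option linter.unusedSectionVars false
set_option linter.unusedVariables false

open MeasureTheory

namespace Pool.Agent.H83.F

open Pool.Agent.H86

/-- addition -/
def addT : Set ℕ := {p | qd (Nat.unpair p).1 <
  qd (Nat.unpair (Nat.unpair p).2).1 + qd (Nat.unpair (Nat.unpair p).2).2}

/-- negation -/
def negT : Set ℕ := {p | qd (Nat.unpair p).1 + qd (Nat.unpair p).2 < 0}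

/-- inverse -/
def invT : Set ℕ := {p | qd (Nat.unpair p).1 ≤ 0 ∨ qd (Nat.unpair p).1 * qd (Nat.unpair p).2 < 1}

/-- `q` is less than all products of the end points -/
def MulR (q a a' b b' : ℚ) : Prop := q < a * b ∧ q < a * b' ∧ q < a' * b ∧ q < a' * b'

/-- multiplication -/
def mulT : Set ℕ := {p | MulR (qd (Nat.unpair p).1)
  (qd (Nat.unpair (Nat.unpair (Nat.unpair p).2).1).1)
  (qd (Nat.unpair (Nat.unpair (Nat.unpair p).2).1).2)
  (qd (Nat.unpair (Nat.unpair (Nat.unpair p).2).2).1)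
  (qd (Nat.unpair (Nat.unpair (Nat.unpair p).2).2).2)}

/-- The constants for D1. -/
def T1 : Set (Set ℕ) := T3 ∪ {addT, negT, invT, mulT}

theorem T1_countable : T1.Countable := T3_countable.union (Set.Finite.countable (Set.toFinite _))

theorem T3_sub_T1 : T3 ⊆ T1 := Set.subset_union_left

/-- Dedekind cuts -/
def IsCut (Z : Set ℕ) : Prop := (∃ n, n ∈ Z) ∧ (∃ n, n ∉ Z) ∧
  (∀ n m, qd n < qd m → m ∈ Z → n ∈ Z) ∧ ∀ n ∈ Z, ∃ m ∈ Z, qd n < qd m

theorem isCut_iff (Z : Set ℕ) : IsCut Z ↔ ∃ x, Z = cut x := by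
  constructor
  · rintro ⟨⟨n0, h0⟩, ⟨n1, h1⟩, h2, h3⟩
    have hub : ∀ n ∈ Z, qd n < qd n1 := by
      intro n hn
      by_contra hc
      rcases (not_lt.1 hc).lt_or_eq with h | h
      · exact h1 (h2 n1 n h hn)
      · have : n1 = n := (Denumerable.eqv ℚ).symm.injective h
        exact h1 (this ▸ hn)
    have hbdd : BddAbove ((fun n => (qd n : ℝ)) '' Z) := ⟨qd n1, by
      rintro _ ⟨n, hn, rfl⟩
      have := hub n hn
      show (qd n : ℝ) ≤ qd n1
      exact_mod_cast this.le⟩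
    refine ⟨sSup ((fun n => (qd n : ℝ)) '' Z), ?_⟩
    ext n
    constructor
    · intro hn
      obtain ⟨m, hm, hnm⟩ := h3 n hn
      have h4 : (qd m : ℝ) ≤ sSup ((fun n => (qd n : ℝ)) '' Z) :=
        le_csSup hbdd ⟨m, hm, rfl⟩
      have h5 : (qd n : ℝ) < qd m := by exact_mod_cast hnm
      exact h5.trans_le h4
    · intro hn
      have hne : ((fun n => (qd n : ℝ)) '' Z).Nonempty := ⟨_, n0, h0, rfl⟩
      obtain ⟨_, ⟨m, hm, rfl⟩, h4⟩ := exists_lt_of_lt_csSup hne hn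
      have h5 : qd n < qd m := by
        have h6 : (qd n : ℝ) < qd m := h4
        exact_mod_cast h6
      exact h2 n m h5 hm
  · rintro ⟨x, rfl⟩
    refine ⟨?_, ?_, fun n m h1 h2 => ?_, fun n hn => ?_⟩
    · obtain ⟨q, _, hq⟩ := exists_rat_btwn (sub_one_lt x)
      obtain ⟨n, rfl⟩ := qd_surj q
      exact ⟨n, hq⟩
    · obtain ⟨q, hq, _⟩ := exists_rat_btwn (lt_add_one x)
      obtain ⟨n, rfl⟩ := qd_surj q
      exact ⟨n, not_lt.2 hq.le⟩
    · have h3 : (qd m : ℝ) < x := h2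
      have h4 : (qd n : ℝ) < qd m := by exact_mod_cast h1
      exact h4.trans h3
    · have h3 : (qd n : ℝ) < x := hn
      obtain ⟨q, h4, h5⟩ := exists_rat_btwn h3
      obtain ⟨m, rfl⟩ := qd_surj q
      exact ⟨m, h5, by exact_mod_cast h4⟩

theorem cut_add (x y : ℝ) : cut (x + y) =
    {n | ∃ a ∈ cut x, ∃ b ∈ cut y, Nat.pair n (Nat.pair a b) ∈ addT} := by
  ext n
  constructor
  · intro hn
    have hn' : (qd n : ℝ) < x + y := hn
    obtain ⟨p, h1, h2⟩ := exists_rat_btwn (show x - (x + y - qd n) / 2 < x by linarith)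
    obtain ⟨q, h3, h4⟩ := exists_rat_btwn (show y - (x + y - qd n) / 2 < y by linarith)
    obtain ⟨a, rfl⟩ := qd_surj p
    obtain ⟨b, rfl⟩ := qd_surj q
    refine ⟨a, h2, b, h4, ?_⟩
    have h5 : (qd n : ℝ) < qd a + qd b := by linarith
    have h6 : qd n < qd a + qd b := by exact_mod_cast h5
    simpa [addT] using h6
  · rintro ⟨a, ha, b, hb, h⟩
    have h6 : qd n < qd a + qd b := by simpa [addT] using h
    have h5 : (qd n : ℝ) < qd a + qd b := by exact_mod_cast h6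
    have ha' : (qd a : ℝ) < x := ha
    have hb' : (qd b : ℝ) < y := hb
    show (qd n : ℝ) < x + y
    linarith

theorem cut_neg (x : ℝ) : cut (-x) = {n | ∃ m ∈ (cut x)ᶜ, Nat.pair n m ∈ negT} := by
  ext n
  constructor
  · intro hn
    have hn' : (qd n : ℝ) < -x := hn
    obtain ⟨p, h1, h2⟩ := exists_rat_btwn (show x < -qd n by linarith)
    obtain ⟨a, rfl⟩ := qd_surj p
    refine ⟨a, not_lt.2 h1.le, ?_⟩
    have h5 : (qd n : ℝ) + qd a < 0 := by linarith
    have h6 : qd n + qd a < 0 := by exact_mod_cast h5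
    simpa [negT] using h6
  · rintro ⟨a, ha, h⟩
    have h6 : qd n + qd a < 0 := by simpa [negT] using h
    have h5 : (qd n : ℝ) + qd a < 0 := by exact_mod_cast h6
    have ha' : x ≤ (qd a : ℝ) := not_lt.1 ha
    show (qd n : ℝ) < -x
    linarith

theorem cut_inv {x : ℝ} (hx : 0 < x) :
    cut x⁻¹ = {n | ∃ m ∈ (cut x)ᶜ, Nat.pair n m ∈ invT} := by
  ext n
  constructor
  · intro hn
    have hn' : (qd n : ℝ) < x⁻¹ := hn
    rcases le_or_gt (qd n) 0 with h0 | h0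
    · obtain ⟨q, hq, _⟩ := exists_rat_btwn (lt_add_one x)
      obtain ⟨a, rfl⟩ := qd_surj q
      exact ⟨a, not_lt.2 hq.le, by simpa [invT] using Or.inl h0⟩
    · have h0' : (0 : ℝ) < qd n := by exact_mod_cast h0
      have h1 : (qd n : ℝ) * x < 1 := by
        have := mul_lt_mul_of_pos_right hn' hx
        rwa [inv_mul_cancel₀ hx.ne'] at this
      have h2 : x < 1 / qd n := by
        rw [lt_div_iff₀ h0']; linarith
      obtain ⟨p, h3, h4⟩ := exists_rat_btwn h2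
      obtain ⟨a, rfl⟩ := qd_surj p
      refine ⟨a, not_lt.2 h3.le, ?_⟩
      rw [lt_div_iff₀ h0'] at h4
      have h5 : (qd n : ℝ) * qd a < 1 := by linarith
      have h6 : qd n * qd a < 1 := by exact_mod_cast h5
      simpa [invT] using Or.inr h6
  · rintro ⟨a, ha, h⟩
    have h' : qd n ≤ 0 ∨ qd n * qd a < 1 := by simpa [invT] using h
    have ha' : x ≤ (qd a : ℝ) := not_lt.1 ha
    show (qd n : ℝ) < x⁻¹
    have hinv : 0 < x⁻¹ := inv_pos.2 hx
    rcases le_or_gt (qd n) 0 with h0 | h0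
    · have : (qd n : ℝ) ≤ 0 := by exact_mod_cast h0
      linarith
    · rcases h' with h' | h'
      · exact absurd h' (not_le.2 h0)
      · have h0' : (0 : ℝ) < qd n := by exact_mod_cast h0
        have h5 : (qd n : ℝ) * qd a < 1 := by exact_mod_cast h'
        have h6 : (qd n : ℝ) * x < 1 := (mul_le_mul_of_nonneg_left ha' h0'.le).trans_lt h5
        rw [lt_inv_comm₀ h0' hx, ← one_div, lt_div_iff₀ h0']
        linarith

/-- Real version of `MulR`. -/
theorem mulR_iff (q a a' b b' : ℚ) : MulR q a a' b b' ↔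
    (q : ℝ) < a * b ∧ (q : ℝ) < a * b' ∧ (q : ℝ) < a' * b ∧ (q : ℝ) < a' * b' := by
  unfold MulR
  constructor
  · rintro ⟨h1, h2, h3, h4⟩
    exact ⟨by exact_mod_cast h1, by exact_mod_cast h2, by exact_mod_cast h3,
      by exact_mod_cast h4⟩
  · rintro ⟨h1, h2, h3, h4⟩
    exact ⟨by exact_mod_cast h1, by exact_mod_cast h2, by exact_mod_cast h3,
      by exact_mod_cast h4⟩

theorem lt_mul_of_corners {q a a' b b' x y : ℝ} (ha : a ≤ x) (ha' : x ≤ a') (hb : b ≤ y)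
    (hb' : y ≤ b') (h1 : q < a * b) (h2 : q < a * b') (h3 : q < a' * b) (h4 : q < a' * b') :
    q < x * y := by
  -- `q < a * y` and `q < a' * y`
  have h5 : q < a * y := by
    rcases le_total 0 a with h | h
    · exact h1.trans_le (mul_le_mul_of_nonneg_left hb h)
    · exact h2.trans_le (mul_le_mul_of_nonpos_left hb' h)
  have h6 : q < a' * y := by
    rcases le_total 0 a' with h | h
    · exact h3.trans_le (mul_le_mul_of_nonneg_left hb h)
    · exact h4.trans_le (mul_le_mul_of_nonpos_left hb' h)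
  rcases le_total 0 y with h | h
  · exact h5.trans_le (mul_le_mul_of_nonneg_right ha h)
  · exact h6.trans_le (mul_le_mul_of_nonpos_right ha' h)

theorem exists_corners {q x y : ℝ} (h : q < x * y) : ∃ a a' b b' : ℚ, (a : ℝ) < x ∧ x < a' ∧
    (b : ℝ) < y ∧ y < b' ∧ q < a * b ∧ q < a * b' ∧ q < a' * b ∧ q < a' * b' := by
  have hcont : Filter.Tendsto (fun p : ℝ × ℝ => p.1 * p.2) (nhds (x, y)) (nhds (x * y)) :=
    continuous_mul.tendsto (x, y)
  have hev := hcont.eventually (lt_mem_nhds h)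
  rw [Metric.eventually_nhds_iff] at hev
  obtain ⟨ε, hε, hball⟩ := hev
  have key : ∀ u v : ℝ, |u - x| < ε → |v - y| < ε → q < u * v := by
    intro u v hu hv
    refine hball (y := (u, v)) ?_
    rw [Prod.dist_eq, max_lt_iff, Real.dist_eq, Real.dist_eq]
    exact ⟨hu, hv⟩
  obtain ⟨a, ha1, ha2⟩ := exists_rat_btwn (show x - ε < x by linarith)
  obtain ⟨a', ha1', ha2'⟩ := exists_rat_btwn (show x < x + ε by linarith)
  obtain ⟨b, hb1, hb2⟩ := exists_rat_btwn (show y - ε < y by linarith)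
  obtain ⟨b', hb1', hb2'⟩ := exists_rat_btwn (show y < y + ε by linarith)
  have e1 : |(a : ℝ) - x| < ε := by rw [abs_lt]; constructor <;> linarith
  have e2 : |(a' : ℝ) - x| < ε := by rw [abs_lt]; constructor <;> linarith
  have e3 : |(b : ℝ) - y| < ε := by rw [abs_lt]; constructor <;> linarith
  have e4 : |(b' : ℝ) - y| < ε := by rw [abs_lt]; constructor <;> linarith
  exact ⟨a, a', b, b', ha2, ha1', hb2, hb1', key _ _ e1 e3, key _ _ e1 e4, key _ _ e2 e3,
    key _ _ e2 e4⟩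

theorem cut_mul (x y : ℝ) : cut (x * y) =
    {n | ∃ a ∈ cut x, ∃ a' ∈ (cut x)ᶜ, ∃ b ∈ cut y, ∃ b' ∈ (cut y)ᶜ,
      Nat.pair n (Nat.pair (Nat.pair a a') (Nat.pair b b')) ∈ mulT} := by
  ext n
  constructor
  · intro hn
    have hn' : (qd n : ℝ) < x * y := hn
    obtain ⟨a, a', b, b', h1, h2, h3, h4, h5⟩ := exists_corners hn'
    obtain ⟨a, rfl⟩ := qd_surj a
    obtain ⟨a', rfl⟩ := qd_surj a'
    obtain ⟨b, rfl⟩ := qd_surj b
    obtain ⟨b', rfl⟩ := qd_surj b'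
    refine ⟨a, h1, a', not_lt.2 h2.le, b, h3, b', not_lt.2 h4.le, ?_⟩
    have := (mulR_iff _ _ _ _ _).2 h5
    simpa [mulT] using this
  · rintro ⟨a, ha, a', ha', b, hb, b', hb', h⟩
    have h' : MulR (qd n) (qd a) (qd a') (qd b) (qd b') := by simpa [mulT] using h
    obtain ⟨h1, h2, h3, h4⟩ := (mulR_iff _ _ _ _ _).1 h'
    exact lt_mul_of_corners (le_of_lt ha) (not_lt.1 ha') (le_of_lt hb) (not_lt.1 hb') h1 h2 h3 h4

namespace Nice

variable {𝒯 : Set (Set ℕ)} {N : Nice 𝒯}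

theorem RM_add (hT : T1 ⊆ 𝒯) {x y : ℝ} (hx : N.PM (cut x)) (hy : N.PM (cut y)) :
    N.PM (cut (x + y)) := by
  have hT4 : T4 ⊆ 𝒯 := T4_sub_T3.trans (T3_sub_T1.trans hT)
  rw [cut_add]
  exact hx.image2 hy (hT4 (by simp [T4])) (hT4 (by simp [T4])) (hT (by simp [T1]))

theorem RM_neg (hT : T1 ⊆ 𝒯) {x : ℝ} (hx : N.PM (cut x)) : N.PM (cut (-x)) := by
  rw [cut_neg]
  exact hx.compl.image (hT (by simp [T1]))

theorem RM_mul (hT : T1 ⊆ 𝒯) {x y : ℝ} (hx : N.PM (cut x)) (hy : N.PM (cut y)) :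
    N.PM (cut (x * y)) := by
  have hT4 : T4 ⊆ 𝒯 := T4_sub_T3.trans (T3_sub_T1.trans hT)
  have h1 : fstT ∈ 𝒯 := hT4 (by simp [T4])
  have h2 : sndT ∈ 𝒯 := hT4 (by simp [T4])
  have h3 := (hx.prod hx.compl h1 h2).image2 (hy.prod hy.compl h1 h2) h1 h2 (T := mulT)
    (hT (by simp [T1]))
  rw [cut_mul]
  have e : {n | ∃ a ∈ {n | (Nat.unpair n).1 ∈ cut x ∧ (Nat.unpair n).2 ∈ (cut x)ᶜ},
      ∃ b ∈ {n | (Nat.unpair n).1 ∈ cut y ∧ (Nat.unpair n).2 ∈ (cut y)ᶜ},
        Nat.pair n (Nat.pair a b) ∈ mulT} =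
      {n | ∃ a ∈ cut x, ∃ a' ∈ (cut x)ᶜ, ∃ b ∈ cut y, ∃ b' ∈ (cut y)ᶜ,
      Nat.pair n (Nat.pair (Nat.pair a a') (Nat.pair b b')) ∈ mulT} := by
    ext n
    constructor
    · rintro ⟨s, ⟨hs1, hs2⟩, t, ⟨ht1, ht2⟩, h⟩
      exact ⟨_, hs1, _, hs2, _, ht1, _, ht2, by simpa only [Nat.pair_unpair] using h⟩
    · rintro ⟨a, ha, a', ha', b, hb, b', hb', h⟩
      exact ⟨Nat.pair a a', by simpa using ⟨ha, ha'⟩, Nat.pair b b', by simpa using ⟨hb, hb'⟩, h⟩
  rwa [e] at h3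

theorem RM_inv (hT : T1 ⊆ 𝒯) {x : ℝ} (hx : N.PM (cut x)) : N.PM (cut x⁻¹) := by
  have hinv : ∀ y : ℝ, 0 < y → N.PM (cut y) → N.PM (cut y⁻¹) := by
    intro y hy hy'
    rw [cut_inv hy]
    exact hy'.compl.image (hT (by simp [T1]))
  rcases lt_trichotomy x 0 with h | h | h
  · have h1 := RM_neg hT (hinv (-x) (by linarith) (RM_neg hT hx))
    have e : -(-x)⁻¹ = x⁻¹ := by rw [inv_neg, neg_neg]
    rwa [e] at h1
  · rw [h, inv_zero, ← h]; exact hx
  · exact hinv x h hx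

/-- The reals of the model as a subfield. -/
def RMf (N : Nice 𝒯) (hT : T1 ⊆ 𝒯) : Subfield ℝ where
  carrier := N.RM
  mul_mem' := fun hx hy => RM_mul hT hx hy
  one_mem' := by
    have := PM_cutQ (N := N) (hT (T3_sub_T1 (by simp [T3]))) 1
    have h2 : N.PM (cut 1) := by simpa using this
    exact h2
  add_mem' := fun hx hy => RM_add hT hx hy
  zero_mem' := by
    have := PM_cutQ (N := N) (hT (T3_sub_T1 (by simp [T3]))) 0
    have h2 : N.PM (cut 0) := by simpa using this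
    exact h2
  neg_mem' := fun hx => RM_neg hT hx
  inv_mem' := fun x hx => RM_inv hT hx

end Nice

end Pool.Agent.H83.F
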