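import Pool.Agent.H83.F.D2Seq

/-!
# D2: null sets of a nice model; compactness
-/

universe v w

set_option linter.unusedSectionVars false
set_option linter.unusedVariables false

open MeasureTheory

namespace Pool.Agent.H83.F

open Pool.Agent.H86

section Formulas

variable {N : Type v} {Ω : Type w} (L : LogicStr N Ω)

/-- `c` is the `i`-th section of the flat set `w` -/
def f2Sec (om gf gs w i c : N) : Ω :=
  L.all fun q => L.imp (L.mem q om) (L.iff (L.mem q c) (L.ex fun t => L.and (L.mem t w)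
    (L.and (fRel L gf t i) (fRel L gs t q))))

end Formulas

theorem T1_sub_T2 : T1 ⊆ T2 := by
  intro x hx
  simp only [T2, Set.mem_union]
  tauto

theorem T5a_sub_T2 : T5a ⊆ T2 := by
  intro x hx
  simp only [T2, Set.mem_union]
  tauto

namespace Nice

variable {𝒯 : Set (Set ℕ)} {N : Nice 𝒯}

/-- `f ∈ M` is the sequence of reals `x` -/
def SF (N : Nice 𝒯) (R f : N.M) (x : ℕ → ℝ) : Prop :=
  IsFun N.E f N.om R ∧ ∀ n c, Rel N.E f (N.nat n) c ↔ N.Cd c (x n)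

theorem SF.of_fun {R A T L : N.M} (hR : N.Reals R A T L) {f : N.M}
    (hf : IsFun N.E f N.om R) : ∃ x, N.SF R f x := by
  have h : ∀ n, ∃ x, ∀ c, Rel N.E f (N.nat n) c ↔ N.Cd c x := by
    intro n
    obtain ⟨c, hc, hc'⟩ := hf.2 _ (N.nat_om n)
    obtain ⟨x, hx⟩ := (hR.mem c).1 (IsFun.mem N.zf hf hc).2
    refine ⟨x, fun d => ⟨fun hd => ?_, fun hd => ?_⟩⟩
    · rw [hc' d hd]; exact hx
    · rw [hd.left hx]; exact hc
  choose x hx using h
  exact ⟨x, hf, hx⟩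

/-- Sequences from flat sets. -/
theorem SF.of_flat (hT : T3 ⊆ 𝒯) {R A T L : N.M} (hR : N.Reals R A T L) {x : ℕ → ℝ}
    (h : N.PM {t | (Nat.unpair t).2 ∈ cut (x (Nat.unpair t).1)}) : ∃ f, N.SF R f x := by
  obtain ⟨gf, gs, gm, gl, gr, hSC⟩ := exists_SC (N := N) (T4_sub_T3.trans hT)
  obtain ⟨w, hw, hw'⟩ := h
  have hflat : ∀ n q, N.E (N.nat (Nat.pair n q)) w ↔ q ∈ cut (x n) := by
    intro n q
    have h1 : Nat.pair n q ∈ N.val w ↔ q ∈ cut (x n) := by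
      rw [hw', Set.mem_ofPred_eq, Nat.unpair_pair]
    exact h1
  obtain ⟨f, hf1, hf2⟩ := exists_rel N.zf (pairCode (fun i c => f2Sec codeStr 1 2 3 4 i c) 30)
    (asn R [N.om, gf, gs, w]) (P := fun i c => f2Sec (propStr N.E) N.om gf gs w i c)
    (fun x => Iff.rfl) N.om R
  have key : ∀ n c, Sub N.E c N.om → (f2Sec (propStr N.E) N.om gf gs w (N.nat n) c ↔
      N.val c = cut (x n)) := by
    intro n c hc
    have h1 : ∀ q, (∃ t, N.E t w ∧ Rel N.E gf t (N.nat n) ∧ Rel N.E gs t (N.nat q)) ↔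
        q ∈ cut (x n) := by
      intro q
      rw [← hflat]
      constructor
      · rintro ⟨t, h2, h3⟩
        obtain ⟨a, b, h4, h5, rfl⟩ := (pr_iff hSC).1 h3
        rw [← N.nat_inj h4, ← N.nat_inj h5] at h2
        exact h2
      · intro h2
        exact ⟨_, h2, (pr_iff hSC).2 ⟨n, q, rfl, rfl, rfl⟩⟩
    constructor
    · intro h2
      ext q
      exact (h2 (N.nat q) (N.nat_om q)).trans (h1 q)
    · intro h2 q hq
      obtain ⟨a, rfl⟩ := (N.E_om q).1 hq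
      have : N.E (N.nat a) c ↔ a ∈ cut (x n) := by rw [← h2]; rfl
      exact this.trans (h1 a).symm
  have key2 : ∀ n c, Rel N.E f (N.nat n) c ↔ N.Cd c (x n) := by
    intro n c
    rw [hf2]
    constructor
    · rintro ⟨_, h1, h2⟩
      obtain ⟨y, hy⟩ := (hR.mem c).1 h1
      exact ⟨hy.1, (key n c hy.1).1 h2⟩
    · intro h1
      exact ⟨N.nat_om n, (hR.mem c).2 ⟨_, h1⟩, (key n c h1.1).2 h1.2⟩
  have hcdn : ∀ n, ∃ c, N.Cd c (x n) := by
    intro n
    have h1 := (exists_set (N := N) ((codeStr.ex fun t => codeStr.and (codeStr.mem t 1)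
      (codeStr.and (fRel codeStr 2 t 3) (fRel codeStr 4 t 0))) 10) (asn R [w, gf, N.nat n, gs])
      (P := fun q => ∃ t, N.E t w ∧ Rel N.E gf t (N.nat n) ∧ Rel N.E gs t q)
      (fun x => Iff.rfl))
    have e : {q | ∃ t, N.E t w ∧ Rel N.E gf t (N.nat n) ∧ Rel N.E gs t (N.nat q)} =
        cut (x n) := by
      ext q
      rw [← hflat]
      constructor
      · rintro ⟨t, h2, h3⟩
        obtain ⟨a, b, h4, h5, rfl⟩ := (pr_iff hSC).1 h3
        rw [← N.nat_inj h4, ← N.nat_inj h5] at h2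
        exact h2
      · intro h2
        exact ⟨_, h2, (pr_iff hSC).2 ⟨n, q, rfl, rfl, rfl⟩⟩
    rw [e] at h1
    exact h1
  refine ⟨f, isFun_of N.zf (fun z hz => ?_) (fun i hi => ?_) (fun i c c' h1 h2 => ?_), key2⟩
  · obtain ⟨a, b, h1, h2, h3, _⟩ := hf1 z hz
    exact ⟨a, b, h1, h2, h3⟩
  · obtain ⟨n, rfl⟩ := (N.E_om i).1 hi
    obtain ⟨c, hc⟩ := hcdn n
    exact ⟨c, (key2 n c).2 hc⟩
  · obtain ⟨n, rfl⟩ := (N.E_om i).1 ((hf2 _ _).1 h1).1
    exact ((key2 n c).1 h1).left ((key2 n c').1 h2)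

/-- Sequences given by a functional. -/
theorem SF.of_functional (hT : T2 ⊆ 𝒯) {R A T L : N.M} (hR : N.Reals R A T L)
    {Ψ : ℕ → Finset ℕ → ℕ} (hΨ : funT Ψ ∈ 𝒯) {z : Set ℕ} (hz : N.PM z) :
    ∃ f, N.SF R f (fun n => (qd (Ψ n (Zt z n)) : ℝ)) := by
  have h1 : q1T ∈ 𝒯 := hT (by simp [T2])
  have h2 : q2T ∈ 𝒯 := hT (by simp [T2])
  have h3 : q3T ∈ 𝒯 := hT (by simp [T2])
  have hq1 : N.PM {p | ∀ l ∈ fs (Nat.unpair p).2, l ≤ (Nat.unpair p).1} :=
    PM.const' h1 (fun n => by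
      constructor
      · intro h; exact ⟨0, by simpa [q1T] using h⟩
      · rintro ⟨k, hk⟩; simpa [q1T] using hk)
  have hQ := (hq1.inter (hz.compl.image h2).compl).inter (hz.image h3).compl
  have hQe : ∀ p, p ∈ ({p | ∀ l ∈ fs (Nat.unpair p).2, l ≤ (Nat.unpair p).1} ∩
      {n | ∃ k ∈ zᶜ, Nat.pair n k ∈ q2T}ᶜ) ∩ {n | ∃ k ∈ z, Nat.pair n k ∈ q3T}ᶜ ↔
      fs (Nat.unpair p).2 = Zt z (Nat.unpair p).1 := by
    intro p
    constructor
    · rintro ⟨⟨h4, h5⟩, h6⟩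
      ext l
      rw [mem_Zt]
      constructor
      · intro hl
        refine ⟨h4 l hl, ?_⟩
        by_contra hlz
        exact h5 ⟨l, hlz, by simpa [q2T] using hl⟩
      · rintro ⟨h7, h8⟩
        by_contra hl
        exact h6 ⟨l, h8, by simpa [q3T] using ⟨h7, hl⟩⟩
    · intro h4
      refine ⟨⟨fun l hl => ?_, ?_⟩, ?_⟩
      · rw [h4] at hl; exact (mem_Zt.1 hl).1
      · rintro ⟨l, h5, h6⟩
        have h7 : l ∈ fs (Nat.unpair p).2 := by simpa [q2T] using h6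
        rw [h4] at h7
        exact h5 (mem_Zt.1 h7).2
      · rintro ⟨l, h5, h6⟩
        have h7 : l ≤ (Nat.unpair p).1 ∧ l ∉ fs (Nat.unpair p).2 := by simpa [q3T] using h6
        rw [h4] at h7
        exact h7.2 (mem_Zt.2 ⟨h7.1, h5⟩)
  generalize ({p | ∀ l ∈ fs (Nat.unpair p).2, l ≤ (Nat.unpair p).1} ∩
      {n | ∃ k ∈ zᶜ, Nat.pair n k ∈ q2T}ᶜ) ∩ {n | ∃ k ∈ z, Nat.pair n k ∈ q3T}ᶜ = Q at hQ hQe
  have hfl := hQ.image hΨ
  have e : {t | ∃ p ∈ Q, Nat.pair t p ∈ funT Ψ} = {t | (Nat.unpair t).2 ∈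
      cut (qd (Ψ (Nat.unpair t).1 (Zt z (Nat.unpair t).1)) : ℝ)} := by
    ext t
    constructor
    · rintro ⟨p, hp, h4⟩
      have h5 : (Nat.unpair t).1 = (Nat.unpair p).1 ∧ qd (Nat.unpair t).2 <
          qd (Ψ (Nat.unpair p).1 (fs (Nat.unpair p).2)) := by simpa [funT] using h4
      rw [hQe] at hp
      rw [hp, ← h5.1] at h5
      show (qd (Nat.unpair t).2 : ℝ) < _
      exact_mod_cast h5.2
    · intro h4
      have h5 : (qd (Nat.unpair t).2 : ℝ) < qd (Ψ (Nat.unpair t).1 (Zt z (Nat.unpair t).1)) := h4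
      have h6 : qd (Nat.unpair t).2 < qd (Ψ (Nat.unpair t).1 (Zt z (Nat.unpair t).1)) := by
        exact_mod_cast h5
      obtain ⟨τ, hτ⟩ := fs_surj (Zt z (Nat.unpair t).1)
      refine ⟨Nat.pair (Nat.unpair t).1 τ, (hQe _).2 (by simpa using hτ), ?_⟩
      simp only [funT, Set.mem_ofPred_eq, Nat.unpair_pair, true_and]
      rw [hτ]
      exact h6
  rw [e] at hfl
  exact SF.of_flat (T3_sub_T1.trans (T1_sub_T2.trans hT)) hR hfl

/-- Successors of natural numbers. -/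
theorem succ_iff {m n : ℕ} : IsSucc N.E (N.nat m) (N.nat n) ↔ m = n + 1 := by
  constructor
  · intro h
    have h1 : ∀ k, k < m ↔ (k < n ∨ k = n) := by
      intro k
      have h2 := h (N.nat k)
      have h3 : N.E (N.nat k) (N.nat m) ↔ k < m := by
        rw [N.E_nat]
        constructor
        · rintro ⟨l, hl, h4⟩; rw [N.nat_inj h4]; exact hl
        · intro h4; exact ⟨k, h4, rfl⟩
      have h4 : N.E (N.nat k) (N.nat n) ↔ k < n := by
        rw [N.E_nat]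
        constructor
        · rintro ⟨l, hl, h4⟩; rw [N.nat_inj h4]; exact hl
        · intro h4; exact ⟨k, h4, rfl⟩
      rw [h3, h4] at h2
      rw [h2]
      refine or_congr Iff.rfl ⟨fun h => N.nat_inj h, fun h => by rw [h]⟩
    have h5 := (h1 n).2 (Or.inr rfl)
    by_contra hne
    have h6 : n + 1 < m := by omega
    have := (h1 (n + 1)).1 h6
    omega
  · rintro rfl z
    rw [N.E_nat, N.E_nat]
    constructor
    · rintro ⟨k, hk, rfl⟩
      rcases Nat.lt_succ_iff_lt_or_eq.1 hk with h | h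
      · exact Or.inl ⟨k, h, rfl⟩
      · exact Or.inr (by rw [h])
    · rintro (⟨k, hk, rfl⟩ | rfl)
      · exact ⟨k, by omega, rfl⟩
      · exact ⟨n, by omega, rfl⟩

/-- Positivity in the model. -/
theorem pos_iff (hlt : ltQT ∈ 𝒯) {R A T L : N.M} (hR : N.Reals R A T L) {e : N.M} {ε : ℝ}
    (he : N.Cd e ε) : (∃ z, N.E z R ∧ Op N.E A z z z ∧ Rel N.E L z e) ↔ 0 < ε := by
  constructor
  · rintro ⟨z, h1, h2, h3⟩
    obtain ⟨x, hx⟩ := (hR.mem z).1 h1
    have h4 := (hR.add z z z x x hx hx).1 h2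
    have h5 := h4.right hx
    have h6 := (hR.lt z e x ε hx he).1 h3
    linarith
  · intro h
    obtain ⟨z, hz⟩ := exists_CdQ (N := N) hlt 0
    have hz' : N.Cd z 0 := by simpa using hz
    refine ⟨z, (hR.mem z).2 ⟨0, hz'⟩, (hR.add z z z 0 0 hz' hz').2 ?_,
      (hR.lt z e 0 ε hz' he).2 h⟩
    simpa using hz'

theorem le_iff_R {R A T L : N.M} (hR : N.Reals R A T L) {c d : N.M} {x y : ℝ}
    (hc : N.Cd c x) (hd : N.Cd d y) : (c = d ∨ Rel N.E L c d) ↔ x ≤ y := by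
  rw [hR.lt _ _ _ _ hc hd, le_iff_eq_or_lt]
  refine or_congr ⟨?_, ?_⟩ Iff.rfl
  · rintro rfl; exact hc.right hd
  · rintro rfl; exact hc.left hd

/-- Families of cuts given by a sequence. -/
theorem SF.fam {R f : N.M} {x : ℕ → ℝ} (h : N.SF R f x) :
    N.IFam N.om (fun i => {m | ∀ n, i = N.nat n → m ∈ cut (x n)}) := by
  refine (IFam.ofFun h.1).congr fun i hi => ?_
  obtain ⟨n, rfl⟩ := (N.E_om i).1 hi
  ext m
  constructor
  · rintro ⟨c, hc, hm⟩ k hk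
    rw [hk] at hc
    have h1 := (h.2 k c).1 hc
    rw [← h1.2]; exact hm
  · intro hm
    obtain ⟨c, hc, _⟩ := h.1.2 _ hi
    have h1 := (h.2 n c).1 hc
    refine ⟨c, hc, ?_⟩
    have h2 := hm n rfl
    rw [← h1.2] at h2; exact h2

/-- The union of a sequence of open intervals has a code. -/
theorem exists_code_union (hT : T2 ⊆ 𝒯) {R a b : N.M} {α β : ℕ → ℝ} (ha : N.SF R a α)
    (hb : N.SF R b β) : ∃ z, N.PM z ∧ Op' z = ⋃ n, Set.Ioo (α n) (β n) := by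
  have hT3 : T3 ⊆ 𝒯 := T3_sub_T1.trans (T1_sub_T2.trans hT)
  have hT4 : T4 ⊆ 𝒯 := T4_sub_T3.trans hT3
  have hf : fstT ∈ 𝒯 := hT4 (by simp [T4])
  have hs : sndT ∈ 𝒯 := hT4 (by simp [T4])
  have h1 : glR ∈ 𝒯 := hT4 (by simp [T4])
  have h2 : grR ∈ 𝒯 := hT4 (by simp [T4])
  have hfam := (ha.fam.compl.image h1).inter (hb.fam.compl.image h2).compl
  have hfam2 := (flatten hfam hf hs).imageFun (Φ := sndF) (hT (by simp [T2]))
  refine ⟨_, hfam2, ?_⟩
  have key : ∀ n j, j ∈ ({j | ∃ m ∈ ({m | ∀ k, N.nat n = N.nat k → m ∈ cut (α k)} : Set ℕ)ᶜ,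
        Nat.pair j m ∈ glR} ∩
      {j | ∃ m ∈ ({m | ∀ k, N.nat n = N.nat k → m ∈ cut (β k)} : Set ℕ)ᶜ,
        Nat.pair j m ∈ grR}ᶜ : Set ℕ) ↔ α n ≤ (iv j).1 ∧ ((iv j).2 : ℝ) ≤ β n := by
    intro n j
    have e1 : ∀ γ : ℕ → ℝ, {m | ∀ k, N.nat n = N.nat k → m ∈ cut (γ k)} = cut (γ n) := by
      intro γ
      ext m
      exact ⟨fun h => h n rfl, fun h k hk => by rw [← N.nat_inj hk]; exact h⟩
    rw [e1, e1, Set.mem_inter_iff]
    refine and_congr ⟨?_, ?_⟩ ⟨?_, ?_⟩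
    · rintro ⟨m, hm, hm'⟩
      have h3 : qd m = (iv j).1 := by simpa [glR] using hm'
      rw [← h3]
      exact not_lt.1 hm
    · intro h
      obtain ⟨m, hm⟩ := qd_surj (iv j).1
      refine ⟨m, ?_, by simpa [glR] using hm⟩
      show ¬ ((qd m : ℝ) < α n)
      rw [hm]; exact not_lt.2 h
    · intro h
      by_contra hc
      obtain ⟨q, h3, h4⟩ := exists_rat_btwn (not_le.1 hc)
      obtain ⟨m, rfl⟩ := qd_surj q
      refine h ⟨m, not_lt.2 h3.le, ?_⟩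
      have : qd m < (iv j).2 := by exact_mod_cast h4
      simpa [grR] using this
    · rintro h ⟨m, hm, hm'⟩
      have h3 : qd m < (iv j).2 := by simpa [grR] using hm'
      have h4 : β n ≤ qd m := not_lt.1 hm
      have h5 : (qd m : ℝ) < (iv j).2 := by exact_mod_cast h3
      linarith
  ext u
  rw [mem_Op', Set.mem_iUnion]
  constructor
  · rintro ⟨_, ⟨p, hp, rfl⟩, hu⟩
    obtain ⟨h3, h4⟩ := (key _ _).1 hp
    exact ⟨(Nat.unpair p).1, h3.trans_lt hu.1, hu.2.trans_le h4⟩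
  · rintro ⟨n, h3, h4⟩
    obtain ⟨p, hp1, hp2⟩ := exists_rat_btwn h3
    obtain ⟨q, hq1, hq2⟩ := exists_rat_btwn h4
    obtain ⟨j, hj⟩ := iv_surj (p, q)
    refine ⟨j, ⟨Nat.pair n j, ?_, by simp [sndF]⟩, ?_⟩
    · rw [Set.mem_ofPred_eq, Nat.unpair_pair]
      refine (key n j).2 ?_
      rw [hj]
      exact ⟨hp1.le, hq2.le⟩
    · rw [Iv, hj]; exact ⟨hp2, hq1⟩

end Nice

open Nice in
/-- Null sets of a nice model. -/
theorem target_d2 : TargetD2 T2 := by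
  intro 𝒯 N hT R A T L hR X
  have hT3 : T3 ⊆ 𝒯 := T3_sub_T1.trans (T1_sub_T2.trans hT)
  have hlt : ltQT ∈ 𝒯 := hT3 (by simp [T3])
  constructor
  · rintro ⟨hXR, hX⟩
    refine ⟨hXR, fun m => ?_⟩
    obtain ⟨e, he⟩ := exists_CdQ (N := N) hlt ((1 / 2) ^ m)
    have he' : N.Cd e ((1 / 2) ^ m) := by simpa using he
    obtain ⟨a, b, s, ha, hb, hs, h1, h2, h3, h4, h5⟩ := hX e ((hR.mem e).2 ⟨_, he'⟩)
      ((pos_iff hlt hR he').2 (by positivity))
    obtain ⟨α, hα⟩ := SF.of_fun hR ha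
    obtain ⟨β, hβ⟩ := SF.of_fun hR hb
    obtain ⟨σ, hσ⟩ := SF.of_fun hR hs
    have hex : ∀ {f : N.M} {x : ℕ → ℝ}, N.SF R f x → ∀ n, ∃ c, Rel N.E f (N.nat n) c ∧
        N.Cd c (x n) := by
      intro f x hf n
      obtain ⟨c, hc, _⟩ := hf.1.2 _ (N.nat_om n)
      exact ⟨c, hc, (hf.2 n c).1 hc⟩
    have hle : ∀ n, α n ≤ β n := by
      intro n
      obtain ⟨c, hc, hc'⟩ := hex hα n
      obtain ⟨d, hd, hd'⟩ := hex hβ n
      exact (le_iff_R hR hc' hd').1 (h1 _ _ _ hc hd)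
    have hσ0 : σ 0 = 0 := by
      obtain ⟨c, hc, hc'⟩ := hex hσ 0
      have h6 := h3 (N.nat 0) c (fun t ht => by
        obtain ⟨k, hk, _⟩ := (N.E_nat t 0).1 ht
        omega) hc
      have h7 := ((hR.add c c c _ _ hc' hc').1 h6).right hc'
      linarith
    have hσs : ∀ n, σ (n + 1) + α n = σ n + β n := by
      intro n
      obtain ⟨c, hc, hc'⟩ := hex hα n
      obtain ⟨d, hd, hd'⟩ := hex hβ n
      obtain ⟨u, hu, hu'⟩ := hex hσ n
      obtain ⟨v, hv, hv'⟩ := hex hσ (n + 1)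
      obtain ⟨w, hw1, hw2⟩ := h4 (N.nat n) (N.nat (n + 1)) c d u v (succ_iff.2 rfl) hc hd hu hv
      exact ((hR.add v c w _ _ hv' hc').1 hw1).right ((hR.add u d w _ _ hu' hd').1 hw2)
    have hσe : ∀ n, σ n ≤ (1 / 2) ^ m := by
      intro n
      obtain ⟨u, hu, hu'⟩ := hex hσ n
      exact (le_iff_R hR hu' he').1 (h5 _ _ hu)
    have hsum : ∀ n, ∑ i ∈ Finset.range n, (β i - α i) = σ n := by
      intro n
      induction n with
      | zero => simp [hσ0]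
      | succ n ih => rw [Finset.sum_range_succ, ih]; linarith [hσs n]
    obtain ⟨z, hz, hz'⟩ := exists_code_union hT hα hβ
    refine ⟨z, hz, ?_, fun c x hc hx => ?_⟩
    · rw [hz']
      refine (measure_iUnion_le _).trans (ENNReal.tsum_le_of_sum_range_le fun n => ?_)
      simp only [Real.volume_Ioo]
      rw [← ENNReal.ofReal_sum_of_nonneg fun i _ => by linarith [hle i]]
      apply ENNReal.ofReal_le_ofReal
      rw [hsum]
      exact hσe n
    · rw [hz', Set.mem_iUnion]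
      obtain ⟨k, u, v, h6, h7, h8, h9⟩ := h2 c hc
      obtain ⟨n, rfl⟩ := (N.E_om k).1 (IsFun.mem N.zf ha h6).1
      refine ⟨n, (hR.lt _ _ _ _ ((hα.2 n u).1 h6) hx).1 h8,
        (hR.lt _ _ _ _ hx ((hβ.2 n v).1 h7)).1 h9⟩
  · rintro ⟨hXR, hX⟩
    refine ⟨hXR, fun e heR hpos => ?_⟩
    obtain ⟨ε, he⟩ := (hR.mem e).1 heR
    have hε : 0 < ε := (pos_iff hlt hR he).1 hpos
    obtain ⟨m, hm⟩ := exists_pow_lt_of_lt_one (show (0 : ℝ) < ε / 2 by linarith)
      (show (1 / 2 : ℝ) < 1 by norm_num)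
    obtain ⟨z, hz, hz1, hz2⟩ := hX m
    have hA : funT (PsiA m) ∈ 𝒯 := hT (by simp [T2])
    have hB : funT (PsiB m) ∈ 𝒯 := hT (by simp [T2])
    have hS : funT (PsiS m) ∈ 𝒯 := hT (by simp [T2])
    obtain ⟨a, ha⟩ := SF.of_functional hT hR hA hz
    obtain ⟨b, hb⟩ := SF.of_functional hT hR hB hz
    obtain ⟨s, hs⟩ := SF.of_functional hT hR hS hz
    have ea : (fun n => (qd (PsiA m n (Zt z n)) : ℝ)) = fun n => ((iv (cF m z n)).1 : ℝ) := by
      funext n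
      rw [PsiA, qd_qc]
      rfl
    have eb : (fun n => (qd (PsiB m n (Zt z n)) : ℝ)) = fun n => ((iv (cF m z n)).2 : ℝ) := by
      funext n
      rw [PsiB, qd_qc]
      rfl
    have es : (fun n => (qd (PsiS m n (Zt z n)) : ℝ)) =
        fun n => ∑ i ∈ Finset.range n, (len (cF m z i) : ℝ) := by
      funext n
      rw [PsiS_spec]
      push_cast
      rfl
    rw [ea] at ha
    rw [eb] at hb
    rw [es] at hs
    have hnat : ∀ {f : N.M} {x : ℕ → ℝ} {n c : N.M}, N.SF R f x → Rel N.E f n c →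
        ∃ k, n = N.nat k ∧ N.Cd c (x k) := by
      intro f x n c hf h
      obtain ⟨k, rfl⟩ := (N.E_om n).1 (IsFun.mem N.zf hf.1 h).1
      exact ⟨k, rfl, (hf.2 k c).1 h⟩
    refine ⟨a, b, s, ha.1, hb.1, hs.1, fun n x y h1 h2 => ?_, fun c hc => ?_,
      fun n c h1 h2 => ?_, fun n n' x y c c' h1 h2 h3 h4 h5 => ?_, fun n c h1 => ?_⟩
    · obtain ⟨k, rfl, h3⟩ := hnat ha h1
      obtain ⟨k', h4, h5⟩ := hnat hb h2
      rw [← N.nat_inj h4] at h5
      exact (le_iff_R hR h3 h5).2 (by exact_mod_cast cF_le m z k)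
    · obtain ⟨x, hx⟩ := (hR.mem c).1 (hXR c hc)
      obtain ⟨n, hn1, hn2⟩ := Set.mem_iUnion.1 (cF_cover m z (hz2 c x hc hx))
      obtain ⟨u, hu, _⟩ := ha.1.2 _ (N.nat_om n)
      obtain ⟨v, hv, _⟩ := hb.1.2 _ (N.nat_om n)
      exact ⟨N.nat n, u, v, hu, hv, (hR.lt _ _ _ _ ((ha.2 n u).1 hu) hx).2 hn1,
        (hR.lt _ _ _ _ hx ((hb.2 n v).1 hv)).2 hn2⟩
    · obtain ⟨k, rfl, h3⟩ := hnat hs h2
      have hk : k = 0 := by
        by_contra hk
        exact h1 (N.nat 0) ((N.E_nat _ _).2 ⟨0, Nat.pos_of_ne_zero hk, rfl⟩)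
      subst hk
      simp only [Finset.range_zero, Finset.sum_empty] at h3
      refine (hR.add c c c 0 0 h3 h3).2 ?_
      simpa using h3
    · obtain ⟨k, rfl, h6⟩ := hnat ha h2
      obtain ⟨k1, e1, h7⟩ := hnat hb h3
      obtain ⟨k2, e2, h8⟩ := hnat hs h4
      obtain ⟨k3, rfl, h9⟩ := hnat hs h5
      rw [← N.nat_inj e1] at h7
      rw [← N.nat_inj e2] at h8
      have h10 := succ_iff.1 h1
      subst h10
      obtain ⟨u, hu⟩ := RM_add (T1_sub_T2.trans hT) ⟨c', h9⟩ ⟨x, h6⟩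
      refine ⟨u, (hR.add _ _ _ _ _ h9 h6).2 hu, (hR.add _ _ _ _ _ h8 h7).2 ?_⟩
      have e3 : ∑ i ∈ Finset.range k, (len (cF m z i) : ℝ) + ((iv (cF m z k)).2 : ℝ) =
          ∑ i ∈ Finset.range (k + 1), (len (cF m z i) : ℝ) + ((iv (cF m z k)).1 : ℝ) := by
        rw [Finset.sum_range_succ]
        have : (len (cF m z k) : ℝ) = ((iv (cF m z k)).2 : ℝ) - ((iv (cF m z k)).1 : ℝ) := by
          rw [len]; push_cast; rfl
        rw [this]
        ring
      rw [e3]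
      exact hu
    · obtain ⟨k, rfl, h2⟩ := hnat hs h1
      refine (le_iff_R hR h2 he).2 ?_
      have h3 := cF_partial (m := m) (η := (1 / 2) ^ m) (by positivity) hz1 k
      linarith

open Nice in
/-- Compactness. -/
theorem target_d2' : TargetD2' T2 := by
  intro 𝒯 N hT z hz a b h
  by_contra hcon
  have hT5a : T5a ⊆ 𝒯 := T5a_sub_T2.trans hT
  have hcl : IsClosed (Set.Icc (a : ℝ) b \ Op' z) := by
    rw [Set.sdiff_eq]
    exact isClosed_Icc.inter (isOpen_Op' z).isClosed_compl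
  have hne : (Set.Icc (a : ℝ) b \ Op' z).Nonempty := by
    by_contra hemp
    rw [Set.not_nonempty_iff_eq_empty, Set.sdiff_eq_empty] at hemp
    exact hcon hemp
  have hbdd : BddBelow (Set.Icc (a : ℝ) b \ Op' z) := ⟨a, fun x hx => hx.1.1⟩
  have hmem := hcl.csInf_mem hne hbdd
  have hlb : ∀ x ∈ Set.Icc (a : ℝ) b \ Op' z, sInf (Set.Icc (a : ℝ) b \ Op' z) ≤ x :=
    fun x hx => csInf_le hbdd hx
  generalize sInf (Set.Icc (a : ℝ) b \ Op' z) = y0 at hmem hlb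
  obtain ⟨⟨h1, h2⟩, h3⟩ := hmem
  have hfs : N.PM {τ | (fs τ : Set ℕ) ⊆ z} := by
    rw [mem_fs_fam]
    exact (hz.compl.image (T := gmR) (hT5a (by simp [T5a]))).compl
  have hP := hfs.image (T := cmpT a) (hT (by simp [T2]))
  have e : {n | ∃ τ ∈ {τ | (fs τ : Set ℕ) ⊆ z}, Nat.pair n τ ∈ cmpT a} = cut y0 := by
    ext n
    constructor
    · rintro ⟨τ, hτ, h4⟩
      have h5 : qd n < a ∨ Set.Icc (a : ℝ) (qd n) ⊆ ⋃ j ∈ fs τ, Iv j := by
        simpa [cmpT] using h4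
      show (qd n : ℝ) < y0
      rcases h5 with h5 | h5
      · have : (qd n : ℝ) < a := by exact_mod_cast h5
        linarith
      · by_contra hc
        have h6 : y0 ∈ ⋃ j ∈ fs τ, Iv j := h5 ⟨h1, not_lt.1 hc⟩
        simp only [Set.mem_iUnion] at h6
        obtain ⟨j, hj, h7⟩ := h6
        exact h3 (mem_Op'.2 ⟨j, hτ hj, h7⟩)
    · intro hn
      have hn' : (qd n : ℝ) < y0 := hn
      have hsub : Set.Icc (a : ℝ) (qd n) ⊆ ⋃ j ∈ z, Iv j := by
        intro x hx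
        by_contra hxz
        have := hlb x ⟨⟨hx.1, by linarith [hx.2]⟩, hxz⟩
        linarith [hx.2]
      obtain ⟨t, ht, htf, htc⟩ := isCompact_Icc.elim_finite_subcover_image
        (b := z) (c := fun j => Iv j) (fun j _ => isOpen_Ioo) hsub
      obtain ⟨τ, hτ⟩ := fs_surj htf.toFinset
      refine ⟨τ, ?_, ?_⟩
      · show (fs τ : Set ℕ) ⊆ z
        rw [hτ]
        simpa using ht
      · have h5 : Set.Icc (a : ℝ) (qd n) ⊆ ⋃ j ∈ fs τ, Iv j := by
          rw [hτ]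
          simpa using htc
        simp only [cmpT, Set.mem_ofPred_eq, Nat.unpair_pair]
        exact Or.inr h5
  rw [e] at hP
  exact h3 (h y0 hP h1 h2)

end Pool.Agent.H83.F
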