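import Pool.Agent.H83.F.Targets

/-!
# D5: binary digits and dyadic intervals
-/

set_option linter.unusedSectionVars false
set_option linter.unusedVariables false

open MeasureTheory

namespace Pool.Agent.H83.F

/-- digit number `m` of `x` is `1` -/
def dig (x : ℝ) (m : ℕ) : Prop :=
  ∃ k : ℕ, (2 * k + 1) / 2 ^ (m + 1) < x ∧ x ≤ (2 * k + 2) / 2 ^ (m + 1)

/-- left end point of the dyadic interval -/
def loQ : List Bool → ℚ
  | [] => 0
  | true :: σ => 1 / 2 + loQ σ / 2
  | false :: σ => loQ σ / 2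

/-- the closed dyadic interval given by a binary string -/
def Dy (σ : List Bool) : Set ℝ := Set.Icc (loQ σ : ℝ) (loQ σ + (1 / 2) ^ σ.length)

theorem isClosed_Dy (σ : List Bool) : IsClosed (Dy σ) := isClosed_Icc

theorem dig_zero_iff {x : ℝ} (h0 : 0 ≤ x) (h1 : x ≤ 1) : dig x 0 ↔ 1 / 2 < x := by
  constructor
  · rintro ⟨k, h2, _⟩
    have : (0 : ℝ) ≤ k := Nat.cast_nonneg k
    norm_num at h2
    linarith
  · intro h
    refine ⟨0, ?_, ?_⟩ <;> norm_num <;> linarith

theorem dig_succ_false {x : ℝ} (m : ℕ) : dig x (m + 1) ↔ dig (2 * x) m := by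
  have hp : (0 : ℝ) < 2 ^ (m + 1) := by positivity
  have hp' : (0 : ℝ) < 2 ^ (m + 1 + 1) := by positivity
  refine exists_congr fun k => ?_
  rw [div_lt_iff₀ hp, div_lt_iff₀ hp', le_div_iff₀ hp, le_div_iff₀ hp', pow_succ (2 : ℝ) (m + 1)]
  constructor
  · rintro ⟨h1, h2⟩; constructor <;> linarith
  · rintro ⟨h1, h2⟩; constructor <;> linarith

theorem dig_succ_true {x : ℝ} (m : ℕ) (hx : 1 / 2 < x) : dig x (m + 1) ↔ dig (2 * x - 1) m := by
  rw [dig_succ_false]
  have hp : (0 : ℝ) < 2 ^ (m + 1) := by positivity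
  constructor
  · rintro ⟨k, h1, h2⟩
    rw [div_lt_iff₀ hp] at h1
    rw [le_div_iff₀ hp] at h2
    have h3 : (2 : ℝ) ^ (m + 1) < 2 * k + 2 := by nlinarith
    have h4 : 2 ^ m ≤ k := by
      have h5 : (2 : ℝ) ^ m < k + 1 := by rw [pow_succ] at h3; linarith
      have h6 : ((2 ^ m : ℕ) : ℝ) < ((k + 1 : ℕ) : ℝ) := by push_cast; exact h5
      have h7 : 2 ^ m < k + 1 := by exact_mod_cast h6
      omega
    obtain ⟨d, rfl⟩ := Nat.exists_eq_add_of_le h4
    refine ⟨d, ?_, ?_⟩
    · rw [div_lt_iff₀ hp]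
      push_cast at h1
      rw [pow_succ] at h1 ⊢
      nlinarith
    · rw [le_div_iff₀ hp]
      push_cast at h2
      rw [pow_succ] at h2 ⊢
      nlinarith
  · rintro ⟨k, h1, h2⟩
    rw [div_lt_iff₀ hp] at h1
    rw [le_div_iff₀ hp] at h2
    refine ⟨2 ^ m + k, ?_, ?_⟩
    · rw [div_lt_iff₀ hp]
      push_cast
      rw [pow_succ] at h1 ⊢
      nlinarith
    · rw [le_div_iff₀ hp]
      push_cast
      rw [pow_succ] at h2 ⊢
      nlinarith

/-- the string gives the first digits of `x` -/
def IsDig (x : ℝ) (σ : List Bool) : Prop := ∀ m, ∀ h : m < σ.length, (σ[m] = true ↔ dig x m)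

theorem mem_Dy_of_isDig : ∀ (σ : List Bool) {x : ℝ}, 0 ≤ x → x ≤ 1 → IsDig x σ → x ∈ Dy σ := by
  intro σ
  induction σ with
  | nil =>
    intro x h0 h1 _
    simp only [Dy, loQ, List.length_nil, pow_zero, Set.mem_Icc]
    push_cast
    constructor <;> linarith
  | cons b σ ih =>
    intro x h0 h1 h
    have hb := h 0 (by simp)
    rw [dig_zero_iff h0 h1] at hb
    simp only [List.getElem_cons_zero] at hb
    cases b with
    | true =>
      have hx : 1 / 2 < x := hb.1 rfl
      have h2 : 2 * x - 1 ∈ Dy σ := by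
        refine ih (by linarith) (by linarith) fun m hm => ?_
        have := h (m + 1) (by simpa using hm)
        rw [dig_succ_true m hx] at this
        simpa using this
      obtain ⟨h3, h4⟩ := h2
      simp only [Dy, loQ, List.length_cons, Set.mem_Icc, pow_succ]
      push_cast
      constructor <;> linarith
    | false =>
      have hx : ¬ 1 / 2 < x := fun h => by simpa using hb.2 h
      rw [not_lt] at hx
      have h2 : 2 * x ∈ Dy σ := by
        refine ih (by linarith) (by linarith) fun m hm => ?_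
        have := h (m + 1) (by simpa using hm)
        rw [dig_succ_false m] at this
        simpa using this
      obtain ⟨h3, h4⟩ := h2
      simp only [Dy, loQ, List.length_cons, Set.mem_Icc, pow_succ]
      push_cast
      constructor <;> linarith

theorem loQ_nonneg (σ : List Bool) : 0 ≤ loQ σ := by
  induction σ with
  | nil => simp [loQ]
  | cons b σ ih => cases b <;> simp only [loQ] <;> linarith

theorem loQ_add_le (σ : List Bool) : (loQ σ : ℝ) + (1 / 2) ^ σ.length ≤ 1 := by
  induction σ with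
  | nil => simp [loQ]
  | cons b σ ih =>
    cases b <;> simp only [loQ, List.length_cons, pow_succ] <;> push_cast <;> linarith

theorem Dy_append (σ ρ : List Bool) : Dy (σ ++ ρ) ⊆ Dy σ := by
  induction σ with
  | nil =>
    rintro x ⟨h1, h2⟩
    have h3 := loQ_nonneg ([] ++ ρ)
    have h3' : (0 : ℝ) ≤ loQ ([] ++ ρ) := by exact_mod_cast h3
    have h4 := loQ_add_le ([] ++ ρ)
    simp only [Dy, loQ, List.length_nil, pow_zero, Set.mem_Icc]
    push_cast
    constructor <;> linarith
  | cons b σ ih =>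
    rintro x ⟨h1, h2⟩
    cases b with
    | true =>
      simp only [List.cons_append, loQ, List.length_cons, pow_succ] at h1 h2
      push_cast at h1 h2
      have : 2 * x - 1 ∈ Dy (σ ++ ρ) := ⟨by linarith, by linarith⟩
      obtain ⟨h3, h4⟩ := ih this
      simp only [Dy, loQ, List.length_cons, Set.mem_Icc, pow_succ]
      push_cast
      constructor <;> linarith
    | false =>
      simp only [List.cons_append, loQ, List.length_cons, pow_succ] at h1 h2
      push_cast at h1 h2
      have : 2 * x ∈ Dy (σ ++ ρ) := ⟨by linarith, by linarith⟩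
      obtain ⟨h3, h4⟩ := ih this
      simp only [Dy, loQ, List.length_cons, Set.mem_Icc, pow_succ]
      push_cast
      constructor <;> linarith

theorem Dy_prefix {σ ρ : List Bool} (h : σ <+: ρ) : Dy ρ ⊆ Dy σ := by
  obtain ⟨τ, rfl⟩ := h
  exact Dy_append σ τ

/-- the string of the first `l` digits -/
theorem exists_isDig (x : ℝ) (l : ℕ) : ∃ t, (nd t).length = l ∧ IsDig x (nd t) := by
  classical
  obtain ⟨t, ht⟩ := nd_surj (List.ofFn fun m : Fin l => decide (dig x m))
  refine ⟨t, by rw [ht]; simp, fun m hm => ?_⟩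
  simp only [ht, List.getElem_ofFn]
  simp

theorem dist_le_of_mem_Dy {σ : List Bool} {x y : ℝ} (hx : x ∈ Dy σ) (hy : y ∈ Dy σ) :
    |x - y| ≤ (1 / 2) ^ σ.length := by
  obtain ⟨h1, h2⟩ := hx
  obtain ⟨h3, h4⟩ := hy
  rw [abs_le]
  constructor <;> linarith

/-- an open interval around a dyadic interval -/
theorem exists_Iv_Dy (σ : List Bool) : ∃ j, Dy σ ⊆ Iv j ∧
    volume (Iv j) ≤ ENNReal.ofReal (2 * (1 / 2) ^ σ.length) := by
  obtain ⟨j, hj⟩ := iv_surj (loQ σ - (1 / 2) ^ σ.length / 2,
    loQ σ + (1 / 2) ^ σ.length + (1 / 2) ^ σ.length / 2)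
  have hp : (0 : ℝ) < (1 / 2) ^ σ.length := by positivity
  refine ⟨j, ?_, ?_⟩
  · rintro x ⟨h1, h2⟩
    rw [Iv, hj]
    constructor
    · push_cast; linarith
    · push_cast; linarith
  · rw [Iv, hj, Real.volume_Ioo]
    apply ENNReal.ofReal_le_ofReal
    push_cast
    linarith

end Pool.Agent.H83.F
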