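import Pool.Agent.H83.F.D5Coh
import Pool.Agent.H83.F.D5Dig

/-!
# D5: no monotone Borel hull operation on the measurable sets
-/

universe v w

set_option linter.unusedSectionVars false
set_option linter.unusedVariables false

open MeasureTheory

namespace Pool.Agent.H83.F

open Pool.Agent.H86

/-- digits -/
def digT : Set ℕ := {q | ∃ k : ℕ,
  qd (Nat.unpair (Nat.unpair q).2).1 = (2 * k + 1) / 2 ^ ((Nat.unpair q).1 + 1) ∧
  qd (Nat.unpair (Nat.unpair q).2).2 = (2 * k + 2) / 2 ^ ((Nat.unpair q).1 + 1)}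

/-- covers of dyadic intervals -/
def covT : Set ℕ := {q | Dy (nd (Nat.unpair q).1) ⊆ ⋃ j ∈ fs (Nat.unpair q).2, Iv j}

/-- intervals disjoint from a finite union of dyadic intervals -/
def disT : Set ℕ := {q | Disjoint (Iv (Nat.unpair q).1) (⋃ s ∈ fs (Nat.unpair q).2, Dy (nd s))}

/-- intervals outside `[0, 1/2]` -/
def outT : Set ℕ := {q | (iv (Nat.unpair q).1).2 ≤ 0 ∨ 1 / 2 ≤ (iv (Nat.unpair q).1).1}

/-- The constants for D5. -/
def T5 : Set (Set ℕ) := T5a ∪ {digT, covT, disT, outT, preT (Nat.pair 2)}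

theorem T5_countable : T5.Countable := T5a_countable.union (Set.Finite.countable (Set.toFinite _))

theorem T5a_sub_T5 : T5a ⊆ T5 := Set.subset_union_left

section Formulas

variable {N : Type v} {Ω : Type w} (L : LogicStr N Ω)

/-- `c ∈ K_α` -/
def f5K (L0 a0 a1 gf gs gl gr tow n2 α c : N) : Ω :=
  L.and (L.imp (fRel L L0 c a0) L.bot) (L.and (L.imp (fRel L L0 a1 c) L.bot)
    (L.imp (f3Lev L gf gs gl gr tow α n2 c) L.bot))

/-- `G` is the complement of `K_α` -/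
def f5G (R L0 a0 a1 gf gs gl gr tow n2 α G : N) : Ω :=
  L.all fun c => L.imp (L.mem c R) (L.iff (L.mem c G)
    (L.imp (f5K L L0 a0 a1 gf gs gl gr tow n2 α c) L.bot))

/-- `c` is a good choice at `α` -/
def f5C (R L0 a0 a1 gf gs gl gr tow n2 ψ α c : N) : Ω :=
  L.and (f5K L L0 a0 a1 gf gs gl gr tow n2 α c) (L.all fun G => L.all fun Y =>
    L.imp (f5G L R L0 a0 a1 gf gs gl gr tow n2 α G) (L.imp (fRel L ψ G Y)
      (L.imp (L.mem c Y) L.bot)))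

/-- the `α`-th point is in the null set at level `β` -/
def f5F (om gf gs gl gr tow cf α β : N) : Ω :=
  L.ex fun c => L.and (fRel L cf α c) (f3N L om gf gs gl gr tow β c)

/-- composition -/
def f5Comp (a c i x : N) : Ω := L.ex fun α => L.and (fRel L a i α) (fRel L c α x)

end Formulas

theorem isOpen_Op' (z : Set ℕ) : IsOpen (Op' z) :=
  isOpen_iUnion fun j => isOpen_iUnion fun _ => isOpen_Ioo

namespace Nice

variable {𝒯 : Set (Set ℕ)} {N : Nice 𝒯}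

/-- the closed set `K_α` -/
def InK (N : Nice 𝒯) (α : N.M) (x : ℝ) : Prop := 0 ≤ x ∧ x ≤ 1 / 2 ∧ x ∉ Op' (N.Lv α 2)

theorem k_iff {gf gs gm gl gr : N.M} (h : N.SC gf gs gm gl gr) {R A T L : N.M}
    (hR : N.Reals R A T L) {a0 a1 : N.M} (ha0 : N.Cd a0 0) (ha1 : N.Cd a1 (1 / 2)) {c : N.M}
    {x : ℝ} (hc : N.Cd c x) (α : N.M) :
    f5K (propStr N.E) L a0 a1 gf gs gl gr N.tow (N.nat 2) α c ↔ N.InK α x := by
  refine and_congr ?_ (and_congr ?_ ?_)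
  · rw [← not_lt, ← hR.lt c a0 x 0 hc ha0]; rfl
  · rw [← not_lt, ← hR.lt a1 c (1 / 2) x ha1 hc]; rfl
  · rw [← lev_iff h hc α 2]; rfl

theorem g_iff {gf gs gm gl gr : N.M} (h : N.SC gf gs gm gl gr) {R A T L : N.M}
    (hR : N.Reals R A T L) {a0 a1 : N.M} (ha0 : N.Cd a0 0) (ha1 : N.Cd a1 (1 / 2)) (α G : N.M) :
    f5G (propStr N.E) R L a0 a1 gf gs gl gr N.tow (N.nat 2) α G ↔
      ∀ c x, N.Cd c x → (N.E c G ↔ ¬ N.InK α x) := by
  constructor
  · intro h1 c x hc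
    exact (h1 c (Cd.memR hR hc)).trans (not_congr (k_iff h hR ha0 ha1 hc α))
  · intro h1 c hc
    obtain ⟨x, hx⟩ := (hR.mem c).1 hc
    exact (h1 c x hx).trans (not_congr (k_iff h hR ha0 ha1 hx α).symm)

/-- `K_α` is not null. -/
theorem exists_InK (hcpt : ∀ z : Set ℕ, N.PM z → ∀ a b : ℚ,
      (∀ x ∈ N.RM, (a : ℝ) ≤ x → x ≤ b → x ∈ Op' z) → Set.Icc (a : ℝ) b ⊆ Op' z)
    (hT : T4 ⊆ 𝒯) {R D α : N.M} (hα : N.E α N.w2) (hD : N.NullS R D) :
    ∃ c x, N.Cd c x ∧ N.InK α x ∧ ¬ N.E c D := by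
  by_contra hcon
  obtain ⟨gf, gs, gm, gl, gr, hSC⟩ := exists_SC (N := N) hT
  obtain ⟨z, h1, h2, h3⟩ := hD.2 3
  have h4 := hcpt (z ∪ N.Lv α 2) (h1.union (PM_Lv hSC α 2)) 0 (1 / 2) (by
    rintro x ⟨c, hc⟩ h5 h6
    by_cases h7 : x ∈ Op' (N.Lv α 2)
    · obtain ⟨j, hj, hx⟩ := mem_Op'.1 h7
      exact mem_Op'.2 ⟨j, Or.inr hj, hx⟩
    · have h8 : N.E c D := by
        by_contra h9
        refine hcon ⟨c, x, hc, ⟨?_, ?_, h7⟩, h9⟩
        · push_cast at h5; exact h5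
        · push_cast at h6; exact h6
      obtain ⟨j, hj, hx⟩ := mem_Op'.1 (h3 c x h8 hc)
      exact mem_Op'.2 ⟨j, Or.inl hj, hx⟩)
  have h5 : volume (Set.Icc ((0 : ℚ) : ℝ) ((1 / 2 : ℚ) : ℝ)) ≤
      volume (Op' z) + volume (Op' (N.Lv α 2)) := by
    refine (measure_mono (h4.trans ?_)).trans (measure_union_le _ _)
    intro x hx
    obtain ⟨j, hj, hx⟩ := mem_Op'.1 hx
    rcases hj with hj | hj
    · exact Or.inl (mem_Op'.2 ⟨j, hj, hx⟩)
    · exact Or.inr (mem_Op'.2 ⟨j, hj, hx⟩)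
  have h6 := h5.trans (add_le_add h2 (N.tow_small α hα 2))
  rw [Real.volume_Icc, ← ENNReal.ofReal_add (by positivity) (by positivity)] at h6
  have h7 := (ENNReal.ofReal_le_ofReal_iff (by positivity)).1 h6
  norm_num at h7

/-- The complement of `K_α` is Borel. -/
theorem exists_G (hT : T5 ⊆ 𝒯) {R A T L : N.M} (hR : N.Reals R A T L) (α : N.M) :
    ∃ G, IsBorel N.E N.om R L G ∧ ∀ c x, N.Cd c x → (N.E c G ↔ ¬ N.InK α x) := by
  have hT3 : T3 ⊆ 𝒯 := (T3_sub_T5a.trans T5a_sub_T5).trans hT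
  obtain ⟨gf, gs, gm, gl, gr, hSC⟩ := exists_SC (N := N) (T4_sub_T3.trans hT3)
  have hout : N.PM {j | (iv j).2 ≤ 0 ∨ 1 / 2 ≤ (iv j).1} :=
    PM.const' (T := outT) (hT (by simp [T5])) (fun n => by
      constructor
      · intro h; exact ⟨0, by simpa [outT] using h⟩
      · rintro ⟨k, hk⟩; simpa [outT] using hk)
  obtain ⟨G, hG, hG'⟩ := borel_open hT3 hR ((PM_Lv hSC α 2).union hout)
  refine ⟨G, hG, fun c x hc => (hG' c x hc).trans ?_⟩
  rw [mem_Op']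
  constructor
  · rintro ⟨j, hj | hj, hx⟩ ⟨h1, h2, h3⟩
    · exact h3 (mem_Op'.2 ⟨j, hj, hx⟩)
    · rcases hj with hj | hj
      · have h4 : ((iv j).2 : ℝ) ≤ 0 := by exact_mod_cast hj
        linarith [hx.2]
      · have h4 : ((1 / 2 : ℚ) : ℝ) ≤ (iv j).1 := by exact_mod_cast hj
        push_cast at h4
        linarith [hx.1]
  · intro h
    by_cases h0 : 0 ≤ x
    · by_cases h1 : x ≤ 1 / 2
      · by_cases h2 : x ∈ Op' (N.Lv α 2)
        · obtain ⟨j, hj, hx⟩ := mem_Op'.1 h2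
          exact ⟨j, Or.inl hj, hx⟩
        · exact (h ⟨h0, h1, h2⟩).elim
      · rw [not_le] at h1
        obtain ⟨a, ha1, ha2⟩ := exists_rat_btwn h1
        obtain ⟨b, hb1, _⟩ := exists_rat_btwn (lt_add_one x)
        obtain ⟨j, hj⟩ := iv_surj (a, b)
        refine ⟨j, Or.inr (Or.inr ?_), ?_⟩
        · rw [hj]
          have : ((1 / 2 : ℚ) : ℝ) < a := by push_cast; exact ha1
          exact_mod_cast this.le
        · rw [Iv, hj]; exact ⟨ha2, hb1⟩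
    · rw [not_le] at h0
      obtain ⟨a, _, ha2⟩ := exists_rat_btwn (sub_one_lt x)
      obtain ⟨b, hb1, hb2⟩ := exists_rat_btwn h0
      obtain ⟨j, hj⟩ := iv_surj (a, b)
      refine ⟨j, Or.inr (Or.inl ?_), ?_⟩
      · rw [hj]; exact_mod_cast hb2.le
      · rw [Iv, hj]; exact ⟨ha2, hb1⟩

theorem exists_empty (hT : T3 ⊆ 𝒯) {R A T L : N.M} (hR : N.Reals R A T L) :
    ∃ e, IsBorel N.E N.om R L e ∧ N.NullS R e ∧ ∀ c, ¬ N.E c e := by
  obtain ⟨e, he, he'⟩ := borel_open hT hR PM.empty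
  have hemp : ∀ c, ¬ N.E c e := by
    intro c hc
    obtain ⟨x, hx⟩ := (hR.mem c).1 (he.1 c hc)
    obtain ⟨j, hj, _⟩ := mem_Op'.1 ((he' c x hx).1 hc)
    exact hj
  refine ⟨e, he, ⟨he.1, fun m => ⟨∅, PM.empty, ?_, fun c x hc => (hemp c hc).elim⟩⟩, hemp⟩
  simp [Op']

theorem meas_of_borel (hT : T3 ⊆ 𝒯) {R A T L : N.M} (hR : N.Reals R A T L)
    (hnull : ∀ X, IsNull N.E N.om R A L X ↔ N.NullS R X) {X : N.M}
    (hX : IsBorel N.E N.om R L X) : IsMeas N.E N.om R A L X := by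
  obtain ⟨e, _, he, _⟩ := exists_empty hT hR
  exact ⟨hX.1, X, e, hX, (hnull e).2 he, fun x hx => by tauto⟩

theorem meas_of_null (hT : T3 ⊆ 𝒯) {R A T L : N.M} (hR : N.Reals R A T L)
    (hnull : ∀ X, IsNull N.E N.om R A L X ↔ N.NullS R X) {X : N.M}
    (hX : N.NullS R X) : IsMeas N.E N.om R A L X := by
  obtain ⟨e, he, _, he'⟩ := exists_empty hT hR
  exact ⟨hX.1, e, X, he, (hnull X).2 hX, fun x hx => by
    rcases hx with h | h
    · exact h.1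
    · exact (he' x h.1).elim⟩

theorem cut_fam {R xf : N.M} (hxf : IsFun N.E xf N.w1 R) {r : N.M → ℝ}
    (hr : ∀ i c, N.E i N.w1 → (Rel N.E xf i c ↔ N.Cd c (r i))) :
    N.IFam N.w1 (fun i => cut (r i)) := by
  refine (IFam.ofFun hxf).congr fun i hi => ?_
  obtain ⟨c, hc, _⟩ := hxf.2 i hi
  have hc' := (hr i c hi).1 hc
  ext n
  constructor
  · rintro ⟨y, hy, hny⟩
    have h1 := (hr i y hi).1 hy
    rw [← h1.2]; exact hny
  · intro hn
    refine ⟨c, hc, ?_⟩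
    rw [← hc'.2] at hn; exact hn

/-- The closed null set through unboundedly many of the points. -/
theorem exists_closed (hT : T5 ⊆ 𝒯) {R A T L : N.M} (hR : N.Reals R A T L) {xf af : N.M}
    (hxf : IsFun N.E xf N.w1 R) (haf : IsFun N.E af N.w1 N.w2) {r : N.M → ℝ} {a : N.M → N.M}
    (hr : ∀ i c, N.E i N.w1 → (Rel N.E xf i c ↔ N.Cd c (r i)))
    (ha : ∀ i, N.E i N.w1 → N.E (a i) N.w2 ∧ ∀ y, Rel N.E af i y ↔ y = a i)
    (hK : ∀ i, N.E i N.w1 → N.InK (a i) (r i))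
    (hN : ∀ i k, N.E i N.w1 → N.E k i → r k ∈ Op' (N.Lv (a i) 2)) :
    ∃ X, Sub N.E X N.w1 ∧ (∀ k, N.E k N.w1 → ∃ i, N.E i X ∧ N.E k i) ∧
      ∃ z, N.PM z ∧ (∀ i, N.E i X → r i ∉ Op' z) ∧
        (∀ i x, N.E i X → N.InK (a i) x → x ∉ Op' z → x = r i) ∧
        ∀ m : ℕ, ∃ z' : Set ℕ, N.PM z' ∧ volume (Op' z') ≤ ENNReal.ofReal ((1 / 2) ^ m) ∧
          ∀ x, x ∉ Op' z → x ∈ Op' z' := by
  have hT5a : T5a ⊆ 𝒯 := T5a_sub_T5.trans hT
  have hT3 : T3 ⊆ 𝒯 := T3_sub_T5a.trans hT5a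
  have hT4 : T4 ⊆ 𝒯 := T4_sub_T3.trans hT3
  have hf : fstT ∈ 𝒯 := hT4 (by simp [T4])
  have hs : sndT ∈ 𝒯 := hT4 (by simp [T4])
  have hcut := cut_fam hxf hr
  have hdig : N.IFam N.w1 (fun i => {m | dig (r i) m}) := by
    refine (hcut.image2 hcut.compl hf hs (T := digT) (hT (by simp [T5]))).congr fun i _ => ?_
    ext m
    constructor
    · rintro ⟨p, hp, q, hq, k, h1, h2⟩
      simp only [Nat.unpair_pair] at h1 h2
      have h3 : (qd p : ℝ) = (2 * k + 1) / 2 ^ (m + 1) := by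
        rw [h1]; push_cast; rfl
      have h4 : (qd q : ℝ) = (2 * k + 2) / 2 ^ (m + 1) := by
        rw [h2]; push_cast; rfl
      refine ⟨k, ?_, ?_⟩
      · rw [← h3]; exact hp
      · rw [← h4]; exact not_lt.1 hq
    · rintro ⟨k, h1, h2⟩
      obtain ⟨p, hp⟩ := qd_surj ((2 * k + 1) / 2 ^ (m + 1))
      obtain ⟨q, hq⟩ := qd_surj ((2 * k + 2) / 2 ^ (m + 1))
      have h3 : (qd p : ℝ) = (2 * k + 1) / 2 ^ (m + 1) := by
        rw [hp]; push_cast; rfl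
      have h4 : (qd q : ℝ) = (2 * k + 2) / 2 ^ (m + 1) := by
        rw [hq]; push_cast; rfl
      refine ⟨p, ?_, q, ?_, k, ?_, ?_⟩
      · show (qd p : ℝ) < r i
        rw [h3]; exact h1
      · show ¬ ((qd q : ℝ) < r i)
        rw [h4]; exact not_lt.2 h2
      · simpa using hp
      · simpa using hq
  have hLv : N.IFam N.w1 (fun i => N.Lv (a i) 2) := by
    have h1 : N.IFam N.w2 (fun α => {n | Rel N.E N.tow α (N.nat n)}) :=
      ⟨N.tow, fun _ _ _ => Iff.rfl⟩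
    have h2 := h1.reindex haf (F := a) (fun i hi => ((ha i hi).2 _).2 rfl)
    exact (h2.preimage (f := Nat.pair 2) (T := preT (Nat.pair 2)) (hT (by simp [T5]))
      (fun n k => by simp [preT])).congr fun i _ => rfl
  have hcov : N.IFam N.w1 (fun i => {t | ∃ τ, (fs τ : Set ℕ) ⊆ N.Lv (a i) 2 ∧
      Dy (nd t) ⊆ ⋃ j ∈ fs τ, Iv j}) := by
    have h1 : N.IFam N.w1 (fun i => {τ | (fs τ : Set ℕ) ⊆ N.Lv (a i) 2}) := by
      refine (hLv.compl.image (T := gmR) (hT5a (by simp [T5a]))).compl.congr fun i _ => ?_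
      exact (mem_fs_fam (N.Lv (a i) 2)).symm
    refine (h1.image (T := covT) (hT (by simp [T5]))).congr fun i _ => ?_
    ext t
    constructor
    · rintro ⟨τ, h2, h3⟩
      exact ⟨τ, h2, by simpa [covT] using h3⟩
    · rintro ⟨τ, h2, h3⟩
      exact ⟨τ, h2, by simpa [covT] using h3⟩
  obtain ⟨Z0, hZ0⟩ := hdig
  obtain ⟨Z1, hZ1⟩ := hcov
  have hseg : ∀ i, N.E i N.w1 → ∀ σ, InSeg N.E N.nat Z0 i σ ↔ IsDig (r i) σ := by
    intro i hi σ
    refine forall_congr' fun m => forall_congr' fun h => ?_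
    rw [hZ0 i hi m]
    rfl
  have hr01 : ∀ i, N.E i N.w1 → 0 ≤ r i ∧ r i ≤ 1 := fun i hi => by
    obtain ⟨h1, h2, _⟩ := hK i hi
    constructor <;> linarith
  obtain ⟨X, J, hX, hJ, hXu, hX1, hX2⟩ := N.closedP Z0 Z1 (by
    intro k i hi hki
    have hk : N.E k N.w1 := N.w1_trans _ _ hki hi
    obtain ⟨j, hj, h1, h2⟩ := mem_Op'.1 (hN i k hi hki)
    obtain ⟨l, hl⟩ := exists_pow_lt_of_lt_one (show (0 : ℝ) < min (r k - (iv j).1)
      ((iv j).2 - r k) by rw [lt_min_iff]; constructor <;> linarith)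
      (show (1 / 2 : ℝ) < 1 by norm_num)
    obtain ⟨h3, h4⟩ := lt_min_iff.1 hl
    obtain ⟨t, ht1, ht2⟩ := exists_isDig (r k) l
    refine ⟨t, (hseg k hk _).2 ht2, (hZ1 i hi t).2 ⟨cfs {j}, ?_, ?_⟩⟩
    · rw [fs_cfs]; simpa using hj
    · intro y hy
      have h5 := dist_le_of_mem_Dy hy (mem_Dy_of_isDig _ (hr01 k hk).1 (hr01 k hk).2 ht2)
      rw [ht1, abs_le] at h5
      rw [fs_cfs]
      simp only [Finset.mem_singleton, Set.iUnion_iUnion_eq_left]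
      exact ⟨by linarith [h5.1], by linarith [h5.2]⟩)
  refine ⟨X, hX, hXu, {j | ∃ n ∈ N.val J, Nat.pair j n ∈ disT},
    PM.image ⟨J, hJ, rfl⟩ (hT (by simp [T5])), ?_⟩
  have hcl : ∀ n, IsClosed (⋃ s ∈ fs n, Dy (nd s)) := fun n =>
    Set.Finite.isClosed_biUnion (Finset.finite_toSet _) fun s _ => isClosed_Dy _
  have hmem : ∀ x, x ∉ Op' {j | ∃ n ∈ N.val J, Nat.pair j n ∈ disT} ↔
      ∀ n, N.E (N.nat n) J → ∃ s ∈ fs n, x ∈ Dy (nd s) := by
    intro x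
    constructor
    · intro hx n hn
      by_contra hcon
      have h1 : x ∉ ⋃ s ∈ fs n, Dy (nd s) := by
        intro h2
        simp only [Set.mem_iUnion] at h2
        obtain ⟨s, hs, h3⟩ := h2
        exact hcon ⟨s, hs, h3⟩
      obtain ⟨j, hj, hd⟩ := exists_Iv_disjoint (hcl n) h1
      exact hx (mem_Op'.2 ⟨j, ⟨n, hn, by simpa [disT] using hd⟩, hj⟩)
    · intro h hx
      obtain ⟨j, ⟨n, hn, hd⟩, hj⟩ := mem_Op'.1 hx
      obtain ⟨s, hs, hs'⟩ := h n hn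
      have hd' : Disjoint (Iv j) (⋃ s ∈ fs n, Dy (nd s)) := by simpa [disT] using hd
      refine Set.disjoint_left.1 hd' hj ?_
      simp only [Set.mem_iUnion]
      exact ⟨s, hs, hs'⟩
  generalize Op' {j | ∃ n ∈ N.val J, Nat.pair j n ∈ disT} = O at hmem
  refine ⟨fun i hi => (hmem _).2 fun n hn => ?_, fun i x hi hx hxO => ?_, fun m => ?_⟩
  · obtain ⟨s, hs, h1⟩ := hX1 i hi n hn
    exact ⟨s, hs, mem_Dy_of_isDig _ (hr01 i (hX i hi)).1 (hr01 i (hX i hi)).2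
      ((hseg i (hX i hi) _).1 h1)⟩
  · by_contra hne
    obtain ⟨m, hm⟩ := exists_pow_lt_of_lt_one (abs_pos.2 (sub_ne_zero.2 hne))
      (show (1 / 2 : ℝ) < 1 by norm_num)
    obtain ⟨n, hn, h1, _, h2⟩ := hX2 i hi m
    obtain ⟨s, hs, h3⟩ := (hmem x).1 hxO n hn
    rcases h2 s hs with h4 | ⟨t, h4, h5⟩
    · have h6 := mem_Dy_of_isDig _ (hr01 i (hX i hi)).1 (hr01 i (hX i hi)).2
        ((hseg i (hX i hi) _).1 h4)
      have h7 := dist_le_of_mem_Dy h3 h6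
      have h8 : (1 / 2 : ℝ) ^ (nd s).length ≤ (1 / 2) ^ m :=
        pow_le_pow_of_le_one (by norm_num) (by norm_num) (h1 s hs)
      linarith
    · obtain ⟨τ, h6, h7⟩ := (hZ1 i (hX i hi) t).1 h5
      have h8 := h7 (Dy_prefix h4 h3)
      simp only [Set.mem_iUnion] at h8
      obtain ⟨j, hj, h9⟩ := h8
      exact hx.2.2 (mem_Op'.2 ⟨j, h6 hj, h9⟩)
  · obtain ⟨i, hi, _⟩ := hXu (N.nat 0) (N.om_w1 _ (N.nat_om 0))
    obtain ⟨n, hn, _, h1, _⟩ := hX2 i hi (m + 1)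
    choose j hj1 hj2 using fun s => exists_Iv_Dy (nd s)
    classical
    refine ⟨((fs n).image j : Finset ℕ), PM.finite (Finset.finite_toSet _), ?_, fun x hx => ?_⟩
    · have e : Op' (((fs n).image j : Finset ℕ) : Set ℕ) = ⋃ s ∈ fs n, Iv (j s) := by
        ext x
        simp only [mem_Op', Set.mem_iUnion]
        constructor
        · rintro ⟨k, hk, hx⟩
          rw [Finset.mem_coe, Finset.mem_image] at hk
          obtain ⟨s, hs, rfl⟩ := hk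
          exact ⟨s, hs, hx⟩
        · rintro ⟨s, hs, hx⟩
          exact ⟨j s, Finset.mem_coe.2 (Finset.mem_image_of_mem _ hs), hx⟩
      rw [e]
      refine (measure_biUnion_finset_le _ _).trans ?_
      refine (Finset.sum_le_sum fun s _ => hj2 s).trans ?_
      rw [← ENNReal.ofReal_sum_of_nonneg fun s _ => by positivity]
      apply ENNReal.ofReal_le_ofReal
      rw [← Finset.mul_sum]
      rw [pow_succ] at h1
      linarith
    · obtain ⟨s, hs, h3⟩ := (hmem x).1 hx n hn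
      exact mem_Op'.2 ⟨j s, Finset.mem_coe.2 (Finset.mem_image_of_mem _ hs), hj1 s h3⟩

end Nice

open Nice in
/-- In a nice model there is no monotone Borel hull operation on the measurable sets. -/
theorem target_d5 : TargetD5 T5 := by
  intro 𝒯 N hT R A T L hR hnull hcpt _ hsus
  rintro ⟨ψ, hψ1, hψ2, hψ3, hψ4⟩
  have hT5a : T5a ⊆ 𝒯 := T5a_sub_T5.trans hT
  have hT3 : T3 ⊆ 𝒯 := T3_sub_T5a.trans hT5a
  have hT4 : T4 ⊆ 𝒯 := T4_sub_T3.trans hT3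
  have hlt : ltQT ∈ 𝒯 := hT3 (by simp [T3])
  obtain ⟨gf, gs, gm, gl, gr, hSC⟩ := exists_SC (N := N) hT4
  obtain ⟨a0, ha0'⟩ := exists_CdQ (N := N) hlt 0
  obtain ⟨a1, ha1'⟩ := exists_CdQ (N := N) hlt (1 / 2)
  have ha0 : N.Cd a0 0 := by simpa using ha0'
  have ha1 : N.Cd a1 (1 / 2) := by simpa using ha1'
  -- the points `c(α)`
  obtain ⟨cf, hcf1, hcf2⟩ := choice_of N.zfc (pairCode (fun α c =>
      f5C codeStr 1 2 3 4 5 6 7 8 9 10 11 α c) 30)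
      (asn R [R, L, a0, a1, gf, gs, gl, gr, N.tow, N.nat 2, ψ])
      (P := fun α c => f5C (propStr N.E) R L a0 a1 gf gs gl gr N.tow (N.nat 2) ψ α c)
      (fun x => Iff.rfl) N.w2 R (by
        intro α hα
        obtain ⟨G, hG, hG'⟩ := exists_G hT hR α
        obtain ⟨Y, hY, hY'⟩ := hψ2 G (meas_of_borel hT3 hR hnull hG)
        obtain ⟨D, hD⟩ := sep_of N.zf (codeStr.imp (fun d => .mem 0 1) codeStr.bot 10)
          (asn R [G]) (P := fun c => ¬ N.E c G) (fun x => Iff.rfl) Y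
        have hDn := (hnull D).1 ((hψ3 G Y hY).2.2 D hD)
        obtain ⟨c, x, hc, hx, hcD⟩ := exists_InK hcpt hT4 hα hDn
        refine ⟨c, Cd.memR hR hc, (k_iff hSC hR ha0 ha1 hc α).2 hx, fun G' Y' hG'' hY'' hcY => ?_⟩
        have h1 : ∀ c x, N.Cd c x → (N.E c G' ↔ ¬ N.InK α x) := (g_iff hSC hR ha0 ha1 α G').1 hG''
        have h2 : Rel N.E ψ G' Y' := hY''
        have h3 : G' = G := by
          obtain ⟨z, hz, hzψ⟩ := h2
          obtain ⟨X0, Y0, h4, h5⟩ := hψ1 z hzψ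
          obtain ⟨rfl, rfl⟩ := pair_inj N.zf hz h4
          refine eq_of_R h5.1 hG.1 fun d hd => ?_
          obtain ⟨y, hy⟩ := (hR.mem d).1 hd
          exact (h1 d y hy).trans (hG' d y hy).symm
        rw [h3] at h2
        have h4 : Y' = Y := hY' _ h2
        rw [h4] at hcY
        refine hcD ((hD c).2 ⟨hcY, fun h5 => ?_⟩)
        exact (hG' c x hc).1 h5 hx)
  have hcf3 : ∀ α c x, Rel N.E cf α c → N.Cd c x → N.InK α x ∧ ∀ G Y,
      (∀ c x, N.Cd c x → (N.E c G ↔ ¬ N.InK α x)) → Rel N.E ψ G Y → ¬ N.E c Y := by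
    intro α c x h1 hc
    obtain ⟨h2, h3⟩ := hcf2 α c h1
    refine ⟨(k_iff hSC hR ha0 ha1 hc α).1 h2, fun G Y hG hY => ?_⟩
    exact h3 G Y ((g_iff hSC hR ha0 ha1 α G).2 hG) hY
  -- the function `f`
  obtain ⟨f, hf1, hf2⟩ := choice_of N.zfc (pairCode (fun α β =>
      f5F codeStr 1 2 3 4 5 6 7 α β) 30)
      (asn R [N.om, gf, gs, gl, gr, N.tow, cf])
      (P := fun α β => f5F (propStr N.E) N.om gf gs gl gr N.tow cf α β)
      (fun x => Iff.rfl) N.w2 N.w2 (by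
        intro α hα
        obtain ⟨c, hc, _⟩ := hcf1.2 α hα
        obtain ⟨x, hx⟩ := (hR.mem c).1 (IsFun.mem N.zf hcf1 hc).2
        obtain ⟨X, hX⟩ := N.zf.pair c c
        have hX' : ∀ d, N.E d X ↔ d = c := fun d => by rw [hX]; simp
        obtain ⟨β, hβ, h1⟩ := exists_level hT3 hR (nullS_singleton hR hx hX')
        exact ⟨β, hβ, c, hc, (n_iff hSC hx β).2 (h1 c x ((hX' c).2 rfl) hx)⟩)
  obtain ⟨af, haf, hdiag⟩ := N.diag f hf1
  obtain ⟨a, ha⟩ := exists_fn haf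
  obtain ⟨cc, hcc⟩ := exists_fn hcf1
  obtain ⟨xf, hxf1, hxf2⟩ := exists_rel N.zf (pairCode (fun i c =>
      f5Comp codeStr 1 2 i c) 10) (asn R [af, cf])
      (P := fun i c => f5Comp (propStr N.E) af cf i c) (fun x => Iff.rfl) N.w1 R
  have hxf3 : ∀ i, N.E i N.w1 → ∀ c, Rel N.E xf i c ↔ c = cc (a i) := by
    intro i hi c
    rw [hxf2]
    constructor
    · rintro ⟨_, _, α, h1, h2⟩
      have h1' : α = a i := ((ha i hi).2 α).1 h1
      rw [h1'] at h2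
      exact ((hcc (a i) (ha i hi).1).2 c).1 h2
    · rintro rfl
      exact ⟨hi, (hcc (a i) (ha i hi).1).1, a i, ((ha i hi).2 _).2 rfl,
        ((hcc (a i) (ha i hi).1).2 _).2 rfl⟩
  have hxf : IsFun N.E xf N.w1 R := by
    refine isFun_of N.zf (fun z hz => ?_) (fun i hi => ?_) (fun i x x' h1 h2 => ?_)
    · obtain ⟨x, y, h1, h2, h3, _⟩ := hxf1 z hz
      exact ⟨x, y, h1, h2, h3⟩
    · exact ⟨_, (hxf3 i hi _).2 rfl⟩
    · have hi := ((hxf2 _ _).1 h1).1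
      rw [(hxf3 i hi _).1 h1, (hxf3 i hi _).1 h2]
  have hexr : ∀ i, ∃ y, N.E i N.w1 → N.Cd (cc (a i)) y := by
    intro i
    by_cases hi : N.E i N.w1
    · obtain ⟨y, hy⟩ := (hR.mem _).1 (hcc (a i) (ha i hi).1).1
      exact ⟨y, fun _ => hy⟩
    · exact ⟨0, fun h => (hi h).elim⟩
  choose r hrc using hexr
  have hr : ∀ i c, N.E i N.w1 → (Rel N.E xf i c ↔ N.Cd c (r i)) := by
    intro i c hi
    rw [hxf3 i hi]
    constructor
    · rintro rfl; exact hrc i hi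
    · intro h; exact h.left (hrc i hi)
  have hcfa : ∀ i, N.E i N.w1 → Rel N.E cf (a i) (cc (a i)) := fun i hi =>
    ((hcc (a i) (ha i hi).1).2 _).2 rfl
  have hK : ∀ i, N.E i N.w1 → N.InK (a i) (r i) := fun i hi =>
    (hcf3 _ _ _ (hcfa i hi) (hrc i hi)).1
  have hN : ∀ i k, N.E i N.w1 → N.E k i → r k ∈ Op' (N.Lv (a i) 2) := by
    intro i k hi hki
    have hk : N.E k N.w1 := N.w1_trans _ _ hki hi
    obtain ⟨β, hβ, _⟩ := hf1.2 (a k) (ha k hk).1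
    have h1 : N.E β (a i) := hdiag k i (a k) (a i) β hi hki (((ha k hk).2 _).2 rfl)
      (((ha i hi).2 _).2 rfl) hβ
    obtain ⟨c, h2, h3⟩ := hf2 _ _ hβ
    have h2' : c = cc (a k) := ((hcc (a k) (ha k hk).1).2 c).1 h2
    rw [h2'] at h3
    have h4 := (n_iff hSC (hrc k hk) β).1 h3
    exact h4.mono (ha i hi).1 h1 2
  have hinj : ∀ i k, N.E i N.w1 → N.E k N.w1 → i ≠ k → r i ≠ r k := by
    intro i k hi hk hne h
    rcases lt_or_eq_or_gt (N.w1_w2 _ hi) (N.w1_w2 _ hk) with h1 | h1 | h1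
    · have h2 := hN k i hk h1
      rw [h] at h2
      exact (hK k hk).2.2 h2
    · exact hne h1
    · have h2 := hN i k hi h1
      rw [← h] at h2
      exact (hK i hi).2.2 h2
  obtain ⟨X, hX, hXu, z, hz, hz1, hz2, hz3⟩ := exists_closed hT hR hxf haf hr ha hK hN
  -- the set `P`
  obtain ⟨U, hU, hU'⟩ := borel_open hT3 hR hz
  obtain ⟨Δ, hΔ⟩ := sep_of N.zf ((codeStr.ex fun i => codeStr.and (codeStr.mem i 1)
      (fRel codeStr 2 i 0)) 10) (asn R [X, xf]) (P := fun c => ∃ i, N.E i X ∧ Rel N.E xf i c)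
      (fun x => Iff.rfl) R
  obtain ⟨Γ, hΓ⟩ := sep_of N.zf ((codeStr.and (codeStr.imp (codeStr.mem 0 1) codeStr.bot)
      (codeStr.imp (codeStr.mem 0 2) codeStr.bot)) 10)
      (asn R [U, Δ]) (P := fun c => ¬ N.E c U ∧ ¬ N.E c Δ) (fun x => Iff.rfl) R
  have hΓn : N.NullS R Γ := by
    refine ⟨fun c hc => ((hΓ c).1 hc).1, fun m => ?_⟩
    obtain ⟨z', h1, h2, h3⟩ := hz3 m
    refine ⟨z', h1, h2, fun c x hc hx => h3 x fun h4 => ?_⟩
    exact ((hΓ c).1 hc).2.1 ((hU' c x hx).2 h4)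
  obtain ⟨Y, hY, _⟩ := hψ2 Γ (meas_of_null hT3 hR hnull hΓn)
  obtain ⟨hYb, hΓY, _⟩ := hψ3 Γ Y hY
  obtain ⟨C, hC⟩ := sep_of N.zf (codeStr.imp (fun d => .mem 0 1) codeStr.bot 10)
    (asn R [Y]) (P := fun c => ¬ N.E c Y) (fun x => Iff.rfl) R
  obtain ⟨S, hS, hS'⟩ := hsus C (borel_compl hYb hC)
  have hnotY : ∀ i, N.E i X → ¬ N.E (cc (a i)) Y := by
    intro i hi hcY
    obtain ⟨G, hG, hG'⟩ := exists_G hT hR (a i)
    obtain ⟨Y', hY', _⟩ := hψ2 G (meas_of_borel hT3 hR hnull hG)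
    have h1 : Sub N.E Γ G := by
      intro c hc
      obtain ⟨h2, h3, h4⟩ := (hΓ c).1 hc
      obtain ⟨x, hx⟩ := (hR.mem c).1 h2
      refine (hG' c x hx).2 fun h5 => ?_
      have h6 : x = r i := hz2 i x hi h5 fun h7 => h3 ((hU' c x hx).2 h7)
      rw [h6] at hx
      exact h4 ((hΔ c).2 ⟨h2, i, hi, (hr i c (hX i hi)).2 hx⟩)
    have h2 := hψ4 Γ G Y Y' hY hY' h1 _ hcY
    exact (hcf3 _ _ _ (hcfa i (hX i hi)) (hrc i (hX i hi))).2 G Y' hG' hY' h2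
  obtain ⟨x, hx1, hx2, hx3, hx4⟩ := cohen_point hT5a hR hxf hr hinj hX hXu hS (by
    intro i hi
    have h1 := hrc i (hX i hi)
    exact (hS' _ _ h1).1 ((hC _).2 ⟨Cd.memR hR h1, hnotY i hi⟩))
  obtain ⟨c, hc⟩ := hx1
  have hcR : N.E c R := (hR.mem c).2 ⟨x, hc⟩
  have hcY : ¬ N.E c Y := ((hC c).1 ((hS' c x hc).2 hx2)).2
  have hxz : x ∈ (Op' z)ᶜ := hx4 _ (isOpen_Op' z).isClosed_compl fun i hi => hz1 i hi
  refine hcY (hΓY c ((hΓ c).2 ⟨hcR, fun h => hxz ((hU' c x hc).1 h), fun h => ?_⟩))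
  obtain ⟨_, i, hi, h1⟩ := (hΔ c).1 h
  exact hx3 i hi (Cd.right hc ((hr i c (hX i hi)).1 h1))

end Pool.Agent.H83.F
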