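import Pool.Agent.H83.F.D1
import Pool.Agent.H83.F.D5

/-!
# D2: covers by rational intervals
-/

universe v w

set_option linter.unusedSectionVars false
set_option linter.unusedVariables false

open MeasureTheory

namespace Pool.Agent.H83.F

open Pool.Agent.H86

theorem volume_eq_iInf (A : Set ℝ) : volume A =
    ⨅ (t : ℕ → Set ℝ) (_ : A ⊆ ⋃ i, t i), ∑' n, StieltjesFunction.id.length (t n) := by
  rw [Real.volume_eq_stieltjes_id, StieltjesFunction.measure]
  rfl

/-- Covers by rational intervals. -/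
theorem exists_rat_cover (A : Set ℝ) (hA : volume A ≠ ⊤) {δ : ENNReal} (hδ : δ ≠ 0) :
    ∃ c : ℕ → ℕ, (A ⊆ ⋃ i, Iv (c i)) ∧ (∀ i, (iv (c i)).1 ≤ (iv (c i)).2) ∧
      ∑' i, volume (Iv (c i)) ≤ volume A + δ := by
  have hδ2 : δ / 2 ≠ 0 := by simpa using hδ
  have h2 : volume A < volume A + δ / 2 := ENNReal.lt_add_right hA hδ2
  conv_lhs at h2 => rw [volume_eq_iInf A]
  simp only [iInf_lt_iff] at h2
  obtain ⟨t, ht, hs⟩ := h2
  obtain ⟨δ', hδ'0, hδ'⟩ := ENNReal.exists_pos_sum_of_countable hδ2 ℕ
  have hbot : ∀ s : Set ℝ, s \ botSet = s := by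
    intro s
    ext x
    constructor
    · exact fun h => h.1
    · exact fun h => ⟨h, fun hb => not_isBot x hb⟩
  have h3 : ∀ i, ∃ j, t i ⊆ Iv j ∧ (iv j).1 ≤ (iv j).2 ∧
      volume (Iv j) ≤ StieltjesFunction.id.length (t i) + δ' i := by
    intro i
    have h4 : StieltjesFunction.id.length (t i) ≠ ⊤ :=
      ((ENNReal.le_tsum i).trans_lt (hs.trans_le le_top)).ne
    have hδi : ((δ' i / 2 : NNReal) : ENNReal) ≠ 0 := by
      have := hδ'0 i
      rw [Ne, ENNReal.coe_eq_zero]
      positivity
    have h5 := ENNReal.lt_add_right h4 hδi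
    conv_lhs at h5 => rw [StieltjesFunction.length_eq]
    simp only [iInf_lt_iff] at h5
    obtain ⟨a, b, hab, h6⟩ := h5
    rw [hbot] at hab
    have he : (0 : ℝ) < δ' i / 4 := by
      have := hδ'0 i
      positivity
    obtain ⟨a', ha1, ha2⟩ := exists_rat_btwn (show a - δ' i / 4 < a by linarith)
    obtain ⟨b', hb1, hb2⟩ := exists_rat_btwn (show max a b < max a b + δ' i / 4 by linarith)
    obtain ⟨j, hj⟩ := iv_surj (a', b')
    have ham : a ≤ max a b := le_max_left _ _
    have hbm : b ≤ max a b := le_max_right _ _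
    refine ⟨j, fun x hx => ?_, ?_, ?_⟩
    · obtain ⟨h7, h8⟩ := hab hx
      rw [Iv, hj]
      exact ⟨ha2.trans h7, lt_of_le_of_lt (h8.trans hbm) hb1⟩
    · rw [hj]
      have : (a' : ℝ) < b' := by linarith
      exact_mod_cast this.le
    · rw [Iv, hj, Real.volume_Ioo]
      have h7 : ENNReal.ofReal (b' - a') ≤ ENNReal.ofReal (b - a) +
          ENNReal.ofReal (δ' i / 2) := by
        have h8 : ENNReal.ofReal (b - a) = ENNReal.ofReal (max a b - a) := by
          rcases le_total a b with h | h
          · rw [max_eq_right h]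
          · rw [max_eq_left h, sub_self, ENNReal.ofReal_zero, ENNReal.ofReal_of_nonpos]
            linarith
        rw [h8, ← ENNReal.ofReal_add (by linarith) (by linarith)]
        apply ENNReal.ofReal_le_ofReal
        linarith
      have h9 : ENNReal.ofReal ((δ' i : ℝ) / 2) = ((δ' i / 2 : NNReal) : ENNReal) := by
        rw [← ENNReal.ofReal_coe_nnreal]
        congr 1
      have h10 : ENNReal.ofReal (b - a) ≤ StieltjesFunction.id.length (t i) +
          ((δ' i / 2 : NNReal) : ENNReal) := by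
        have := h6.le
        simpa using this
      calc ENNReal.ofReal (b' - a') ≤ _ := h7
        _ ≤ (StieltjesFunction.id.length (t i) + ((δ' i / 2 : NNReal) : ENNReal)) +
            ((δ' i / 2 : NNReal) : ENNReal) := by
          rw [h9]
          gcongr
        _ = StieltjesFunction.id.length (t i) + δ' i := by
          rw [add_assoc, ← ENNReal.coe_add, add_halves]
  choose c hc1 hc2 hc3 using h3
  refine ⟨c, ht.trans (Set.iUnion_mono hc1), hc2, ?_⟩
  calc ∑' i, volume (Iv (c i)) ≤ ∑' i, (StieltjesFunction.id.length (t i) + δ' i) :=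
        ENNReal.tsum_le_tsum hc3
    _ = ∑' i, StieltjesFunction.id.length (t i) + ∑' i, (δ' i : ENNReal) := ENNReal.tsum_add
    _ ≤ (volume A + δ / 2) + δ / 2 := add_le_add hs.le hδ'.le
    _ = volume A + δ := by rw [add_assoc, ENNReal.add_halves]

end Pool.Agent.H83.F
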