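import Pool.Agent.H83.F.D2Cov

/-!
# D2: covering sequences computed from codes of open sets
-/

universe v w

set_option linter.unusedSectionVars false
set_option linter.unusedVariables false

open MeasureTheory

namespace Pool.Agent.H83.F

open Pool.Agent.H86

open Classical in
/-- `z ∩ [0, n]` -/
noncomputable def Zt (z : Set ℕ) (n : ℕ) : Finset ℕ := (Finset.range (n + 1)).filter (· ∈ z)

theorem mem_Zt {z : Set ℕ} {n l : ℕ} : l ∈ Zt z n ↔ l ≤ n ∧ l ∈ z := by
  simp [Zt, Nat.lt_succ_iff]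

theorem Zt_filter_le {z : Set ℕ} {n i : ℕ} (h : i ≤ n) : (Zt z n).filter (· ≤ i) = Zt z i := by
  ext l
  simp only [Finset.mem_filter, mem_Zt]
  constructor
  · rintro ⟨⟨_, h1⟩, h2⟩; exact ⟨h2, h1⟩
  · rintro ⟨h1, h2⟩; exact ⟨⟨h1.trans h, h2⟩, h1⟩

/-- `Iv k` minus the intervals in `F` -/
def Df (k : ℕ) (F : Finset ℕ) : Set ℝ := Iv k \ ⋃ l ∈ F, Iv l

theorem volume_Iv_ne_top (k : ℕ) : volume (Iv k) ≠ ⊤ := by
  rw [Iv, Real.volume_Ioo]; exact ENNReal.ofReal_ne_top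

theorem exists_G_cover (m k : ℕ) (F : Finset ℕ) : ∃ c : ℕ → ℕ, (Df k F ⊆ ⋃ i, Iv (c i)) ∧
    (∀ i, (iv (c i)).1 ≤ (iv (c i)).2) ∧
      ∑' i, volume (Iv (c i)) ≤ volume (Df k F) + ENNReal.ofReal ((1 / 2) ^ (k + m + 1)) := by
  refine exists_rat_cover _ ?_ ?_
  · exact ne_top_of_le_ne_top (volume_Iv_ne_top k) (measure_mono Set.sdiff_subset)
  · have : (0 : ℝ) < (1 / 2) ^ (k + m + 1) := by positivity
    simpa using this

/-- the cover -/
noncomputable def Gm (m k : ℕ) (F : Finset ℕ) : ℕ → ℕ := (exists_G_cover m k F).choose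

theorem Gm_spec (m k : ℕ) (F : Finset ℕ) : (Df k F ⊆ ⋃ i, Iv (Gm m k F i)) ∧
    (∀ i, (iv (Gm m k F i)).1 ≤ (iv (Gm m k F i)).2) ∧
      ∑' i, volume (Iv (Gm m k F i)) ≤
        volume (Df k F) + ENNReal.ofReal ((1 / 2) ^ (k + m + 1)) :=
  (exists_G_cover m k F).choose_spec

/-- the code of the empty interval `(0, 0)` -/
noncomputable def j00 : ℕ := (iv_surj (0, 0)).choose

theorem iv_j00 : iv j00 = (0, 0) := (iv_surj (0, 0)).choose_spec

/-- the covering functional -/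
noncomputable def Psi (m n : ℕ) (F : Finset ℕ) : ℕ :=
  if (Nat.unpair n).1 ∈ F then
    Gm m (Nat.unpair n).1 (F.filter (· < (Nat.unpair n).1)) (Nat.unpair n).2 else j00

/-- the covering sequence -/
noncomputable def cF (m : ℕ) (z : Set ℕ) (n : ℕ) : ℕ := Psi m n (Zt z n)

open Classical in
/-- `z ∩ [0, k)` -/
noncomputable def Zl (z : Set ℕ) (k : ℕ) : Finset ℕ := (Finset.range k).filter (· ∈ z)

theorem mem_Zl {z : Set ℕ} {n l : ℕ} : l ∈ Zl z n ↔ l < n ∧ l ∈ z := by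
  simp [Zl]

theorem Zt_filter_lt {z : Set ℕ} {n k : ℕ} (h : k ≤ n) : (Zt z n).filter (· < k) = Zl z k := by
  ext l
  simp only [Finset.mem_filter, mem_Zt, mem_Zl]
  constructor
  · rintro ⟨⟨_, h1⟩, h2⟩; exact ⟨h2, h1⟩
  · rintro ⟨h1, h2⟩; exact ⟨⟨(h1.trans_le h).le, h2⟩, h1⟩

theorem cF_pair (m : ℕ) (z : Set ℕ) (k i : ℕ) [Decidable (k ∈ z)] :
    cF m z (Nat.pair k i) = if k ∈ z then Gm m k (Zl z k) i else j00 := by
  have hk : k ≤ Nat.pair k i := Nat.left_le_pair k i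
  rw [cF, Psi]
  simp only [Nat.unpair_pair]
  rw [Zt_filter_lt hk]
  by_cases h : k ∈ z
  · rw [if_pos h, if_pos (mem_Zt.2 ⟨hk, h⟩)]
  · rw [if_neg h, if_neg fun h' => h (mem_Zt.1 h').2]

theorem cF_le (m : ℕ) (z : Set ℕ) (n : ℕ) : (iv (cF m z n)).1 ≤ (iv (cF m z n)).2 := by
  classical
  obtain ⟨k, i, rfl⟩ : ∃ k i, n = Nat.pair k i := ⟨_, _, (Nat.pair_unpair n).symm⟩
  rw [cF_pair]
  by_cases h : k ∈ z
  · rw [if_pos h]; exact (Gm_spec m k (Zl z k)).2.1 i
  · rw [if_neg h, iv_j00]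

theorem cF_cover (m : ℕ) (z : Set ℕ) : Op' z ⊆ ⋃ n, Iv (cF m z n) := by
  classical
  intro x hx
  obtain ⟨j, hj, hxj⟩ := mem_Op'.1 hx
  have hex : ∃ k, k ∈ z ∧ x ∈ Iv k := ⟨j, hj, hxj⟩
  have h1 := Nat.find_spec hex
  have h2 : ∀ l, l < Nat.find hex → ¬ (l ∈ z ∧ x ∈ Iv l) := fun l hl => Nat.find_min hex hl
  generalize Nat.find hex = k at h1 h2
  have h3 : x ∈ Df k (Zl z k) := by
    refine ⟨h1.2, ?_⟩
    simp only [Set.mem_iUnion, not_exists]
    intro l hl hxl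
    exact h2 l (mem_Zl.1 hl).1 ⟨(mem_Zl.1 hl).2, hxl⟩
  obtain ⟨i, hi⟩ := Set.mem_iUnion.1 ((Gm_spec m k (Zl z k)).1 h3)
  refine Set.mem_iUnion.2 ⟨Nat.pair k i, ?_⟩
  rw [cF_pair, if_pos h1.1]
  exact hi

theorem sum_half (m K : ℕ) : ∑ k ∈ Finset.range K, (1 / 2 : ℝ) ^ (k + m + 1) =
    (1 / 2) ^ m - (1 / 2) ^ (m + K) := by
  induction K with
  | zero => simp
  | succ K ih =>
    rw [Finset.sum_range_succ, ih]
    have e1 : (1 / 2 : ℝ) ^ (K + m + 1) = (1 / 2) ^ (m + K) / 2 := by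
      rw [pow_succ, add_comm K m]; ring
    have e2 : (1 / 2 : ℝ) ^ (m + (K + 1)) = (1 / 2) ^ (m + K) / 2 := by
      rw [← add_assoc, pow_succ]; ring
    rw [e1, e2]
    ring

theorem tsum_half (m : ℕ) : ∑' k, ENNReal.ofReal ((1 / 2) ^ (k + m + 1)) ≤
    ENNReal.ofReal ((1 / 2) ^ m) := by
  refine ENNReal.tsum_le_of_sum_range_le fun K => ?_
  rw [← ENNReal.ofReal_sum_of_nonneg fun s _ => by positivity]
  apply ENNReal.ofReal_le_ofReal
  rw [sum_half]
  have : (0 : ℝ) < (1 / 2) ^ (m + K) := by positivity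
  linarith

theorem cF_sum (m : ℕ) (z : Set ℕ) : ∑' n, volume (Iv (cF m z n)) ≤
    volume (Op' z) + ENNReal.ofReal ((1 / 2) ^ m) := by
  classical
  have hD : ∀ k F, MeasurableSet (Df k F) := fun k F =>
    measurableSet_Ioo.diff (Finset.measurableSet_biUnion _ fun l _ => measurableSet_Ioo)
  let D : ℕ → Set ℝ := fun k => if k ∈ z then Df k (Zl z k) else ∅
  have h1 : ∑' n, volume (Iv (cF m z n)) = ∑' k, ∑' i, volume (Iv (cF m z (Nat.pair k i))) := by
    rw [← Nat.pairEquiv.tsum_eq]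
    exact ENNReal.tsum_prod (f := fun k i => volume (Iv (cF m z (Nat.pair k i))))
  have h2 : ∀ k, ∑' i, volume (Iv (cF m z (Nat.pair k i))) ≤
      volume (D k) + ENNReal.ofReal ((1 / 2) ^ (k + m + 1)) := by
    intro k
    by_cases h : k ∈ z
    · simp only [cF_pair, D, if_pos h]
      exact (Gm_spec m k (Zl z k)).2.2
    · simp only [cF_pair, D, if_neg h, Iv, iv_j00]
      simp
  have h3 : ∑' k, volume (D k) ≤ volume (Op' z) := by
    rw [← measure_iUnion]
    · apply measure_mono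
      intro x hx
      obtain ⟨k, hk⟩ := Set.mem_iUnion.1 hx
      by_cases h : k ∈ z
      · simp only [D, if_pos h] at hk
        exact mem_Op'.2 ⟨k, h, hk.1⟩
      · simp only [D, if_neg h] at hk
        exact hk.elim
    · have key : ∀ k l, k < l → Disjoint (D k) (D l) := by
        intro k l hkl
        rw [Set.disjoint_left]
        intro x hx hx'
        by_cases h : k ∈ z
        · by_cases h' : l ∈ z
          · simp only [D, if_pos h] at hx
            simp only [D, if_pos h'] at hx'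
            refine hx'.2 ?_
            simp only [Set.mem_iUnion]
            exact ⟨k, mem_Zl.2 ⟨hkl, h⟩, hx.1⟩
          · simp only [D, if_neg h'] at hx'
            exact hx'
        · simp only [D, if_neg h] at hx
          exact hx
      intro k l hkl
      rcases lt_or_gt_of_ne hkl with h | h
      · exact key k l h
      · exact (key l k h).symm
    · intro k
      by_cases h : k ∈ z
      · simp only [D, if_pos h]; exact hD _ _
      · simp only [D, if_neg h]; exact MeasurableSet.empty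
  rw [h1]
  calc ∑' k, ∑' i, volume (Iv (cF m z (Nat.pair k i)))
      ≤ ∑' k, (volume (D k) + ENNReal.ofReal ((1 / 2) ^ (k + m + 1))) := ENNReal.tsum_le_tsum h2
    _ = ∑' k, volume (D k) + ∑' k, ENNReal.ofReal ((1 / 2) ^ (k + m + 1)) := ENNReal.tsum_add
    _ ≤ volume (Op' z) + ENNReal.ofReal ((1 / 2) ^ m) := add_le_add h3 (tsum_half m)

/-- length of the interval -/
def len (j : ℕ) : ℚ := (iv j).2 - (iv j).1

theorem volume_Iv (j : ℕ) : volume (Iv j) = ENNReal.ofReal (len j : ℝ) := by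
  rw [Iv, Real.volume_Ioo, len]
  push_cast
  rfl

theorem cF_partial {m : ℕ} {z : Set ℕ} {η : ℝ} (hη : 0 ≤ η)
    (h : volume (Op' z) ≤ ENNReal.ofReal η) (K : ℕ) :
    ∑ n ∈ Finset.range K, (len (cF m z n) : ℝ) ≤ η + (1 / 2) ^ m := by
  have h1 : ∑ n ∈ Finset.range K, volume (Iv (cF m z n)) ≤
      ENNReal.ofReal η + ENNReal.ofReal ((1 / 2) ^ m) :=
    (ENNReal.sum_le_tsum _).trans ((cF_sum m z).trans (add_le_add h le_rfl))
  have h0 : ∀ n, (0 : ℝ) ≤ len (cF m z n) := by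
    intro n
    have := cF_le m z n
    have h2 : 0 ≤ len (cF m z n) := by rw [len]; linarith
    exact_mod_cast h2
  simp only [volume_Iv] at h1
  rw [← ENNReal.ofReal_sum_of_nonneg fun n _ => h0 n,
    ← ENNReal.ofReal_add hη (by positivity)] at h1
  exact (ENNReal.ofReal_le_ofReal_iff (by positivity)).1 h1

/-- code of a rational number -/
noncomputable def qc (q : ℚ) : ℕ := (qd_surj q).choose

theorem qd_qc (q : ℚ) : qd (qc q) = q := (qd_surj q).choose_spec

/-- left end points -/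
noncomputable def PsiA (m n : ℕ) (F : Finset ℕ) : ℕ := qc (iv (Psi m n F)).1

/-- right end points -/
noncomputable def PsiB (m n : ℕ) (F : Finset ℕ) : ℕ := qc (iv (Psi m n F)).2

/-- partial sums -/
noncomputable def PsiS (m n : ℕ) (F : Finset ℕ) : ℕ :=
  qc (∑ i ∈ Finset.range n, len (Psi m i (F.filter (· ≤ i))))

theorem PsiS_spec (m n : ℕ) (z : Set ℕ) : qd (PsiS m n (Zt z n)) =
    ∑ i ∈ Finset.range n, len (cF m z i) := by
  rw [PsiS, qd_qc]
  refine Finset.sum_congr rfl fun i hi => ?_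
  rw [Zt_filter_le (Finset.mem_range.1 hi).le]
  rfl

/-- relation given by a functional -/
def funT (Ψ : ℕ → Finset ℕ → ℕ) : Set ℕ :=
  {q | (Nat.unpair (Nat.unpair q).1).1 = (Nat.unpair (Nat.unpair q).2).1 ∧
    qd (Nat.unpair (Nat.unpair q).1).2 <
      qd (Ψ (Nat.unpair (Nat.unpair q).2).1 (fs (Nat.unpair (Nat.unpair q).2).2))}

/-- `fs τ ⊆ [0, n]` -/
def q1T : Set ℕ := {q | ∀ l ∈ fs (Nat.unpair (Nat.unpair q).1).2, l ≤ (Nat.unpair (Nat.unpair q).1).1}

/-- `l ∈ fs τ` -/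
def q2T : Set ℕ := {q | (Nat.unpair q).2 ∈ fs (Nat.unpair (Nat.unpair q).1).2}

/-- `l ≤ n` and `l ∉ fs τ` -/
def q3T : Set ℕ := {q | (Nat.unpair q).2 ≤ (Nat.unpair (Nat.unpair q).1).1 ∧
  (Nat.unpair q).2 ∉ fs (Nat.unpair (Nat.unpair q).1).2}

/-- compactness -/
def cmpT (a : ℚ) : Set ℕ := {q | qd (Nat.unpair q).1 < a ∨
  Set.Icc (a : ℝ) (qd (Nat.unpair q).1) ⊆ ⋃ j ∈ fs (Nat.unpair q).2, Iv j}

/-- second component -/
def sndF (p : ℕ) : ℕ := (Nat.unpair p).2

/-- The constants for D2. -/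
def T2 : Set (Set ℕ) := T1 ∪ T5a ∪ {q1T, q2T, q3T, imT sndF} ∪ (Set.range cmpT) ∪
  (Set.range fun m => funT (PsiA m)) ∪ (Set.range fun m => funT (PsiB m)) ∪
  (Set.range fun m => funT (PsiS m))

theorem T2_countable : T2.Countable :=
  ((((((T1_countable.union T5a_countable).union (Set.Finite.countable (Set.toFinite _))).union
    (Set.countable_range _)).union (Set.countable_range _)).union (Set.countable_range _)).union
    (Set.countable_range _))

end Pool.Agent.H83.F
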