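import Pool.Agent.H83.F.D3Tow

/-!
# D3: a monotone hull operation on the null sets; `add(𝒩) = cof(𝒩)`
-/

universe v w

set_option linter.unusedSectionVars false
set_option linter.unusedVariables false

open MeasureTheory

namespace Pool.Agent.H83.F

open Pool.Agent.H86

namespace Nice

variable {𝒯 : Set (Set ℕ)} {N : Nice 𝒯}

theorem NullS.of_eqN (hT : T3 ⊆ 𝒯) {R A T L : N.M} (hR : N.Reals R A T L) {α X : N.M}
    (hα : N.E α N.w2) (hX : Sub N.E X R) (h : ∀ c x, N.E c X → N.Cd c x → N.InN α x) :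
    N.NullS R X := by
  obtain ⟨Y, hY, _⟩ := exists_N hT hR α
  refine (hY.nullS hT hα).mono fun c hc => ?_
  obtain ⟨x, hx⟩ := (hR.mem c).1 (hX c hc)
  exact (hY.2 c x hx).2 (h c x hc hx)

/-- Singletons are null. -/
theorem nullS_singleton {R A T L : N.M} (hR : N.Reals R A T L) {c X : N.M} {x : ℝ}
    (hc : N.Cd c x) (hX : ∀ d, N.E d X ↔ d = c) : N.NullS R X := by
  refine ⟨fun d hd => ?_, fun m => ?_⟩
  · rw [(hX d).1 hd]; exact Cd.memR hR hc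
  · have hpos : (0 : ℝ) < (1 / 2) ^ m / 2 := by positivity
    obtain ⟨a, ha1, ha2⟩ := exists_rat_btwn (show x - (1 / 2) ^ m / 2 < x by linarith)
    obtain ⟨b, hb1, hb2⟩ := exists_rat_btwn (show x < x + (1 / 2) ^ m / 2 by linarith)
    obtain ⟨j, hj⟩ := iv_surj (a, b)
    have hx : x ∈ Iv j := by
      rw [Iv, hj]; exact ⟨ha2, hb1⟩
    refine ⟨{j}, PM.singleton j, ?_, fun d y hd hy => ?_⟩
    · have e : Op' {j} = Set.Ioo (a : ℝ) b := by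
        ext y
        rw [mem_Op']
        constructor
        · rintro ⟨k, rfl, hk⟩
          rw [Iv, hj] at hk; exact hk
        · intro hy
          exact ⟨j, rfl, by rw [Iv, hj]; exact hy⟩
      rw [e, Real.volume_Ioo]
      apply ENNReal.ofReal_le_ofReal
      linarith
    · rw [(hX d).1 hd] at hy
      rw [hy.right hc]
      exact mem_Op'.2 ⟨j, rfl, hx⟩

/-- The set of all reals is not null. -/
theorem not_nullS_R (hlt : ltQT ∈ 𝒯) {R A T L : N.M} (hR : N.Reals R A T L)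
    (hc : ∀ z : Set ℕ, N.PM z → ∀ a b : ℚ,
      (∀ x ∈ N.RM, (a : ℝ) ≤ x → x ≤ b → x ∈ Op' z) → Set.Icc (a : ℝ) b ⊆ Op' z) :
    ¬ N.NullS R R := by
  intro h
  obtain ⟨z, h1, h2, h3⟩ := h.2 1
  have h4 := hc z h1 0 1 (by
    rintro x ⟨c, hx⟩ _ _
    exact h3 c x (Cd.memR hR hx) hx)
  have h5 := (measure_mono h4).trans h2
  rw [Real.volume_Icc] at h5
  have h6 := (ENNReal.ofReal_le_ofReal_iff (by positivity)).1 h5
  norm_num at h6

end Nice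

open Nice in
/-- There is a monotone Borel hull operation on the null sets. -/
theorem target_d3b : TargetD3b T3 := by
  intro 𝒯 N hT R A T L hR hnull
  obtain ⟨gf, gs, gm, gl, gr, hSC⟩ := exists_SC (N := N) (T4_sub_T3.trans hT)
  obtain ⟨p, hp⟩ := N.zf.power R
  obtain ⟨ψ, h1, h2⟩ := exists_rel N.zf (pairCode (fun X Y =>
      f3Psi codeStr 1 2 3 4 5 6 7 8 X Y) 20)
      (asn R [N.w2, N.om, R, gf, gs, gl, gr, N.tow])
      (P := fun X Y => f3Psi (propStr N.E) N.w2 N.om R gf gs gl gr N.tow X Y)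
      (fun x => Iff.rfl) p p
  have key : ∀ X Y, Rel N.E ψ X Y ↔ (Sub N.E X R ∧ ∃ α, N.E α N.w2 ∧ N.Least α X ∧
      N.EqN R α Y) := by
    intro X Y
    rw [h2, hp, hp]
    constructor
    · rintro ⟨h3, h4, α, h5, h6, h7⟩
      exact ⟨h3, α, h5, (least_iff hSC hR h3).1 h6, (eqN_iff hSC hR h4).1 h7⟩
    · rintro ⟨h3, α, h5, h6, h7⟩
      exact ⟨h3, h7.1, α, h5, (least_iff hSC hR h3).2 h6, (eqN_iff hSC hR h7.1).2 h7⟩
  refine ⟨ψ, fun z hz => ?_, fun X hX => ?_, fun X Y hXY => ?_, fun X X' Y Y' hXY hXY' hs => ?_⟩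
  · obtain ⟨X, Y, h3, h4, h5, h6⟩ := h1 z hz
    refine ⟨X, Y, h3, (hnull X).2 ?_⟩
    obtain ⟨h7, α, h8, h9, h10⟩ := (key X Y).1 ⟨z, h3, hz⟩
    exact NullS.of_eqN hT hR h8 h7 h9.1
  · have hX' := (hnull X).1 hX
    obtain ⟨α, hα, hl⟩ := exists_least hT hR hX'
    obtain ⟨Y, hY, _⟩ := exists_N hT hR α
    refine ⟨Y, (key X Y).2 ⟨hX'.1, α, hα, hl, hY⟩, fun Y' hY' => ?_⟩
    obtain ⟨_, β, hβ, hl', hY''⟩ := (key X Y').1 hY'
    rw [Least.uniq hβ hα hl' hl] at hY''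
    exact hY''.uniq hR hY
  · obtain ⟨h3, α, hα, hl, hY⟩ := (key X Y).1 hXY
    obtain ⟨Y', hY', hb⟩ := exists_N hT hR α
    rw [hY'.uniq hR hY] at hb
    refine ⟨hb, fun c hc => ?_, fun D hD => ?_⟩
    · obtain ⟨x, hx⟩ := (hR.mem c).1 (h3 c hc)
      exact (hY.2 c x hx).2 (hl.1 c x hc hx)
    · refine (hnull D).2 ((hY.nullS hT hα).mono fun c hc => ((hD c).1 hc).1)
  · obtain ⟨h3, α, hα, hl, hY⟩ := (key X Y).1 hXY
    obtain ⟨h3', β, hβ, hl', hY'⟩ := (key X' Y').1 hXY'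
    intro c hc
    obtain ⟨x, hx⟩ := (hR.mem c).1 (hY.1 c hc)
    have h4 := (hY.2 c x hx).1 hc
    refine (hY'.2 c x hx).2 ?_
    rcases Least.mono hα hβ hl hl' hs with h5 | h5
    · exact h4.mono hβ h5
    · rwa [← h5]

open Nice in
/-- In a nice model `add(𝒩) = cof(𝒩)`. -/
theorem target_d3c : TargetD3c T3 := by
  intro 𝒯 N hT R A T L hR hnull hcpt
  have hlt : ltQT ∈ 𝒯 := hT (by simp [T3])
  obtain ⟨gf, gs, gm, gl, gr, hSC⟩ := exists_SC (N := N) (T4_sub_T3.trans hT)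
  obtain ⟨p, hp⟩ := N.zf.power R
  have hRR : ¬ N.NullS R R := not_nullS_R hlt hR hcpt
  have hord : IsOrd N.E N.w2 := ⟨fun y hy z hz => N.w2_trans _ _ hz hy,
    fun y hy z hz t ht => N.w2_ord y hy z hz t ht⟩
  -- the tower as a family
  obtain ⟨g, h1, h2⟩ := exists_rel N.zf (pairCode (fun α Y =>
      f3EqN codeStr 1 2 3 4 5 6 7 α Y) 20)
      (asn R [N.om, R, gf, gs, gl, gr, N.tow])
      (P := fun α Y => f3EqN (propStr N.E) N.om R gf gs gl gr N.tow α Y)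
      (fun x => Iff.rfl) N.w2 p
  have key : ∀ α Y, Rel N.E g α Y ↔ (N.E α N.w2 ∧ N.EqN R α Y) := by
    intro α Y
    rw [h2, hp]
    constructor
    · rintro ⟨h3, h4, h5⟩
      exact ⟨h3, (eqN_iff hSC hR h4).1 h5⟩
    · rintro ⟨h3, h4⟩
      exact ⟨h3, h4.1, (eqN_iff hSC hR h4.1).2 h4⟩
  have hgfam : IsNullFamily N.E N.om R A L N.w2 g := by
    refine ⟨fun z hz => ?_, fun ξ hξ => ?_⟩
    · obtain ⟨α, Y, h3, h4, h5, h6⟩ := h1 z hz
      have h7 := (key α Y).1 ⟨z, h3, hz⟩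
      exact ⟨α, Y, h3, h4, (hnull Y).2 (h7.2.nullS hT h4)⟩
    · obtain ⟨Y, hY, _⟩ := exists_N hT hR ξ
      exact ⟨Y, (key ξ Y).2 ⟨hξ, hY⟩, fun Y' hY' => ((key ξ Y').1 hY').2.uniq hR hY⟩
  have hgcof : IsCofinalFamily N.E N.om R A L g := by
    intro X hX
    obtain ⟨α, hα, hl⟩ := exists_level hT hR ((hnull X).1 hX)
    obtain ⟨Y, hY, _⟩ := exists_N hT hR α
    refine ⟨α, Y, (key α Y).2 ⟨hα, hY⟩, fun c hc => ?_⟩
    obtain ⟨x, hx⟩ := (hR.mem c).1 (((hnull X).1 hX).1 c hc)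
    exact (hY.2 c x hx).2 (hl c x hc hx)
  -- a cofinal family has a non-null union
  have hcofU : ∀ μ g', IsNullFamily N.E N.om R A L μ g' → IsCofinalFamily N.E N.om R A L g' →
      ¬ HasNullUnion N.E N.om R A L g' := by
    intro μ g' hg' hcof hU
    refine hRR ((hnull R).1 (hU R fun c => ?_))
    constructor
    · intro hc
      obtain ⟨x, hx⟩ := (hR.mem c).1 hc
      obtain ⟨X, hX⟩ := N.zf.pair c c
      have hX' : ∀ d, N.E d X ↔ d = c := fun d => by rw [hX]; simp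
      obtain ⟨ξ, Y, h3, h4⟩ := hcof X ((hnull X).2 (nullS_singleton hR hx hX'))
      exact ⟨ξ, Y, h3, h4 c ((hX' c).2 rfl)⟩
    · rintro ⟨ξ, Y, ⟨z, hz, hzg⟩, h4⟩
      obtain ⟨ξ', Y', h5, _, h6⟩ := hg'.1 z hzg
      obtain ⟨rfl, rfl⟩ := pair_inj N.zf hz h5
      exact ((hnull Y).1 h6).1 c h4
  -- small families have null unions
  have hsmall : ∀ μ, N.E μ N.w2 → ∀ g', IsNullFamily N.E N.om R A L μ g' →
      HasNullUnion N.E N.om R A L g' := by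
    intro μ hμ g' hg' U hU
    have hmem : ∀ ξ X, Rel N.E g' ξ X → N.E ξ μ ∧ N.NullS R X := by
      rintro ξ X ⟨z, hz, hzg⟩
      obtain ⟨ξ', X', h5, h6, h7⟩ := hg'.1 z hzg
      obtain ⟨rfl, rfl⟩ := pair_inj N.zf hz h5
      exact ⟨h6, (hnull X).1 h7⟩
    obtain ⟨F, hF1, hF2⟩ := exists_rel N.zf (pairCode (fun ξ α =>
      f3Val codeStr 1 2 3 4 5 6 7 ξ α) 20)
      (asn R [N.om, gf, gs, gl, gr, N.tow, g'])
      (P := fun ξ α => f3Val (propStr N.E) N.om gf gs gl gr N.tow g' ξ α)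
      (fun x => Iff.rfl) μ N.w2
    have keyF : ∀ ξ α, Rel N.E F ξ α ↔ (N.E α N.w2 ∧ ∃ X, Rel N.E g' ξ X ∧ N.Least α X) := by
      intro ξ α
      rw [hF2]
      constructor
      · rintro ⟨h3, h4, X, h5, h6⟩
        exact ⟨h4, X, h5, (least_iff hSC hR (hmem ξ X h5).2.1).1 h6⟩
      · rintro ⟨h4, X, h5, h6⟩
        exact ⟨(hmem ξ X h5).1, h4, X, h5, (least_iff hSC hR (hmem ξ X h5).2.1).2 h6⟩
    have hfun : IsFun N.E F μ N.w2 := by
      refine isFun_of N.zf (fun z hz => ?_) (fun ξ hξ => ?_) (fun ξ α β h3 h4 => ?_)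
      · obtain ⟨x, y, h3, h4, h5, _⟩ := hF1 z hz
        exact ⟨x, y, h3, h4, h5⟩
      · obtain ⟨X, hX, _⟩ := hg'.2 ξ hξ
        obtain ⟨α, hα, hl⟩ := exists_least hT hR (hmem ξ X hX).2
        exact ⟨α, (keyF ξ α).2 ⟨hα, X, hX, hl⟩⟩
      · obtain ⟨h5, X, h6, h7⟩ := (keyF ξ α).1 h3
        obtain ⟨h5', X', h6', h7'⟩ := (keyF ξ β).1 h4
        obtain ⟨X0, _, h8⟩ := hg'.2 ξ (hmem ξ X h6).1
        rw [h8 X h6] at h7
        rw [h8 X' h6'] at h7'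
        exact h7.uniq h5 h5' h7'
    obtain ⟨b, hb, hb'⟩ := N.reg2 μ hμ F hfun
    refine (hnull U).2 (NullS.of_eqN hT hR hb (fun c hc => ?_) fun c x hc hx => ?_)
    · obtain ⟨ξ, X, h3, h4⟩ := (hU c).1 hc
      exact (hmem ξ X h3).2.1 c h4
    · obtain ⟨ξ, X, h3, h4⟩ := (hU c).1 hc
      obtain ⟨α, hα, hl⟩ := exists_least hT hR (hmem ξ X h3).2
      exact (hl.1 c x h4 hx).mono hb (hb' ξ α ((keyF ξ α).2 ⟨hα, X, h3, hl⟩))
  exact ⟨N.w2, ⟨hord, ⟨g, hgfam, hcofU _ g hgfam hgcof⟩, hsmall⟩,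
    hord, ⟨g, hgfam, hgcof⟩, fun μ hμ g' hg' hc => hcofU μ g' hg' hc (hsmall μ hμ g' hg')⟩

end Pool.Agent.H83.F
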