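import Pool.Agent.H83.F.D4Ops

/-!
# D3: open sets are Borel, the tower of null sets
-/

universe v w

set_option linter.unusedSectionVars false
set_option linter.unusedVariables false

open MeasureTheory

namespace Pool.Agent.H83.F

open Pool.Agent.H86

/-- `{(n, m) | qd n < qd m}` -/
def ltQT : Set ℕ := {p | qd (Nat.unpair p).1 < qd (Nat.unpair p).2}

/-- `{(τ, m) | volume(⋃_{j ∈ fs τ} Iv j) ≤ 2⁻ᵐ}` -/
def volT : Set ℕ := {p | volume (⋃ j ∈ fs (Nat.unpair p).1, Iv j) ≤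
  ENNReal.ofReal ((1 / 2) ^ (Nat.unpair p).2)}

/-- The constants needed for D3. -/
def T3 : Set (Set ℕ) := T4 ∪ {ltQT, volT}

theorem T3_countable : T3.Countable := T4_countable.union (Set.Finite.countable (Set.toFinite _))

theorem T4_sub_T3 : T4 ⊆ T3 := Set.subset_union_left

theorem mem_Op' {z : Set ℕ} {x : ℝ} : x ∈ Op' z ↔ ∃ j ∈ z, x ∈ Iv j := by
  simp [Op']

/-- The measure of an open set in terms of finite subsets of the code. -/
theorem volume_Op'_le_iff (z : Set ℕ) (ε : ENNReal) : volume (Op' z) ≤ ε ↔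
    ∀ τ, (fs τ : Set ℕ) ⊆ z → volume (⋃ j ∈ fs τ, Iv j) ≤ ε := by
  constructor
  · intro h τ hτ
    refine (measure_mono ?_).trans h
    intro x hx
    simp only [Set.mem_iUnion] at hx
    obtain ⟨j, hj, hx⟩ := hx
    exact mem_Op'.2 ⟨j, hτ hj, hx⟩
  · intro h
    classical
    have e : Op' z = ⋃ k : ℕ, ⋃ j ∈ (Finset.range k).filter (· ∈ z), Iv j := by
      ext x
      simp only [mem_Op', Set.mem_iUnion, Finset.mem_filter, Finset.mem_range]
      constructor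
      · rintro ⟨j, hj, hx⟩
        exact ⟨j + 1, j, ⟨Nat.lt_succ_self j, hj⟩, hx⟩
      · rintro ⟨k, j, ⟨_, hj⟩, hx⟩
        exact ⟨j, hj, hx⟩
    rw [e, Monotone.measure_iUnion]
    · refine iSup_le fun k => ?_
      obtain ⟨τ, hτ⟩ := fs_surj ((Finset.range k).filter (· ∈ z))
      rw [← hτ]
      apply h
      rw [hτ]
      intro j hj
      simp only [Finset.coe_filter, Set.mem_ofPred_eq] at hj
      exact hj.2
    · intro k k' hk
      intro x hx
      simp only [Set.mem_iUnion, Finset.mem_filter, Finset.mem_range] at hx ⊢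
      obtain ⟨j, ⟨h1, h2⟩, h3⟩ := hx
      exact ⟨j, ⟨lt_of_lt_of_le h1 hk, h2⟩, h3⟩

section Formulas

variable {N : Type v} {Ω : Type w} (L : LogicStr N Ω)

/-- `c` is in the open set with code `z` -/
def f3Op (gl gr z c : N) : Ω := L.ex fun j => L.and (L.mem j z) (f4In L gl gr c j)

/-- `X` is the `j`-th interval if `j ∈ z`, and is empty otherwise -/
def f3Piece (gl gr z R j X : N) : Ω :=
  L.all fun c => L.imp (L.mem c R) (L.iff (L.mem c X) (L.and (L.mem j z) (f4In L gl gr c j)))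

/-- `c` is in the `n`-th open set at level `α` -/
def f3Lev (gf gs gl gr tow α n c : N) : Ω :=
  L.ex fun t => L.ex fun j => L.and (fRel L gf t n) (L.and (fRel L gs t j)
    (L.and (fRel L tow α t) (f4In L gl gr c j)))

/-- `c` is in the null set at level `α` -/
def f3N (om gf gs gl gr tow α c : N) : Ω :=
  L.all fun n => L.imp (L.mem n om) (f3Lev L gf gs gl gr tow α n c)

/-- `X` is the complement of the `n`-th open set at level `α` -/
def f3CLev (R gf gs gl gr tow α n X : N) : Ω :=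
  L.all fun c => L.imp (L.mem c R)
    (L.iff (L.mem c X) (L.imp (f3Lev L gf gs gl gr tow α n c) L.bot))

/-- `Y` is the null set at level `α` -/
def f3EqN (om R gf gs gl gr tow α Y : N) : Ω :=
  L.all fun c => L.imp (L.mem c R) (L.iff (L.mem c Y) (f3N L om gf gs gl gr tow α c))

/-- `X` is contained in the null set at level `α` -/
def f3SubN (om gf gs gl gr tow α X : N) : Ω :=
  L.all fun c => L.imp (L.mem c X) (f3N L om gf gs gl gr tow α c)

/-- `α` is the least level whose null set contains `X` -/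
def f3Least (om gf gs gl gr tow α X : N) : Ω :=
  L.and (f3SubN L om gf gs gl gr tow α X)
    (L.all fun β => L.imp (L.mem β α) (L.imp (f3SubN L om gf gs gl gr tow β X) L.bot))

/-- the hull operation -/
def f3Psi (w2 om R gf gs gl gr tow X Y : N) : Ω :=
  L.ex fun α => L.and (L.mem α w2) (L.and (f3Least L om gf gs gl gr tow α X)
    (f3EqN L om R gf gs gl gr tow α Y))

/-- `z` is an open cover of `X` of measure at most `2⁻ᵐ` -/
def f3Cov (om gm gv gl gr X m z : N) : Ω :=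
  L.and (L.all fun τ => L.imp (L.mem τ om) (L.imp (L.all fun n => L.imp (fRel L gm n τ)
    (L.mem n z)) (fRel L gv τ m)))
    (L.all fun c => L.imp (L.mem c X) (f3Op L gl gr z c))

/-- least level above the value of a family -/
def f3Val (om gf gs gl gr tow g ξ α : N) : Ω :=
  L.ex fun X => L.and (fRel L g ξ X) (f3Least L om gf gs gl gr tow α X)

end Formulas

namespace Nice

variable {𝒯 : Set (Set ℕ)} {N : Nice 𝒯}

theorem exists_SC (hT : T4 ⊆ 𝒯) : ∃ gf gs gm gl gr : N.M, N.SC gf gs gm gl gr := by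
  obtain ⟨gf, hgf⟩ := exists_CR (N := N) (T := fstT) (hT (by simp [T4]))
  obtain ⟨gs, hgs⟩ := exists_CR (N := N) (T := sndT) (hT (by simp [T4]))
  obtain ⟨gm, hgm⟩ := exists_CR (N := N) (T := gmT) (hT (by simp [T4]))
  obtain ⟨gl, hgl⟩ := exists_CR (N := N) (T := glT) (hT (by simp [T4]))
  obtain ⟨gr, hgr⟩ := exists_CR (N := N) (T := grT) (hT (by simp [T4]))
  exact ⟨gf, gs, gm, gl, gr, hgf, hgs, hgm, hgl, hgr⟩

theorem PM_cutQ (hT : ltQT ∈ 𝒯) (q : ℚ) : N.PM (cut q) := by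
  obtain ⟨m, rfl⟩ := qd_surj q
  have := (PM.singleton (N := N) m).image hT
  have e : {n | ∃ k ∈ ({m} : Set ℕ), Nat.pair n k ∈ ltQT} = cut (qd m) := by
    ext n
    constructor
    · rintro ⟨k, rfl, h⟩
      have h' : qd n < qd k := by simpa [ltQT] using h
      show (qd n : ℝ) < qd k
      exact_mod_cast h'
    · intro h
      have h' : (qd n : ℝ) < qd m := h
      have h'' : qd n < qd m := by exact_mod_cast h'
      exact ⟨m, rfl, by simpa [ltQT] using h''⟩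
  rwa [e] at this

theorem exists_CdQ (hT : ltQT ∈ 𝒯) (q : ℚ) : ∃ c, N.Cd c q := PM_cutQ hT q

theorem Cd.memR {R A T L : N.M} (hR : N.Reals R A T L) {c : N.M} {x : ℝ} (hc : N.Cd c x) :
    N.E c R := (hR.mem c).2 ⟨x, hc⟩

/-- The intervals are in all `σ`-algebras. -/
theorem Iv_mem (hT : ltQT ∈ 𝒯) {R A T L : N.M} (hR : N.Reals R A T L) {𝒮 : N.M}
    (h : IsSigmaAlg N.E N.om R L 𝒮) (j : ℕ) :
    ∃ X, N.E X 𝒮 ∧ ∀ c x, N.Cd c x → (N.E c X ↔ x ∈ Iv j) := by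
  obtain ⟨a, ha⟩ := exists_CdQ (N := N) hT (iv j).1
  obtain ⟨b, hb⟩ := exists_CdQ (N := N) hT (iv j).2
  obtain ⟨X, hX⟩ := sep_of N.zf ((codeStr.and (fRel codeStr 1 2 0) (fRel codeStr 1 0 3)) 10)
    (asn R [L, a, b]) (P := fun c => Rel N.E L a c ∧ Rel N.E L c b) (fun x => Iff.rfl) R
  refine ⟨X, h.2.1 a b X (Cd.memR hR ha) (Cd.memR hR hb) hX, fun c x hc => ?_⟩
  rw [hX, hR.lt _ _ _ _ ha hc, hR.lt _ _ _ _ hc hb]
  exact ⟨fun h => h.2, fun h => ⟨Cd.memR hR hc, h⟩⟩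

theorem empty_mem (hT : ltQT ∈ 𝒯) {R A T L : N.M} (hR : N.Reals R A T L) {𝒮 : N.M}
    (h : IsSigmaAlg N.E N.om R L 𝒮) : ∃ X, N.E X 𝒮 ∧ ∀ c, ¬ N.E c X := by
  obtain ⟨j, hj⟩ := iv_surj (0, 0)
  obtain ⟨X, hX, hX'⟩ := Iv_mem hT hR h j
  refine ⟨X, hX, fun c hc => ?_⟩
  obtain ⟨x, hx⟩ := (hR.mem c).1 (h.1 X hX c hc)
  have h1 := (hX' c x hx).1 hc
  rw [Iv, hj] at h1
  have := h1.1.trans h1.2
  simp at this

/-- Sets of reals with the same elements are equal. -/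
theorem eq_of_R {R X Y : N.M} (hX : Sub N.E X R) (hY : Sub N.E Y R)
    (h : ∀ c, N.E c R → (N.E c X ↔ N.E c Y)) : X = Y := by
  apply N.zf.ext
  intro c
  exact ⟨fun hc => (h c (hX c hc)).1 hc, fun hc => (h c (hY c hc)).2 hc⟩

/-- Open sets with codes in the model are Borel sets in the model. -/
theorem borel_open (hT : T3 ⊆ 𝒯) {R A T L : N.M} (hR : N.Reals R A T L) {z : Set ℕ}
    (hz : N.PM z) : ∃ U, IsBorel N.E N.om R L U ∧ ∀ c x, N.Cd c x → (N.E c U ↔ x ∈ Op' z) := by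
  have hlt : ltQT ∈ 𝒯 := hT (by simp [T3])
  obtain ⟨gf, gs, gm, gl, gr, hSC⟩ := exists_SC (N := N) (T4_sub_T3.trans hT)
  obtain ⟨zz, hzz, rfl⟩ := hz
  obtain ⟨U, hU⟩ := sep_of N.zf (f3Op codeStr 1 2 3 0 10) (asn R [gl, gr, zz])
    (P := fun c => f3Op (propStr N.E) gl gr zz c) (fun x => Iff.rfl) R
  have hop : ∀ c x, N.Cd c x → (f3Op (propStr N.E) gl gr zz c ↔ x ∈ Op' (N.val zz)) := by
    intro c x hc
    rw [mem_Op']
    constructor
    · rintro ⟨j, h1, h2⟩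
      obtain ⟨k, rfl⟩ := (N.E_om j).1 (hzz j h1)
      exact ⟨k, h1, (in_iff hSC hc k).1 h2⟩
    · rintro ⟨k, h1, h2⟩
      exact ⟨N.nat k, h1, (in_iff hSC hc k).2 h2⟩
  refine ⟨U, ⟨fun c hc => ((hU c).1 hc).1, fun 𝒮 h => ?_⟩, fun c x hc => ?_⟩
  · obtain ⟨F, hF1, hF2⟩ := exists_rel N.zf (pairCode (fun j X =>
      f3Piece codeStr 1 2 3 4 j X) 10) (asn R [gl, gr, zz, R])
      (P := fun j X => f3Piece (propStr N.E) gl gr zz R j X) (fun x => Iff.rfl) N.om 𝒮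
    have hfun : IsFun N.E F N.om 𝒮 := by
      refine isFun_of N.zf (fun z hz => ?_) (fun j hj => ?_) (fun j X X' h1 h2 => ?_)
      · obtain ⟨x, y, h1, h2, h3, _⟩ := hF1 z hz
        exact ⟨x, y, h1, h2, h3⟩
      · obtain ⟨k, rfl⟩ := (N.E_om j).1 hj
        by_cases hk : k ∈ N.val zz
        · obtain ⟨X, hX, hX'⟩ := Iv_mem hlt hR h k
          refine ⟨X, (hF2 _ _).2 ⟨hj, hX, fun c hc => ?_⟩⟩
          obtain ⟨x, hx⟩ := (hR.mem c).1 hc
          exact (hX' c x hx).trans ⟨fun h => ⟨hk, (in_iff hSC hx k).2 h⟩,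
            fun h => (in_iff hSC hx k).1 h.2⟩
        · obtain ⟨X, hX, hX'⟩ := empty_mem hlt hR h
          refine ⟨X, (hF2 _ _).2 ⟨hj, hX, fun c hc => ?_⟩⟩
          exact ⟨fun h => (hX' c h).elim, fun h => (hk h.1).elim⟩
      · obtain ⟨_, h3, h4⟩ := (hF2 _ _).1 h1
        obtain ⟨_, h3', h4'⟩ := (hF2 _ _).1 h2
        exact eq_of_R (h.1 X h3) (h.1 X' h3') fun c hc => (h4 c hc).trans (h4' c hc).symm
    refine h.2.2.2 F U hfun fun c => ?_
    rw [hU]
    constructor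
    · rintro ⟨hc, j, h1, h2⟩
      obtain ⟨X, hX, _⟩ := hfun.2 j (hzz j h1)
      exact ⟨j, X, hX, (((hF2 _ _).1 hX).2.2 c hc).2 ⟨h1, h2⟩⟩
    · rintro ⟨j, X, h1, h2⟩
      obtain ⟨_, h3, h4⟩ := (hF2 _ _).1 h1
      have hc := h.1 X h3 c h2
      obtain ⟨h5, h6⟩ := (h4 c hc).1 h2
      exact ⟨hc, j, h5, h6⟩
  · rw [hU, hop c x hc]
    exact ⟨fun h => h.2, fun h => ⟨Cd.memR hR hc, h⟩⟩

theorem borel_compl {R L X Y : N.M} (hX : IsBorel N.E N.om R L X)
    (hY : ∀ x, N.E x Y ↔ (N.E x R ∧ ¬ N.E x X)) : IsBorel N.E N.om R L Y :=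
  ⟨fun c hc => ((hY c).1 hc).1, fun 𝒮 h => h.2.2.1 X Y (hX.2 𝒮 h) hY⟩

theorem borel_union {R L F b U : N.M} (hF : IsFun N.E F N.om b)
    (hF' : ∀ n X, Rel N.E F n X → IsBorel N.E N.om R L X)
    (hU : ∀ x, N.E x U ↔ ∃ n X, Rel N.E F n X ∧ N.E x X) : IsBorel N.E N.om R L U := by
  refine ⟨fun c hc => ?_, fun 𝒮 h => ?_⟩
  · obtain ⟨n, X, h1, h2⟩ := (hU c).1 hc
    exact (hF' n X h1).1 c h2
  · refine h.2.2.2 F U ⟨fun z hz => ?_, hF.2⟩ hU
    obtain ⟨x, y, h1, h2, h3⟩ := hF.1 z hz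
    exact ⟨x, y, h1, h2, (hF' x y ⟨z, h1, hz⟩).2 𝒮 h⟩

end Nice

/-- Open sets with codes in the model are Borel. -/
theorem target_d3a : TargetD3a T3 := by
  intro 𝒯 N hT R A T L hR z hz
  exact Nice.borel_open hT hR hz

end Pool.Agent.H83.F
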