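import Pool.Agent.H83.F.D3Base

/-!
# D3: the tower of null sets
-/

universe v w

set_option linter.unusedSectionVars false
set_option linter.unusedVariables false

open MeasureTheory

namespace Pool.Agent.H83.F

open Pool.Agent.H86

namespace Nice

variable {𝒯 : Set (Set ℕ)} {N : Nice 𝒯}

/-- the `n`-th open code at level `α` -/
def Lv (N : Nice 𝒯) (α : N.M) (n : ℕ) : Set ℕ := {j | Rel N.E N.tow α (N.nat (Nat.pair n j))}

/-- the null set at level `α` -/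
def InN (N : Nice 𝒯) (α : N.M) (x : ℝ) : Prop := ∀ n, x ∈ Op' (N.Lv α n)

theorem PM_Lv {gf gs gm gl gr : N.M} (h : N.SC gf gs gm gl gr) (α : N.M) (n : ℕ) :
    N.PM (N.Lv α n) := by
  have := exists_set (N := N) ((codeStr.ex fun t => codeStr.and (fRel codeStr 1 t 2)
      (codeStr.and (fRel codeStr 3 t 0) (fRel codeStr 4 5 t))) 10)
    (asn α [gf, N.nat n, gs, N.tow, α])
    (P := fun x => ∃ t, Rel N.E gf t (N.nat n) ∧ Rel N.E gs t x ∧ Rel N.E N.tow α t)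
    (fun x => Iff.rfl)
  have e : {j | ∃ t, Rel N.E gf t (N.nat n) ∧ Rel N.E gs t (N.nat j) ∧ Rel N.E N.tow α t} =
      N.Lv α n := by
    ext j
    constructor
    · rintro ⟨t, h1, h2, h3⟩
      obtain ⟨a, b, rfl, e, h4⟩ := (h.gf _ _).1 h1
      rw [← N.nat_inj e] at h4
      have h5 := h.gs.nat.1 h2
      have h4' : (Nat.unpair a).1 = n := by simpa [fstT] using h4
      have h5' : (Nat.unpair a).2 = j := by simpa [sndT] using h5
      show Rel N.E N.tow α (N.nat (Nat.pair n j))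
      rw [← h4', ← h5', Nat.pair_unpair]
      exact h3
    · intro hj
      exact ⟨_, h.gf.nat.2 (by simp [fstT]), h.gs.nat.2 (by simp [sndT]), hj⟩
  rwa [e] at this

theorem lev_iff {gf gs gm gl gr : N.M} (h : N.SC gf gs gm gl gr) {c : N.M} {x : ℝ}
    (hc : N.Cd c x) (α : N.M) (n : ℕ) :
    f3Lev (propStr N.E) gf gs gl gr N.tow α (N.nat n) c ↔ x ∈ Op' (N.Lv α n) := by
  rw [mem_Op']
  constructor
  · rintro ⟨t, j, h1, h2, h3, h4⟩
    have h1' : Rel N.E gf t (N.nat n) := h1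
    have h2' : Rel N.E gs t j := h2
    obtain ⟨a, b, rfl, e, h5⟩ := (h.gf _ _).1 h1'
    obtain ⟨a', b', e', rfl, h6⟩ := (h.gs _ _).1 h2'
    rw [← N.nat_inj e] at h5
    rw [← N.nat_inj e'] at h6
    have h5' : (Nat.unpair a).1 = n := by simpa [fstT] using h5
    have h6' : (Nat.unpair a).2 = b' := by simpa [sndT] using h6
    refine ⟨b', ?_, (in_iff h hc b').1 h4⟩
    show Rel N.E N.tow α (N.nat (Nat.pair n b'))
    rw [← h5', ← h6', Nat.pair_unpair]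
    exact h3
  · rintro ⟨j, h1, h2⟩
    exact ⟨N.nat (Nat.pair n j), N.nat j, h.gf.nat.2 (by simp [fstT]),
      h.gs.nat.2 (by simp [sndT]), h1, (in_iff h hc j).2 h2⟩

theorem n_iff {gf gs gm gl gr : N.M} (h : N.SC gf gs gm gl gr) {c : N.M} {x : ℝ}
    (hc : N.Cd c x) (α : N.M) :
    f3N (propStr N.E) N.om gf gs gl gr N.tow α c ↔ N.InN α x := by
  constructor
  · intro h1 n
    exact (lev_iff h hc α n).1 (h1 (N.nat n) (N.nat_om n))
  · intro h1 n hn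
    obtain ⟨k, rfl⟩ := (N.E_om n).1 hn
    exact (lev_iff h hc α k).2 (h1 k)

theorem InN.mono {α β : N.M} (hβ : N.E β N.w2) (hαβ : N.E α β) {x : ℝ} (h : N.InN α x) :
    N.InN β x := by
  intro n
  obtain ⟨m, hm⟩ := N.tow_mono α β hβ hαβ n
  obtain ⟨j, hj, hx⟩ := mem_Op'.1 (h m)
  exact mem_Op'.2 ⟨j, hm j hj, hx⟩

/-- `Y` is the null set of level `α` -/
def EqN (N : Nice 𝒯) (R α Y : N.M) : Prop :=
  Sub N.E Y R ∧ ∀ c x, N.Cd c x → (N.E c Y ↔ N.InN α x)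

theorem eqN_iff {gf gs gm gl gr : N.M} (h : N.SC gf gs gm gl gr) {R A T L : N.M}
    (hR : N.Reals R A T L) {α Y : N.M} (hY : Sub N.E Y R) :
    f3EqN (propStr N.E) N.om R gf gs gl gr N.tow α Y ↔ N.EqN R α Y := by
  constructor
  · intro h1
    exact ⟨hY, fun c x hc => (h1 c (Cd.memR hR hc)).trans (n_iff h hc α)⟩
  · rintro ⟨-, h1⟩ c hc
    obtain ⟨x, hx⟩ := (hR.mem c).1 hc
    exact (h1 c x hx).trans (n_iff h hx α).symm

theorem EqN.uniq {R A T L : N.M} (hR : N.Reals R A T L) {α Y Y' : N.M} (h : N.EqN R α Y)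
    (h' : N.EqN R α Y') : Y = Y' :=
  eq_of_R h.1 h'.1 fun c hc => by
    obtain ⟨x, hx⟩ := (hR.mem c).1 hc
    exact (h.2 c x hx).trans (h'.2 c x hx).symm

/-- The null sets of the tower exist and are Borel. -/
theorem exists_N (hT : T3 ⊆ 𝒯) {R A T L : N.M} (hR : N.Reals R A T L) (α : N.M) :
    ∃ Y, N.EqN R α Y ∧ IsBorel N.E N.om R L Y := by
  obtain ⟨gf, gs, gm, gl, gr, hSC⟩ := exists_SC (N := N) (T4_sub_T3.trans hT)
  obtain ⟨Y, hY⟩ := sep_of N.zf (f3N codeStr 1 2 3 4 5 6 7 0 20)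
    (asn R [N.om, gf, gs, gl, gr, N.tow, α])
    (P := fun c => f3N (propStr N.E) N.om gf gs gl gr N.tow α c) (fun x => Iff.rfl) R
  obtain ⟨V, hV⟩ := sep_of N.zf (codeStr.imp (fun d => .mem 0 1) codeStr.bot 10)
    (asn R [Y]) (P := fun c => ¬ N.E c Y) (fun x => Iff.rfl) R
  obtain ⟨p, hp⟩ := N.zf.power R
  obtain ⟨F, hF1, hF2⟩ := exists_rel N.zf (pairCode (fun n X =>
      f3CLev codeStr 1 2 3 4 5 6 7 n X) 20) (asn R [R, gf, gs, gl, gr, N.tow, α])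
      (P := fun n X => f3CLev (propStr N.E) R gf gs gl gr N.tow α n X) (fun x => Iff.rfl) N.om p
  have hval : ∀ n X, Rel N.E F (N.nat n) X ↔ (Sub N.E X R ∧
      ∀ c x, N.Cd c x → (N.E c X ↔ x ∉ Op' (N.Lv α n))) := by
    intro n X
    rw [hF2, hp]
    constructor
    · rintro ⟨h1, h2, h3⟩
      exact ⟨h2, fun c x hc => (h3 c (Cd.memR hR hc)).trans (not_congr (lev_iff hSC hc α n))⟩
    · rintro ⟨h1, h2⟩
      refine ⟨N.nat_om n, h1, fun c hc => ?_⟩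
      obtain ⟨x, hx⟩ := (hR.mem c).1 hc
      exact (h2 c x hx).trans (not_congr (lev_iff hSC hx α n).symm)
  have hbor : ∀ n, ∃ X, Rel N.E F (N.nat n) X ∧ IsBorel N.E N.om R L X := by
    intro n
    obtain ⟨U, hU, hU'⟩ := borel_open hT hR (PM_Lv hSC α n)
    obtain ⟨X, hX⟩ := sep_of N.zf (codeStr.imp (fun d => .mem 0 1) codeStr.bot 10)
      (asn R [U]) (P := fun c => ¬ N.E c U) (fun x => Iff.rfl) R
    refine ⟨X, (hval n X).2 ⟨fun c hc => ((hX c).1 hc).1, fun c x hc => ?_⟩,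
      borel_compl hU hX⟩
    rw [hX, hU' c x hc]
    exact ⟨fun h => h.2, fun h => ⟨Cd.memR hR hc, h⟩⟩
  have huniq : ∀ n X X', Rel N.E F (N.nat n) X → Rel N.E F (N.nat n) X' → X = X' := by
    intro n X X' h1 h2
    have h3 := (hval n X).1 h1
    have h4 := (hval n X').1 h2
    exact eq_of_R h3.1 h4.1 fun c hc => by
      obtain ⟨x, hx⟩ := (hR.mem c).1 hc
      exact (h3.2 c x hx).trans (h4.2 c x hx).symm
  have hfun : IsFun N.E F N.om p := by
    refine isFun_of N.zf (fun z hz => ?_) (fun j hj => ?_) (fun j X X' h1 h2 => ?_)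
    · obtain ⟨x, y, h1, h2, h3, _⟩ := hF1 z hz
      exact ⟨x, y, h1, h2, h3⟩
    · obtain ⟨k, rfl⟩ := (N.E_om j).1 hj
      obtain ⟨X, hX, _⟩ := hbor k
      exact ⟨X, hX⟩
    · obtain ⟨k, rfl⟩ := (N.E_om j).1 ((hF2 _ _).1 h1).1
      exact huniq k X X' h1 h2
  have hVb : IsBorel N.E N.om R L V := by
    refine borel_union hfun (fun n X h1 => ?_) fun c => ?_
    · obtain ⟨k, rfl⟩ := (N.E_om n).1 ((hF2 _ _).1 h1).1
      obtain ⟨X', h2, h3⟩ := hbor k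
      rwa [huniq k X X' h1 h2]
    · rw [hV, hY]
      constructor
      · rintro ⟨hc, h1⟩
        obtain ⟨x, hx⟩ := (hR.mem c).1 hc
        rw [n_iff hSC hx] at h1
        have h2 : ¬ ∀ n, x ∈ Op' (N.Lv α n) := fun h => h1 ⟨hc, h⟩
        rw [not_forall] at h2
        obtain ⟨n, hn⟩ := h2
        obtain ⟨X, hX, _⟩ := hbor n
        exact ⟨N.nat n, X, hX, (((hval n X).1 hX).2 c x hx).2 hn⟩
      · rintro ⟨n, X, h1, h2⟩
        obtain ⟨k, rfl⟩ := (N.E_om n).1 ((hF2 _ _).1 h1).1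
        have h3 := (hval k X).1 h1
        have hc := h3.1 c h2
        obtain ⟨x, hx⟩ := (hR.mem c).1 hc
        refine ⟨hc, fun h4 => (h3.2 c x hx).1 h2 ?_⟩
        exact (n_iff hSC hx α).1 h4.2 k
  refine ⟨Y, ⟨fun c hc => ((hY c).1 hc).1, fun c x hc => ?_⟩, borel_compl hVb fun c => ?_⟩
  · rw [hY, n_iff hSC hc]
    exact ⟨fun h => h.2, fun h => ⟨Cd.memR hR hc, h⟩⟩
  · rw [hV]
    constructor
    · intro hc
      exact ⟨((hY c).1 hc).1, fun h => h.2 hc⟩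
    · rintro ⟨h1, h2⟩
      by_contra h3
      exact h2 ⟨h1, h3⟩

/-- The members of the tower are null. -/
theorem EqN.nullS (hT : T3 ⊆ 𝒯) {R α Y : N.M} (hα : N.E α N.w2) (h : N.EqN R α Y) :
    N.NullS R Y := by
  obtain ⟨gf, gs, gm, gl, gr, hSC⟩ := exists_SC (N := N) (T4_sub_T3.trans hT)
  refine ⟨h.1, fun m => ⟨N.Lv α m, PM_Lv hSC α m, N.tow_small α hα m, fun c x hc hx => ?_⟩⟩
  exact (h.2 c x hx).1 hc m

theorem NullS.mono {R X Y : N.M} (h : N.NullS R Y) (hXY : Sub N.E X Y) : N.NullS R X := by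
  refine ⟨fun c hc => h.1 c (hXY c hc), fun m => ?_⟩
  obtain ⟨z, h1, h2, h3⟩ := h.2 m
  exact ⟨z, h1, h2, fun c x hc => h3 c x (hXY c hc)⟩

theorem op_iff {gf gs gm gl gr : N.M} (h : N.SC gf gs gm gl gr) {c z : N.M} {x : ℝ}
    (hc : N.Cd c x) (hz : Sub N.E z N.om) :
    f3Op (propStr N.E) gl gr z c ↔ x ∈ Op' (N.val z) := by
  rw [mem_Op']
  constructor
  · rintro ⟨j, h1, h2⟩
    obtain ⟨k, rfl⟩ := (N.E_om j).1 (hz j h1)
    exact ⟨k, h1, (in_iff h hc k).1 h2⟩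
  · rintro ⟨k, h1, h2⟩
    exact ⟨N.nat k, h1, (in_iff h hc k).2 h2⟩

theorem cov_iff {gf gs gm gl gr gv : N.M} (h : N.SC gf gs gm gl gr) (hv : N.CR gv volT)
    {R A T L : N.M} (hR : N.Reals R A T L) {X z : N.M} (hX : Sub N.E X R)
    (hz : Sub N.E z N.om) (m : ℕ) :
    f3Cov (propStr N.E) N.om gm gv gl gr X (N.nat m) z ↔
      (volume (Op' (N.val z)) ≤ ENNReal.ofReal ((1 / 2) ^ m) ∧
        ∀ c x, N.E c X → N.Cd c x → x ∈ Op' (N.val z)) := by
  refine and_congr ?_ ?_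
  · rw [volume_Op'_le_iff]
    have hfs : ∀ τ, (∀ n, Rel N.E gm n (N.nat τ) → N.E n z) ↔ (fs τ : Set ℕ) ⊆ N.val z := by
      intro τ
      constructor
      · intro h1 n hn
        exact h1 (N.nat n) (h.gm.nat.2 (by simpa [gmT] using hn))
      · intro h1 n hn
        obtain ⟨a, b, rfl, e, h5⟩ := (h.gm _ _).1 hn
        rw [← N.nat_inj e] at h5
        exact h1 (by simpa [gmT] using h5)
    have hvv : ∀ τ, Rel N.E gv (N.nat τ) (N.nat m) ↔ volume (⋃ j ∈ fs τ, Iv j) ≤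
        ENNReal.ofReal ((1 / 2) ^ m) := by
      intro τ
      rw [hv.nat]
      simp [volT]
    constructor
    · intro h1 τ hτ
      exact (hvv τ).1 (h1 (N.nat τ) (N.nat_om τ) ((hfs τ).2 hτ))
    · intro h1 τ hτ h2
      obtain ⟨k, rfl⟩ := (N.E_om τ).1 hτ
      exact (hvv k).2 (h1 k ((hfs k).1 h2))
  · constructor
    · intro h1 c x hc hx
      exact (op_iff h hx hz).1 (h1 c hc)
    · intro h1 c hc
      obtain ⟨x, hx⟩ := (hR.mem c).1 (hX c hc)
      exact (op_iff h hx hz).2 (h1 c x hc hx)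

/-- Null sets are covered by members of the tower. -/
theorem exists_level (hT : T3 ⊆ 𝒯) {R A T L : N.M} (hR : N.Reals R A T L) {X : N.M}
    (hX : N.NullS R X) : ∃ α, N.E α N.w2 ∧ ∀ c x, N.E c X → N.Cd c x → N.InN α x := by
  obtain ⟨gf, gs, gm, gl, gr, hSC⟩ := exists_SC (N := N) (T4_sub_T3.trans hT)
  obtain ⟨gv, hv⟩ := exists_CR (N := N) (T := volT) (hT (by simp [T3]))
  have hf : fstT ∈ 𝒯 := hT (T4_sub_T3 (by simp [T4]))
  have hs : sndT ∈ 𝒯 := hT (T4_sub_T3 (by simp [T4]))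
  obtain ⟨Z, hZ, hZ2⟩ := choice_fam (N := N) (pairCode (fun m z =>
      f3Cov codeStr 1 2 3 4 5 6 m z) 20) (asn R [N.om, gm, gv, gl, gr, X])
    (P := fun m z => f3Cov (propStr N.E) N.om gm gv gl gr X m z)
    (fun x => Iff.rfl) N.om (by
      intro i hi
      obtain ⟨m, rfl⟩ := (N.E_om i).1 hi
      obtain ⟨_, ⟨z, hz, rfl⟩, h1, h2⟩ := hX.2 m
      exact ⟨z, hz, (cov_iff hSC hv hR hX.1 hz m).2 ⟨h1, h2⟩⟩)
  have hZ3 : ∀ m, volume (Op' (Z (N.nat m))) ≤ ENNReal.ofReal ((1 / 2) ^ m) ∧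
        ∀ c x, N.E c X → N.Cd c x → x ∈ Op' (Z (N.nat m)) := by
    intro m
    obtain ⟨z, hz1, hz2, h1⟩ := hZ2 (N.nat m) (N.nat_om m)
    have := (cov_iff hSC hv hR hX.1 hz1 m).1 h1
    rwa [hz2] at this
  obtain ⟨z, hz, hz'⟩ := flatten hZ hf hs
  have hsec : ∀ m, {j | N.E (N.nat (Nat.pair m j)) z} = Z (N.nat m) := by
    intro m
    ext j
    have : Nat.pair m j ∈ N.val z ↔ j ∈ Z (N.nat m) := by
      rw [hz', Set.mem_ofPred_eq, Nat.unpair_pair]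
    exact this
  obtain ⟨α, hα, h1⟩ := N.tow_cof z fun m => by rw [hsec]; exact (hZ3 m).1
  refine ⟨α, hα, fun c x hc hx n => ?_⟩
  obtain ⟨m, hm⟩ := h1 n
  obtain ⟨j, hj, hjx⟩ := mem_Op'.1 ((hZ3 m).2 c x hc hx)
  refine mem_Op'.2 ⟨j, hm j ?_, hjx⟩
  have : j ∈ {j | N.E (N.nat (Nat.pair m j)) z} := by rw [hsec]; exact hj
  exact this

/-- `α` is the least level that covers `X` -/
def Least (N : Nice 𝒯) (α X : N.M) : Prop :=
  (∀ c x, N.E c X → N.Cd c x → N.InN α x) ∧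
    ∀ β, N.E β α → ¬ ∀ c x, N.E c X → N.Cd c x → N.InN β x

theorem subN_iff {gf gs gm gl gr : N.M} (h : N.SC gf gs gm gl gr) {R A T L : N.M}
    (hR : N.Reals R A T L) {α X : N.M} (hX : Sub N.E X R) :
    f3SubN (propStr N.E) N.om gf gs gl gr N.tow α X ↔
      ∀ c x, N.E c X → N.Cd c x → N.InN α x := by
  constructor
  · intro h1 c x hc hx
    exact (n_iff h hx α).1 (h1 c hc)
  · intro h1 c hc
    obtain ⟨x, hx⟩ := (hR.mem c).1 (hX c hc)
    exact (n_iff h hx α).2 (h1 c x hc hx)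

theorem least_iff {gf gs gm gl gr : N.M} (h : N.SC gf gs gm gl gr) {R A T L : N.M}
    (hR : N.Reals R A T L) {α X : N.M} (hX : Sub N.E X R) :
    f3Least (propStr N.E) N.om gf gs gl gr N.tow α X ↔ N.Least α X := by
  refine and_congr (subN_iff h hR hX) ?_
  refine forall_congr' fun β => imp_congr_right fun hβ => ?_
  exact not_congr (subN_iff h hR hX)

theorem exists_least (hT : T3 ⊆ 𝒯) {R A T L : N.M} (hR : N.Reals R A T L) {X : N.M}
    (hX : N.NullS R X) : ∃ α, N.E α N.w2 ∧ N.Least α X := by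
  classical
  have h := exists_level hT hR hX
  let P : Ordinal.{0} → Prop := fun o => ∃ α, N.rk α = o ∧ N.E α N.w2 ∧
    ∀ c x, N.E c X → N.Cd c x → N.InN α x
  have hne : ({o | P o} : Set Ordinal.{0}).Nonempty := by
    obtain ⟨α, h1, h2⟩ := h
    exact ⟨N.rk α, α, rfl, h1, h2⟩
  obtain ⟨α, h1, h2, h3⟩ := WellFounded.min_mem (wellFounded_lt (α := Ordinal.{0})) _ hne
  refine ⟨α, h2, h3, fun β hβ h4 => ?_⟩
  have hβ2 : N.E β N.w2 := N.w2_trans _ _ hβ h2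
  have h5 : N.rk β < N.rk α := (N.rk_lt β α hβ2 h2).1 hβ
  rw [h1] at h5
  exact WellFounded.not_lt_min (wellFounded_lt (α := Ordinal.{0})) {o | P o}
    (x := N.rk β) ⟨β, rfl, hβ2, h4⟩ h5

theorem lt_or_eq_or_gt {α β : N.M} (hα : N.E α N.w2) (hβ : N.E β N.w2) :
    N.E α β ∨ α = β ∨ N.E β α := by
  rcases lt_trichotomy (N.rk α) (N.rk β) with h | h | h
  · exact Or.inl ((N.rk_lt _ _ hα hβ).2 h)
  · exact Or.inr (Or.inl (N.rk_inj _ _ hα hβ h))
  · exact Or.inr (Or.inr ((N.rk_lt _ _ hβ hα).2 h))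

theorem Least.uniq {α β X : N.M} (hα : N.E α N.w2) (hβ : N.E β N.w2) (h : N.Least α X)
    (h' : N.Least β X) : α = β := by
  rcases lt_or_eq_or_gt hα hβ with h1 | h1 | h1
  · exact (h'.2 α h1 h.1).elim
  · exact h1
  · exact (h.2 β h1 h'.1).elim

/-- Monotonicity of the least level. -/
theorem Least.mono {α β X Y : N.M} (hα : N.E α N.w2) (hβ : N.E β N.w2) (h : N.Least α X)
    (h' : N.Least β Y) (hXY : Sub N.E X Y) : N.E α β ∨ α = β := by
  rcases lt_or_eq_or_gt hα hβ with h1 | h1 | h1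
  · exact Or.inl h1
  · exact Or.inr h1
  · exact (h.2 β h1 fun c x hc => h'.1 c x (hXY c hc)).elim

end Nice

end Pool.Agent.H83.F
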