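import Pool.Agent.H83.F.D4Ops

/-!
# D4: Borel sets of a nice model are Suslin sets
-/

universe v w

set_option linter.unusedSectionVars false
set_option linter.unusedVariables false

open MeasureTheory

namespace Pool.Agent.H83.F

open Pool.Agent.H86

/-- formula: `S` is a Suslin code of the `i`-th set -/
def f4Fam {N : Type v} {Ω : Type w} (L : LogicStr N Ω) (om gf gs gm gl gr R f i S : N) : Ω :=
  L.ex fun X => L.and (fRel L f i X) (f4Code L om gf gs gm gl gr R S X)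

/-- formula: `S` is a Suslin code of the complement of the `i`-th set -/
def f4FamC {N : Type v} {Ω : Type w} (L : LogicStr N Ω) (om gf gs gm gl gr R f i S : N) : Ω :=
  L.ex fun X => L.and (fRel L f i X) (f4CodeC L om gf gs gm gl gr R S X)

namespace Nice

variable {𝒯 : Set (Set ℕ)} {N : Nice 𝒯}

/-- open intervals with end points in the model have codes in the model -/
theorem exists_interval_code (hT : T4 ⊆ 𝒯) {x y : ℝ} (hx : N.PM (cut x)) (hy : N.PM (cut y)) :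
    ∃ z, N.PM z ∧ Op' z = Set.Ioo x y := by
  have h1 : glR ∈ 𝒯 := hT (by simp [T4])
  have h2 : grR ∈ 𝒯 := hT (by simp [T4])
  refine ⟨{j | ∃ m ∈ (cut x)ᶜ, Nat.pair j m ∈ glR} ∩ {j | ∃ m ∈ (cut y)ᶜ, Nat.pair j m ∈ grR}ᶜ,
    (hx.compl.image h1).inter (hy.compl.image h2).compl, ?_⟩
  have key : ∀ j, j ∈ {j | ∃ m ∈ (cut x)ᶜ, Nat.pair j m ∈ glR} ∩
      {j | ∃ m ∈ (cut y)ᶜ, Nat.pair j m ∈ grR}ᶜ ↔ x ≤ (iv j).1 ∧ ((iv j).2 : ℝ) ≤ y := by
    intro j
    rw [Set.mem_inter_iff]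
    refine and_congr ⟨?_, ?_⟩ ⟨?_, ?_⟩
    · rintro ⟨m, hm, hm'⟩
      have h3 : qd m = (iv j).1 := by simpa [glR] using hm'
      rw [← h3]
      exact not_lt.1 hm
    · intro h
      obtain ⟨m, hm⟩ := qd_surj (iv j).1
      refine ⟨m, ?_, by simpa [glR] using hm⟩
      show ¬ ((qd m : ℝ) < x)
      rw [hm]; exact not_lt.2 h
    · intro h
      by_contra hc
      obtain ⟨q, h3, h4⟩ := exists_rat_btwn (not_le.1 hc)
      obtain ⟨m, rfl⟩ := qd_surj q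
      refine h ⟨m, not_lt.2 h3.le, ?_⟩
      have : qd m < (iv j).2 := by exact_mod_cast h4
      simpa [grR] using this
    · rintro h ⟨m, hm, hm'⟩
      have h3 : qd m < (iv j).2 := by simpa [grR] using hm'
      have h4 : y ≤ qd m := not_lt.1 hm
      have h5 : (qd m : ℝ) < (iv j).2 := by exact_mod_cast h3
      linarith
  ext u
  simp only [Op', Set.mem_iUnion]
  constructor
  · rintro ⟨j, hj, hu⟩
    obtain ⟨h3, h4⟩ := (key j).1 hj
    exact ⟨h3.trans_lt hu.1, hu.2.trans_le h4⟩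
  · rintro ⟨h3, h4⟩
    obtain ⟨a, ha1, ha2⟩ := exists_rat_btwn h3
    obtain ⟨b, hb1, hb2⟩ := exists_rat_btwn h4
    obtain ⟨j, hj⟩ := iv_surj (a, b)
    refine ⟨j, (key j).2 ?_, ?_⟩
    · rw [hj]; exact ⟨ha1.le, hb2.le⟩
    · rw [Iv, hj]; exact ⟨ha2, hb1⟩

/-- The collection of all sets that are Suslin together with their complements. -/
theorem exists_bisuslin (hT : T4 ⊆ 𝒯) {R A T L : N.M} (hR : N.Reals R A T L) :
    ∃ 𝒮, IsSigmaAlg N.E N.om R L 𝒮 ∧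
      ∀ X, N.E X 𝒮 → N.IsS (fun c => N.E c X) ∧ N.IsS (fun c => ¬ N.E c X) := by
  have hf : fstT ∈ 𝒯 := hT (by simp [T4])
  have hs : sndT ∈ 𝒯 := hT (by simp [T4])
  obtain ⟨gf, hgf⟩ := exists_CR (N := N) hf
  obtain ⟨gs, hgs⟩ := exists_CR (N := N) hs
  obtain ⟨gm, hgm⟩ := exists_CR (N := N) (T := gmT) (hT (by simp [T4]))
  obtain ⟨gl, hgl⟩ := exists_CR (N := N) (T := glT) (hT (by simp [T4]))
  obtain ⟨gr, hgr⟩ := exists_CR (N := N) (T := grT) (hT (by simp [T4]))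
  have hSC : N.SC gf gs gm gl gr := ⟨hgf, hgs, hgm, hgl, hgr⟩
  obtain ⟨p, hp⟩ := N.zf.power R
  obtain ⟨𝒮, h𝒮⟩ := sep_of N.zf (f4Both codeStr 1 2 3 4 5 6 7 0 20)
    (asn R [N.om, gf, gs, gm, gl, gr, R])
    (P := fun X => f4Both (propStr N.E) N.om gf gs gm gl gr R X) (fun x => Iff.rfl) p
  have key : ∀ X, N.E X 𝒮 ↔ Sub N.E X R ∧
      (N.IsS (fun c => N.E c X) ∧ N.IsS (fun c => ¬ N.E c X)) := by
    intro X
    rw [h𝒮, both_iff hSC hR, hp]
    rfl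
  refine ⟨𝒮, ⟨fun X hX => ((key X).1 hX).1, ?_, ?_, ?_⟩, fun X hX => ((key X).1 hX).2⟩
  · intro a b X ha hb hX
    obtain ⟨x, hx⟩ := (hR.mem a).1 ha
    obtain ⟨y, hy⟩ := (hR.mem b).1 hb
    obtain ⟨z, hz, hzo⟩ := exists_interval_code hT (N := N) ⟨a, hx⟩ ⟨b, hy⟩
    have hmem : ∀ c u, N.Cd c u → (N.E c X ↔ u ∈ Op' z) := by
      intro c u hc
      rw [hX, hR.lt _ _ _ _ hx hc, hR.lt _ _ _ _ hc hy, hzo]
      exact ⟨fun h => h.2, fun h => ⟨(hR.mem c).2 ⟨u, hc⟩, h⟩⟩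
    refine (key X).2 ⟨fun c hc => ((hX c).1 hc).1, ?_, ?_⟩
    · obtain ⟨S, hS, h⟩ := isS_open hT hz
      exact ⟨S, hS, fun c u hc => (hmem c u hc).trans (h u).symm⟩
    · obtain ⟨S, hS, h⟩ := isS_closed hT hz
      exact ⟨S, hS, fun c u hc => (not_congr (hmem c u hc)).trans (h u).symm⟩
  · intro X Y hX hY
    obtain ⟨h1, h2, h3⟩ := (key X).1 hX
    refine (key Y).2 ⟨fun c hc => ((hY c).1 hc).1, h3.congr fun c x hc => ?_,
      h2.congr fun c x hc => ?_⟩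
    · rw [hY]
      exact ⟨fun h => ⟨(hR.mem c).2 ⟨x, hc⟩, h⟩, fun h => h.2⟩
    · rw [hY]
      constructor
      · exact fun h h' => h'.2 h
      · intro h
        by_contra h'
        exact h ⟨(hR.mem c).2 ⟨x, hc⟩, h'⟩
  · intro f U hfun hU
    have hUR : Sub N.E U R := by
      intro c hc
      obtain ⟨n, X, h1, h2⟩ := (hU c).1 hc
      exact ((key X).1 (IsFun.mem N.zf hfun h1).2).1 c h2
    refine (key U).2 ⟨hUR, ?_, ?_⟩
    · obtain ⟨Z, hZ, hZ2⟩ := choice_fam (N := N) (pairCode (fun i S =>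
          f4Fam codeStr 1 2 3 4 5 6 7 8 i S) 20) (asn R [N.om, gf, gs, gm, gl, gr, R, f])
        (P := fun i S => ∃ X, Rel N.E f i X ∧
          f4Code (propStr N.E) N.om gf gs gm gl gr R S X)
        (fun x => Iff.rfl) N.om (by
          intro i hi
          obtain ⟨X, hX, _⟩ := hfun.2 _ hi
          obtain ⟨_, ⟨_, ⟨S, hS, rfl⟩, hS2⟩, _⟩ := (key X).1 (IsFun.mem N.zf hfun hX).2
          exact ⟨S, hS, X, hX, (code_iff hSC hR).2 ⟨hS, hS2⟩⟩)
      obtain ⟨S, hS, hS2⟩ := isS_union hT hZ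
      refine ⟨S, hS, fun c x hc => ?_⟩
      rw [hS2]
      constructor
      · intro h
        obtain ⟨n, X, h1, h2⟩ := (hU c).1 h
        obtain ⟨k, rfl⟩ := (N.E_om n).1 (IsFun.mem N.zf hfun h1).1
        obtain ⟨S', hS', h3, X', h4, h5⟩ := hZ2 (N.nat k) (N.nat_om k)
        rw [IsFun.uniq N.zf hfun h4 h1] at h5
        refine ⟨k, ?_⟩
        rw [← h3]
        exact (((code_iff hSC hR).1 h5).2 c x hc).1 h2
      · rintro ⟨k, hk⟩
        obtain ⟨S', hS', h3, X', h4, h5⟩ := hZ2 (N.nat k) (N.nat_om k)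
        rw [← h3] at hk
        exact (hU c).2 ⟨_, X', h4, (((code_iff hSC hR).1 h5).2 c x hc).2 hk⟩
    · obtain ⟨Z, hZ, hZ2⟩ := choice_fam (N := N) (pairCode (fun i S =>
          f4FamC codeStr 1 2 3 4 5 6 7 8 i S) 20) (asn R [N.om, gf, gs, gm, gl, gr, R, f])
        (P := fun i S => ∃ X, Rel N.E f i X ∧
          f4CodeC (propStr N.E) N.om gf gs gm gl gr R S X)
        (fun x => Iff.rfl) N.om (by
          intro i hi
          obtain ⟨X, hX, _⟩ := hfun.2 _ hi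
          obtain ⟨_, _, ⟨_, ⟨S, hS, rfl⟩, hS2⟩⟩ := (key X).1 (IsFun.mem N.zf hfun hX).2
          exact ⟨S, hS, X, hX, (codeC_iff hSC hR).2 ⟨hS, hS2⟩⟩)
      obtain ⟨S, hS, hS2⟩ := isS_inter hT hZ
      refine ⟨S, hS, fun c x hc => ?_⟩
      rw [hS2 c x hc]
      constructor
      · intro h k
        obtain ⟨S', hS', h3, X', h4, h5⟩ := hZ2 (N.nat k) (N.nat_om k)
        rw [← h3]
        exact (((codeC_iff hSC hR).1 h5).2 c x hc).1 fun h6 => h ((hU c).2 ⟨_, X', h4, h6⟩)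
      · intro h h6
        obtain ⟨n, X, h1, h2⟩ := (hU c).1 h6
        obtain ⟨k, rfl⟩ := (N.E_om n).1 (IsFun.mem N.zf hfun h1).1
        obtain ⟨S', hS', h3, X', h4, h5⟩ := hZ2 (N.nat k) (N.nat_om k)
        rw [IsFun.uniq N.zf hfun h4 h1] at h5
        have h7 := h k
        rw [← h3] at h7
        exact (((codeC_iff hSC hR).1 h5).2 c x hc).2 h7 h2

end Nice

/-- Borel sets of a nice model are Suslin sets. -/
theorem target_d4 : TargetD4 T4 := by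
  intro 𝒯 N hT R A T L hR X hX
  obtain ⟨𝒮, h1, h2⟩ := Nice.exists_bisuslin hT hR
  exact (h2 X (hX.2 𝒮 h1)).1

end Pool.Agent.H83.F
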