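import Pool.Agent.H83.F.Targets

/-!
# D4: Suslin codes inside the model
-/

universe v w

set_option linter.unusedSectionVars false

namespace Pool.Agent.H83.F

open Pool.Agent.H86

section Formulas

variable {N : Type v} {Ω : Type w} (L : LogicStr N Ω)

/-- the real with code `c` is in the rational interval with code `j` -/
def f4In (gl gr c j : N) : Ω :=
  L.and (L.ex fun m => L.and (fRel L gl m j) (L.mem m c))
    (L.ex fun m => L.and (fRel L gr m j) (L.imp (L.mem m c) L.bot))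

/-- `W` is the graph of a function -/
def f4Graph (om gf W : N) : Ω :=
  L.all fun n => L.imp (L.mem n om) (L.ex fun t => L.and (L.and (L.mem t W) (fRel L gf t n))
    (L.all fun t' => L.imp (L.mem t' W) (L.imp (fRel L gf t' n) (L.eq t' t))))

/-- `W` avoids all obstructions in `S` for the real `c` -/
def f4Avoid (gf gs gm gl gr S W c : N) : Ω :=
  L.all fun t => L.imp (L.mem t S) (L.all fun j => L.imp (fRel L gf t j)
    (L.all fun τ => L.imp (fRel L gs t τ) (L.imp (f4In L gl gr c j)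
      (L.imp (L.all fun n => L.imp (fRel L gm n τ) (L.mem n W)) L.bot))))

/-- `W` is a witness -/
def f4Wit (om gf gs gm gl gr S W c : N) : Ω :=
  L.and (L.all fun n => L.imp (L.mem n W) (L.mem n om))
    (L.and (f4Graph L om gf W) (f4Avoid L gf gs gm gl gr S W c))

/-- Suslin membership -/
def f4Sus (om gf gs gm gl gr S c : N) : Ω := L.ex fun W => f4Wit L om gf gs gm gl gr S W c

/-- `S` is a Suslin code of `X` -/
def f4Code (om gf gs gm gl gr R S X : N) : Ω :=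
  L.and (L.all fun n => L.imp (L.mem n S) (L.mem n om))
    (L.all fun c => L.imp (L.mem c R) (L.iff (L.mem c X) (f4Sus L om gf gs gm gl gr S c)))

/-- `S` is a Suslin code of the complement of `X` -/
def f4CodeC (om gf gs gm gl gr R S X : N) : Ω :=
  L.and (L.all fun n => L.imp (L.mem n S) (L.mem n om))
    (L.all fun c => L.imp (L.mem c R) (L.iff (L.imp (L.mem c X) L.bot)
      (f4Sus L om gf gs gm gl gr S c)))

/-- `X` and its complement are Suslin -/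
def f4Both (om gf gs gm gl gr R X : N) : Ω :=
  L.and (L.ex fun S => f4Code L om gf gs gm gl gr R S X)
    (L.ex fun S => f4CodeC L om gf gs gm gl gr R S X)

end Formulas

/-- `{(m, j) | qd m = l_j}` -/
def glT : Set ℕ := {p | qd (Nat.unpair p).1 = (iv (Nat.unpair p).2).1}
/-- `{(m, j) | qd m < r_j}` -/
def grT : Set ℕ := {p | qd (Nat.unpair p).1 < (iv (Nat.unpair p).2).2}
/-- `{(n, τ) | n ∈ fs τ}` -/
def gmT : Set ℕ := {p | (Nat.unpair p).1 ∈ fs (Nat.unpair p).2}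

theorem mem_Iv_iff (x : ℝ) (j : ℕ) : x ∈ Iv j ↔
    (∃ m, Nat.pair m j ∈ glT ∧ m ∈ cut x) ∧ ∃ m, Nat.pair m j ∈ grT ∧ m ∉ cut x := by
  constructor
  · rintro ⟨h1, h2⟩
    obtain ⟨m, hm⟩ := qd_surj (iv j).1
    obtain ⟨q, h3, h4⟩ := exists_rat_btwn h2
    obtain ⟨n, rfl⟩ := qd_surj q
    refine ⟨⟨m, by simp [glT, hm], ?_⟩, n, ?_, ?_⟩
    · show (qd m : ℝ) < x
      rw [hm]; exact h1
    · have : qd n < (iv j).2 := by exact_mod_cast h4
      simpa [grT] using this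
    · exact not_lt.2 h3.le
  · rintro ⟨⟨m, h1, h2⟩, n, h3, h4⟩
    have h1' : qd m = (iv j).1 := by simpa [glT] using h1
    have h3' : qd n < (iv j).2 := by simpa [grT] using h3
    have h2' : (qd m : ℝ) < x := h2
    have h4' : x ≤ (qd n : ℝ) := not_lt.1 h4
    refine ⟨?_, h4'.trans_lt (by exact_mod_cast h3')⟩
    rw [← h1']; exact h2'

namespace Nice

variable {𝒯 : Set (Set ℕ)} {N : Nice 𝒯}

/-- `g` is the relation with code `T` -/
def CR (N : Nice 𝒯) (g : N.M) (T : Set ℕ) : Prop :=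
  ∀ x y, Rel N.E g x y ↔ ∃ a b, x = N.nat a ∧ y = N.nat b ∧ Nat.pair a b ∈ T

theorem exists_CR {T : Set ℕ} (hT : T ∈ 𝒯) : ∃ g, N.CR g T := by
  obtain ⟨g, h1, h2⟩ := N.const T hT
  refine ⟨g, fun x y => ⟨?_, ?_⟩⟩
  · rintro ⟨u, hu, hug⟩
    obtain ⟨a, b, hab⟩ := h1 u hug
    obtain ⟨h3, h4⟩ := pair_inj N.zf hu hab
    subst h3 h4
    exact ⟨a, b, rfl, rfl, (h2 a b).1 ⟨u, hu, hug⟩⟩
  · rintro ⟨a, b, rfl, rfl, h⟩
    exact (h2 a b).2 h

theorem CR.nat {g : N.M} {T : Set ℕ} (h : N.CR g T) {a b : ℕ} :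
    Rel N.E g (N.nat a) (N.nat b) ↔ Nat.pair a b ∈ T := by
  rw [h]
  constructor
  · rintro ⟨a', b', h1, h2, h3⟩
    rw [N.nat_inj h1, N.nat_inj h2]; exact h3
  · exact fun h => ⟨a, b, rfl, rfl, h⟩

/-- Flattening of a family indexed by `ω`. -/
theorem flatten {Z : N.M → Set ℕ} (hZ : N.IFam N.om Z) (h1 : fstT ∈ 𝒯) (h2 : sndT ∈ 𝒯) :
    N.PM {p | (Nat.unpair p).2 ∈ Z (N.nat (Nat.unpair p).1)} := by
  obtain ⟨z, hz⟩ := hZ
  obtain ⟨gf, hgf⟩ := exists_CR (N := N) h1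
  obtain ⟨gs, hgs⟩ := exists_CR (N := N) h2
  have := exists_set (N := N) ((codeStr.ex fun i => codeStr.ex fun t =>
      codeStr.and (fRel codeStr 1 0 i) (codeStr.and (fRel codeStr 2 0 t)
        (fRel codeStr 3 i t))) 10) (asn z [gf, gs, z])
    (P := fun x => ∃ i t, Rel N.E gf x i ∧ Rel N.E gs x t ∧ Rel N.E z i t) (fun x => Iff.rfl)
  have e : {n | ∃ i t, Rel N.E gf (N.nat n) i ∧ Rel N.E gs (N.nat n) t ∧ Rel N.E z i t} =
      {p | (Nat.unpair p).2 ∈ Z (N.nat (Nat.unpair p).1)} := by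
    ext p
    constructor
    · rintro ⟨i, t, h3, h4, h5⟩
      obtain ⟨a, b, h6, rfl, h7⟩ := (hgf _ _).1 h3
      obtain ⟨a', b', h6', rfl, h7'⟩ := (hgs _ _).1 h4
      have e1 := N.nat_inj h6
      have e2 := N.nat_inj h6'
      subst e1 e2
      have e3 : (Nat.unpair p).1 = b := by simpa [fstT] using h7
      have e4 : (Nat.unpair p).2 = b' := by simpa [sndT] using h7'
      show (Nat.unpair p).2 ∈ Z (N.nat (Nat.unpair p).1)
      rw [e3, e4]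
      exact (hz _ (N.nat_om _) _).1 h5
    · intro hp
      refine ⟨N.nat (Nat.unpair p).1, N.nat (Nat.unpair p).2, hgf.nat.2 ?_, hgs.nat.2 ?_,
        (hz _ (N.nat_om _) _).2 hp⟩
      · simp [fstT]
      · simp [sndT]
  rwa [e] at this

/-- The constants used for Suslin codes. -/
structure SC (N : Nice 𝒯) (gf gs gm gl gr : N.M) : Prop where
  gf : N.CR gf fstT
  gs : N.CR gs sndT
  gm : N.CR gm gmT
  gl : N.CR gl glT
  gr : N.CR gr grT

theorem in_iff {gf gs gm gl gr : N.M} (h : N.SC gf gs gm gl gr) {c : N.M} {x : ℝ}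
    (hc : N.Cd c x) (j : ℕ) : f4In (propStr N.E) gl gr c (N.nat j) ↔ x ∈ Iv j := by
  rw [mem_Iv_iff]
  have hcut : ∀ m, N.E (N.nat m) c ↔ m ∈ cut x := fun m => by rw [← hc.2]; rfl
  constructor
  · rintro ⟨⟨m, h1, h2⟩, n, h3, h4⟩
    have h1' : Rel N.E gl m (N.nat j) := h1
    have h3' : Rel N.E gr n (N.nat j) := h3
    have h4' : ¬ N.E n c := h4
    obtain ⟨a, b, rfl, e, h5⟩ := (h.gl _ _).1 h1'
    obtain ⟨a', b', rfl, e', h5'⟩ := (h.gr _ _).1 h3'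
    rw [← N.nat_inj e] at h5
    rw [← N.nat_inj e'] at h5'
    exact ⟨⟨a, h5, (hcut a).1 h2⟩, a', h5', fun hn => h4' ((hcut a').2 hn)⟩
  · rintro ⟨⟨m, h1, h2⟩, n, h3, h4⟩
    exact ⟨⟨N.nat m, h.gl.nat.2 h1, (hcut m).2 h2⟩, N.nat n, h.gr.nat.2 h3,
      fun hn => h4 ((hcut n).1 hn)⟩

theorem graph_iff {gf gs gm gl gr : N.M} (h : N.SC gf gs gm gl gr) {W : N.M}
    (hW : Sub N.E W N.om) : f4Graph (propStr N.E) N.om gf W ↔ IsGraph (N.val W) := by
  have hgf : ∀ t n, Rel N.E gf (N.nat t) (N.nat n) ↔ (Nat.unpair t).1 = n := fun t n => by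
    rw [h.gf.nat]; simp [fstT]
  constructor
  · intro h1 n
    obtain ⟨t, ⟨h2, h3⟩, h4⟩ := h1 (N.nat n) (N.nat_om n)
    obtain ⟨a, rfl⟩ := (N.E_om t).1 (hW t h2)
    have h3' : (Nat.unpair a).1 = n := (hgf a n).1 h3
    refine ⟨(Nat.unpair a).2, ?_, fun k hk => ?_⟩
    · show N.E (N.nat (Nat.pair n (Nat.unpair a).2)) W
      rw [← h3', Nat.pair_unpair]; exact h2
    · have h5 := h4 (N.nat (Nat.pair n k)) hk ((hgf _ _).2 (by simp))
      have h6 : N.nat (Nat.pair n k) = N.nat a := h5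
      rw [← N.nat_inj h6]; simp
  · intro h1 n hn
    obtain ⟨m, rfl⟩ := (N.E_om n).1 hn
    obtain ⟨k, hk, hu⟩ := h1 m
    refine ⟨N.nat (Nat.pair m k), ⟨hk, (hgf _ _).2 (by simp)⟩, fun t' h2 h3 => ?_⟩
    obtain ⟨a, rfl⟩ := (N.E_om t').1 (hW t' h2)
    have h3' : (Nat.unpair a).1 = m := (hgf a m).1 h3
    have h4 : (Nat.unpair a).2 = k := by
      apply hu
      show N.E (N.nat (Nat.pair m (Nat.unpair a).2)) W
      rw [← h3', Nat.pair_unpair]; exact h2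
    show N.nat a = N.nat (Nat.pair m k)
    rw [← h3', ← h4, Nat.pair_unpair]

/-- external form of avoiding the obstructions -/
def Avoid (S W : Set ℕ) (x : ℝ) : Prop :=
  ∀ t ∈ S, ¬ (x ∈ Iv (Nat.unpair t).1 ∧ (fs (Nat.unpair t).2 : Set ℕ) ⊆ W)

theorem avoid_iff {gf gs gm gl gr : N.M} (h : N.SC gf gs gm gl gr) {S W c : N.M} {x : ℝ}
    (hS : Sub N.E S N.om) (hW : Sub N.E W N.om) (hc : N.Cd c x) :
    f4Avoid (propStr N.E) gf gs gm gl gr S W c ↔ Avoid (N.val S) (N.val W) x := by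
  have hfs : ∀ τ, (∀ n, Rel N.E gm n (N.nat τ) → N.E n W) ↔ (fs τ : Set ℕ) ⊆ N.val W := by
    intro τ
    constructor
    · intro h1 n hn
      exact h1 (N.nat n) (h.gm.nat.2 (by simpa [gmT] using hn))
    · intro h1 n hn
      obtain ⟨a, b, rfl, e, h5⟩ := (h.gm _ _).1 hn
      rw [← N.nat_inj e] at h5
      exact h1 (by simpa [gmT] using h5)
  constructor
  · intro h1 t ht ⟨h2, h3⟩
    exact h1 (N.nat t) ht (N.nat (Nat.unpair t).1) (h.gf.nat.2 (by simp [fstT]))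
      (N.nat (Nat.unpair t).2) (h.gs.nat.2 (by simp [sndT])) ((in_iff h hc _).2 h2)
      ((hfs _).2 h3)
  · intro h1 t ht j hj τ hτ h2 h3
    obtain ⟨a, rfl⟩ := (N.E_om t).1 (hS t ht)
    obtain ⟨a1, b1, e1, rfl, h4⟩ := (h.gf _ _).1 hj
    obtain ⟨a2, b2, e2, rfl, h5⟩ := (h.gs _ _).1 hτ
    rw [← N.nat_inj e1] at h4
    rw [← N.nat_inj e2] at h5
    have h4' : (Nat.unpair a).1 = b1 := by simpa [fstT] using h4
    have h5' : (Nat.unpair a).2 = b2 := by simpa [sndT] using h5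
    refine h1 a ht ⟨?_, ?_⟩
    · rw [h4']; exact (in_iff h hc _).1 h2
    · rw [h5']; exact (hfs _).1 h3

theorem wit_iff {gf gs gm gl gr : N.M} (h : N.SC gf gs gm gl gr) {S W c : N.M} {x : ℝ}
    (hS : Sub N.E S N.om) (hc : N.Cd c x) :
    f4Wit (propStr N.E) N.om gf gs gm gl gr S W c ↔
      (Sub N.E W N.om ∧ IsGraph (N.val W) ∧ Avoid (N.val S) (N.val W) x) := by
  constructor
  · rintro ⟨h1, h2, h3⟩
    exact ⟨h1, (graph_iff h h1).1 h2, (avoid_iff h hS h1 hc).1 h3⟩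
  · rintro ⟨h1, h2, h3⟩
    exact ⟨h1, (graph_iff h h1).2 h2, (avoid_iff h hS h1 hc).2 h3⟩

theorem sus_iff {gf gs gm gl gr : N.M} (h : N.SC gf gs gm gl gr) {S c : N.M} {x : ℝ}
    (hS : Sub N.E S N.om) (hc : N.Cd c x) :
    f4Sus (propStr N.E) N.om gf gs gm gl gr S c ↔ N.Sus (N.val S) x := by
  constructor
  · rintro ⟨W, hW⟩
    obtain ⟨h1, h2, h3⟩ := (wit_iff h hS hc).1 hW
    exact ⟨N.val W, ⟨W, h1, rfl⟩, h2, h3⟩
  · rintro ⟨W, ⟨w, hw, rfl⟩, h2, h3⟩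
    exact ⟨w, (wit_iff h hS hc).2 ⟨hw, h2, h3⟩⟩

/-- `S` is a Suslin code of the set of reals `P` -/
def SCode (N : Nice 𝒯) (S : Set ℕ) (P : N.M → Prop) : Prop :=
  ∀ c x, N.Cd c x → (P c ↔ N.Sus S x)

theorem code_iff {gf gs gm gl gr : N.M} (h : N.SC gf gs gm gl gr) {R A T L : N.M}
    (hR : N.Reals R A T L) {S X : N.M} :
    f4Code (propStr N.E) N.om gf gs gm gl gr R S X ↔
      (Sub N.E S N.om ∧ N.SCode (N.val S) (fun c => N.E c X)) := by
  constructor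
  · rintro ⟨h1, h2⟩
    exact ⟨h1, fun c x hc => (h2 c ((hR.mem c).2 ⟨x, hc⟩)).trans (sus_iff h h1 hc)⟩
  · rintro ⟨h1, h2⟩
    refine ⟨h1, fun c hc => ?_⟩
    obtain ⟨x, hx⟩ := (hR.mem c).1 hc
    exact (h2 c x hx).trans (sus_iff h h1 hx).symm

theorem codeC_iff {gf gs gm gl gr : N.M} (h : N.SC gf gs gm gl gr) {R A T L : N.M}
    (hR : N.Reals R A T L) {S X : N.M} :
    f4CodeC (propStr N.E) N.om gf gs gm gl gr R S X ↔
      (Sub N.E S N.om ∧ N.SCode (N.val S) (fun c => ¬ N.E c X)) := by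
  constructor
  · rintro ⟨h1, h2⟩
    exact ⟨h1, fun c x hc => (h2 c ((hR.mem c).2 ⟨x, hc⟩)).trans (sus_iff h h1 hc)⟩
  · rintro ⟨h1, h2⟩
    refine ⟨h1, fun c hc => ?_⟩
    obtain ⟨x, hx⟩ := (hR.mem c).1 hc
    exact (h2 c x hx).trans (sus_iff h h1 hx).symm

/-- The set of reals `P` is Suslin. -/
def IsS (N : Nice 𝒯) (P : N.M → Prop) : Prop := ∃ S, N.PM S ∧ N.SCode S P

theorem both_iff {gf gs gm gl gr : N.M} (h : N.SC gf gs gm gl gr) {R A T L : N.M}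
    (hR : N.Reals R A T L) {X : N.M} :
    f4Both (propStr N.E) N.om gf gs gm gl gr R X ↔
      (N.IsS (fun c => N.E c X) ∧ N.IsS (fun c => ¬ N.E c X)) := by
  constructor
  · rintro ⟨⟨S, h1⟩, S', h2⟩
    obtain ⟨h3, h4⟩ := (code_iff h hR).1 h1
    obtain ⟨h3', h4'⟩ := (codeC_iff h hR).1 h2
    exact ⟨⟨_, ⟨S, h3, rfl⟩, h4⟩, _, ⟨S', h3', rfl⟩, h4'⟩
  · rintro ⟨⟨_, ⟨S, h3, rfl⟩, h4⟩, _, ⟨S', h3', rfl⟩, h4'⟩
    exact ⟨⟨S, (code_iff h hR).2 ⟨h3, h4⟩⟩, S', (codeC_iff h hR).2 ⟨h3', h4'⟩⟩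

theorem IsS.congr {P P' : N.M → Prop} (h : N.IsS P)
    (h' : ∀ c x, N.Cd c x → (P c ↔ P' c)) : N.IsS P' := by
  obtain ⟨S, h1, h2⟩ := h
  exact ⟨S, h1, fun c x hc => (h' c x hc).symm.trans (h2 c x hc)⟩

end Nice

end Pool.Agent.H83.F
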