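import Pool.Agent.H83.F.D4Base

/-!
# D4: open, closed sets, countable unions and intersections
-/

universe v w

set_option linter.unusedSectionVars false
set_option linter.unusedVariables false

namespace Pool.Agent.H83.F

open Pool.Agent.H86

/-- code of a finite set -/
def cfs (s : Finset ℕ) : ℕ := Denumerable.eqv (Finset ℕ) s

@[simp] theorem fs_cfs (s : Finset ℕ) : fs (cfs s) = s := (Denumerable.eqv (Finset ℕ)).symm_apply_apply s

/-- graph of a function, as a relation `{(Φ p, p)}` -/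
def imT (Φ : ℕ → ℕ) : Set ℕ := {q | (Nat.unpair q).1 = Φ (Nat.unpair q).2}

/-- graph of a function, as a relation `{(n, Φ n)}` -/
def preT (Φ : ℕ → ℕ) : Set ℕ := {q | Φ (Nat.unpair q).1 = (Nat.unpair q).2}

/-- `j ↦ (j, ∅)` -/
def clF (j : ℕ) : ℕ := Nat.pair j (cfs ∅)

/-- a closed interval inside `Iv j` -/
def Cl (m : ℕ) : Set ℝ :=
  Set.Icc (((iv (Nat.unpair m).1).1 : ℝ) + 1 / ((Nat.unpair m).2 + 1))
    (((iv (Nat.unpair m).1).2 : ℝ) - 1 / ((Nat.unpair m).2 + 1))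

/-- obstructions that do not depend on the open set -/
def op0 : Set ℕ := {s | ∃ j m, s = Nat.pair j (cfs {Nat.pair 0 m}) ∧ Disjoint (Iv j) (Cl m)}

/-- the same, with a dummy second variable -/
def op0T : Set ℕ := {q | (Nat.unpair q).1 ∈ op0}

/-- obstructions that depend on the open set -/
def op1T : Set ℕ :=
  {q | ∃ j k, (Nat.unpair q).1 = Nat.pair j (cfs {Nat.pair 0 (Nat.pair (Nat.unpair q).2 k)})}

/-- shift of a point -/
def shF (u : ℕ) : ℕ := Nat.pair ((Nat.unpair u).1 + 1) (Nat.unpair u).2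

/-- column of a point -/
def coF (n u : ℕ) : ℕ := Nat.pair (Nat.pair n (Nat.unpair u).1) (Nat.unpair u).2

/-- rearrangement -/
def raF (u : ℕ) : ℕ := Nat.pair (Nat.unpair (Nat.unpair u).1).1
  (Nat.pair (Nat.unpair (Nat.unpair u).1).2 (Nat.unpair u).2)

/-- map for unions -/
def unF (p : ℕ) : ℕ := Nat.pair (Nat.unpair (Nat.unpair p).2).1
  (cfs ({Nat.pair 0 (Nat.unpair p).1} ∪ (fs (Nat.unpair (Nat.unpair p).2).2).image shF))

/-- map for intersections -/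
def inF (p : ℕ) : ℕ := Nat.pair (Nat.unpair (Nat.unpair p).2).1
  (cfs ((fs (Nat.unpair (Nat.unpair p).2).2).image (coF (Nat.unpair p).1)))

/-- `{(j, m) | qd m = l_j}` -/
def glR : Set ℕ := {p | qd (Nat.unpair p).2 = (iv (Nat.unpair p).1).1}

/-- `{(j, m) | qd m < r_j}` -/
def grR : Set ℕ := {p | qd (Nat.unpair p).2 < (iv (Nat.unpair p).1).2}

/-- The constants needed for D4. -/
def T4 : Set (Set ℕ) := {Nice.fstT, Nice.sndT, Nice.projT, glT, grT, gmT, glR, grR, imT clF, op0T, op1T, preT shF, imT shF,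
  preT raF, imT unF, imT inF} ∪ Set.range fun n => preT (coF n)

theorem T4_countable : T4.Countable :=
  (Set.Finite.countable (Set.toFinite _)).union (Set.countable_range _)

theorem exists_Iv (x : ℝ) : ∃ j, x ∈ Iv j := by
  obtain ⟨a, _, ha⟩ := exists_rat_btwn (sub_one_lt x)
  obtain ⟨b, hb, _⟩ := exists_rat_btwn (lt_add_one x)
  obtain ⟨j, hj⟩ := iv_surj (a, b)
  refine ⟨j, ?_, ?_⟩
  · rw [hj]; exact ha
  · rw [hj]; exact hb

theorem exists_Iv_disjoint {x : ℝ} {C : Set ℝ} (hC : IsClosed C) (hx : x ∉ C) :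
    ∃ j, x ∈ Iv j ∧ Disjoint (Iv j) C := by
  obtain ⟨ε, hε, h⟩ := Metric.isOpen_iff.1 hC.isOpen_compl x hx
  obtain ⟨a, ha1, ha2⟩ := exists_rat_btwn (show x - ε < x by linarith)
  obtain ⟨b, hb1, hb2⟩ := exists_rat_btwn (show x < x + ε by linarith)
  obtain ⟨j, hj⟩ := iv_surj (a, b)
  refine ⟨j, ⟨by rw [hj]; exact ha2, by rw [hj]; exact hb1⟩, Set.disjoint_left.2 ?_⟩
  rintro y ⟨h1, h2⟩ hy
  rw [hj] at h1 h2
  have hb : y ∈ Metric.ball x ε := by
    rw [Metric.mem_ball, Real.dist_eq, abs_lt]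
    constructor <;> linarith
  exact h hb hy

theorem Cl_subset (m : ℕ) : Cl m ⊆ Iv (Nat.unpair m).1 := by
  rintro x ⟨h1, h2⟩
  have : (0 : ℝ) < 1 / ((Nat.unpair m).2 + 1) := by positivity
  exact ⟨by linarith, by linarith⟩

theorem exists_Cl {x : ℝ} {j : ℕ} (h : x ∈ Iv j) : ∃ k, x ∈ Cl (Nat.pair j k) := by
  obtain ⟨h1, h2⟩ := h
  obtain ⟨k, hk⟩ := exists_nat_one_div_lt (show 0 < min (x - (iv j).1) ((iv j).2 - x) by
    simp only [lt_min_iff]; constructor <;> linarith)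
  obtain ⟨h3, h4⟩ := lt_min_iff.1 hk
  refine ⟨k, ?_, ?_⟩
  · simp only [Nat.unpair_pair]; linarith
  · simp only [Nat.unpair_pair]; linarith

theorem isClosed_Cl (m : ℕ) : IsClosed (Cl m) := isClosed_Icc

namespace Nice

variable {𝒯 : Set (Set ℕ)} {N : Nice 𝒯}

theorem PM.imageFun {X : Set ℕ} (h : N.PM X) {Φ : ℕ → ℕ} (hT : imT Φ ∈ 𝒯) : N.PM (Φ '' X) := by
  have := h.image hT
  have e : {n | ∃ k ∈ X, Nat.pair n k ∈ imT Φ} = Φ '' X := by
    ext n
    constructor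
    · rintro ⟨k, hk, h⟩
      have h' : n = Φ k := by simpa [imT] using h
      exact ⟨k, hk, h'.symm⟩
    · rintro ⟨k, hk, rfl⟩
      exact ⟨k, hk, by simp [imT]⟩
  rwa [e] at this

theorem PM.preFun {X : Set ℕ} (h : N.PM X) {Φ : ℕ → ℕ} (hT : preT Φ ∈ 𝒯) : N.PM (Φ ⁻¹' X) :=
  h.preimage hT (fun n k => by simp [preT])

/-- complements of open sets -/
theorem isS_closed (hT : T4 ⊆ 𝒯) {z : Set ℕ} (hz : N.PM z) :
    ∃ S, N.PM S ∧ ∀ x, N.Sus S x ↔ x ∉ Op' z := by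
  have hcl : imT clF ∈ 𝒯 := hT (by simp [T4])
  have hs : sndT ∈ 𝒯 := hT (by simp [T4])
  refine ⟨clF '' z, hz.imageFun hcl, fun x => ?_⟩
  constructor
  · rintro ⟨W, _, _, h3⟩ hx
    simp only [Op', Set.mem_iUnion] at hx
    obtain ⟨j, hj, hx⟩ := hx
    exact h3 _ ⟨j, hj, rfl⟩ ⟨by simpa [clF] using hx, by simp [clF]⟩
  · intro hx
    refine ⟨{t | (Nat.unpair t).2 ∈ ({0} : Set ℕ)}, (PM.singleton 0).snd hs, ?_, ?_⟩
    · intro n
      refine ⟨0, by simp, fun k hk => by simpa using hk⟩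
    · rintro _ ⟨j, hj, rfl⟩ ⟨h1, _⟩
      apply hx
      simp only [Op', Set.mem_iUnion]
      exact ⟨j, hj, by simpa [clF] using h1⟩

/-- a graph with a given value at `0` -/
def gr0 (m : ℕ) : Set ℕ := ({t | (Nat.unpair t).2 ∈ ({0} : Set ℕ)} ∩ {Nat.pair 0 0}ᶜ) ∪
  {Nat.pair 0 m}

theorem mem_gr0 {m n k : ℕ} : Nat.pair n k ∈ gr0 m ↔ (n = 0 ∧ k = m) ∨ (n ≠ 0 ∧ k = 0) := by
  simp only [gr0, Set.mem_union, Set.mem_inter_iff, Set.mem_singleton_iff, Set.mem_ofPred_eq,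
    Nat.unpair_pair, Set.mem_compl_iff, Nat.pair_eq_pair]
  constructor
  · rintro (⟨h1, h2⟩ | h)
    · exact Or.inr ⟨fun h => h2 ⟨h, h1⟩, h1⟩
    · exact Or.inl h
  · rintro (h | ⟨h1, h2⟩)
    · exact Or.inr h
    · exact Or.inl ⟨h2, fun h => h1 h.1⟩

theorem PM_gr0 (hs : sndT ∈ 𝒯) (m : ℕ) : N.PM (gr0 m) :=
  (((PM.singleton 0).snd hs).inter (PM.singleton _).compl).union (PM.singleton _)

theorem isGraph_gr0 (m : ℕ) : IsGraph (gr0 m) := by
  intro n
  by_cases h : n = 0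
  · subst h
    exact ⟨m, mem_gr0.2 (Or.inl ⟨rfl, rfl⟩), fun k hk => by
      rcases mem_gr0.1 hk with h | h
      · exact h.2
      · exact (h.1 rfl).elim⟩
  · exact ⟨0, mem_gr0.2 (Or.inr ⟨h, rfl⟩), fun k hk => by
      rcases mem_gr0.1 hk with h' | h'
      · exact (h h'.1).elim
      · exact h'.2⟩

/-- open sets -/
theorem isS_open (hT : T4 ⊆ 𝒯) {z : Set ℕ} (hz : N.PM z) :
    ∃ S, N.PM S ∧ ∀ x, N.Sus S x ↔ x ∈ Op' z := by
  have h0 : op0T ∈ 𝒯 := hT (by simp [T4])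
  have h1 : op1T ∈ 𝒯 := hT (by simp [T4])
  have hs : sndT ∈ 𝒯 := hT (by simp [T4])
  have hP0 : N.PM op0 := PM.const' h0 (fun n => by
    constructor
    · intro h; exact ⟨0, by simpa [op0T] using h⟩
    · rintro ⟨k, hk⟩; simpa [op0T] using hk)
  refine ⟨op0 ∪ {n | ∃ k ∈ zᶜ, Nat.pair n k ∈ op1T}, hP0.union (hz.compl.image h1), fun x => ?_⟩
  constructor
  · rintro ⟨W, _, h3, h4⟩
    obtain ⟨m, hm, _⟩ := h3 0
    have hfs : (fs (cfs {Nat.pair 0 m}) : Set ℕ) ⊆ W := by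
      rw [fs_cfs]; simpa using hm
    have hj : (Nat.unpair m).1 ∈ z := by
      by_contra hj
      obtain ⟨j', hj'⟩ := exists_Iv x
      refine h4 (Nat.pair j' (cfs {Nat.pair 0 m})) (Or.inr ⟨(Nat.unpair m).1, hj, ?_⟩)
        ⟨by simpa using hj', by simpa using hm⟩
      exact ⟨j', (Nat.unpair m).2, by simp⟩
    have hC : x ∈ Cl m := by
      by_contra hC
      obtain ⟨j', hj', hd⟩ := exists_Iv_disjoint (isClosed_Cl m) hC
      exact h4 (Nat.pair j' (cfs {Nat.pair 0 m})) (Or.inl ⟨j', m, rfl, hd⟩)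
        ⟨by simpa using hj', by simpa using hm⟩
    simp only [Op', Set.mem_iUnion]
    exact ⟨_, hj, Cl_subset m hC⟩
  · intro hx
    simp only [Op', Set.mem_iUnion] at hx
    obtain ⟨j, hj, hx⟩ := hx
    obtain ⟨k, hk⟩ := exists_Cl hx
    refine ⟨gr0 (Nat.pair j k), PM_gr0 hs _, isGraph_gr0 _, ?_⟩
    rintro t ht ⟨h5, h6⟩
    rcases ht with ⟨j', m', rfl, hd⟩ | ⟨j0, hj0, j', k', he⟩
    · simp only [Nat.unpair_pair, fs_cfs, Finset.coe_singleton, Set.singleton_subset_iff] at h5 h6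
      rcases mem_gr0.1 h6 with ⟨_, h7⟩ | ⟨h7, _⟩
      · rw [h7] at hd
        exact Set.disjoint_left.1 hd h5 hk
      · exact h7 rfl
    · simp only [Nat.unpair_pair] at he
      subst he
      simp only [Nat.unpair_pair, fs_cfs, Finset.coe_singleton, Set.singleton_subset_iff] at h5 h6
      rcases mem_gr0.1 h6 with ⟨_, h7⟩ | ⟨h7, _⟩
      · rw [Nat.pair_eq_pair] at h7
        rw [h7.1] at hj0
        exact hj0 hj
      · exact h7 rfl

theorem shF_pair (k v : ℕ) : shF (Nat.pair k v) = Nat.pair (k + 1) v := by simp [shF]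

/-- countable unions -/
theorem isS_union (hT : T4 ⊆ 𝒯) {Z : N.M → Set ℕ} (hZ : N.IFam N.om Z) :
    ∃ S, N.PM S ∧ ∀ x, N.Sus S x ↔ ∃ n, N.Sus (Z (N.nat n)) x := by
  have hf : fstT ∈ 𝒯 := hT (by simp [T4])
  have hs : sndT ∈ 𝒯 := hT (by simp [T4])
  have hu : imT unF ∈ 𝒯 := hT (by simp [T4])
  have hsh : preT shF ∈ 𝒯 := hT (by simp [T4])
  have hsh' : imT shF ∈ 𝒯 := hT (by simp [T4])
  refine ⟨unF '' _, (flatten hZ hf hs).imageFun hu, fun x => ?_⟩
  constructor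
  · rintro ⟨W, hW, h3, h4⟩
    obtain ⟨n, hn, _⟩ := h3 0
    refine ⟨n, shF ⁻¹' W, hW.preFun hsh, ?_, ?_⟩
    · intro k
      obtain ⟨v, hv, hu⟩ := h3 (k + 1)
      refine ⟨v, ?_, fun v' hv' => hu v' ?_⟩
      · show shF _ ∈ W
        rw [shF_pair]; exact hv
      · have : shF (Nat.pair k v') ∈ W := hv'
        rwa [shF_pair] at this
    · intro t ht ⟨h5, h6⟩
      refine h4 (unF (Nat.pair n t)) ⟨Nat.pair n t, by simpa using ht, rfl⟩ ⟨?_, ?_⟩
      · simpa [unF] using h5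
      · simp only [unF, Nat.unpair_pair, fs_cfs, Finset.coe_union, Finset.coe_singleton,
          Finset.coe_image, Set.union_subset_iff, Set.singleton_subset_iff, Set.image_subset_iff]
        exact ⟨hn, h6⟩
  · rintro ⟨n, W, hW, h3, h4⟩
    refine ⟨{Nat.pair 0 n} ∪ shF '' W, (PM.singleton _).union (hW.imageFun hsh'), ?_, ?_⟩
    · have key : ∀ k v, Nat.pair k v ∈ ({Nat.pair 0 n} ∪ shF '' W : Set ℕ) ↔
          (k = 0 ∧ v = n) ∨ ∃ k', k = k' + 1 ∧ Nat.pair k' v ∈ W := by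
        intro k v
        simp only [Set.mem_union, Set.mem_singleton_iff, Nat.pair_eq_pair, Set.mem_image]
        refine or_congr Iff.rfl ⟨?_, ?_⟩
        · rintro ⟨u, hu, he⟩
          rw [shF, Nat.pair_eq_pair] at he
          refine ⟨(Nat.unpair u).1, he.1.symm, ?_⟩
          rw [← he.2, Nat.pair_unpair]; exact hu
        · rintro ⟨k', rfl, h⟩
          exact ⟨_, h, shF_pair _ _⟩
      intro k
      cases k with
      | zero =>
        refine ⟨n, (key _ _).2 (Or.inl ⟨rfl, rfl⟩), fun v hv => ?_⟩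
        rcases (key _ _).1 hv with h | ⟨k', h, _⟩
        · exact h.2
        · omega
      | succ k =>
        obtain ⟨v, hv, hu⟩ := h3 k
        refine ⟨v, (key _ _).2 (Or.inr ⟨k, rfl, hv⟩), fun v' hv' => ?_⟩
        rcases (key _ _).1 hv' with h | ⟨k', h, h'⟩
        · omega
        · have : k = k' := by omega
          subst this
          exact hu v' h'
    · rintro _ ⟨p, hp, rfl⟩ ⟨h5, h6⟩
      simp only [unF, Nat.unpair_pair, fs_cfs, Finset.coe_union, Finset.coe_singleton,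
        Finset.coe_image, Set.union_subset_iff, Set.singleton_subset_iff,
        Set.image_subset_iff] at h5 h6
      have e : (Nat.unpair p).1 = n := by
        rcases h6.1 with h | ⟨u, hu, he⟩
        · exact (Nat.pair_eq_pair.1 h).2
        · rw [shF, Nat.pair_eq_pair] at he
          omega
      have hp' : (Nat.unpair p).2 ∈ Z (N.nat n) := by
        rw [← e]; exact hp
      refine h4 _ hp' ⟨h5, fun u hu => ?_⟩
      have h7 := h6.2 hu
      rcases h7 with h | ⟨u', hu', he⟩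
      · rw [shF] at h
        have := (Nat.pair_eq_pair.1 h).1
        omega
      · rw [shF, shF, Nat.pair_eq_pair] at he
        have : u' = u := by
          rw [← Nat.pair_unpair u, ← Nat.pair_unpair u', he.2]
          congr 1
          omega
        rw [← this]; exact hu'

theorem coF_inj {n n' u u' : ℕ} (h : coF n u = coF n' u') : n = n' ∧ u = u' := by
  simp only [coF, Nat.pair_eq_pair] at h
  refine ⟨h.1.1, ?_⟩
  rw [← Nat.pair_unpair u, ← Nat.pair_unpair u', h.1.2, h.2]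

/-- formula: `W` is a witness for `c` and the code `f(i)` -/
def f4WitF {N : Type v} {Ω : Type w} (L : LogicStr N Ω) (om gf gs gm gl gr f c i W : N) : Ω :=
  L.ex fun S => L.and (fRel L f i S) (f4Wit L om gf gs gm gl gr S W c)

/-- countable intersections -/
theorem isS_inter (hT : T4 ⊆ 𝒯) {Z : N.M → Set ℕ} (hZ : N.IFam N.om Z) :
    ∃ S, N.PM S ∧ ∀ c x, N.Cd c x → (N.Sus S x ↔ ∀ n, N.Sus (Z (N.nat n)) x) := by
  have hf : fstT ∈ 𝒯 := hT (by simp [T4])
  have hs : sndT ∈ 𝒯 := hT (by simp [T4])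
  have hi : imT inF ∈ 𝒯 := hT (by simp [T4])
  have hra : preT raF ∈ 𝒯 := hT (by simp [T4])
  have hco : ∀ n, preT (coF n) ∈ 𝒯 := fun n => hT (Or.inr ⟨n, rfl⟩)
  obtain ⟨gf, hgf⟩ := exists_CR (N := N) hf
  obtain ⟨gs, hgs⟩ := exists_CR (N := N) hs
  obtain ⟨gm, hgm⟩ := exists_CR (N := N) (T := gmT) (hT (by simp [T4]))
  obtain ⟨gl, hgl⟩ := exists_CR (N := N) (T := glT) (hT (by simp [T4]))
  obtain ⟨gr, hgr⟩ := exists_CR (N := N) (T := grT) (hT (by simp [T4]))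
  have hSC : N.SC gf gs gm gl gr := ⟨hgf, hgs, hgm, hgl, hgr⟩
  refine ⟨inF '' _, (flatten hZ hf hs).imageFun hi, fun c x hc => ?_⟩
  constructor
  · rintro ⟨W, hW, h3, h4⟩ n
    refine ⟨coF n ⁻¹' W, hW.preFun (hco n), ?_, ?_⟩
    · intro k
      obtain ⟨v, hv, hu⟩ := h3 (Nat.pair n k)
      refine ⟨v, ?_, fun v' hv' => hu v' ?_⟩
      · show coF n _ ∈ W
        simpa [coF] using hv
      · have : coF n (Nat.pair k v') ∈ W := hv'
        simpa [coF] using this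
    · intro t ht ⟨h5, h6⟩
      refine h4 (inF (Nat.pair n t)) ⟨Nat.pair n t, by simpa using ht, rfl⟩ ⟨?_, ?_⟩
      · simpa [inF] using h5
      · simp only [inF, Nat.unpair_pair, fs_cfs, Finset.coe_image, Set.image_subset_iff]
        exact h6
  · intro h
    obtain ⟨p, hp⟩ := exists_pow_om (N := N)
    obtain ⟨f, hf1, hf2⟩ := hZ.toFun hp
    have hch := choice_fam (N := N) (pairCode (fun i W =>
        f4WitF codeStr 1 2 3 4 5 6 7 8 i W) 20) (asn c [N.om, gf, gs, gm, gl, gr, f, c])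
      (P := fun i W => ∃ S, Rel N.E f i S ∧ f4Wit (propStr N.E) N.om gf gs gm gl gr S W c)
      (fun x => Iff.rfl) N.om (by
        intro i hi
        obtain ⟨n, rfl⟩ := (N.E_om i).1 hi
        obtain ⟨S, hS, _⟩ := hf1.2 _ hi
        obtain ⟨_, hS1, hS2⟩ := (hf2 _ _).1 hS
        obtain ⟨W, ⟨w, hw, rfl⟩, h3, h4⟩ := h n
        refine ⟨w, hw, S, hS, (wit_iff hSC hS1 hc).2 ⟨hw, h3, ?_⟩⟩
        rw [hS2]; exact h4)
    obtain ⟨V, hV, hV2⟩ := hch
    have hV3 : ∀ n, IsGraph (V (N.nat n)) ∧ Avoid (Z (N.nat n)) (V (N.nat n)) x := by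
      intro n
      obtain ⟨w, hw1, hw2, S, hS, hS'⟩ := hV2 (N.nat n) (N.nat_om n)
      obtain ⟨_, hS1, hS2⟩ := (hf2 _ _).1 hS
      obtain ⟨_, h3, h4⟩ := (wit_iff hSC hS1 hc).1 hS'
      rw [hw2] at h3 h4
      rw [hS2] at h4
      exact ⟨h3, h4⟩
    have hFl : N.PM (raF ⁻¹' {p | (Nat.unpair p).2 ∈ V (N.nat (Nat.unpair p).1)}) :=
      (flatten hV hf hs).preFun hra
    have hmem : ∀ n k v, Nat.pair (Nat.pair n k) v ∈ raF ⁻¹' {p | (Nat.unpair p).2 ∈
        V (N.nat (Nat.unpair p).1)} ↔ Nat.pair k v ∈ V (N.nat n) := by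
      intro n k v
      rw [Set.mem_preimage, Set.mem_ofPred_eq]
      simp only [raF, Nat.unpair_pair]
    generalize raF ⁻¹' {p | (Nat.unpair p).2 ∈ V (N.nat (Nat.unpair p).1)} = G at hFl hmem
    refine ⟨G, hFl, ?_, ?_⟩
    · intro m
      obtain ⟨v, hv, hu⟩ := (hV3 (Nat.unpair m).1).1 (Nat.unpair m).2
      refine ⟨v, ?_, fun v' hv' => hu v' ?_⟩
      · have := (hmem (Nat.unpair m).1 (Nat.unpair m).2 v).2 hv
        rwa [Nat.pair_unpair] at this
      · have hv'' : Nat.pair (Nat.pair (Nat.unpair m).1 (Nat.unpair m).2) v' ∈ G := by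
          rw [Nat.pair_unpair]; exact hv'
        exact (hmem _ _ _).1 hv''
    · rintro _ ⟨p, hp, rfl⟩ ⟨h5, h6⟩
      simp only [inF, Nat.unpair_pair, fs_cfs, Finset.coe_image, Set.image_subset_iff] at h5 h6
      refine (hV3 (Nat.unpair p).1).2 _ hp ⟨h5, fun u hu => ?_⟩
      have h7 := h6 hu
      have h8 : Nat.pair (Nat.pair (Nat.unpair p).1 (Nat.unpair u).1) (Nat.unpair u).2 ∈ G := h7
      rw [hmem, Nat.pair_unpair] at h8
      exact h8

end Nice

end Pool.Agent.H83.F
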