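import Pool.Agent.H83.F.D3

/-!
# D5: Suslin sets with `ω₁` elements contain further points
-/

universe v w

set_option linter.unusedSectionVars false
set_option linter.unusedVariables false

open MeasureTheory

namespace Pool.Agent.H83.F

open Pool.Agent.H86

/-- the closed rational interval with code `j` -/
def Ivc (j : ℕ) : Set ℝ := Set.Icc ((iv j).1 : ℝ) ((iv j).2 : ℝ)

/-- `{(τ, n) | n ∈ fs τ}` -/
def gmR : Set ℕ := {p | (Nat.unpair p).2 ∈ fs (Nat.unpair p).1}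

/-- `{(j, m) | qd m < l_j}` -/
def llR : Set ℕ := {p | qd (Nat.unpair p).2 < (iv (Nat.unpair p).1).1}

/-- `{(j, m) | qd m = r_j}` -/
def reR : Set ℕ := {p | qd (Nat.unpair p).2 = (iv (Nat.unpair p).1).2}

/-- the node `ν'` extends the node `ν` -/
def NExt (ν' ν : ℕ) : Prop := Ivc (Nat.unpair ν').1 ⊆ Iv (Nat.unpair ν).1 ∧
  fs (Nat.unpair ν).2 ⊆ fs (Nat.unpair ν').2

/-- `{(ν', ν) | ν' extends ν}` -/
def bbT : Set ℕ := {p | NExt (Nat.unpair p).1 (Nat.unpair p).2}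

/-- the node `ν` decides the value at `n` and has length less than `1 / (n + 1)` -/
def NDec (n ν : ℕ) : Prop := ((iv (Nat.unpair ν).1).2 : ℝ) - (iv (Nat.unpair ν).1).1 < 1 / (n + 1) ∧
  ∃ v, Nat.pair n v ∈ fs (Nat.unpair ν).2

/-- `{(n, ν) | ν decides n}` -/
def dnT : Set ℕ := {p | NDec (Nat.unpair p).1 (Nat.unpair p).2}

/-- `{(n, ν) | qd n < l_ν}` -/
def lnT : Set ℕ := {p | qd (Nat.unpair p).1 < (iv (Nat.unpair (Nat.unpair p).2).1).1}

/-- `{(t, ν) | t ∈ fs ν}` -/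
def wnT : Set ℕ := {p | (Nat.unpair p).1 ∈ fs (Nat.unpair (Nat.unpair p).2).2}

/-- The constants for the Cohen real argument. -/
def T5a : Set (Set ℕ) := T3 ∪ {gmR, llR, reR, bbT, dnT, lnT, wnT}

theorem T5a_countable : T5a.Countable := T3_countable.union (Set.Finite.countable (Set.toFinite _))

theorem T3_sub_T5a : T3 ⊆ T5a := Set.subset_union_left

section Formulas

variable {N : Type v} {Ω : Type w} (L : LogicStr N Ω)

/-- the node `ν` is big -/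
def f5Big (w1 X gd ν : N) : Ω :=
  L.all fun b => L.imp (L.mem b w1) (L.ex fun i => L.and (L.mem i X)
    (L.and (fRel L gd i ν) (L.imp (L.mem i b) L.bot)))

/-- `b` bounds the indices that are good for `ν` -/
def f5Bd (F X gd ν b : N) : Ω :=
  L.or (L.mem ν F) (L.all fun i => L.imp (L.mem i X) (L.imp (fRel L gd i ν) (L.mem i b)))

/-- the dense sets -/
def f5D (X gc om gn i ν : N) : Ω :=
  L.and (L.imp (L.mem i X) (L.imp (fRel L gc i ν) L.bot)) (L.imp (L.mem i om) (fRel L gn i ν))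

/-- `W` is a witness for the `i`-th point -/
def f5Wit (om gf gs gm gl gr S xf i W : N) : Ω :=
  L.ex fun c => L.and (fRel L xf i c) (f4Wit L om gf gs gm gl gr S W c)

end Formulas

namespace Nice

variable {𝒯 : Set (Set ℕ)} {N : Nice 𝒯}

theorem mem_Iv_fam (x : ℝ) : {j | x ∈ Iv j} =
    {j | ∃ m ∈ cut x, Nat.pair j m ∈ glR} ∩ {j | ∃ m ∈ (cut x)ᶜ, Nat.pair j m ∈ grR} := by
  ext j
  rw [Set.mem_ofPred_eq, mem_Iv_iff]
  refine and_congr ⟨?_, ?_⟩ ⟨?_, ?_⟩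
  · rintro ⟨m, h1, h2⟩; exact ⟨m, h2, by simpa [glT, glR] using h1⟩
  · rintro ⟨m, h1, h2⟩; exact ⟨m, by simpa [glT, glR] using h2, h1⟩
  · rintro ⟨m, h1, h2⟩; exact ⟨m, h2, by simpa [grT, grR] using h1⟩
  · rintro ⟨m, h1, h2⟩; exact ⟨m, by simpa [grT, grR] using h2, h1⟩

theorem mem_Ivc_fam (x : ℝ) : {j | x ∈ Ivc j} =
    {j | ∃ m ∈ (cut x)ᶜ, Nat.pair j m ∈ llR}ᶜ ∩ {j | ∃ m ∈ (cut x)ᶜ, Nat.pair j m ∈ reR} := by
  ext j
  refine and_congr ⟨?_, ?_⟩ ⟨?_, ?_⟩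
  · rintro h ⟨m, h1, h2⟩
    have h3 : qd m < (iv j).1 := by simpa [llR] using h2
    have h4 : x ≤ qd m := not_lt.1 h1
    have h5 : (qd m : ℝ) < (iv j).1 := by exact_mod_cast h3
    linarith
  · intro h
    by_contra hc
    obtain ⟨q, h3, h4⟩ := exists_rat_btwn (not_le.1 hc)
    obtain ⟨m, rfl⟩ := qd_surj q
    refine h ⟨m, not_lt.2 h3.le, ?_⟩
    have : qd m < (iv j).1 := by exact_mod_cast h4
    simpa [llR] using this
  · intro h
    obtain ⟨m, hm⟩ := qd_surj (iv j).2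
    refine ⟨m, ?_, by simpa [reR] using hm⟩
    show ¬ ((qd m : ℝ) < x)
    rw [hm]; exact not_lt.2 h
  · rintro ⟨m, h1, h2⟩
    have h3 : qd m = (iv j).2 := by simpa [reR] using h2
    have h4 : x ≤ qd m := not_lt.1 h1
    rwa [h3] at h4

theorem mem_fs_fam (W : Set ℕ) : {τ | (fs τ : Set ℕ) ⊆ W} =
    {τ | ∃ n ∈ Wᶜ, Nat.pair τ n ∈ gmR}ᶜ := by
  ext τ
  constructor
  · rintro h ⟨n, h1, h2⟩
    have h3 : n ∈ fs τ := by simpa [gmR] using h2
    exact h1 (h h3)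
  · intro h n hn
    by_contra hc
    exact h ⟨n, hc, by simpa [gmR] using hn⟩

/-- External node extension. -/
theorem exists_node {x y : ℝ} (hxy : x ≠ y) {W : Set ℕ} (hW : IsGraph W) {ν : ℕ}
    (h1 : x ∈ Iv (Nat.unpair ν).1) (h2 : (fs (Nat.unpair ν).2 : Set ℕ) ⊆ W) (n : ℕ) :
    ∃ ν', x ∈ Iv (Nat.unpair ν').1 ∧ (fs (Nat.unpair ν').2 : Set ℕ) ⊆ W ∧ NExt ν' ν ∧
      y ∉ Ivc (Nat.unpair ν').1 ∧ NDec n ν' := by
  obtain ⟨v, hv, _⟩ := hW n
  obtain ⟨ha, hb⟩ := h1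
  have hpos : (0 : ℝ) < 1 / (n + 1) := by positivity
  have habs : 0 < |x - y| := abs_pos.2 (sub_ne_zero.2 hxy)
  obtain ⟨ε, hε, h3, h4, h5, h6⟩ : ∃ ε > 0, ε ≤ x - (iv (Nat.unpair ν).1).1 ∧
      ε ≤ (iv (Nat.unpair ν).1).2 - x ∧ ε ≤ |x - y| ∧ 2 * ε ≤ 1 / (n + 1) := by
    refine ⟨min (min (x - (iv (Nat.unpair ν).1).1) ((iv (Nat.unpair ν).1).2 - x))
      (min |x - y| (1 / (n + 1) / 2)), ?_, ?_, ?_, ?_, ?_⟩
    · refine lt_min (lt_min (by linarith) (by linarith)) (lt_min habs (by linarith))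
    · exact (min_le_left _ _).trans (min_le_left _ _)
    · exact (min_le_left _ _).trans (min_le_right _ _)
    · exact (min_le_right _ _).trans (min_le_left _ _)
    · have := (min_le_right (min (x - (iv (Nat.unpair ν).1).1) ((iv (Nat.unpair ν).1).2 - x))
        (min |x - y| (1 / (n + 1) / 2))).trans (min_le_right _ _)
      linarith
  obtain ⟨a, ha1, ha2⟩ := exists_rat_btwn (show x - ε < x by linarith)
  obtain ⟨b, hb1, hb2⟩ := exists_rat_btwn (show x < x + ε by linarith)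
  obtain ⟨j', hj'⟩ := iv_surj (a, b)
  obtain ⟨τ', hτ'⟩ := fs_surj (fs (Nat.unpair ν).2 ∪ {Nat.pair n v})
  refine ⟨Nat.pair j' τ', ?_, ?_, ⟨?_, ?_⟩, ?_, ?_, v, ?_⟩
  · rw [Nat.unpair_pair, Iv, hj']; exact ⟨ha2, hb1⟩
  · rw [Nat.unpair_pair, hτ']
    simp only [Finset.coe_union, Finset.coe_singleton, Set.union_subset_iff,
      Set.singleton_subset_iff]
    exact ⟨h2, hv⟩
  · rw [Nat.unpair_pair, Ivc, hj']
    rintro u ⟨hu1, hu2⟩
    simp only at hu1 hu2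
    exact ⟨by linarith, by linarith⟩
  · rw [Nat.unpair_pair, hτ']; exact Finset.subset_union_left
  · rw [Nat.unpair_pair, Ivc, hj']
    rintro ⟨hu1, hu2⟩
    simp only at hu1 hu2
    have : |x - y| < ε := by
      rw [abs_lt]
      constructor <;> linarith
    linarith
  · rw [Nat.unpair_pair, hj']
    simp only
    linarith
  · rw [Nat.unpair_pair, hτ']
    simp

theorem exists_fn {f a b : N.M} (h : IsFun N.E f a b) :
    ∃ F : N.M → N.M, ∀ i, N.E i a → N.E (F i) b ∧ ∀ y, Rel N.E f i y ↔ y = F i := by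
  classical
  refine ⟨fun i => if hi : N.E i a then (h.2 i hi).choose else i, fun i hi => ?_⟩
  have h1 := (h.2 i hi).choose_spec
  simp only [hi, dite_true]
  refine ⟨(IsFun.mem N.zf h h1.1).2, fun y => ⟨fun hy => h1.2 y hy, ?_⟩⟩
  rintro rfl
  exact h1.1

theorem w1_of_om {x : N.M} (h : N.E x N.om) : N.E x N.w1 := N.om_w1 x h

/-- Bounds in `ω₁`. -/
theorem exists_bound {b i : N.M} (hb : N.E b N.w1) (hi : N.E i N.w1) :
    ∃ c, N.E c N.w1 ∧ ∀ x, ¬ N.E x c → ¬ N.E x b ∧ x ≠ i := by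
  obtain ⟨y, hy, hiy⟩ := N.w1_lim i hi
  rcases lt_or_eq_or_gt (N.w1_w2 _ hb) (N.w1_w2 _ hy) with h | h | h
  · refine ⟨y, hy, fun x hx => ⟨fun h1 => hx (N.w2_ord y (N.w1_w2 _ hy) b h x h1), ?_⟩⟩
    rintro rfl
    exact hx hiy
  · refine ⟨b, hb, fun x hx => ⟨hx, ?_⟩⟩
    rintro rfl
    rw [h] at hx
    exact hx hiy
  · refine ⟨b, hb, fun x hx => ⟨hx, ?_⟩⟩
    rintro rfl
    exact hx (N.w2_ord b (N.w1_w2 _ hb) y h x hiy)

/-- A Suslin set containing an injective `ω₁`-sequence contains a further point, which is in the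
closure. -/
theorem cohen_point (hT : T5a ⊆ 𝒯) {R A T L : N.M} (hR : N.Reals R A T L) {xf : N.M}
    (hxf : IsFun N.E xf N.w1 R) {r : N.M → ℝ}
    (hr : ∀ i c, N.E i N.w1 → (Rel N.E xf i c ↔ N.Cd c (r i)))
    (hinj : ∀ i k, N.E i N.w1 → N.E k N.w1 → i ≠ k → r i ≠ r k) {X : N.M}
    (hX : Sub N.E X N.w1) (hXu : ∀ k, N.E k N.w1 → ∃ i, N.E i X ∧ N.E k i) {S : Set ℕ}
    (hS : N.PM S) (hSus : ∀ i, N.E i X → N.Sus S (r i)) :
    ∃ x, N.PM (cut x) ∧ N.Sus S x ∧ (∀ i, N.E i X → x ≠ r i) ∧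
      ∀ C : Set ℝ, IsClosed C → (∀ i, N.E i X → r i ∈ C) → x ∈ C := by
  have hT3 : T3 ⊆ 𝒯 := T3_sub_T5a.trans hT
  have hT4 : T4 ⊆ 𝒯 := T4_sub_T3.trans hT3
  have hf : fstT ∈ 𝒯 := hT4 (by simp [T4])
  have hs : sndT ∈ 𝒯 := hT4 (by simp [T4])
  have hglR : glR ∈ 𝒯 := hT4 (by simp [T4])
  have hgrR : grR ∈ 𝒯 := hT4 (by simp [T4])
  have hgmR : gmR ∈ 𝒯 := hT (by simp [T5a])
  have hllR : llR ∈ 𝒯 := hT (by simp [T5a])
  have hreR : reR ∈ 𝒯 := hT (by simp [T5a])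
  obtain ⟨gf, gs, gm, gl, gr, hSC⟩ := exists_SC (N := N) hT4
  obtain ⟨B, hB⟩ := exists_CR (N := N) (T := bbT) (hT (by simp [T5a]))
  obtain ⟨gn, hgn⟩ := exists_CR (N := N) (T := dnT) (hT (by simp [T5a]))
  obtain ⟨S, hSo, rfl⟩ := hS
  have hex : ∀ i, N.E i N.w1 → ∃ c, Rel N.E xf i c ∧ N.Cd c (r i) := by
    intro i hi
    obtain ⟨c, hc, _⟩ := hxf.2 i hi
    exact ⟨c, hc, (hr i c hi).1 hc⟩
  -- witnesses
  obtain ⟨W, hW, hW2⟩ := choice_fam (N := N) (pairCode (fun i W =>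
      f5Wit codeStr 1 2 3 4 5 6 7 8 i W) 20) (asn R [N.om, gf, gs, gm, gl, gr, S, xf])
    (P := fun i W => ∃ c, Rel N.E xf i c ∧ f4Wit (propStr N.E) N.om gf gs gm gl gr S W c)
    (fun x => Iff.rfl) X (by
      intro i hi
      obtain ⟨c, hc, hc'⟩ := hex i (hX i hi)
      obtain ⟨_, ⟨w, hw, rfl⟩, h3, h4⟩ := hSus i hi
      exact ⟨w, hw, c, hc, (wit_iff hSC hSo hc').2 ⟨hw, h3, h4⟩⟩)
  have hW3 : ∀ i, N.E i X → IsGraph (W i) ∧ Avoid (N.val S) (W i) (r i) := by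
    intro i hi
    obtain ⟨w, hw1, hw2, c, hc, hc'⟩ := hW2 i hi
    obtain ⟨_, h3, h4⟩ := (wit_iff hSC hSo ((hr i c (hX i hi)).1 hc)).1 hc'
    rw [hw2] at h3 h4
    exact ⟨h3, h4⟩
  -- the family of cuts
  have hcut : N.IFam N.w1 (fun i => cut (r i)) := by
    refine (IFam.ofFun hxf).congr fun i hi => ?_
    obtain ⟨c, hc, hc'⟩ := hex i hi
    ext n
    constructor
    · rintro ⟨y, hy, hny⟩
      have h1 := (hr i y hi).1 hy
      rw [← h1.2]; exact hny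
    · intro hn
      refine ⟨c, hc, ?_⟩
      rw [← hc'.2] at hn; exact hn
  have hIv : N.IFam N.w1 (fun i => {j | r i ∈ Iv j}) := by
    refine ((hcut.image hglR).inter (hcut.compl.image hgrR)).congr fun i _ => ?_
    exact (mem_Iv_fam (r i)).symm
  have hIvc : N.IFam N.w1 (fun i => {j | r i ∈ Ivc j}) := by
    refine ((hcut.compl.image hllR).compl.inter (hcut.compl.image hreR)).congr fun i _ => ?_
    exact (mem_Ivc_fam (r i)).symm
  have hfsW : N.IFam X (fun i => {τ | (fs τ : Set ℕ) ⊆ W i}) := by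
    refine (hW.compl.image hgmR).compl.congr fun i _ => ?_
    exact (mem_fs_fam (W i)).symm
  obtain ⟨gd, hgd⟩ := ((hIv.mono hX).fst hf).inter (hfsW.snd hs)
  have hgd' : ∀ i, N.E i X → ∀ ν, Rel N.E gd i (N.nat ν) ↔ (r i ∈ Iv (Nat.unpair ν).1 ∧
      (fs (Nat.unpair ν).2 : Set ℕ) ⊆ W i) := fun i hi ν => hgd i hi ν
  obtain ⟨gc, hgc⟩ := hIvc.fst hf
  have hgc' : ∀ i, N.E i N.w1 → ∀ ν, Rel N.E gc i (N.nat ν) ↔ r i ∈ Ivc (Nat.unpair ν).1 :=
    fun i hi ν => hgc i hi ν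
  obtain ⟨F, hF⟩ := sep_of N.zf (f5Big codeStr 1 2 3 0 10) (asn R [N.w1, X, gd])
    (P := fun ν => f5Big (propStr N.E) N.w1 X gd ν) (fun x => Iff.rfl) N.om
  have hF' : ∀ ν, N.E (N.nat ν) F ↔ ∀ b, N.E b N.w1 → ∃ i, N.E i X ∧
      (r i ∈ Iv (Nat.unpair ν).1 ∧ (fs (Nat.unpair ν).2 : Set ℕ) ⊆ W i) ∧ ¬ N.E i b := by
    intro ν
    rw [hF]
    constructor
    · rintro ⟨_, h⟩ b hb
      obtain ⟨i, h1, h2, h3⟩ := h b hb
      exact ⟨i, h1, (hgd' i h1 ν).1 h2, h3⟩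
    · intro h
      refine ⟨N.nat_om ν, fun b hb => ?_⟩
      obtain ⟨i, h1, h2, h3⟩ := h b hb
      exact ⟨i, h1, (hgd' i h1 ν).2 h2, h3⟩
  obtain ⟨D, _, hD⟩ := exists_rel N.zf (pairCode (fun i ν =>
      f5D codeStr 1 2 3 4 i ν) 20) (asn R [X, gc, N.om, gn])
      (P := fun i ν => f5D (propStr N.E) X gc N.om gn i ν) (fun x => Iff.rfl) N.w1 N.om
  have hD' : ∀ i, N.E i N.w1 → ∀ ν, Rel N.E D i (N.nat ν) ↔
      ((N.E i X → r i ∉ Ivc (Nat.unpair ν).1) ∧ ∀ n, i = N.nat n → NDec n ν) := by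
    intro i hi ν
    rw [hD]
    constructor
    · rintro ⟨_, _, h1, h2⟩
      refine ⟨fun h3 h4 => h1 h3 ((hgc' i hi ν).2 h4), ?_⟩
      rintro n rfl
      have := hgn.nat.1 (h2 (N.nat_om n))
      simpa [dnT] using this
    · rintro ⟨h1, h2⟩
      refine ⟨hi, N.nat_om ν, fun h3 h4 => h1 h3 ((hgc' i hi ν).1 h4), fun h3 => ?_⟩
      obtain ⟨n, rfl⟩ := (N.E_om i).1 h3
      exact hgn.nat.2 (by simpa [dnT] using h2 n rfl)
  have hB' : ∀ ν' ν, Rel N.E B (N.nat ν') (N.nat ν) ↔ NExt ν' ν := by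
    intro ν' ν
    rw [hB.nat]
    simp [bbT]
  have h0w1 : N.E (N.nat 0) N.w1 := N.om_w1 _ (N.nat_om 0)
  -- bounds
  obtain ⟨h, hh1, hh2⟩ := choice_of N.zfc (pairCode (fun ν b =>
      f5Bd codeStr 1 2 3 ν b) 20) (asn R [F, X, gd])
      (P := fun ν b => f5Bd (propStr N.E) F X gd ν b) (fun x => Iff.rfl) N.om N.w1 (by
        intro ν' hν'
        obtain ⟨ν, rfl⟩ := (N.E_om ν').1 hν'
        by_cases hν : N.E (N.nat ν) F
        · exact ⟨N.nat 0, h0w1, Or.inl hν⟩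
        · have h1 := hν
          rw [hF'] at h1
          have h2 : ∃ b, N.E b N.w1 ∧ ¬ ∃ i, N.E i X ∧ (r i ∈ Iv (Nat.unpair ν).1 ∧
              (fs (Nat.unpair ν).2 : Set ℕ) ⊆ W i) ∧ ¬ N.E i b := by
            by_contra h3
            refine h1 fun b hb => ?_
            by_contra h4
            exact h3 ⟨b, hb, h4⟩
          obtain ⟨b, hb, h3⟩ := h2
          refine ⟨b, hb, Or.inr fun i hi hi' => ?_⟩
          by_contra h4
          exact h3 ⟨i, hi, (hgd' i hi ν).1 hi', h4⟩)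
  obtain ⟨bb, hbb, hbb'⟩ := N.reg1 h hh1
  have hdense : ∀ i, N.E i N.w1 → ∀ ν, N.E (N.nat ν) F → ∃ ν', N.E (N.nat ν') F ∧
      Rel N.E B (N.nat ν') (N.nat ν) ∧ Rel N.E D i (N.nat ν') := by
    intro i hi ν hν
    obtain ⟨b, hb, hb'⟩ := exists_bound hbb hi
    obtain ⟨i', h1, ⟨h2, h3⟩, h4⟩ := (hF' ν).1 hν b hb
    obtain ⟨h5, h6⟩ := hb' i' h4
    obtain ⟨n, hn⟩ : ∃ n, ∀ m, i = N.nat m → m = n := by
      by_cases h : ∃ n, i = N.nat n
      · obtain ⟨n, hn⟩ := h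
        exact ⟨n, fun m hm => N.nat_inj (hm.symm.trans hn)⟩
      · exact ⟨0, fun m hm => (h ⟨m, hm⟩).elim⟩
    obtain ⟨ν', h7, h8, h9, h10, h11⟩ := exists_node (hinj i' i (hX i' h1) hi h6) (hW3 i' h1).1
      h2 h3 n
    refine ⟨ν', ?_, (hB' _ _).2 h9, (hD' i hi ν').2 ⟨fun _ => h10, fun m hm => ?_⟩⟩
    · by_contra hc
      obtain ⟨b', hb1, _⟩ := hh1.2 _ (N.nat_om ν')
      rcases hh2 _ _ hb1 with h12 | h12
      · exact hc h12
      · have h13 : N.E i' b' := h12 i' h1 ((hgd' i' h1 ν').2 ⟨h7, h8⟩)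
        exact h5 (N.w2_ord bb (N.w1_w2 _ hbb) b' (hbb' _ _ hb1) i' h13)
    · rw [hn m hm]; exact h11
  -- `F` is not empty
  have hFne : ∃ n, N.E (N.nat n) F := by
    by_contra hFe
    -- all nodes are small: then some index is not good for any node
    obtain ⟨i, hi, hi'⟩ := hXu bb hbb
    obtain ⟨j, hj⟩ := exists_Iv (r i)
    have h1 : N.E (N.nat (Nat.pair j (cfs ∅))) F ∨ ¬ N.E (N.nat (Nat.pair j (cfs ∅))) F := em _
    obtain ⟨b', hb1, _⟩ := hh1.2 _ (N.nat_om (Nat.pair j (cfs ∅)))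
    rcases hh2 _ _ hb1 with h12 | h12
    · exact hFe ⟨_, h12⟩
    · have h13 : N.E i b' := h12 i hi ((hgd' i hi _).2 ⟨by simpa using hj, by simp⟩)
      have h14 : N.E i bb := N.w2_ord bb (N.w1_w2 _ hbb) b' (hbb' _ _ hb1) i h13
      exact not_mem_mem N.zf hi' h14
  obtain ⟨g, ⟨γ, hγ⟩, hg1, hg2, hg3⟩ := N.cohenP F B D hFne (by
    intro i hi n hn
    obtain ⟨ν', h1, h2, h3⟩ := hdense i hi n hn
    exact ⟨ν', h1, h2, h3⟩)
  have hgood : ∀ k, ∃ i, N.E i X ∧ r i ∈ Iv (Nat.unpair (g k)).1 ∧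
      (fs (Nat.unpair (g k)).2 : Set ℕ) ⊆ W i := by
    intro k
    obtain ⟨i, h1, h2, _⟩ := (hF' _).1 (hg1 k) _ h0w1
    exact ⟨i, h1, h2⟩
  have hext : ∀ k, NExt (g (k + 1)) (g k) := fun k => (hB' _ _).1 (hg2 k)
  -- end points
  let l : ℕ → ℝ := fun k => ((iv (Nat.unpair (g k)).1).1 : ℝ)
  let u : ℕ → ℝ := fun k => ((iv (Nat.unpair (g k)).1).2 : ℝ)
  have hlu : ∀ k, l k < u k := by
    intro k
    obtain ⟨i, _, h2, _⟩ := hgood k
    exact h2.1.trans h2.2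
  have hl : ∀ k, l k < l (k + 1) := by
    intro k
    have : l (k + 1) ∈ Ivc (Nat.unpair (g (k + 1))).1 := ⟨le_rfl, (hlu (k + 1)).le⟩
    exact ((hext k).1 this).1
  have hu : ∀ k, u (k + 1) < u k := by
    intro k
    have : u (k + 1) ∈ Ivc (Nat.unpair (g (k + 1))).1 := ⟨(hlu (k + 1)).le, le_rfl⟩
    exact ((hext k).1 this).2
  have hlm : Monotone l := monotone_nat_of_le_succ fun k => (hl k).le
  have hum : Antitone u := antitone_nat_of_succ_le fun k => (hu k).le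
  have hlu' : ∀ k m, l k ≤ u m := by
    intro k m
    rcases le_total k m with h | h
    · exact (hlm h).trans (hlu m).le
    · exact (hlu k).le.trans (hum h)
  have hbdd : BddAbove (Set.range l) := ⟨u 0, by rintro _ ⟨k, rfl⟩; exact hlu' k 0⟩
  obtain ⟨x, hx⟩ : ∃ x, x = ⨆ k, l k := ⟨_, rfl⟩
  have hxl : ∀ k, l k < x := fun k => (hl k).trans_le (hx ▸ le_ciSup hbdd (k + 1))
  have hxu : ∀ k, x < u k := fun k =>
    lt_of_le_of_lt (hx ▸ ciSup_le fun m => hlu' m (k + 1)) (hu k)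
  have hxI : ∀ k, x ∈ Iv (Nat.unpair (g k)).1 := fun k => ⟨hxl k, hxu k⟩
  have hlen : ∀ n, ∃ k, NDec n (g k) := by
    intro n
    obtain ⟨k, hk⟩ := hg3 (N.nat n) (N.om_w1 _ (N.nat_om n))
    exact ⟨k, ((hD' _ (N.om_w1 _ (N.nat_om n)) _).1 hk).2 n rfl⟩
  have hfsm : ∀ k m, k ≤ m → fs (Nat.unpair (g k)).2 ⊆ fs (Nat.unpair (g m)).2 := by
    intro k m hkm
    induction m, hkm using Nat.le_induction with
    | base => exact subset_rfl
    | succ m _ ih => exact ih.trans (hext m).2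
  -- small intervals
  have hsmall : ∀ O : Set ℝ, IsOpen O → x ∈ O → ∃ k, ∀ m, k ≤ m →
      Iv (Nat.unpair (g m)).1 ⊆ O := by
    intro O hO hxO
    obtain ⟨ε, hε, hball⟩ := Metric.isOpen_iff.1 hO x hxO
    obtain ⟨n, hn⟩ := exists_nat_one_div_lt hε
    obtain ⟨k, hk, _⟩ := hlen n
    refine ⟨k, fun m hm y hy => hball ?_⟩
    have h1 : l k ≤ l m := hlm hm
    have h2 : u m ≤ u k := hum hm
    have h3 := hxl m
    have h4 := hxu m
    have h5 : l m < y := hy.1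
    have h6 : y < u m := hy.2
    have h7 : u k - l k < 1 / (n + 1) := hk
    rw [Metric.mem_ball, Real.dist_eq, abs_lt]
    constructor <;> linarith
  -- the range of `g`
  have hrange : N.PM (Set.range g) := by
    have := exists_set (N := N) ((codeStr.ex fun a => codeStr.and (codeStr.mem a 1)
        (fRel codeStr 2 a 0)) 10) (asn R [N.om, γ])
      (P := fun b => ∃ a, N.E a N.om ∧ Rel N.E γ a b) (fun x => Iff.rfl)
    have e : {b | ∃ a, N.E a N.om ∧ Rel N.E γ a (N.nat b)} = Set.range g := by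
      ext b
      constructor
      · rintro ⟨a, ha, hab⟩
        obtain ⟨k, rfl⟩ := (N.E_om a).1 ha
        exact ⟨k, ((hγ k b).1 hab).symm⟩
      · rintro ⟨k, rfl⟩
        exact ⟨N.nat k, N.nat_om k, (hγ k _).2 rfl⟩
    rwa [e] at this
  have hPx : N.PM (cut x) := by
    have := hrange.image (T := lnT) (hT (by simp [T5a]))
    have e : {n | ∃ k ∈ Set.range g, Nat.pair n k ∈ lnT} = cut x := by
      ext n
      constructor
      · rintro ⟨_, ⟨k, rfl⟩, h1⟩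
        have h2 : qd n < (iv (Nat.unpair (g k)).1).1 := by simpa [lnT] using h1
        have h3 : (qd n : ℝ) < l k := by
          show (qd n : ℝ) < ((iv (Nat.unpair (g k)).1).1 : ℝ)
          exact_mod_cast h2
        exact h3.trans (hxl k)
      · intro hn
        have h1 : (qd n : ℝ) < ⨆ k, l k := hx ▸ hn
        obtain ⟨k, hk⟩ := exists_lt_of_lt_ciSup h1
        have h2 : qd n < (iv (Nat.unpair (g k)).1).1 := by
          have h3 : (qd n : ℝ) < ((iv (Nat.unpair (g k)).1).1 : ℝ) := hk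
          exact_mod_cast h3
        exact ⟨g k, ⟨k, rfl⟩, by simpa [lnT] using h2⟩
    rwa [e] at this
  have hPW : N.PM {t | ∃ k ∈ Set.range g, Nat.pair t k ∈ wnT} :=
    hrange.image (T := wnT) (hT (by simp [T5a]))
  have hWmem : ∀ t, t ∈ {t | ∃ k ∈ Set.range g, Nat.pair t k ∈ wnT} ↔
      ∃ k, t ∈ fs (Nat.unpair (g k)).2 := by
    intro t
    constructor
    · rintro ⟨_, ⟨k, rfl⟩, h1⟩
      exact ⟨k, by simpa [wnT] using h1⟩
    · rintro ⟨k, hk⟩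
      exact ⟨_, ⟨k, rfl⟩, by simpa [wnT] using hk⟩
  generalize {t | ∃ k ∈ Set.range g, Nat.pair t k ∈ wnT} = WW at hPW hWmem
  refine ⟨x, hPx, ⟨WW, hPW, fun n => ?_, fun t ht => ?_⟩, fun i hi hxi => ?_, fun C hC hCr => ?_⟩
  · obtain ⟨k, _, v, hv⟩ := hlen n
    refine ⟨v, (hWmem _).2 ⟨k, hv⟩, fun v' hv' => ?_⟩
    obtain ⟨k', hk'⟩ := (hWmem _).1 hv'
    obtain ⟨i, h1, _, h2⟩ := hgood (max k k')
    have h3 := h2 (hfsm k _ (le_max_left _ _) hv)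
    have h4 := h2 (hfsm k' _ (le_max_right _ _) hk')
    exact ((hW3 i h1).1 n).unique h4 h3
  · rintro ⟨h1, h2⟩
    obtain ⟨k, hk⟩ := hsmall (Iv (Nat.unpair t).1) isOpen_Ioo h1
    have h3 : ∀ s : Finset ℕ, (s : Set ℕ) ⊆ WW → ∃ k', s ⊆ fs (Nat.unpair (g k')).2 := by
      intro s
      induction s using Finset.induction_on with
      | empty => exact fun _ => ⟨0, Finset.empty_subset _⟩
      | insert a s ha ih =>
        intro h
        rw [Finset.coe_insert, Set.insert_subset_iff] at h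
        obtain ⟨k1, hk1⟩ := ih h.2
        obtain ⟨k2, hk2⟩ := (hWmem a).1 h.1
        refine ⟨max k1 k2, Finset.insert_subset ?_ ?_⟩
        · exact hfsm k2 _ (le_max_right _ _) hk2
        · exact hk1.trans (hfsm k1 _ (le_max_left _ _))
    obtain ⟨k', hk'⟩ := h3 _ h2
    obtain ⟨i, h4, h5, h6⟩ := hgood (max k k')
    refine (hW3 i h4).2 t ht ⟨hk _ (le_max_left _ _) h5, fun a ha => h6 ?_⟩
    exact hfsm k' _ (le_max_right _ _) (hk' ha)
  · obtain ⟨k, hk⟩ := hg3 i (hX i hi)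
    have h1 := ((hD' i (hX i hi) _).1 hk).1 hi
    rw [← hxi] at h1
    exact h1 ⟨(hxl k).le, (hxu k).le⟩
  · by_contra hxC
    obtain ⟨k, hk⟩ := hsmall Cᶜ hC.isOpen_compl hxC
    obtain ⟨i, h1, h2, _⟩ := hgood k
    exact hk k le_rfl h2 (hCr i h1)

end Nice

end Pool.Agent.H83.F
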