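import Pool.Agent.H83.F.Amo

/-!
# The concrete iteration
-/

set_option linter.unusedSectionVars false
set_option linter.unusedVariables false

open Set MeasureTheory

namespace Pool.Agent.H83.F

/-- labels -/
abbrev Lam : Type := ((2 : Cardinal.{0}) ^ Cardinal.aleph 2).ord.ToType

/-- coordinates -/
abbrev Co : Type := W2 ×ₗ Lam

/-- values at a coordinate: a finite set of nodes, a finite set of countable ordinals, a finite
sequence, a finite set of labels -/
structure DD where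
  /-- nodes -/
  J : Finset (List Bool)
  /-- countable ordinals -/
  F : Finset W1
  /-- finite sequence -/
  s : List ℕ
  /-- labels -/
  a : Finset Lam

instance : Preorder DD where
  le d e := (∀ σ ∈ d.J, ∃ τ ∈ e.J, τ <+: σ) ∧ e.F ⊆ d.F ∧ e.s <+: d.s ∧ e.a ⊆ d.a
  le_refl d := ⟨fun σ hσ => ⟨σ, hσ, List.prefix_rfl⟩, Finset.Subset.refl _, List.prefix_rfl,
    Finset.Subset.refl _⟩
  le_trans d e g h1 h2 := by
    refine ⟨fun σ hσ => ?_, h2.2.1.trans h1.2.1, h2.2.2.1.trans h1.2.2.1,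
      h2.2.2.2.trans h1.2.2.2⟩
    obtain ⟨τ, hτ, h3⟩ := h1.1 σ hσ
    obtain ⟨ρ, hρ, h4⟩ := h2.1 τ hτ
    exact ⟨ρ, hρ, h4.trans h3⟩

instance : OrderTop DD where
  top := ⟨{[]}, ∅, [], ∅⟩
  le_top d := ⟨fun σ _ => ⟨[], by simp, List.nil_prefix⟩, by simp, List.nil_prefix, by simp⟩

theorem DD.top_def : (⊤ : DD) = ⟨{[]}, ∅, [], ∅⟩ := rfl

theorem DD.le_def {d e : DD} : d ≤ e ↔
    (∀ σ ∈ d.J, ∃ τ ∈ e.J, τ <+: σ) ∧ e.F ⊆ d.F ∧ e.s <+: d.s ∧ e.a ⊆ d.a := Iff.rfl

/-- conditions -/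
abbrev Cn : Type := Con Co DD

/-- systems of names of events -/
abbrev Nms : Type := Bool → W1 → ℕ → ℕ → Option Cn

/-- kinds of coordinates -/
inductive Kd : Type
  | am (n : ℕ)
  | cl (l : Lam)
  | co (l : Lam)

section Card

open Cardinal

theorem Lam_card : #Lam = 2 ^ aleph 2 := mk_ord_toType _

theorem inf_Lam : ℵ₀ ≤ #Lam := by
  rw [Lam_card]
  exact (aleph0_le_aleph 2).trans (cantor _).le

instance : Infinite Lam := infinite_iff.2 inf_Lam

theorem card_mul {α β : Type} (h1 : #α ≤ #Lam) (h2 : #β ≤ #Lam) : #(α × β) ≤ #Lam := by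
  rw [mk_prod, lift_id, lift_id]
  exact mul_le_of_le inf_Lam h1 h2

theorem card_fin {α : Type} (h : #α ≤ #Lam) : #(Finset α) ≤ #Lam := by
  rcases finite_or_infinite α with hf | hi
  · haveI := hf
    exact (mk_le_aleph0 (α := Finset α)).trans inf_Lam
  · rw [mk_finset_of_infinite]; exact h

theorem card_W2 : #W2 ≤ #Lam := by
  rw [W2_card, Lam_card]; exact (cantor _).le

theorem card_W1 : #W1 ≤ #Lam := by
  rw [W1_card]
  refine le_trans ?_ card_W2
  rw [W2_card]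
  exact aleph_le_aleph.2 (by norm_num)

theorem card_Co : #Co ≤ #Lam := (card_mul card_W2 le_rfl : #(W2 × Lam) ≤ #Lam)

theorem card_DD : #DD ≤ #Lam := by
  have h : #(Finset (List Bool) × Finset W1 × List ℕ × Finset Lam) ≤ #Lam := by
    refine card_mul ?_ (card_mul (card_fin card_W1) (card_mul ?_ (card_fin le_rfl)))
    · exact mk_le_aleph0.trans inf_Lam
    · exact mk_le_aleph0.trans inf_Lam
  refine le_trans (mk_le_of_injective (f := fun d : DD => (d.J, d.F, d.s, d.a)) ?_) h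
  rintro ⟨a, b, c, d⟩ ⟨a', b', c', d'⟩ h
  simp only [Prod.mk.injEq] at h
  obtain ⟨rfl, rfl, rfl, rfl⟩ := h
  rfl

theorem card_Cn : #Cn ≤ #Lam := by
  classical
  refine le_trans (mk_le_of_injective
    (f := fun p : Cn => p.fin.toFinset.image fun c => (c, p.f c)) ?_)
    (card_fin (card_mul card_Co card_DD))
  intro p q h
  simp only at h
  have key : ∀ (p q : Cn), p.fin.toFinset.image (fun c => (c, p.f c)) =
      q.fin.toFinset.image (fun c => (c, q.f c)) → ∀ c, p.f c ≠ ⊤ → p.f c = q.f c := by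
    intro p q h c hc
    have h1 : (c, p.f c) ∈ p.fin.toFinset.image (fun c => (c, p.f c)) :=
      Finset.mem_image.2 ⟨c, by simpa using hc, rfl⟩
    rw [h] at h1
    obtain ⟨c', _, h2⟩ := Finset.mem_image.1 h1
    simp only [Prod.mk.injEq] at h2
    obtain ⟨rfl, h2⟩ := h2
    exact h2.symm
  apply Con.ext'
  intro c
  by_cases h1 : p.f c = ⊤
  · by_cases h2 : q.f c = ⊤
    · rw [h1, h2]
    · exact (key q p h.symm c h2).symm
  · exact key p q h c h1

theorem card_Nms : #Nms ≤ #Lam := by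
  refine le_trans (mk_le_of_injective
    (f := fun (g : Nms) (x : Bool × W1 × ℕ × ℕ) => g x.1 x.2.1 x.2.2.1 x.2.2.2) ?_) ?_
  · intro g g' h
    funext a b c d
    exact congrFun h (a, b, c, d)
  · rw [← power_def]
    have h1 : #(Option Cn) ≤ 2 ^ aleph 2 := by
      rw [mk_option, ← Lam_card]
      exact add_le_of_le inf_Lam card_Cn (one_le_aleph0.trans inf_Lam)
    have h2 : #(Bool × W1 × ℕ × ℕ) ≤ aleph 2 := by
      have h3 : ℵ₀ ≤ aleph 2 := aleph0_le_aleph 2
      rw [mk_prod, mk_prod, mk_prod]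
      simp only [lift_id]
      refine mul_le_of_le h3 (mk_le_aleph0.trans h3) (mul_le_of_le h3 ?_
        (mul_le_of_le h3 (mk_le_aleph0.trans h3) (mk_le_aleph0.trans h3)))
      rw [W1_card]
      exact aleph_le_aleph.2 (by norm_num)
    calc #(Option Cn) ^ #(Bool × W1 × ℕ × ℕ) ≤ (2 ^ aleph 2) ^ #(Bool × W1 × ℕ × ℕ) :=
          power_le_power_right h1
      _ ≤ (2 ^ aleph 2) ^ aleph 2 := power_le_power_left
          (by rw [← Lam_card]; exact (aleph0_pos.trans_le inf_Lam).ne') h2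
      _ = 2 ^ (aleph 2 * aleph 2) := power_mul.symm
      _ = 2 ^ aleph 2 := by rw [mul_eq_self (aleph0_le_aleph 2)]
      _ = #Lam := Lam_card.symm

theorem exists_surj {α : Type} [Nonempty α] (h : #α ≤ #Lam) :
    ∃ f : Lam → α, Function.Surjective f := by
  obtain ⟨g⟩ := h
  exact ⟨Function.invFun g, Function.invFun_surjective g.injective⟩

theorem exists_lab : ∃ f : Lam → Nms, Function.Surjective f := exists_surj card_Nms

theorem exists_kind : ∃ f : Lam → Kd, Function.Surjective f := by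
  haveI : Nonempty Kd := ⟨.am 0⟩
  apply exists_surj
  refine le_trans (mk_le_of_injective (f := fun k : Kd => (match k with
    | .am n => (0, n, Classical.arbitrary Lam)
    | .cl l => (1, 0, l)
    | .co l => (2, 0, l) : ℕ × ℕ × Lam)) ?_)
    (card_mul (mk_le_aleph0.trans inf_Lam) (card_mul (mk_le_aleph0.trans inf_Lam) le_rfl))
  rintro (a | a | a) (b | b | b) h <;> simp at h <;> simp [h]

end Card

/-- labels name all systems of events -/
noncomputable def lab : Lam → Nms := exists_lab.choose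

theorem lab_surj : Function.Surjective lab := exists_lab.choose_spec

/-- the kind of a coordinate -/
noncomputable def kind : Lam → Kd := exists_kind.choose

theorem kind_surj : Function.Surjective kind := exists_kind.choose_spec

/-- events given by a label -/
def ev (l : Lam) (b : Bool) (i : W1) (m : ℕ) : Set Cn := {t | ∃ k, lab l b i m k = some t}

/-- a countable ordinal -/
noncomputable def w0 : W1 := Classical.arbitrary W1

/-- validity -/
def Val (c : Co) (S : Set Cn) (p : Cn) (d : DD) : Prop :=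
  match kind (ofLex c).2 with
  | .am n => d.J = {[]} ∧ d.F = ∅ ∧ d.s = [] ∧
      AmV S (fun l j => ev l false w0 j) ((1 / 2) ^ n) d.a p
  | .cl l => d.s = [] ∧ d.a = ∅ ∧ CV S (ev l false) (ev l true) d.J d.F p
  | .co l => d.J = {[]} ∧ d.F = ∅ ∧ d.a = ∅ ∧
      CohV (ev l false w0) (fun m n => ev l true w0 (Nat.pair m n)) d.s p

theorem Val_am {c : Co} {n : ℕ} (h : kind (ofLex c).2 = .am n) (S : Set Cn) (p : Cn) (d : DD) :
    Val c S p d ↔ (d.J = {[]} ∧ d.F = ∅ ∧ d.s = [] ∧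
      AmV S (fun l j => ev l false w0 j) ((1 / 2) ^ n) d.a p) := by
  unfold Val; rw [h]

theorem Val_cl {c : Co} {l : Lam} (h : kind (ofLex c).2 = .cl l) (S : Set Cn) (p : Cn) (d : DD) :
    Val c S p d ↔ (d.s = [] ∧ d.a = ∅ ∧ CV S (ev l false) (ev l true) d.J d.F p) := by
  unfold Val; rw [h]

theorem Val_co {c : Co} {l : Lam} (h : kind (ofLex c).2 = .co l) (S : Set Cn) (p : Cn) (d : DD) :
    Val c S p d ↔ (d.J = {[]} ∧ d.F = ∅ ∧ d.a = ∅ ∧
      CohV (ev l false w0) (fun m n => ev l true w0 (Nat.pair m n)) d.s p) := by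
  unfold Val; rw [h]

theorem anti_Val : Anti Val := by
  intro c p q d hp hq hqp h
  cases hk : kind (ofLex c).2 with
  | am n =>
    rw [Val_am hk] at h ⊢
    exact ⟨h.1, h.2.1, h.2.2.1, h.2.2.2.mono hqp⟩
  | cl l =>
    rw [Val_cl hk] at h ⊢
    exact ⟨h.1, h.2.1, h.2.2.mono hqp⟩
  | co l =>
    rw [Val_co hk] at h ⊢
    exact ⟨h.1, h.2.1, h.2.2.1, h.2.2.2.mono hqp⟩

theorem onestep_Val (c : Co) (hS : CC (SS Val c)) : OneStep Val c := by
  intro A hA f d hf hv
  cases hk : kind (ofLex c).2 with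
  | am n =>
    simp only [Val_am hk] at hv ⊢
    obtain ⟨ξ, hξ, η, hη, hlt, r, hr, h1, h2, s', h3, h4, h5⟩ :=
      am_onestep hS (fun l j => ev l false w0 j) ((1 / 2) ^ n) hA f (fun ξ => (d ξ).a) hf
        (fun ξ hξ => (hv ξ hξ).2.2.2)
    refine ⟨ξ, hξ, η, hη, hlt, r, hr, h1, h2, ⟨{[]}, ∅, [], s'⟩, ?_, ?_, rfl, rfl, rfl, h5⟩
    · rw [DD.le_def]
      obtain ⟨a1, a2, a3, _⟩ := hv ξ hξ
      rw [a1, a2, a3]
      exact ⟨fun σ hσ => ⟨σ, hσ, List.prefix_rfl⟩, Finset.Subset.refl _, List.prefix_rfl, h3⟩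
    · rw [DD.le_def]
      obtain ⟨a1, a2, a3, _⟩ := hv η hη
      rw [a1, a2, a3]
      exact ⟨fun σ hσ => ⟨σ, hσ, List.prefix_rfl⟩, Finset.Subset.refl _, List.prefix_rfl, h4⟩
  | cl l =>
    simp only [Val_cl hk] at hv ⊢
    obtain ⟨ξ, hξ, η, hη, hlt, r, hr, h1, h2, J', F', h3, h4, h5, h6, h7⟩ :=
      cond_onestep hS (ev l false) (ev l true) hA f (fun ξ => (d ξ).J) (fun ξ => (d ξ).F) hf
        (fun ξ hξ => (hv ξ hξ).2.2)
    refine ⟨ξ, hξ, η, hη, hlt, r, hr, h1, h2, ⟨J', F', [], ∅⟩, ?_, ?_, rfl, rfl, h7⟩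
    · rw [DD.le_def]
      obtain ⟨a1, a2, _⟩ := hv ξ hξ
      rw [a1, a2]
      exact ⟨h5, h3, List.prefix_rfl, Finset.Subset.refl _⟩
    · rw [DD.le_def]
      obtain ⟨a1, a2, _⟩ := hv η hη
      rw [a1, a2]
      exact ⟨h6, h4, List.prefix_rfl, Finset.Subset.refl _⟩
  | co l =>
    simp only [Val_co hk] at hv ⊢
    obtain ⟨ξ, hξ, η, hη, hlt, r, hr, h1, h2, h3, h4⟩ :=
      coh_onestep hS (ev l false w0) (fun m n => ev l true w0 (Nat.pair m n)) hA f
        (fun ξ => (d ξ).s) hf (fun ξ hξ => (hv ξ hξ).2.2.2)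
    refine ⟨ξ, hξ, η, hη, hlt, r, hr, h1, h2, d ξ, le_rfl, ?_, (hv ξ hξ).1, (hv ξ hξ).2.1,
      (hv ξ hξ).2.2.1, h4⟩
    rw [DD.le_def]
    obtain ⟨a1, a2, a3, _⟩ := hv η hη
    obtain ⟨b1, b2, b3, _⟩ := hv ξ hξ
    rw [a1, a2, a3, b1, b2, b3, h3]
    exact ⟨fun σ hσ => ⟨σ, hσ, List.prefix_rfl⟩, Finset.Subset.refl _, List.prefix_rfl,
      Finset.Subset.refl _⟩

/-- The iteration is ccc. -/
theorem cc_all : (∀ c, CC (SS Val c)) ∧ CC (PP Val) := cc_main anti_Val onestep_Val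

/-- The forcing notion. -/
abbrev QQ : Type := {p : Cn // p ∈ PP Val}

instance : OrderTop QQ where
  top := ⟨⊤, top_mem_PP Val⟩
  le_top p := (le_top : p.1 ≤ ⊤)

end Pool.Agent.H83.F
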