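import Pool.Agent.H83.F.ZFCDef

/-!
# Set-theoretic notions inside a structure `(M, E)`

All notions are interpreted in a structure `(M, E)`: `E x y` is read as `x ∈ y`.
-/

namespace Pool.Agent.H83.F

section Defs

variable {M : Type} (E : M → M → Prop)

/-- `z = {a, b}` -/
def IsUPair (z a b : M) : Prop := ∀ t, E t z ↔ (t = a ∨ t = b)

/-- `z` is the (Kuratowski) ordered pair `(a, b) = {{a}, {a, b}}` -/
def IsPair (z a b : M) : Prop := ∀ w, E w z ↔ (IsUPair E w a a ∨ IsUPair E w a b)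

/-- `(x, y) ∈ f` -/
def Rel (f x y : M) : Prop := ∃ z, IsPair E z x y ∧ E z f

/-- `x ⊆ y` -/
def Sub (x y : M) : Prop := ∀ z, E z x → E z y

/-- `s = y ∪ {y}` -/
def IsSucc (s y : M) : Prop := ∀ z, E z s ↔ (E z y ∨ z = y)

/-- `f` is a function from `a` to `b` (as a set of ordered pairs) -/
def IsFun (f a b : M) : Prop :=
  (∀ z, E z f → ∃ x y, IsPair E z x y ∧ E x a ∧ E y b) ∧
  ∀ x, E x a → ∃ y, Rel E f x y ∧ ∀ y', Rel E f x y' → y' = y

/-- `w` is the set `ω` of natural numbers: it contains the empty set, is closed under successors,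
and all its elements are empty or successors of elements (recall foundation) -/
def IsOmega (w : M) : Prop :=
  (∃ e, E e w ∧ ∀ z, ¬ E z e) ∧ (∀ y, E y w → ∃ s, E s w ∧ IsSucc E s y) ∧
  ∀ y, E y w → ((∀ z, ¬ E z y) ∨ ∃ x, E x w ∧ IsSucc E y x)

/-- `x` is an ordinal: a transitive set of transitive sets -/
def IsOrd (x : M) : Prop :=
  (∀ y, E y x → Sub E y x) ∧ ∀ y, E y x → ∀ z, E z y → Sub E z y

/-- `f (x, y) = z` -/
def Op (f x y z : M) : Prop := ∃ u, IsPair E u x y ∧ Rel E f u z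

/-- `(R, A, T, L)` is a complete ordered field, with addition `A`, multiplication `T` and strict
order `L` (sets of ordered pairs in `M`): the set `{x | x ∈ R}` with the operations and the
order given by `A`, `T`, `L` is a linearly ordered field, and every non-empty subset `X ∈ M` of
`R` with an upper bound has a least upper bound. -/
def IsRealField (R A T L : M) : Prop :=
  (∃ (_ : Field {x : M // E x R}) (_ : LinearOrder {x : M // E x R})
    (_ : IsStrictOrderedRing {x : M // E x R}),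
    (∀ x y z : {x : M // E x R}, Op E A x y z ↔ x + y = z) ∧
    (∀ x y z : {x : M // E x R}, Op E T x y z ↔ x * y = z) ∧
    (∀ x y : {x : M // E x R}, Rel E L x y ↔ x < y)) ∧
  ∀ X, Sub E X R → (∃ x, E x X) → (∃ b, E b R ∧ ∀ x, E x X → (x = b ∨ Rel E L x b)) →
    ∃ s, E s R ∧ (∀ x, E x X → (x = s ∨ Rel E L x s)) ∧
      ∀ b, E b R → (∀ x, E x X → (x = b ∨ Rel E L x b)) → (s = b ∨ Rel E L s b)

/-- `X` is a Lebesgue null subset of `R`: for every positive `ε ∈ R` there are sequences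
`a, b : w → R` with `aₙ ≤ bₙ` such that `X` is covered by the open intervals `(aₙ, bₙ)` and all
partial sums of `∑ (bₙ - aₙ)` are at most `ε` (the partial sums form the sequence `s`: `s₀ = 0`
and `sₙ₊₁ + aₙ = sₙ + bₙ`). Here `w` is the set of natural numbers. -/
def IsNull (w R A L X : M) : Prop :=
  Sub E X R ∧ ∀ ε, E ε R → (∃ z, E z R ∧ Op E A z z z ∧ Rel E L z ε) →
    ∃ a b s, IsFun E a w R ∧ IsFun E b w R ∧ IsFun E s w R ∧
      (∀ n x y, Rel E a n x → Rel E b n y → (x = y ∨ Rel E L x y)) ∧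
      (∀ x, E x X → ∃ n u v, Rel E a n u ∧ Rel E b n v ∧ Rel E L u x ∧ Rel E L x v) ∧
      (∀ n z, (∀ t, ¬ E t n) → Rel E s n z → Op E A z z z) ∧
      (∀ n m x y z z', IsSucc E m n → Rel E a n x → Rel E b n y → Rel E s n z → Rel E s m z' →
        ∃ u, Op E A z' x u ∧ Op E A z y u) ∧
      ∀ n z, Rel E s n z → (z = ε ∨ Rel E L z ε)

/-- `𝒮` is a `σ`-algebra of subsets of `R` that contains all open intervals. -/
def IsSigmaAlg (w R L 𝒮 : M) : Prop :=
  (∀ X, E X 𝒮 → Sub E X R) ∧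
  (∀ a b X, E a R → E b R → (∀ x, E x X ↔ (E x R ∧ Rel E L a x ∧ Rel E L x b)) → E X 𝒮) ∧
  (∀ X Y, E X 𝒮 → (∀ x, E x Y ↔ (E x R ∧ ¬ E x X)) → E Y 𝒮) ∧
  ∀ f U, IsFun E f w 𝒮 → (∀ x, E x U ↔ ∃ n X, Rel E f n X ∧ E x X) → E U 𝒮

/-- `X` is a Borel subset of `R`: it belongs to every `σ`-algebra of subsets of `R` that contains
all open intervals. -/
def IsBorel (w R L X : M) : Prop := Sub E X R ∧ ∀ 𝒮, IsSigmaAlg E w R L 𝒮 → E X 𝒮

/-- `X` is a Lebesgue measurable subset of `R`: its symmetric difference with some Borel set is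
contained in a null set. -/
def IsMeas (w R A L X : M) : Prop :=
  Sub E X R ∧ ∃ B N, IsBorel E w R L B ∧ IsNull E w R A L N ∧
    ∀ x, ((E x X ∧ ¬ E x B) ∨ (E x B ∧ ¬ E x X)) → E x N

/-- `ψ` is a monotone Borel hull operation (with respect to the null sets) on the family `F` of
subsets of `R`: a function `ψ ∈ M` with domain `F`, such that `ψ(X)` is a Borel set containing
`X`, `ψ(X) \ X` is null, and `X ⊆ X'` implies `ψ(X) ⊆ ψ(X')`. -/
def IsMonoHull (w R A L : M) (F : M → Prop) (ψ : M) : Prop :=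
  (∀ z, E z ψ → ∃ X Y, IsPair E z X Y ∧ F X) ∧
  (∀ X, F X → ∃ Y, Rel E ψ X Y ∧ ∀ Y', Rel E ψ X Y' → Y' = Y) ∧
  (∀ X Y, Rel E ψ X Y → IsBorel E w R L Y ∧ Sub E X Y ∧
    ∀ D, (∀ x, E x D ↔ (E x Y ∧ ¬ E x X)) → IsNull E w R A L D) ∧
  ∀ X X' Y Y', Rel E ψ X Y → Rel E ψ X' Y' → Sub E X X' → Sub E Y Y'

/-- `g` is a family `(g(ξ))_{ξ ∈ κ}` of null subsets of `R`. -/
def IsNullFamily (w R A L κ g : M) : Prop :=
  (∀ z, E z g → ∃ ξ X, IsPair E z ξ X ∧ E ξ κ ∧ IsNull E w R A L X) ∧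
  ∀ ξ, E ξ κ → ∃ X, Rel E g ξ X ∧ ∀ X', Rel E g ξ X' → X' = X

/-- The union of the members of the family `g` is null. -/
def HasNullUnion (w R A L g : M) : Prop :=
  ∀ U, (∀ x, E x U ↔ ∃ ξ X, Rel E g ξ X ∧ E x X) → IsNull E w R A L U

/-- Every null set is contained in a member of the family `g`. -/
def IsCofinalFamily (w R A L g : M) : Prop :=
  ∀ X, IsNull E w R A L X → ∃ ξ Y, Rel E g ξ Y ∧ Sub E X Y

/-- `κ = add(𝒩)`: the least ordinal `κ` for which there is a family of null sets indexed by `κ`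
whose union is not null. -/
def IsAddNull (w R A L κ : M) : Prop :=
  IsOrd E κ ∧ (∃ g, IsNullFamily E w R A L κ g ∧ ¬ HasNullUnion E w R A L g) ∧
  ∀ μ, E μ κ → ∀ g, IsNullFamily E w R A L μ g → HasNullUnion E w R A L g

/-- `κ = cof(𝒩)`: the least ordinal `κ` for which there is a family of null sets indexed by `κ`
such that every null set is contained in one of its members. -/
def IsCofNull (w R A L κ : M) : Prop :=
  IsOrd E κ ∧ (∃ g, IsNullFamily E w R A L κ g ∧ IsCofinalFamily E w R A L g) ∧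
  ∀ μ, E μ κ → ∀ g, IsNullFamily E w R A L μ g → ¬ IsCofinalFamily E w R A L g

end Defs

end Pool.Agent.H83.F
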