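import Pool.Agent.H83.F.Int

/-!
# Internal families of sets of natural numbers

`N.IFam d Z`: the family `(Z i)_{i ∈ d}` of sets of natural numbers belongs to the nice model `N`
(it is coded by a set `z ∈ M` with `(i, n) ∈ z ↔ n ∈ Z i`). `N.PM X`: the set `X` of natural
numbers belongs to the model. These classes are closed under Boolean operations, and under
images under the relations in `𝒯` (`IFam.image`), so also under number quantifiers (choose the
relation suitably).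
-/

set_option linter.unusedSectionVars false

namespace Pool.Agent.H83.F

open Pool.Agent.H86

variable {𝒯 : Set (Set ℕ)} (N : Nice 𝒯)

namespace Nice

/-- The model satisfies ZF. -/
theorem zf : IsZFModel N.E := N.zfc.toIsZFModel

theorem nat_om (n : ℕ) : N.E (N.nat n) N.om := (N.E_om _).2 ⟨n, rfl⟩

theorem nat_inj {m n : ℕ} (h : N.nat m = N.nat n) : m = n := by
  rcases lt_trichotomy m n with h1 | h1 | h1
  · exact (not_mem_self N.zf (N.nat m) (by
      have : N.E (N.nat m) (N.nat n) := (N.E_nat _ _).2 ⟨m, h1, rfl⟩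
      rwa [← h] at this)).elim
  · exact h1
  · exact (not_mem_self N.zf (N.nat n) (by
      have : N.E (N.nat n) (N.nat m) := (N.E_nat _ _).2 ⟨n, h1, rfl⟩
      rwa [h] at this)).elim

/-- the set of natural numbers coded by an element of `M` -/
def val (x : N.M) : Set ℕ := {n | N.E (N.nat n) x}

theorem mem_val {x : N.M} {n : ℕ} : n ∈ N.val x ↔ N.E (N.nat n) x := Iff.rfl

/-- Subsets of `ω` with the same elements are equal. -/
theorem eq_of_val {x y : N.M} (hx : Sub N.E x N.om) (hy : Sub N.E y N.om)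
    (h : N.val x = N.val y) : x = y := by
  apply N.zf.ext
  intro z
  constructor
  · intro hz
    obtain ⟨n, rfl⟩ := (N.E_om z).1 (hx z hz)
    have : n ∈ N.val y := h ▸ (show n ∈ N.val x from hz)
    exact this
  · intro hz
    obtain ⟨n, rfl⟩ := (N.E_om z).1 (hy z hz)
    have : n ∈ N.val x := h ▸ (show n ∈ N.val y from hz)
    exact this

/-- The set `X` of natural numbers belongs to the model. -/
def PM (X : Set ℕ) : Prop := ∃ x, Sub N.E x N.om ∧ N.val x = X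

/-- The family `(Z i)_{i ∈ d}` of sets of natural numbers belongs to the model. -/
def IFam (d : N.M) (Z : N.M → Set ℕ) : Prop :=
  ∃ z, ∀ i, N.E i d → ∀ n, (Rel N.E z i (N.nat n) ↔ n ∈ Z i)

variable {N}

/-- A version of `exists_rel` for relations between `d` and `ω`. -/
theorem exists_fam (φ : Fml) (f : ℕ → N.M) {P : N.M → N.M → Prop}
    (h : ∀ z, (∃ x y, IsPair N.E z x y ∧ P x y) ↔ φ.eval (propStr N.E) (upd f 0 z))
    (d : N.M) : N.IFam d (fun i => {n | P i (N.nat n)}) := by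
  obtain ⟨r, -, hr⟩ := exists_rel N.zf φ f h d N.om
  refine ⟨r, fun i hi n => ?_⟩
  rw [hr]
  constructor
  · exact fun h => h.2.2
  · exact fun h => ⟨hi, N.nat_om n, h⟩

theorem IFam.congr {d : N.M} {Z Z' : N.M → Set ℕ} (h : N.IFam d Z)
    (h' : ∀ i, N.E i d → Z i = Z' i) : N.IFam d Z' := by
  obtain ⟨z, hz⟩ := h
  exact ⟨z, fun i hi n => by rw [hz i hi n, h' i hi]⟩

/-- Existence of subsets of `ω` given by a code. -/
theorem exists_set (φ : Fml) (f : ℕ → N.M) {P : N.M → Prop}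
    (h : ∀ x, P x ↔ φ.eval (propStr N.E) (upd f 0 x)) : N.PM {n | P (N.nat n)} := by
  obtain ⟨b, hb⟩ := sep_of N.zf φ f h N.om
  refine ⟨b, fun x hx => ((hb x).1 hx).1, ?_⟩
  ext n
  show N.E (N.nat n) b ↔ P (N.nat n)
  rw [hb]
  exact ⟨fun h => h.2, fun h => ⟨N.nat_om n, h⟩⟩

theorem IFam.section {d : N.M} {Z : N.M → Set ℕ} (h : N.IFam d Z) {i : N.M} (hi : N.E i d) :
    N.PM (Z i) := by
  obtain ⟨z, hz⟩ := h
  have := exists_set (N := N) (fRel codeStr 1 2 0 10) (asn z [z, i])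
    (P := fun x => Rel N.E z i x) (fun x => Iff.rfl)
  have h2 : {n | Rel N.E z i (N.nat n)} = Z i := by
    ext n
    exact hz i hi n
  rwa [h2] at this

theorem IFam.compl {d : N.M} {Z : N.M → Set ℕ} (h : N.IFam d Z) :
    N.IFam d (fun i => (Z i)ᶜ) := by
  obtain ⟨z, hz⟩ := h
  refine (exists_fam (N := N)
    (pairCode (fun x y => codeStr.imp (fRel codeStr 1 x y) codeStr.bot) 10) (asn z [z])
    (P := fun i x => ¬ Rel N.E z i x) (fun x => Iff.rfl) d).congr ?_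
  intro i hi
  ext n
  show ¬ Rel N.E z i (N.nat n) ↔ n ∈ (Z i)ᶜ
  rw [hz i hi n]
  rfl

theorem IFam.inter {d : N.M} {Z Z' : N.M → Set ℕ} (h : N.IFam d Z) (h' : N.IFam d Z') :
    N.IFam d (fun i => Z i ∩ Z' i) := by
  obtain ⟨z, hz⟩ := h
  obtain ⟨z', hz'⟩ := h'
  refine (exists_fam (N := N)
    (pairCode (fun x y => codeStr.and (fRel codeStr 1 x y) (fRel codeStr 2 x y)) 10)
    (asn z [z, z'])
    (P := fun i x => Rel N.E z i x ∧ Rel N.E z' i x) (fun x => Iff.rfl) d).congr ?_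
  intro i hi
  ext n
  show Rel N.E z i (N.nat n) ∧ Rel N.E z' i (N.nat n) ↔ n ∈ Z i ∩ Z' i
  rw [hz i hi n, hz' i hi n]
  rfl

theorem IFam.union {d : N.M} {Z Z' : N.M → Set ℕ} (h : N.IFam d Z) (h' : N.IFam d Z') :
    N.IFam d (fun i => Z i ∪ Z' i) := by
  have := (h.compl.inter h'.compl).compl
  refine this.congr fun i _ => ?_
  ext n
  simp [Set.mem_union, not_or, or_iff_not_imp_left]

theorem IFam.univ (d : N.M) : N.IFam d (fun _ => Set.univ) := by
  refine (exists_fam (N := N)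
    (pairCode (fun x y => codeStr.eq x x) 10) (asn d [d])
    (P := fun i x => i = i) (fun x => Iff.rfl) d).congr ?_
  intro i hi
  ext n
  simp

theorem IFam.empty (d : N.M) : N.IFam d (fun _ => ∅) :=
  (IFam.univ (N := N) d).compl.congr fun i _ => by simp

/-- The image under a relation in `𝒯`. -/
theorem IFam.image {d : N.M} {Z : N.M → Set ℕ} (h : N.IFam d Z) {T : Set ℕ} (hT : T ∈ 𝒯) :
    N.IFam d (fun i => {n | ∃ k ∈ Z i, Nat.pair n k ∈ T}) := by
  obtain ⟨z, hz⟩ := h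
  obtain ⟨g, hg1, hg2⟩ := N.const T hT
  refine (exists_fam (N := N)
    (pairCode (fun x y => codeStr.ex fun k => codeStr.and (fRel codeStr 1 x k)
      (fRel codeStr 2 y k)) 10) (asn z [z, g])
    (P := fun i x => ∃ k, Rel N.E z i k ∧ Rel N.E g x k) (fun x => Iff.rfl) d).congr ?_
  intro i hi
  ext n
  constructor
  · rintro ⟨k, h1, h2⟩
    obtain ⟨u, hu, hug⟩ := h2
    obtain ⟨a, b, hab⟩ := hg1 u hug
    obtain ⟨h3, h4⟩ := pair_inj N.zf hu hab
    rw [h4] at h1 hu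
    exact ⟨b, (hz i hi b).1 h1, (hg2 n b).1 ⟨u, hu, hug⟩⟩
  · rintro ⟨k, h1, h2⟩
    exact ⟨N.nat k, (hz i hi k).2 h1, (hg2 n k).2 h2⟩

/-- The members of `𝒯` as constant families. -/
theorem IFam.const' (d : N.M) {X T : Set ℕ} (hT : T ∈ 𝒯)
    (h : ∀ n, n ∈ X ↔ ∃ k, Nat.pair n k ∈ T) : N.IFam d (fun _ => X) :=
  ((IFam.univ (N := N) d).image hT).congr fun i _ => by
    ext n
    rw [h]
    simp

/-- Number quantification: if the relation `{(n, t) | (unpair t).1 = n}` is in `𝒯`. -/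
def projT : Set ℕ := {p | (Nat.unpair (Nat.unpair p).2).1 = (Nat.unpair p).1}

/-- The relation `{(n, t) | (unpair n).1 = t}`. -/
def fstT : Set ℕ := {p | (Nat.unpair (Nat.unpair p).1).1 = (Nat.unpair p).2}

/-- The relation `{(n, t) | (unpair n).2 = t}`. -/
def sndT : Set ℕ := {p | (Nat.unpair (Nat.unpair p).1).2 = (Nat.unpair p).2}

theorem IFam.proj {d : N.M} {Z : N.M → Set ℕ} (h : N.IFam d Z) (hT : projT ∈ 𝒯) :
    N.IFam d (fun i => {n | ∃ k, Nat.pair n k ∈ Z i}) := by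
  refine (h.image hT).congr fun i _ => ?_
  ext n
  constructor
  · rintro ⟨t, ht, htT⟩
    have h1 : (Nat.unpair t).1 = n := by simpa [projT] using htT
    refine ⟨(Nat.unpair t).2, ?_⟩
    rw [← h1, Nat.pair_unpair]
    exact ht
  · rintro ⟨k, hk⟩
    exact ⟨_, hk, by simp [projT]⟩

/-- Preimage under a function whose graph is in `𝒯`. -/
theorem IFam.preimage {d : N.M} {Z : N.M → Set ℕ} (h : N.IFam d Z) {f : ℕ → ℕ} {T : Set ℕ}
    (hT : T ∈ 𝒯) (hf : ∀ n k, Nat.pair n k ∈ T ↔ f n = k) :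
    N.IFam d (fun i => {n | f n ∈ Z i}) := by
  refine (h.image hT).congr fun i _ => ?_
  ext n
  constructor
  · rintro ⟨t, ht, htT⟩
    rw [hf] at htT
    show f n ∈ Z i
    rw [htT]; exact ht
  · intro hn
    exact ⟨f n, hn, (hf _ _).2 rfl⟩

theorem IFam.fst {d : N.M} {Z : N.M → Set ℕ} (h : N.IFam d Z) (hT : fstT ∈ 𝒯) :
    N.IFam d (fun i => {n | (Nat.unpair n).1 ∈ Z i}) :=
  h.preimage hT (fun n k => by simp [fstT])

theorem IFam.snd {d : N.M} {Z : N.M → Set ℕ} (h : N.IFam d Z) (hT : sndT ∈ 𝒯) :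
    N.IFam d (fun i => {n | (Nat.unpair n).2 ∈ Z i}) :=
  h.preimage hT (fun n k => by simp [sndT])

/-- Coded product. -/
theorem IFam.prod {d : N.M} {Z Z' : N.M → Set ℕ} (h : N.IFam d Z) (h' : N.IFam d Z')
    (h1 : fstT ∈ 𝒯) (h2 : sndT ∈ 𝒯) :
    N.IFam d (fun i => {n | (Nat.unpair n).1 ∈ Z i ∧ (Nat.unpair n).2 ∈ Z' i}) :=
  (h.fst h1).inter (h'.snd h2)

/-- Binary operations: from `Z` and `Z'` we get `{n | ∃ a ∈ Z i, ∃ b ∈ Z' i, (n, (a, b)) ∈ T}`. -/
theorem IFam.image2 {d : N.M} {Z Z' : N.M → Set ℕ} (h : N.IFam d Z) (h' : N.IFam d Z')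
    (h1 : fstT ∈ 𝒯) (h2 : sndT ∈ 𝒯) {T : Set ℕ} (hT : T ∈ 𝒯) :
    N.IFam d (fun i => {n | ∃ a ∈ Z i, ∃ b ∈ Z' i, Nat.pair n (Nat.pair a b) ∈ T}) := by
  refine ((h.prod h' h1 h2).image hT).congr fun i _ => ?_
  ext n
  constructor
  · rintro ⟨t, ht, htT⟩
    exact ⟨_, ht.1, _, ht.2, by rw [Nat.pair_unpair]; exact htT⟩
  · rintro ⟨a, ha, b, hb, hT⟩
    exact ⟨Nat.pair a b, by simpa using ⟨ha, hb⟩, hT⟩

theorem IFam.mono {d d' : N.M} {Z : N.M → Set ℕ} (h : N.IFam d Z) (hd : Sub N.E d' d) :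
    N.IFam d' Z := by
  obtain ⟨z, hz⟩ := h
  exact ⟨z, fun i hi n => hz i (hd i hi) n⟩

/-- Reindexing along a function of the model. -/
theorem IFam.reindex {d d' : N.M} {Z : N.M → Set ℕ} (h : N.IFam d' Z) {f : N.M}
    (hf : IsFun N.E f d d') {F : N.M → N.M} (hF : ∀ i, N.E i d → Rel N.E f i (F i)) :
    N.IFam d (fun i => Z (F i)) := by
  obtain ⟨z, hz⟩ := h
  refine (exists_fam (N := N)
    (pairCode (fun x y => codeStr.ex fun k => codeStr.and (fRel codeStr 1 x k)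
      (fRel codeStr 2 k y)) 10) (asn z [f, z])
    (P := fun i x => ∃ k, Rel N.E f i k ∧ Rel N.E z k x) (fun x => Iff.rfl) d).congr ?_
  intro i hi
  have h1 := hF i hi
  have h2 := (IsFun.mem N.zf hf h1).2
  ext n
  constructor
  · rintro ⟨k, h3, h4⟩
    rw [IsFun.uniq N.zf hf h3 h1] at h4
    exact (hz _ h2 n).1 h4
  · intro hn
    exact ⟨F i, h1, (hz _ h2 n).2 hn⟩

/-- A constant family. -/
theorem PM.fam {X : Set ℕ} (h : N.PM X) (d : N.M) : N.IFam d (fun _ => X) := by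
  obtain ⟨x, hx, rfl⟩ := h
  refine (exists_fam (N := N)
    (pairCode (fun i y => codeStr.mem y 1) 10) (asn x [x])
    (P := fun i y => N.E y x) (fun x => Iff.rfl) d).congr ?_
  intro i hi
  rfl

theorem om_ne : N.E (N.nat 0) N.om := N.nat_om 0

/-- Transfer closure properties from families to sets. -/
theorem PM.of_fam {X : Set ℕ} (h : N.IFam N.om (fun _ => X)) : N.PM X := h.section (N.nat_om 0)

theorem PM.compl {X : Set ℕ} (h : N.PM X) : N.PM Xᶜ := PM.of_fam (h.fam N.om).compl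

theorem PM.inter {X Y : Set ℕ} (h : N.PM X) (h' : N.PM Y) : N.PM (X ∩ Y) :=
  PM.of_fam ((h.fam N.om).inter (h'.fam N.om))

theorem PM.union {X Y : Set ℕ} (h : N.PM X) (h' : N.PM Y) : N.PM (X ∪ Y) :=
  PM.of_fam ((h.fam N.om).union (h'.fam N.om))

theorem PM.univ : N.PM Set.univ := PM.of_fam (IFam.univ N.om)

theorem PM.empty : N.PM ∅ := PM.of_fam (IFam.empty N.om)

theorem PM.image {X : Set ℕ} (h : N.PM X) {T : Set ℕ} (hT : T ∈ 𝒯) :
    N.PM {n | ∃ k ∈ X, Nat.pair n k ∈ T} := PM.of_fam ((h.fam N.om).image hT)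

theorem PM.const' {X T : Set ℕ} (hT : T ∈ 𝒯)
    (h : ∀ n, n ∈ X ↔ ∃ k, Nat.pair n k ∈ T) : N.PM X := PM.of_fam (IFam.const' N.om hT h)

theorem PM.proj {X : Set ℕ} (h : N.PM X) (hT : projT ∈ 𝒯) :
    N.PM {n | ∃ k, Nat.pair n k ∈ X} := PM.of_fam ((h.fam N.om).proj hT)

theorem PM.preimage {X : Set ℕ} (h : N.PM X) {f : ℕ → ℕ} {T : Set ℕ}
    (hT : T ∈ 𝒯) (hf : ∀ n k, Nat.pair n k ∈ T ↔ f n = k) : N.PM {n | f n ∈ X} :=
  PM.of_fam ((h.fam N.om).preimage hT hf)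

theorem PM.fst {X : Set ℕ} (h : N.PM X) (hT : fstT ∈ 𝒯) : N.PM {n | (Nat.unpair n).1 ∈ X} :=
  PM.of_fam ((h.fam N.om).fst hT)

theorem PM.snd {X : Set ℕ} (h : N.PM X) (hT : sndT ∈ 𝒯) : N.PM {n | (Nat.unpair n).2 ∈ X} :=
  PM.of_fam ((h.fam N.om).snd hT)

theorem PM.prod {X Y : Set ℕ} (h : N.PM X) (h' : N.PM Y) (h1 : fstT ∈ 𝒯) (h2 : sndT ∈ 𝒯) :
    N.PM {n | (Nat.unpair n).1 ∈ X ∧ (Nat.unpair n).2 ∈ Y} := (h.fst h1).inter (h'.snd h2)

theorem PM.image2 {X Y : Set ℕ} (h : N.PM X) (h' : N.PM Y)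
    (h1 : fstT ∈ 𝒯) (h2 : sndT ∈ 𝒯) {T : Set ℕ} (hT : T ∈ 𝒯) :
    N.PM {n | ∃ a ∈ X, ∃ b ∈ Y, Nat.pair n (Nat.pair a b) ∈ T} :=
  PM.of_fam ((h.fam N.om).image2 (h'.fam N.om) h1 h2 hT)

/-- Singletons belong to the model. -/
theorem PM.singleton (k : ℕ) : N.PM {k} := by
  have := exists_set (N := N) (.eq 0 1) (asn (N.nat k) [N.nat k])
    (P := fun x => x = N.nat k) (fun x => Iff.rfl)
  have h2 : {n | N.nat n = N.nat k} = {k} := by
    ext n
    exact ⟨fun h => N.nat_inj h, fun h => by rw [Set.mem_singleton_iff.1 h]; rfl⟩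
  rwa [h2] at this

/-- Finite sets belong to the model. -/
theorem PM.finite {X : Set ℕ} (h : X.Finite) : N.PM X := by
  induction X, h using Set.Finite.induction_on with
  | empty => exact PM.empty
  | insert _ _ ih => exact (PM.singleton _).union ih

/-- The power set of `ω`. -/
theorem exists_pow_om : ∃ p, ∀ z, N.E z p ↔ Sub N.E z N.om := N.zf.power N.om

/-- A family of sets of natural numbers as a function into the power set of `ω`. -/
theorem IFam.toFun {d : N.M} {Z : N.M → Set ℕ} (h : N.IFam d Z) {p : N.M}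
    (hp : ∀ z, N.E z p ↔ Sub N.E z N.om) :
    ∃ f, IsFun N.E f d p ∧ ∀ i x, Rel N.E f i x ↔ (N.E i d ∧ Sub N.E x N.om ∧ N.val x = Z i) := by
  obtain ⟨z, hz⟩ := h
  have hiff : ∀ i, N.E i d → ∀ x, Sub N.E x N.om →
      ((∀ y, N.E y N.om → (N.E y x ↔ Rel N.E z i y)) ↔ N.val x = Z i) := by
    intro i hi x hx
    constructor
    · intro h
      ext n
      rw [N.mem_val, h _ (N.nat_om n), hz i hi]
    · rintro h y hy
      obtain ⟨n, rfl⟩ := (N.E_om y).1 hy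
      rw [hz i hi, ← h]
      rfl
  obtain ⟨f, hf1, hf2⟩ := exists_rel N.zf (pairCode (fun i x => codeStr.all fun y =>
      codeStr.imp (codeStr.mem y 2) (codeStr.iff (codeStr.mem y x) (fRel codeStr 1 i y))) 10)
    (asn z [z, N.om]) (P := fun i x => ∀ y, N.E y N.om → (N.E y x ↔ Rel N.E z i y))
    (fun x => Iff.rfl) d p
  have key : ∀ i x, Rel N.E f i x ↔ (N.E i d ∧ Sub N.E x N.om ∧ N.val x = Z i) := by
    intro i x
    rw [hf2]
    constructor
    · rintro ⟨h1, h2, h3⟩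
      exact ⟨h1, (hp x).1 h2, (hiff i h1 x ((hp x).1 h2)).1 h3⟩
    · rintro ⟨h1, h2, h3⟩
      exact ⟨h1, (hp x).2 h2, (hiff i h1 x h2).2 h3⟩
  refine ⟨f, isFun_of N.zf (fun w hw => ?_) (fun i hi => ?_) (fun i x x' h1 h2 => ?_), key⟩
  · obtain ⟨x, y, h1, h2, h3, -⟩ := hf1 w hw
    exact ⟨x, y, h1, h2, h3⟩
  · obtain ⟨x, hx1, hx2⟩ := (show N.IFam d Z from ⟨z, hz⟩).section hi
    exact ⟨x, (key i x).2 ⟨hi, hx1, hx2⟩⟩
  · have h3 := (key i x).1 h1
    have h4 := (key i x').1 h2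
    exact N.eq_of_val h3.2.1 h4.2.1 (h3.2.2.trans h4.2.2.symm)

/-- A function whose values are sets gives an internal family of sets of natural numbers. -/
theorem IFam.ofFun {d b f : N.M} (hf : IsFun N.E f d b) :
    N.IFam d (fun i => {n | ∃ x, Rel N.E f i x ∧ N.E (N.nat n) x}) :=
  exists_fam (N := N)
    (pairCode (fun i y => codeStr.ex fun x => codeStr.and (fRel codeStr 1 i x)
      (codeStr.mem y x)) 10) (asn f [f])
    (P := fun i y => ∃ x, Rel N.E f i x ∧ N.E y x) (fun x => Iff.rfl) d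

/-- Choice for families of sets of natural numbers: `P i x` is given by a code. -/
theorem choice_fam (φ : Fml) (f : ℕ → N.M) {P : N.M → N.M → Prop}
    (h : ∀ z, (∃ x y, IsPair N.E z x y ∧ P x y) ↔ φ.eval (propStr N.E) (upd f 0 z)) (d : N.M)
    (hd : ∀ i, N.E i d → ∃ x, Sub N.E x N.om ∧ P i x) :
    ∃ Z : N.M → Set ℕ, N.IFam d Z ∧
      ∀ i, N.E i d → ∃ x, Sub N.E x N.om ∧ N.val x = Z i ∧ P i x := by
  obtain ⟨p, hp⟩ := exists_pow_om (N := N)
  obtain ⟨g, hg1, hg2⟩ := choice_of N.zfc φ f h d p (fun i hi => by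
    obtain ⟨x, hx, hP⟩ := hd i hi
    exact ⟨x, (hp x).2 hx, hP⟩)
  refine ⟨_, IFam.ofFun hg1, fun i hi => ?_⟩
  obtain ⟨x, hx, hx'⟩ := hg1.2 i hi
  refine ⟨x, (hp x).1 (IsFun.mem N.zf hg1 hx).2, ?_, hg2 i x hx⟩
  ext n
  constructor
  · intro hn
    exact ⟨x, hx, hn⟩
  · rintro ⟨x', h1, h2⟩
    rw [hx' x' h1] at h2
    exact h2

end Nice

end Pool.Agent.H83.F
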