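import Pool.Agent.H83.F.Gen
import Pool.Agent.H83.F.Defs
import Pool.Agent.H86.Rel

/-!
# Tools for computing what is forced
-/

set_option linter.unusedVariables false
set_option linter.unusedSectionVars false

universe u v w

namespace Pool.Agent.H83.F

open Pool.Agent.H86 Pool.Agent.H86.Name

variable {Q : Type u} [Preorder Q] [OrderTop Q]

/-! ### Pairs -/

theorem feq_of_forall' (X Y : Name Q) (p : Q)
    (h : ∀ T : Name Q, ∀ q ≤ p, fmem T X q ↔ fmem T Y q) : feq X Y p := by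
  rw [feq_iff_mem]
  refine ⟨fun i q' hq' hi => ?_, fun i q' hq' hi => ?_⟩
  · exact (h _ q' hq').1 (fmem_el hi)
  · exact (h _ q' hq').2 (fmem_el hi)

theorem holds_fUPair {Z A B : Name Q} {p : Q} :
    (fUPair (FS Q) Z A B).holds p ↔ feq Z (upair A B) p := by
  constructor
  · intro h
    refine feq_of_forall' Z (upair A B) p fun T q hq => ?_
    constructor
    · intro hT
      exact fmem_upair.2 ((h T).1 q hq hT)
    · intro hT
      exact (h T).2 q hq (fmem_upair.1 hT)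
  · intro h T
    refine ⟨fun q hq hT => ?_, fun q hq hT => ?_⟩
    · exact fmem_upair.1 (fmem_congr_right (feq_mono hq h) hT)
    · exact fmem_congr_right (feq_symm (feq_mono hq h)) (fmem_upair.2 hT)

theorem holds_fPr {Z A B : Name Q} {p : Q} :
    (fPr (FS Q) Z A B).holds p ↔ feq Z (opair A B) p := by
  have key : ∀ (T : Name Q) (q : Q),
      ((FS Q).or (fUPair (FS Q) T A A) (fUPair (FS Q) T A B)).holds q ↔
      fmem T (opair A B) q := by
    intro T q
    unfold opair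
    rw [fmem_upair]
    constructor
    · intro h q' hq'
      obtain ⟨r, hr, h'⟩ := h q' hq'
      rw [holds_fUPair, holds_fUPair] at h'
      exact ⟨r, hr, h'⟩
    · intro h q' hq'
      obtain ⟨r, hr, h'⟩ := h q' hq'
      rw [← holds_fUPair (Z := T), ← holds_fUPair (Z := T)] at h'
      exact ⟨r, hr, h'⟩
  constructor
  · intro h
    refine feq_of_forall' Z (opair A B) p fun T q hq => ?_
    constructor
    · intro hT
      exact (key T q).1 ((h T).1 q hq hT)
    · intro hT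
      exact (h T).2 q hq ((key T q).2 hT)
  · intro h T
    refine ⟨fun q hq hT => ?_, fun q hq hT => ?_⟩
    · exact (key T q).2 (fmem_congr_right (feq_mono hq h) hT)
    · exact fmem_congr_right (feq_symm (feq_mono hq h)) ((key T q).1 hT)

/-- `p` forces `(X, Y) ∈ F` -/
abbrev RR (F X Y : Name Q) (p : Q) : Prop := fmem (opair X Y) F p

theorem holds_fRel {F X Y : Name Q} {p : Q} : (fRel (FS Q) F X Y).holds p ↔ RR F X Y p := by
  constructor
  · intro h
    apply fmem_reg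
    intro q hq
    obtain ⟨r, hr, Z, h1, h2⟩ := h q hq
    have h1' := holds_fPr.1 h1
    exact ⟨r, hr, fmem_congr_left h1' h2⟩
  · intro h q hq
    exact ⟨q, le_rfl, opair X Y, holds_fPr.2 (feq_refl _ _), fmem_mono hq h⟩

theorem RR_congr {F X Y F' X' Y' : Name Q} {p : Q} (h1 : feq F F' p) (h2 : feq X X' p)
    (h3 : feq Y Y' p) (h : RR F X Y p) : RR F' X' Y' p :=
  fmem_congr_left (opair_congr h2 h3) (fmem_congr_right h1 h)

/-! ### Congruence -/

/-- compatibility with forced equality -/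
def Cg (A : Name Q → Om Q) : Prop := ∀ x y p, feq x y p → (A x).holds p → (A y).holds p

theorem cg_const (A : Om Q) : Cg fun _ : Name Q => A := fun _ _ _ _ h => h

theorem cg_mem1 (a : Name Q) : Cg fun x => (FS Q).mem x a := fun _ _ _ h h' =>
  fmem_congr_left h h'

theorem cg_mem2 (a : Name Q) : Cg fun x => (FS Q).mem a x := fun _ _ _ h h' =>
  fmem_congr_right h h'

theorem cg_eq1 (a : Name Q) : Cg fun x => (FS Q).eq x a := fun _ _ _ h h' =>
  feq_trans (feq_symm h) h'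

theorem cg_eq2 (a : Name Q) : Cg fun x => (FS Q).eq a x := fun _ _ _ h h' =>
  feq_trans h' h

theorem cg_rel1 (a b : Name Q) : Cg fun x => fRel (FS Q) x a b := fun _ _ _ h h' =>
  holds_fRel.2 (RR_congr h (feq_refl _ _) (feq_refl _ _) (holds_fRel.1 h'))

theorem cg_rel2 (a b : Name Q) : Cg fun x => fRel (FS Q) a x b := fun _ _ _ h h' =>
  holds_fRel.2 (RR_congr (feq_refl _ _) h (feq_refl _ _) (holds_fRel.1 h'))

theorem cg_rel3 (a b : Name Q) : Cg fun x => fRel (FS Q) a b x := fun _ _ _ h h' =>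
  holds_fRel.2 (RR_congr (feq_refl _ _) (feq_refl _ _) h (holds_fRel.1 h'))

theorem cg_imp {A B : Name Q → Om Q} (hA : Cg A) (hB : Cg B) :
    Cg fun x => (FS Q).imp (A x) (B x) := fun x y p h h' q hq hAq =>
  hB x y q (feq_mono hq h) (h' q hq (hA y x q (feq_symm (feq_mono hq h)) hAq))

theorem cg_and {A B : Name Q → Om Q} (hA : Cg A) (hB : Cg B) :
    Cg fun x => (FS Q).and (A x) (B x) := fun x y p h h' => ⟨hA x y p h h'.1, hB x y p h h'.2⟩

theorem cg_or {A B : Name Q → Om Q} (hA : Cg A) (hB : Cg B) :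
    Cg fun x => (FS Q).or (A x) (B x) := fun x y p h h' q hq => by
  obtain ⟨r, hr, h1⟩ := h' q hq
  exact ⟨r, hr, h1.imp (hA x y r (feq_mono (hr.trans hq) h)) (hB x y r (feq_mono (hr.trans hq) h))⟩

theorem cg_iff {A B : Name Q → Om Q} (hA : Cg A) (hB : Cg B) :
    Cg fun x => (FS Q).iff (A x) (B x) :=
  cg_and (cg_imp hA hB) (cg_imp hB hA)

theorem cg_all {N : Type v} {A : Name Q → N → Om Q} (hA : ∀ y, Cg fun x => A x y) :
    Cg fun x => Om.all fun y => A x y := fun x y p h h' z => hA z x y p h (h' z)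

theorem cg_all' {A : Name Q → Name Q → Om Q} (hA : ∀ y, Cg fun x => A x y) :
    Cg fun x => (FS Q).all fun y => A x y := fun x y p h h' z => hA z x y p h (h' z)

theorem cg_ex' {A : Name Q → Name Q → Om Q} (hA : ∀ y, Cg fun x => A x y) :
    Cg fun x => (FS Q).ex fun y => A x y := fun x y p h h' q hq => by
  obtain ⟨r, hr, z, h1⟩ := h' q hq
  exact ⟨r, hr, z, hA z x y r (feq_mono (hr.trans hq) h) h1⟩

/-! ### Bounded quantifiers -/

/-- `∀ x ∈ a, A x` -/
abbrev ball {N : Type v} {Ω : Type w} (L : LogicStr N Ω) (a : N) (A : N → Ω) : Ω :=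
  L.all fun x => L.imp (L.mem x a) (A x)

/-- `∃ x ∈ a, A x` -/
abbrev bex {N : Type v} {Ω : Type w} (L : LogicStr N Ω) (a : N) (A : N → Ω) : Ω :=
  L.ex fun x => L.and (L.mem x a) (A x)

theorem ball_o {A : Name Q → Om Q} (hA : Cg A) {α : Ordinal.{u}} {p : Q} :
    (ball (FS Q) (oName Q α) A).holds p ↔ ∀ β < α, (A (oName Q β)).holds p := by
  constructor
  · intro h β hβ
    exact h (oName Q β) p le_rfl (fmem_oName_of_lt hβ p)
  · intro h x q hq hx
    apply (A x).reg
    intro r hr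
    obtain ⟨s, hs, β, hβ, h1⟩ := fmem_oName.1 hx r hr
    exact ⟨s, hs, hA _ _ _ (feq_symm h1) ((A _).mono (hs.trans (hr.trans hq)) (h β hβ))⟩

theorem bex_o {A : Name Q → Om Q} (hA : Cg A) {α : Ordinal.{u}} {p : Q} :
    (bex (FS Q) (oName Q α) A).holds p ↔ ∀ q ≤ p, ∃ r ≤ q, ∃ β < α, (A (oName Q β)).holds r := by
  constructor
  · intro h q hq
    obtain ⟨r, hr, x, h1, h2⟩ := h q hq
    obtain ⟨s, hs, β, hβ, h3⟩ := fmem_oName.1 h1 r le_rfl
    exact ⟨s, hs.trans hr, β, hβ, hA _ _ _ h3 ((A x).mono hs h2)⟩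
  · intro h q hq
    obtain ⟨r, hr, β, hβ, h1⟩ := h q hq
    exact ⟨r, hr, _, fmem_oName_of_lt hβ r, h1⟩

theorem ball_om {A : Name Q → Om Q} (hA : Cg A) {p : Q} :
    (ball (FS Q) (oName Q Ordinal.omega0) A).holds p ↔ ∀ n : ℕ, (A (oName Q n)).holds p := by
  rw [ball_o hA]
  constructor
  · exact fun h n => h n (Ordinal.nat_lt_omega0 n)
  · intro h β hβ
    obtain ⟨n, rfl⟩ := Ordinal.lt_omega0.1 hβ
    exact h n

theorem bex_om {A : Name Q → Om Q} (hA : Cg A) {p : Q} :
    (bex (FS Q) (oName Q Ordinal.omega0) A).holds p ↔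
      ∀ q ≤ p, ∃ r ≤ q, ∃ n : ℕ, (A (oName Q n)).holds r := by
  rw [bex_o hA]
  refine forall_congr' fun q => forall_congr' fun _ => exists_congr fun r =>
    and_congr_right fun _ => ?_
  constructor
  · rintro ⟨β, hβ, h⟩
    obtain ⟨n, rfl⟩ := Ordinal.lt_omega0.1 hβ
    exact ⟨n, h⟩
  · rintro ⟨n, h⟩
    exact ⟨n, Ordinal.nat_lt_omega0 n, h⟩

theorem holds_imp {A B : Om Q} {p : Q} :
    ((FS Q).imp A B).holds p ↔ ∀ q ≤ p, A.holds q → B.holds q := Iff.rfl

theorem holds_and {A B : Om Q} {p : Q} :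
    ((FS Q).and A B).holds p ↔ A.holds p ∧ B.holds p := Iff.rfl

theorem holds_or {A B : Om Q} {p : Q} :
    ((FS Q).or A B).holds p ↔ ∀ q ≤ p, ∃ r ≤ q, A.holds r ∨ B.holds r := Iff.rfl

theorem holds_all {A : Name Q → Om Q} {p : Q} :
    ((FS Q).all A).holds p ↔ ∀ x, (A x).holds p := Iff.rfl

theorem holds_ex {A : Name Q → Om Q} {p : Q} :
    ((FS Q).ex A).holds p ↔ ∀ q ≤ p, ∃ r ≤ q, ∃ x, (A x).holds r := Iff.rfl

theorem holds_mem {x y : Name Q} {p : Q} : ((FS Q).mem x y).holds p ↔ fmem x y p := Iff.rfl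

theorem holds_eq {x y : Name Q} {p : Q} : ((FS Q).eq x y).holds p ↔ feq x y p := Iff.rfl

/-! ### Names of sets and relations -/

theorem opair_o {α β γ δ : Ordinal.{u}} {p : Q} :
    feq (opair (oName Q α) (oName Q β)) (opair (oName Q γ) (oName Q δ)) p ↔
      α = γ ∧ β = δ := by
  rw [feq_opair_iff, feq_oName_iff, feq_oName_iff]

/-- name of a set of ordinals -/
noncomputable def setN (ι : Type u) (a : ι → Ordinal.{u}) (c : ι → Q) : Name Q :=
  Name.mk ι (fun i => oName Q (a i)) c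

theorem fmem_setN {ι : Type u} {a : ι → Ordinal.{u}} {c : ι → Q} {X : Name Q} {p : Q} :
    fmem X (setN ι a c) p ↔ ∀ q ≤ p, ∃ r ≤ q, ∃ i, r ≤ c i ∧ feq X (oName Q (a i)) r := Iff.rfl

theorem fmem_setN_o {ι : Type u} {a : ι → Ordinal.{u}} {c : ι → Q} {α : Ordinal.{u}} {p : Q} :
    fmem (oName Q α) (setN ι a c) p ↔ ∀ q ≤ p, ∃ r ≤ q, ∃ i, r ≤ c i ∧ a i = α := by
  rw [fmem_setN]
  refine forall_congr' fun q => forall_congr' fun _ => exists_congr fun r =>
    and_congr_right fun _ => exists_congr fun i => and_congr_right fun _ => ?_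
  rw [feq_oName_iff, eq_comm]

/-- name of a relation between ordinals -/
noncomputable def relO (ι : Type u) (a b : ι → Ordinal.{u}) (c : ι → Q) : Name Q :=
  relN ι (fun i => oName Q (a i)) (fun i => oName Q (b i)) c

theorem RR_relO {ι : Type u} {a b : ι → Ordinal.{u}} {c : ι → Q} {X Y : Name Q} {p : Q} :
    RR (relO ι a b c) X Y p ↔
      ∀ q ≤ p, ∃ r ≤ q, ∃ i, r ≤ c i ∧ feq X (oName Q (a i)) r ∧ feq Y (oName Q (b i)) r :=
  fmem_relN

theorem RR_relO_o {ι : Type u} {a b : ι → Ordinal.{u}} {c : ι → Q} {α β : Ordinal.{u}} {p : Q} :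
    RR (relO ι a b c) (oName Q α) (oName Q β) p ↔
      ∀ q ≤ p, ∃ r ≤ q, ∃ i, r ≤ c i ∧ a i = α ∧ b i = β := by
  rw [RR_relO]
  refine forall_congr' fun q => forall_congr' fun _ => exists_congr fun r =>
    and_congr_right fun _ => exists_congr fun i => and_congr_right fun _ => ?_
  rw [feq_oName_iff, feq_oName_iff, eq_comm, @eq_comm _ (b i)]

theorem fmem_relO {ι : Type u} {a b : ι → Ordinal.{u}} {c : ι → Q} {Z : Name Q} {p : Q} :
    fmem Z (relO ι a b c) p ↔
      ∀ q ≤ p, ∃ r ≤ q, ∃ i, r ≤ c i ∧ feq Z (opair (oName Q (a i)) (oName Q (b i))) r :=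
  Iff.rfl

end Pool.Agent.H83.F
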