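import Pool.Agent.H83.F.ZFC
import Pool.Agent.H86.Henkin

/-!
# Countable generic models with standard ordinals

A decreasing sequence of conditions and a countable set of names such that every formula with
parameters in the set is decided, every forced existential statement has a witness, and every
name forced to be an element of a canonical ordinal name is decided.
-/

set_option linter.unusedVariables false
set_option linter.unusedSectionVars false

universe u v w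

namespace Pool.Agent.H83.F

open Pool.Agent.H86 Pool.Agent.H86.Name

variable {Q : Type u} [Preorder Q] [OrderTop Q]

namespace Gen

open Pool.Agent.H86.SymSys.Henkin (Task task task_late)

/-- assignment associated to a list of indices -/
def asg (X : ℕ → Name Q) (l : List ℕ) : ℕ → Name Q := fun i => X (l.getD i 0)

open Classical in
/-- one step of the construction: witnesses for formulas -/
noncomputable def step1 (n : ℕ) (s : Q × (ℕ → Name Q)) : Q × (ℕ → Name Q) :=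
  if h : ∃ r : Q × Name Q, r.1 ≤ s.1 ∧
      (((task n).1.imp .bot).eval (FS Q) (upd (asg s.2 (task n).2.2) (task n).2.1 r.2)).holds r.1
  then (h.choose.1, upd s.2 (2 * n + 1) h.choose.2)
  else s

open Classical in
/-- decide an ordinal -/
noncomputable def step2 (i : ℕ) (s : Q × (ℕ → Name Q)) : Q × (ℕ → Name Q) :=
  if h : ∃ r ≤ s.1, ∃ α : Ordinal.{u}, feq (s.2 i) (oName Q α) r then (h.choose, s.2) else s

/-- the construction -/
noncomputable def st (p₀ : Q) (x₀ : ℕ → Name Q) : ℕ → Q × (ℕ → Name Q)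
  | 0 => (p₀, fun i => x₀ (i / 2))
  | n + 1 => step2 (Nat.unpair n).1 (step1 n (st p₀ x₀ n))

variable (p₀ : Q) (x₀ : ℕ → Name Q)

/-- conditions -/
noncomputable def qs (n : ℕ) : Q := (st p₀ x₀ n).1

/-- names -/
noncomputable def nms (i : ℕ) : Name Q := (st p₀ x₀ (i + 1)).2 i

theorem step1_le (n : ℕ) (s : Q × (ℕ → Name Q)) : (step1 n s).1 ≤ s.1 := by
  rw [step1]
  split_ifs with h
  · exact h.choose_spec.1
  · exact le_rfl

theorem step2_le (n : ℕ) (s : Q × (ℕ → Name Q)) : (step2 n s).1 ≤ s.1 := by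
  rw [step2]
  split_ifs with h
  · exact h.choose_spec.1
  · exact le_rfl

theorem step2_snd (n : ℕ) (s : Q × (ℕ → Name Q)) : (step2 n s).2 = s.2 := by
  rw [step2]
  split_ifs with h
  · rfl
  · rfl

theorem qs_succ (n : ℕ) : qs p₀ x₀ (n + 1) ≤ qs p₀ x₀ n := by
  unfold qs
  rw [st]
  exact (step2_le _ _).trans (step1_le _ _)

theorem qs_anti {m n : ℕ} (h : m ≤ n) : qs p₀ x₀ n ≤ qs p₀ x₀ m := by
  induction n, h using Nat.le_induction with
  | base => exact le_rfl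
  | succ n hn ih => exact (qs_succ p₀ x₀ n).trans ih

theorem qs_zero : qs p₀ x₀ 0 = p₀ := rfl

theorem st_snd_succ (n i : ℕ) (h : i ≠ 2 * n + 1) :
    (st p₀ x₀ (n + 1)).2 i = (st p₀ x₀ n).2 i := by
  rw [st, step2_snd, step1]
  split_ifs with h'
  · exact upd_ne _ _ h
  · rfl

theorem st_eq_nms {m i : ℕ} (h : i < m) : (st p₀ x₀ m).2 i = nms p₀ x₀ i := by
  induction m, h using Nat.le_induction with
  | base => rfl
  | succ m hm ih =>
    rw [st_snd_succ _ _ _ _ (by have : i + 1 ≤ m := hm; omega), ih]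

theorem nms_even (j : ℕ) : nms p₀ x₀ (2 * j) = x₀ j := by
  have : ∀ m, (st p₀ x₀ m).2 (2 * j) = x₀ j := by
    intro m
    induction m with
    | zero => simp [st]
    | succ m ih => rw [st_snd_succ _ _ _ _ (by omega), ih]
  exact this _

/-- Truth in the sense of the generic sequence. -/
def Tr (φ : Fml) (f : ℕ → ℕ) : Prop :=
  ∃ n, (φ.eval (FS Q) (fun i => nms p₀ x₀ (f i))).holds (qs p₀ x₀ n)

theorem key (φ : Fml) (k : ℕ) (f : ℕ → ℕ) :
    (∃ n, ∀ y, (φ.eval (FS Q) (upd (fun i => nms p₀ x₀ (f i)) k y)).holds (qs p₀ x₀ n)) ∨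
    (∃ n j, ((φ.imp .bot).eval (FS Q) (upd (fun i => nms p₀ x₀ (f i)) k
      (nms p₀ x₀ j))).holds (qs p₀ x₀ n)) := by
  classical
  set l : List ℕ := (List.range φ.bd).map f with hl
  obtain ⟨B, hB⟩ : ∃ B, ∀ i, l.getD i 0 < B := by
    refine ⟨(l.foldr max 0) + 1, fun i => ?_⟩
    rcases lt_or_ge i l.length with h | h
    · rw [List.getD_eq_getElem _ _ h]
      have : ∀ (l : List ℕ) (a : ℕ), a ∈ l → a ≤ l.foldr max 0 := by
        intro l
        induction l with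
        | nil => intro a ha; simp at ha
        | cons b l ih =>
          intro a ha
          rcases List.mem_cons.1 ha with rfl | ha
          · exact le_max_left _ _
          · exact (ih a ha).trans (le_max_right _ _)
      exact Nat.lt_succ_of_le (this l _ (List.getElem_mem h))
    · rw [List.getD_eq_default _ _ h]; omega
  obtain ⟨n, hn, ht⟩ := task_late (φ, k, l) B
  have hasg : ∀ i < φ.bd, asg (st p₀ x₀ n).2 l i = nms p₀ x₀ (f i) := by
    intro i hi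
    unfold asg
    rw [st_eq_nms p₀ x₀ ((hB i).trans_le hn)]
    congr 1
    rw [hl, List.getD_eq_getElem _ _ (by simpa using hi)]
    simp
  have hev : ∀ y, φ.eval (FS Q) (upd (asg (st p₀ x₀ n).2 l) k y) =
      φ.eval (FS Q) (upd (fun i => nms p₀ x₀ (f i)) k y) := by
    intro y
    apply Fml.eval_congr
    intro i hi
    by_cases hk : i = k
    · subst hk; simp
    · rw [upd_ne _ _ hk, upd_ne _ _ hk, hasg i hi]
  have hev' : ∀ y, (φ.imp .bot).eval (FS Q) (upd (asg (st p₀ x₀ n).2 l) k y) =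
      (φ.imp .bot).eval (FS Q) (upd (fun i => nms p₀ x₀ (f i)) k y) := by
    intro y
    simp only [Fml.eval]
    rw [hev y]
  by_cases h : ∃ r : Q × Name Q, r.1 ≤ (st p₀ x₀ n).1 ∧
      (((task n).1.imp .bot).eval (FS Q)
        (upd (asg (st p₀ x₀ n).2 (task n).2.2) (task n).2.1 r.2)).holds r.1
  · right
    refine ⟨n + 1, 2 * n + 1, ?_⟩
    have hst : step1 n (st p₀ x₀ n) = (h.choose.1, upd (st p₀ x₀ n).2 (2 * n + 1) h.choose.2) := by
      rw [step1, dif_pos h]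
    have h1 : nms p₀ x₀ (2 * n + 1) = h.choose.2 := by
      rw [← st_eq_nms p₀ x₀ (m := 2 * n + 2) (by omega)]
      have : ∀ m, n + 1 ≤ m → (st p₀ x₀ m).2 (2 * n + 1) = h.choose.2 := by
        intro m hm
        induction m, hm using Nat.le_induction with
        | base => rw [st, step2_snd, hst]; simp
        | succ m hm ih => rw [st_snd_succ _ _ _ _ (by omega), ih]
      exact this _ (by omega)
    have h2 : qs p₀ x₀ (n + 1) ≤ h.choose.1 := by
      unfold qs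
      rw [st]
      refine (step2_le _ _).trans ?_
      rw [hst]
    rw [h1, ← hev']
    have h3 := h.choose_spec.2
    simp only [ht] at h3
    exact Om.mono _ h2 (by simpa only [ht] using h3)
  · left
    refine ⟨n, fun y => ?_⟩
    rw [← hev]
    by_contra hc
    obtain ⟨r, hr, h'⟩ := Om.exists_not hc
    apply h
    refine ⟨(r, y), hr, ?_⟩
    simp only [ht]
    exact h'

theorem tr_mono {φ : Fml} {f : ℕ → ℕ} {m n : ℕ} (h : m ≤ n)
    (h1 : (φ.eval (FS Q) (fun i => nms p₀ x₀ (f i))).holds (qs p₀ x₀ m)) :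
    (φ.eval (FS Q) (fun i => nms p₀ x₀ (f i))).holds (qs p₀ x₀ n) :=
  (φ.eval (FS Q) _).mono (qs_anti p₀ x₀ h) h1

theorem dec (φ : Fml) (f : ℕ → ℕ) : Tr p₀ x₀ φ f ∨ Tr p₀ x₀ (φ.imp .bot) f := by
  have hfresh : ∀ (ψ : Fml), ψ.bd ≤ φ.bd → ∀ y,
      ψ.eval (FS Q) (upd (fun i => nms p₀ x₀ (f i)) φ.bd y) =
      ψ.eval (FS Q) (fun i => nms p₀ x₀ (f i)) := by
    intro ψ hψ y
    apply Fml.eval_congr
    intro i hi
    exact upd_ne _ _ (by omega)
  rcases key p₀ x₀ φ φ.bd f with ⟨n, h⟩ | ⟨n, j, h⟩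
  · left
    refine ⟨n, ?_⟩
    have := h (x₀ 0)
    rwa [hfresh φ le_rfl] at this
  · right
    refine ⟨n, ?_⟩
    rwa [hfresh (φ.imp .bot) (by simp [Fml.bd])] at h

theorem cons (φ : Fml) (f : ℕ → ℕ) (h1 : Tr p₀ x₀ φ f) (h2 : Tr p₀ x₀ (φ.imp .bot) f) :
    False := by
  obtain ⟨m, hm⟩ := h1
  obtain ⟨n, hn⟩ := h2
  have h1 := tr_mono p₀ x₀ (le_max_left m n) hm
  have h2 := tr_mono p₀ x₀ (le_max_right m n) hn
  exact h2 _ le_rfl h1

theorem tr_imp (φ ψ : Fml) (f : ℕ → ℕ) :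
    Tr p₀ x₀ (φ.imp ψ) f ↔ (Tr p₀ x₀ φ f → Tr p₀ x₀ ψ f) := by
  constructor
  · rintro ⟨m, hm⟩ ⟨n, hn⟩
    have h1 := tr_mono p₀ x₀ (le_max_left m n) hm
    have h2 := tr_mono p₀ x₀ (le_max_right m n) hn
    exact ⟨max m n, h1 _ le_rfl h2⟩
  · intro h
    rcases dec p₀ x₀ φ f with h1 | ⟨n, h1⟩
    · obtain ⟨n, hn⟩ := h h1
      exact ⟨n, fun q hq _ => (ψ.eval (FS Q) _).mono hq hn⟩
    · exact ⟨n, fun q hq hq' => (h1 q hq hq').elim⟩

theorem tr_and (φ ψ : Fml) (f : ℕ → ℕ) :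
    Tr p₀ x₀ (φ.and ψ) f ↔ (Tr p₀ x₀ φ f ∧ Tr p₀ x₀ ψ f) := by
  constructor
  · rintro ⟨m, hm⟩
    exact ⟨⟨m, hm.1⟩, ⟨m, hm.2⟩⟩
  · rintro ⟨⟨m, hm⟩, ⟨n, hn⟩⟩
    exact ⟨max m n, tr_mono p₀ x₀ (le_max_left m n) hm, tr_mono p₀ x₀ (le_max_right m n) hn⟩

theorem tr_or (φ ψ : Fml) (f : ℕ → ℕ) :
    Tr p₀ x₀ (φ.or ψ) f ↔ (Tr p₀ x₀ φ f ∨ Tr p₀ x₀ ψ f) := by
  constructor
  · rintro ⟨m, hm⟩
    rcases dec p₀ x₀ φ f with h1 | ⟨n1, h1⟩
    · exact Or.inl h1
    rcases dec p₀ x₀ ψ f with h2 | ⟨n2, h2⟩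
    · exact Or.inr h2
    exfalso
    set N := max m (max n1 n2)
    have a := tr_mono p₀ x₀ (n := N) (le_max_left _ _) hm
    have b := tr_mono p₀ x₀ (n := N) ((le_max_left _ _).trans (le_max_right _ _)) h1
    have c := tr_mono p₀ x₀ (n := N) ((le_max_right _ _).trans (le_max_right _ _)) h2
    obtain ⟨r, hr, h3 | h3⟩ := a _ le_rfl
    · exact b r hr h3
    · exact c r hr h3
  · rintro (⟨m, hm⟩ | ⟨m, hm⟩)
    · exact ⟨m, fun q hq => ⟨q, le_rfl, Or.inl ((φ.eval (FS Q) _).mono hq hm)⟩⟩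
    · exact ⟨m, fun q hq => ⟨q, le_rfl, Or.inr ((ψ.eval (FS Q) _).mono hq hm)⟩⟩

theorem tr_iff (φ ψ : Fml) (f : ℕ → ℕ) :
    Tr p₀ x₀ (φ.iff ψ) f ↔ (Tr p₀ x₀ φ f ↔ Tr p₀ x₀ ψ f) := by
  have h : Tr p₀ x₀ (φ.iff ψ) f ↔ Tr p₀ x₀ ((φ.imp ψ).and (ψ.imp φ)) f := Iff.rfl
  rw [h, tr_and, tr_imp, tr_imp]
  exact iff_iff_implies_and_implies.symm

theorem tr_all (k : ℕ) (φ : Fml) (f : ℕ → ℕ) :
    Tr p₀ x₀ (φ.all k) f ↔ ∀ j, Tr p₀ x₀ φ (upd f k j) := by
  have hj : ∀ j, (fun i => nms p₀ x₀ (upd f k j i)) =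
      upd (fun i => nms p₀ x₀ (f i)) k (nms p₀ x₀ j) := fun j => upd_comp _ _ _ _
  constructor
  · rintro ⟨m, hm⟩ j
    refine ⟨m, ?_⟩
    rw [hj]
    exact hm _
  · intro h
    rcases key p₀ x₀ φ k f with ⟨n, h1⟩ | ⟨n, j, h1⟩
    · exact ⟨n, h1⟩
    · exfalso
      refine cons p₀ x₀ φ _ (h j) ⟨n, ?_⟩
      rw [hj]
      exact h1

theorem tr_ex (k : ℕ) (φ : Fml) (f : ℕ → ℕ) :
    Tr p₀ x₀ (φ.ex k) f ↔ ∃ j, Tr p₀ x₀ φ (upd f k j) := by
  have hj : ∀ j, (fun i => nms p₀ x₀ (upd f k j i)) =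
      upd (fun i => nms p₀ x₀ (f i)) k (nms p₀ x₀ j) := fun j => upd_comp _ _ _ _
  constructor
  · rintro ⟨m, hm⟩
    rcases key p₀ x₀ (φ.imp .bot) k f with ⟨n, h1⟩ | ⟨n, j, h1⟩
    · exfalso
      obtain ⟨r, hr, x, hx⟩ := hm (qs p₀ x₀ (max m n)) (qs_anti _ _ (le_max_left _ _))
      exact h1 x r (hr.trans (qs_anti _ _ (le_max_right _ _))) hx
    · refine ⟨j, n, ?_⟩
      rw [hj]
      by_contra hc
      obtain ⟨q, hq, hq'⟩ := Om.exists_not hc
      exact h1 q hq hq'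
  · rintro ⟨j, m, hm⟩
    rw [hj] at hm
    exact ⟨m, fun q hq => ⟨q, le_rfl, _, (φ.eval (FS Q) _).mono hq hm⟩⟩

/-- Ordinals are decided. -/
theorem ord_dec (i : ℕ) {n : ℕ} {β : Ordinal.{u}}
    (h : fmem (nms p₀ x₀ i) (oName Q β) (qs p₀ x₀ n)) :
    ∃ m, ∃ α : Ordinal.{u}, feq (nms p₀ x₀ i) (oName Q α) (qs p₀ x₀ m) := by
  classical
  set k := Nat.pair i (max n (i + 1)) with hk
  have hk1 : max n (i + 1) ≤ k := Nat.right_le_pair _ _
  have hk2 : (Nat.unpair k).1 = i := by simp [hk]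
  have hki : i < k := lt_of_lt_of_le (Nat.lt_succ_self i) ((le_max_right _ _).trans hk1)
  refine ⟨k + 1, ?_⟩
  set s := step1 k (st p₀ x₀ k) with hs
  have hs2 : s.2 i = nms p₀ x₀ i := by
    rw [← st_eq_nms p₀ x₀ (m := k + 1) (by omega), st, step2_snd]
  have hs1 : s.1 ≤ qs p₀ x₀ n :=
    (step1_le _ _).trans (qs_anti p₀ x₀ ((le_max_left _ _).trans hk1))
  have hex : ∃ r ≤ s.1, ∃ α : Ordinal.{u}, feq (s.2 i) (oName Q α) r := by
    rw [hs2]
    obtain ⟨r, hr, α, _, hα⟩ := fmem_oName.1 h s.1 hs1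
    exact ⟨r, hr, α, hα⟩
  have h1 : st p₀ x₀ (k + 1) = (hex.choose, s.2) := by
    rw [st, hk2, ← hs, step2, dif_pos hex]
  unfold qs
  rw [h1]
  obtain ⟨α, hα⟩ := hex.choose_spec.2
  exact ⟨α, by rw [← hs2]; exact hα⟩

/-- the equivalence relation -/
def rel : Setoid ℕ where
  r := fun i j => ∃ n, (nms p₀ x₀ i).feq (nms p₀ x₀ j) (qs p₀ x₀ n)
  iseqv :=
    { refl := fun i => ⟨0, Name.feq_refl _ _⟩
      symm := fun ⟨n, h⟩ => ⟨n, Name.feq_symm h⟩
      trans := fun {i j k} ⟨m, h⟩ ⟨n, h'⟩ => ⟨max m n,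
        Name.feq_trans (Name.feq_mono (qs_anti _ _ (le_max_left _ _)) h)
          (Name.feq_mono (qs_anti _ _ (le_max_right _ _)) h')⟩ }

/-- the model -/
def Mod : Type := Quotient (rel p₀ x₀)

/-- the membership relation of the model -/
def modE : Mod p₀ x₀ → Mod p₀ x₀ → Prop :=
  Quotient.lift₂ (fun i j => ∃ n, (nms p₀ x₀ i).fmem (nms p₀ x₀ j) (qs p₀ x₀ n)) (by
    have : ∀ a b c d : ℕ, (rel p₀ x₀).r a c → (rel p₀ x₀).r b d →
        (∃ n, (nms p₀ x₀ a).fmem (nms p₀ x₀ b) (qs p₀ x₀ n)) →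
        ∃ n, (nms p₀ x₀ c).fmem (nms p₀ x₀ d) (qs p₀ x₀ n) := by
      rintro a b c d ⟨m, hm⟩ ⟨n, hn⟩ ⟨k, hk⟩
      set N := max m (max n k)
      refine ⟨N, Name.fmem_congr_left (Name.feq_mono (qs_anti _ _ (le_max_left _ _)) hm)
        (Name.fmem_congr_right
          (Name.feq_mono (qs_anti _ _ ((le_max_left _ _).trans (le_max_right _ _))) hn)
          (Name.fmem_mono (qs_anti _ _ ((le_max_right _ _).trans (le_max_right _ _))) hk))⟩
    intro a b c d hac hbd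
    exact propext ⟨this a b c d hac hbd,
      this c d a b ((rel p₀ x₀).symm hac) ((rel p₀ x₀).symm hbd)⟩)

/-- projection -/
def pr (i : ℕ) : Mod p₀ x₀ := Quotient.mk _ i

theorem pr_surj : Function.Surjective (pr p₀ x₀) := Quotient.exists_rep

theorem sat_iff (φ : Fml) : ∀ f : ℕ → ℕ,
    φ.eval (propStr (modE p₀ x₀)) (fun i => pr p₀ x₀ (f i)) ↔ Tr p₀ x₀ φ f := by
  induction φ with
  | mem i j => intro f; exact Iff.rfl
  | eq i j =>
    intro f
    exact Quotient.eq (r := rel p₀ x₀)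
  | bot =>
    intro f
    constructor
    · intro h; exact h.elim
    · rintro ⟨n, h⟩; exact h
  | imp φ ψ ih1 ih2 =>
    intro f
    rw [tr_imp, ← ih1, ← ih2]; rfl
  | and φ ψ ih1 ih2 =>
    intro f
    rw [tr_and, ← ih1, ← ih2]; rfl
  | or φ ψ ih1 ih2 =>
    intro f
    rw [tr_or, ← ih1, ← ih2]; rfl
  | iff φ ψ ih1 ih2 =>
    intro f
    rw [tr_iff, ← ih1, ← ih2]; rfl
  | all k φ ih =>
    intro f
    rw [tr_all]
    have h : (φ.all k).eval (propStr (modE p₀ x₀)) (fun i => pr p₀ x₀ (f i)) ↔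
        ∀ x, φ.eval (propStr (modE p₀ x₀)) (upd (fun i => pr p₀ x₀ (f i)) k x) := Iff.rfl
    rw [h, (pr_surj p₀ x₀).forall]
    refine forall_congr' fun j => ?_
    rw [← ih, upd_comp (pr p₀ x₀)]
  | ex k φ ih =>
    intro f
    rw [tr_ex]
    have h : (φ.ex k).eval (propStr (modE p₀ x₀)) (fun i => pr p₀ x₀ (f i)) ↔
        ∃ x, φ.eval (propStr (modE p₀ x₀)) (upd (fun i => pr p₀ x₀ (f i)) k x) := Iff.rfl
    rw [h, (pr_surj p₀ x₀).exists]
    refine exists_congr fun j => ?_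
    rw [← ih, upd_comp (pr p₀ x₀)]

end Gen

/-- A countable generic model: a structure `(M, E)` whose elements are named, together with a
decreasing sequence of conditions that decides all formulas. -/
structure GModel (Q : Type u) [Preorder Q] [OrderTop Q] where
  /-- the universe -/
  M : Type
  /-- membership -/
  E : M → M → Prop
  /-- the conditions -/
  qs : ℕ → Q
  /-- the naming relation -/
  Nm : M → Name Q → Prop
  anti : ∀ {m n : ℕ}, m ≤ n → qs n ≤ qs m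
  named : ∀ m, ∃ x, Nm m x
  congr : ∀ {m x y n}, Nm m x → feq x y (qs n) → Nm m y
  truth : ∀ (φ : Fml) (f : ℕ → M) (g : ℕ → Name Q), (∀ i, Nm (f i) (g i)) →
    (φ.eval (propStr E) f ↔ ∃ n, (φ.eval (FS Q) g).holds (qs n))
  ord : ∀ {m x β n}, Nm m x → fmem x (oName Q β) (qs n) → ∃ α < β, Nm m (oName Q α)

/-- **Existence of generic models.** -/
theorem exists_gmodel (p₀ : Q) (x₀ : ℕ → Name Q) :
    ∃ G : GModel Q, G.qs 0 = p₀ ∧ ∀ i, ∃ m, G.Nm m (x₀ i) := by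
  refine ⟨{
    M := Gen.Mod p₀ x₀
    E := Gen.modE p₀ x₀
    qs := Gen.qs p₀ x₀
    Nm := fun m x => ∃ j n, Gen.pr p₀ x₀ j = m ∧ feq (Gen.nms p₀ x₀ j) x (Gen.qs p₀ x₀ n)
    anti := fun h => Gen.qs_anti p₀ x₀ h
    named := ?_
    congr := ?_
    truth := ?_
    ord := ?_ }, rfl, ?_⟩
  · intro m
    obtain ⟨j, hj⟩ := Gen.pr_surj p₀ x₀ m
    exact ⟨_, j, 0, hj, feq_refl _ _⟩
  · rintro m x y n ⟨j, k, h1, h2⟩ h3
    exact ⟨j, max k n, h1, feq_trans (feq_mono (Gen.qs_anti p₀ x₀ (le_max_left _ _)) h2)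
      (feq_mono (Gen.qs_anti p₀ x₀ (le_max_right _ _)) h3)⟩
  · intro φ f g h
    choose w nn hw1 hw2 using h
    have e1 : f = fun i => Gen.pr p₀ x₀ (w i) := funext fun i => (hw1 i).symm
    rw [e1, Gen.sat_iff]
    obtain ⟨N, hN⟩ : ∃ N, ∀ i < φ.bd, nn i ≤ N :=
      ⟨(Finset.range φ.bd).sup nn, fun i hi => Finset.le_sup (f := nn) (Finset.mem_range.2 hi)⟩
    have key : ∀ n, N ≤ n → ((φ.eval (FS Q) fun i => Gen.nms p₀ x₀ (w i)).holds
        (Gen.qs p₀ x₀ n) ↔ (φ.eval (FS Q) g).holds (Gen.qs p₀ x₀ n)) := by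
      intro n hn
      apply eval_eq_iff
      intro i hi
      exact feq_mono (Gen.qs_anti p₀ x₀ ((hN i hi).trans hn)) (hw2 i)
    constructor
    · rintro ⟨n, hn⟩
      refine ⟨max n N, (key _ (le_max_right _ _)).1 ?_⟩
      exact Om.mono _ (Gen.qs_anti p₀ x₀ (le_max_left _ _)) hn
    · rintro ⟨n, hn⟩
      refine ⟨max n N, (key _ (le_max_right _ _)).2 ?_⟩
      exact Om.mono _ (Gen.qs_anti p₀ x₀ (le_max_left _ _)) hn
  · rintro m x β n ⟨j, k, h1, h2⟩ h3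
    have h4 : fmem (Gen.nms p₀ x₀ j) (oName Q β) (Gen.qs p₀ x₀ (max k n)) :=
      fmem_congr_left (feq_symm (feq_mono (Gen.qs_anti p₀ x₀ (le_max_left _ _)) h2))
        (fmem_mono (Gen.qs_anti p₀ x₀ (le_max_right _ _)) h3)
    obtain ⟨l, α, hα⟩ := Gen.ord_dec p₀ x₀ j h4
    refine ⟨α, ?_, j, l, h1, hα⟩
    have h5 := fmem_congr_left (feq_mono (Gen.qs_anti p₀ x₀ (le_max_right (max k n) l)) hα)
      (fmem_mono (Gen.qs_anti p₀ x₀ (le_max_left (max k n) l)) h4)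
    exact fmem_oName_iff.1 h5
  · intro i
    exact ⟨_, 2 * i, 0, rfl, by rw [Gen.nms_even]; exact feq_refl _ _⟩

end Pool.Agent.H83.F
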