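import Pool.Agent.H83.F.Nice

/-!
# Basic set theory inside a model of ZFC

Separation for predicates given by codes, ordered pairs, relations, choice functions.

How to use separation: write the predicate polymorphically, e.g.
`def fP {N : Type v} {Ω : Type w} (L : LogicStr N Ω) (p x : N) : Ω := ...`; then
`sep_of hE (fP codeStr 1 0 10) (asn p [p]) (fun x => Iff.rfl) a` gives the set
`{x ∈ a | fP (propStr E) p x}`. Variable `0` is `x`, variables `1, 2, ...` are the entries of the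
list of parameters, and `10` is the first fresh variable (choose it larger than the number of
parameters).
-/

universe v w

namespace Pool.Agent.H83.F

open Pool.Agent.H86

/-- Assignment of parameters: variable `i + 1` gets the `i`-th entry of the list. -/
def asn {M : Type} (m : M) (l : List M) : ℕ → M := fun i => l.getD (i - 1) m

section ZF

variable {M : Type} {E : M → M → Prop} (hE : IsZFModel E)
include hE

theorem sep_of (φ : Fml) (f : ℕ → M) {P : M → Prop}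
    (h : ∀ x, P x ↔ φ.eval (propStr E) (upd f 0 x)) (a : M) :
    ∃ b, ∀ x, E x b ↔ (E x a ∧ P x) := by
  obtain ⟨b, hb⟩ := hE.sep φ f a
  refine ⟨b, fun x => ?_⟩
  rw [hb, sat_eq_eval, ← h]

theorem exists_upair (a b : M) : ∃ z, IsUPair E z a b := hE.pair a b

theorem upair_unique {z z' a b : M} (h : IsUPair E z a b) (h' : IsUPair E z' a b) : z = z' :=
  hE.ext _ _ fun t => (h t).trans (h' t).symm

theorem exists_pair (a b : M) : ∃ z, IsPair E z a b := by
  obtain ⟨u, hu⟩ := hE.pair a a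
  obtain ⟨v, hv⟩ := hE.pair a b
  obtain ⟨z, hz⟩ := hE.pair u v
  refine ⟨z, fun w => ?_⟩
  rw [hz]
  constructor
  · rintro (rfl | rfl)
    · exact Or.inl hu
    · exact Or.inr hv
  · rintro (h | h)
    · exact Or.inl (upair_unique hE h hu)
    · exact Or.inr (upair_unique hE h hv)

theorem pair_unique {z z' a b : M} (h : IsPair E z a b) (h' : IsPair E z' a b) : z = z' :=
  hE.ext _ _ fun t => (h t).trans (h' t).symm

theorem pair_inj {z a b c d : M} (h1 : IsPair E z a b) (h2 : IsPair E z c d) :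
    a = c ∧ b = d := by
  have hac : a = c := by
    obtain ⟨s, hs⟩ := hE.pair a a
    have h3 : E s z := (h1 s).2 (Or.inl hs)
    rcases (h2 s).1 h3 with h | h
    · have h4 := (hs c).1 ((h c).2 (Or.inl rfl))
      rcases h4 with h4 | h4 <;> exact h4.symm
    · have h4 := (hs c).1 ((h c).2 (Or.inl rfl))
      rcases h4 with h4 | h4 <;> exact h4.symm
  refine ⟨hac, ?_⟩
  subst hac
  obtain ⟨u, hu⟩ := hE.pair a b
  obtain ⟨v, hv⟩ := hE.pair a d
  have hu' : E u z := (h1 u).2 (Or.inr hu)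
  have hv' : E v z := (h2 v).2 (Or.inr hv)
  have hb : b = a ∨ b = d := by
    rcases (h2 u).1 hu' with h | h
    · have := (h b).1 ((hu b).2 (Or.inr rfl))
      tauto
    · exact (h b).1 ((hu b).2 (Or.inr rfl))
  have hd : d = a ∨ d = b := by
    rcases (h1 v).1 hv' with h | h
    · have := (h d).1 ((hv d).2 (Or.inr rfl))
      tauto
    · exact (h d).1 ((hv d).2 (Or.inr rfl))
  rcases hb with rfl | hb
  · rcases hd with hd | hd <;> exact hd.symm
  · exact hb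

theorem rel_of_pair {f z x y : M} (h : IsPair E z x y) : Rel E f x y ↔ E z f := by
  constructor
  · rintro ⟨z', h1, h2⟩
    rwa [pair_unique hE h h1]
  · exact fun h' => ⟨z, h, h'⟩

theorem not_mem_self (x : M) : ¬ E x x := by
  intro h
  obtain ⟨s, hs⟩ := hE.pair x x
  obtain ⟨y, hy, hy'⟩ := hE.found s ⟨x, (hs x).2 (Or.inl rfl)⟩
  have : y = x := by rcases (hs y).1 hy with h | h <;> exact h
  subst this
  exact hy' y hy h

theorem not_mem_mem {x y : M} (h : E x y) : ¬ E y x := by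
  intro h'
  obtain ⟨s, hs⟩ := hE.pair x y
  obtain ⟨t, ht, ht'⟩ := hE.found s ⟨x, (hs x).2 (Or.inl rfl)⟩
  rcases (hs t).1 ht with rfl | rfl
  · exact ht' y ((hs y).2 (Or.inr rfl)) h'
  · exact ht' x ((hs x).2 (Or.inl rfl)) h

/-- the formula `z ∈ a × b` -/
def fProd {N : Type v} {Ω : Type w} (L : LogicStr N Ω) (a b z : N) : Ω :=
  L.ex fun x => L.ex fun y => L.and (fPr L z x y) (L.and (L.mem x a) (L.mem y b))

theorem exists_prod (a b : M) :
    ∃ c, ∀ z, E z c ↔ ∃ x y, IsPair E z x y ∧ E x a ∧ E y b := by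
  obtain ⟨s, hs⟩ := hE.pair a b
  obtain ⟨U, hU⟩ := hE.union s
  obtain ⟨p1, hp1⟩ := hE.power U
  obtain ⟨p2, hp2⟩ := hE.power p1
  obtain ⟨c, hc⟩ := sep_of hE (fProd codeStr 1 2 0 10) (asn a [a, b])
    (P := fun z => ∃ x y, IsPair E z x y ∧ E x a ∧ E y b) (fun x => Iff.rfl) p2
  refine ⟨c, fun z => ?_⟩
  rw [hc]
  constructor
  · exact fun h => h.2
  · rintro ⟨x, y, hz, hx, hy⟩
    refine ⟨?_, x, y, hz, hx, hy⟩
    rw [hp2]
    intro w hw
    rw [hp1]
    intro t ht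
    rw [hU]
    rcases (hz w).1 hw with h | h
    · have : t = x := by rcases (h t).1 ht with h | h <;> exact h
      exact ⟨a, (hs a).2 (Or.inl rfl), this ▸ hx⟩
    · rcases (h t).1 ht with rfl | rfl
      · exact ⟨a, (hs a).2 (Or.inl rfl), hx⟩
      · exact ⟨b, (hs b).2 (Or.inr rfl), hy⟩

/-- Code of `z is a pair (x, y) with P x y`. -/
def pairCode (P : ℕ → ℕ → ℕ → Fml) (d : ℕ) : Fml :=
  (codeStr.ex fun x => codeStr.ex fun y => codeStr.and (fPr codeStr 0 x y) (P x y)) d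

/-- Relations exist: to obtain the relation `{(x, y) ∈ a × b | F (propStr E) p x y}` use
`exists_rel hE (pairCode (fun x y => F codeStr 1 x y) 10) (asn p [p]) (fun z => Iff.rfl) a b`. -/
theorem exists_rel (φ : Fml) (f : ℕ → M) {P : M → M → Prop}
    (h : ∀ z, (∃ x y, IsPair E z x y ∧ P x y) ↔ φ.eval (propStr E) (upd f 0 z)) (a b : M) :
    ∃ r, (∀ z, E z r → ∃ x y, IsPair E z x y ∧ E x a ∧ E y b ∧ P x y) ∧
      ∀ x y, Rel E r x y ↔ (E x a ∧ E y b ∧ P x y) := by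
  obtain ⟨c, hc⟩ := exists_prod hE a b
  obtain ⟨r, hr⟩ := sep_of hE φ f (P := fun z => ∃ x y, IsPair E z x y ∧ P x y) h c
  have key : ∀ z, E z r ↔ ∃ x y, IsPair E z x y ∧ E x a ∧ E y b ∧ P x y := by
    intro z
    rw [hr, hc]
    constructor
    · rintro ⟨⟨x, y, h1, h2, h3⟩, x', y', h4, h5⟩
      obtain ⟨rfl, rfl⟩ := pair_inj hE h1 h4
      exact ⟨x, y, h1, h2, h3, h5⟩
    · rintro ⟨x, y, h1, h2, h3, h4⟩
      exact ⟨⟨x, y, h1, h2, h3⟩, x, y, h1, h4⟩
  refine ⟨r, fun z => (key z).1, fun x y => ?_⟩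
  obtain ⟨z, hz⟩ := exists_pair hE x y
  rw [rel_of_pair hE hz, key]
  constructor
  · rintro ⟨x', y', h1, h2⟩
    obtain ⟨rfl, rfl⟩ := pair_inj hE hz h1
    exact h2
  · exact fun h => ⟨x, y, hz, h⟩

theorem rel_ext {f g : M} (hf : ∀ z, E z f → ∃ x y, IsPair E z x y)
    (hg : ∀ z, E z g → ∃ x y, IsPair E z x y) (h : ∀ x y, Rel E f x y ↔ Rel E g x y) : f = g := by
  apply hE.ext
  intro z
  constructor
  · intro hz
    obtain ⟨x, y, hxy⟩ := hf z hz
    exact (rel_of_pair hE hxy).1 ((h x y).1 ((rel_of_pair hE hxy).2 hz))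
  · intro hz
    obtain ⟨x, y, hxy⟩ := hg z hz
    exact (rel_of_pair hE hxy).1 ((h x y).2 ((rel_of_pair hE hxy).2 hz))

theorem IsFun.mem {f a b x y : M} (h : IsFun E f a b) (hxy : Rel E f x y) : E x a ∧ E y b := by
  obtain ⟨z, hz, hzf⟩ := hxy
  obtain ⟨x', y', h1, h2, h3⟩ := h.1 z hzf
  obtain ⟨rfl, rfl⟩ := pair_inj hE hz h1
  exact ⟨h2, h3⟩

theorem IsFun.uniq {f a b x y y' : M} (h : IsFun E f a b) (h1 : Rel E f x y)
    (h2 : Rel E f x y') : y = y' := by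
  obtain ⟨z, _, hz⟩ := h.2 x (IsFun.mem hE h h1).1
  rw [hz _ h1, hz _ h2]

/-- A relation that is total and single-valued is a function. -/
theorem isFun_of {r a b : M} (h1 : ∀ z, E z r → ∃ x y, IsPair E z x y ∧ E x a ∧ E y b)
    (h2 : ∀ x, E x a → ∃ y, Rel E r x y)
    (h3 : ∀ x y y', Rel E r x y → Rel E r x y' → y = y') : IsFun E r a b := by
  refine ⟨h1, fun x hx => ?_⟩
  obtain ⟨y, hy⟩ := h2 x hx
  exact ⟨y, hy, fun y' hy' => h3 x y' y hy' hy⟩

end ZF

section ZFC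

variable {M : Type} {E : M → M → Prop} (hE : IsZFCModel E)

/-- formula: `c` is the section of `r` at some point of `a` -/
def fSect {N : Type v} {Ω : Type w} (L : LogicStr N Ω) (r a c : N) : Ω :=
  L.ex fun x => L.and (L.mem x a) (L.all fun z => L.iff (L.mem z c)
    (L.and (L.mem z r) (L.ex fun y => fPr L z x y)))

include hE in
/-- Choice: a total relation contains a function. -/
theorem choice_rel {r a b : M} (h1 : ∀ z, E z r → ∃ x y, IsPair E z x y ∧ E x a ∧ E y b)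
    (h2 : ∀ x, E x a → ∃ y, Rel E r x y) :
    ∃ f, IsFun E f a b ∧ ∀ x y, Rel E f x y → Rel E r x y := by
  have hF := hE.toIsZFModel
  obtain ⟨pr, hpr⟩ := hF.power r
  obtain ⟨A, hA⟩ := sep_of hF (fSect codeStr 1 2 0 10) (asn r [r, a])
    (P := fun c => ∃ x, E x a ∧ ∀ z, E z c ↔ (E z r ∧ ∃ y, IsPair E z x y))
    (fun x => Iff.rfl) pr
  have hsect : ∀ x, E x a → ∃ c, E c A ∧ ∀ z, E z c ↔ (E z r ∧ ∃ y, IsPair E z x y) := by
    intro x hx
    obtain ⟨c, hc⟩ := sep_of hF ((codeStr.ex fun y => fPr codeStr 0 1 y) 10) (asn x [x])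
      (P := fun z => ∃ y, IsPair E z x y) (fun z => Iff.rfl) r
    refine ⟨c, ?_, hc⟩
    rw [hA]
    refine ⟨?_, x, hx, hc⟩
    rw [hpr]
    exact fun w hw => ((hc w).1 hw).1
  obtain ⟨C, hC⟩ := hE.choice A (by
    intro c hc
    obtain ⟨-, x, hx, h⟩ := (hA c).1 hc
    obtain ⟨y, z, hz, hzr⟩ := h2 x hx
    exact ⟨z, (h z).2 ⟨hzr, y, hz⟩⟩) (by
    rintro c c' hc hc' ⟨z, hz, hz'⟩
    obtain ⟨-, x, hx, h⟩ := (hA c).1 hc
    obtain ⟨-, x', hx', h'⟩ := (hA c').1 hc'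
    obtain ⟨-, y, hy⟩ := (h z).1 hz
    obtain ⟨-, y', hy'⟩ := (h' z).1 hz'
    obtain ⟨rfl, rfl⟩ := pair_inj hF hy hy'
    exact hF.ext _ _ fun t => (h t).trans (h' t).symm)
  obtain ⟨f, hf⟩ := sep_of hF (.mem 0 1) (asn C [C]) (P := fun z => E z C)
    (fun z => Iff.rfl) r
  have hfr : ∀ x y, Rel E f x y → Rel E r x y := by
    rintro x y ⟨z, hz, hzf⟩
    exact ⟨z, hz, ((hf z).1 hzf).1⟩
  refine ⟨f, isFun_of hF (fun z hz => h1 z ((hf z).1 hz).1) ?_ ?_, hfr⟩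
  · intro x hx
    obtain ⟨c, hcA, hc⟩ := hsect x hx
    obtain ⟨z, ⟨hzc, hzC⟩, -⟩ := hC c hcA
    obtain ⟨hzr, y, hy⟩ := (hc z).1 hzc
    exact ⟨y, z, hy, (hf z).2 ⟨hzr, hzC⟩⟩
  · rintro x y y' ⟨z, hz, hzf⟩ ⟨z', hz', hzf'⟩
    have h3 := (hf z).1 hzf
    have h4 := (hf z').1 hzf'
    obtain ⟨x0, y0, h5, h6, h7⟩ := h1 z h3.1
    obtain ⟨rfl, rfl⟩ := pair_inj hF hz h5
    obtain ⟨c, hcA, hc⟩ := hsect x h6
    obtain ⟨z0, -, hz0⟩ := hC c hcA
    have h8 : z = z0 := hz0 z ((hc z).2 ⟨h3.1, _, hz⟩) h3.2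
    have h9 : z' = z0 := hz0 z' ((hc z').2 ⟨h4.1, _, hz'⟩) h4.2
    rw [h8] at hz
    rw [h9] at hz'
    exact (pair_inj hF hz hz').2

include hE in
/-- Choice in the form: if for every `x ∈ a` there is `y ∈ b` with `P x y`, then there is a
function doing this, where `P` is given by a code (see `exists_rel`). -/
theorem choice_of (φ : Fml) (f : ℕ → M) {P : M → M → Prop}
    (h : ∀ z, (∃ x y, IsPair E z x y ∧ P x y) ↔ φ.eval (propStr E) (upd f 0 z)) (a b : M)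
    (hab : ∀ x, E x a → ∃ y, E y b ∧ P x y) :
    ∃ g, IsFun E g a b ∧ ∀ x y, Rel E g x y → P x y := by
  obtain ⟨r, hr1, hr2⟩ := exists_rel hE.toIsZFModel φ f h a b
  obtain ⟨g, hg1, hg2⟩ := choice_rel hE (r := r) (a := a) (b := b)
    (fun z hz => by
      obtain ⟨x, y, h1, h2, h3, h4⟩ := hr1 z hz
      exact ⟨x, y, h1, h2, h3⟩)
    (fun x hx => by
      obtain ⟨y, hy, hP⟩ := hab x hx
      exact ⟨y, (hr2 x y).2 ⟨hx, hy, hP⟩⟩)
  exact ⟨g, hg1, fun x y hxy => ((hr2 x y).1 (hg2 x y hxy)).2.2⟩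

end ZFC

end Pool.Agent.H83.F
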