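import Pool.Agent.H83.F.W1

/-!
# Finite support iterations with absolute orders

`C` is a well-ordered set of coordinates, `D` a preorder with top; conditions are finite-support
functions `C → D` with the pointwise order. `V c S p d` says that (with `S` the forcing notion
below `c`) the condition `p ∈ S` forces that `d` is an admissible value at the coordinate `c`.
-/

set_option linter.unusedSectionVars false
set_option linter.unusedVariables false

open Set

namespace Pool.Agent.H83.F

/-- finite-support functions -/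
structure Con (C D : Type) [Preorder D] [OrderTop D] where
  /-- the values -/
  f : C → D
  fin : {c | f c ≠ ⊤}.Finite

section It

variable {C D : Type} [LinearOrder C] [Preorder D] [OrderTop D]

theorem Con.ext' {p q : Con C D} (h : ∀ c, p.f c = q.f c) : p = q := by
  cases p; cases q
  congr
  exact funext h

instance : Preorder (Con C D) where
  le p q := ∀ c, p.f c ≤ q.f c
  le_refl p c := le_rfl
  le_trans p q r h1 h2 c := (h1 c).trans (h2 c)

instance : OrderTop (Con C D) where
  top := ⟨fun _ => ⊤, by simp⟩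
  le_top p c := le_top

theorem Con.le_def {p q : Con C D} : p ≤ q ↔ ∀ c, p.f c ≤ q.f c := Iff.rfl

@[simp] theorem Con.top_f (c : C) : (⊤ : Con C D).f c = ⊤ := rfl

open Classical in
/-- restriction to the coordinates below `c` -/
noncomputable def Con.res (p : Con C D) (c : C) : Con C D :=
  ⟨fun x => if x < c then p.f x else ⊤, by
    refine p.fin.subset fun x hx => ?_
    simp only [mem_setOf_eq] at hx ⊢
    intro h
    apply hx
    split_ifs
    · exact h
    · rfl⟩

theorem Con.res_f (p : Con C D) {c x : C} (h : x < c) : (p.res c).f x = p.f x := if_pos h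

theorem Con.res_f' (p : Con C D) {c x : C} (h : ¬ x < c) : (p.res c).f x = ⊤ := if_neg h

theorem Con.res_res (p : Con C D) {c x : C} (h : x ≤ c) : (p.res c).res x = p.res x := by
  apply Con.ext'
  intro y
  by_cases hy : y < x
  · rw [Con.res_f _ hy, Con.res_f _ hy, Con.res_f _ (hy.trans_le h)]
  · rw [Con.res_f' _ hy, Con.res_f' _ hy]

theorem Con.res_mono {p q : Con C D} (h : p ≤ q) (c : C) : p.res c ≤ q.res c := by
  intro x
  by_cases hx : x < c
  · rw [Con.res_f _ hx, Con.res_f _ hx]; exact h x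
  · rw [Con.res_f' _ hx, Con.res_f' _ hx]

theorem Con.le_res (p : Con C D) (c : C) : p ≤ p.res c := by
  intro x
  by_cases hx : x < c
  · rw [Con.res_f _ hx]
  · rw [Con.res_f' _ hx]; exact le_top

variable [WellFoundedLT C] (V : C → Set (Con C D) → Con C D → D → Prop)

/-- the conditions of the iteration below `c` -/
def SS : C → Set (Con C D) :=
  (wellFounded_lt (α := C)).fix fun _ S =>
    {p | ∀ x, p.f x ≠ ⊤ → ∃ h, V x (S x h) (p.res x) (p.f x)}

/-- the conditions of the whole iteration -/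
def PP : Set (Con C D) := {p | ∀ x, p.f x ≠ ⊤ → V x (SS V x) (p.res x) (p.f x)}

theorem mem_SS_iff' {c : C} {p : Con C D} :
    p ∈ SS V c ↔ ∀ x, p.f x ≠ ⊤ → x < c ∧ V x (SS V x) (p.res x) (p.f x) := by
  unfold SS
  rw [WellFounded.fix_eq]
  constructor
  · intro h x hx
    obtain ⟨h1, h2⟩ := h x hx
    exact ⟨h1, h2⟩
  · intro h x hx
    obtain ⟨h1, h2⟩ := h x hx
    exact ⟨h1, h2⟩

theorem mem_SS_iff {c : C} {p : Con C D} :
    p ∈ SS V c ↔ p ∈ PP V ∧ ∀ x, p.f x ≠ ⊤ → x < c := by
  rw [mem_SS_iff']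
  exact ⟨fun h => ⟨fun x hx => (h x hx).2, fun x hx => (h x hx).1⟩,
    fun h x hx => ⟨h.2 x hx, h.1 x hx⟩⟩

theorem top_mem_PP : (⊤ : Con C D) ∈ PP V := fun x hx => absurd rfl hx

theorem top_mem_SS (c : C) : (⊤ : Con C D) ∈ SS V c :=
  (mem_SS_iff V).2 ⟨top_mem_PP V, fun x hx => absurd rfl hx⟩

theorem SS_sub (c : C) : SS V c ⊆ PP V := fun _ h => ((mem_SS_iff V).1 h).1

theorem SS_mono {c d : C} (h : c ≤ d) : SS V c ⊆ SS V d := by
  intro p hp
  rw [mem_SS_iff] at hp ⊢
  exact ⟨hp.1, fun x hx => (hp.2 x hx).trans_le h⟩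

theorem res_mem {p : Con C D} (hp : p ∈ PP V) (c : C) : p.res c ∈ SS V c := by
  rw [mem_SS_iff']
  intro x hx
  have hxc : x < c := by
    by_contra h
    exact hx (Con.res_f' _ h)
  refine ⟨hxc, ?_⟩
  rw [Con.res_f _ hxc] at hx ⊢
  rw [Con.res_res _ hxc.le]
  exact hp x hx

theorem res_of_mem {p : Con C D} {c : C} (hp : p ∈ SS V c) : p.res c = p := by
  apply Con.ext'
  intro x
  by_cases hx : x < c
  · exact Con.res_f _ hx
  · rw [Con.res_f' _ hx]
    by_contra h
    exact hx (((mem_SS_iff V).1 hp).2 x (Ne.symm h))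

/-- validity is preserved by strengthening -/
def Anti : Prop := ∀ c p q d, p ∈ SS V c → q ∈ SS V c → q ≤ p → V c (SS V c) p d →
  V c (SS V c) q d

variable {V}

theorem mem_PP_of (hV : Anti V) {s : Con C D} (h : ∀ y, s.f y ≠ ⊤ → s.res y ∈ SS V y →
    (∃ p ∈ PP V, s.f y = p.f y ∧ s.res y ≤ p.res y) ∨ V y (SS V y) (s.res y) (s.f y)) :
    s ∈ PP V := by
  have key : ∀ y, s.res y ∈ SS V y := by
    intro y
    induction y using WellFoundedLT.induction with
    | ind y ih =>
      rw [mem_SS_iff']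
      intro x hx
      have hxy : x < y := by
        by_contra h
        exact hx (Con.res_f' _ h)
      refine ⟨hxy, ?_⟩
      rw [Con.res_f _ hxy] at hx ⊢
      rw [Con.res_res _ hxy.le]
      rcases h x hx (ih x hxy) with ⟨p, hp, h1, h2⟩ | h1
      · rw [h1]
        exact hV x _ _ _ (res_mem V hp x) (ih x hxy) h2 (hp x (h1 ▸ hx))
      · exact h1
  intro x hx
  rcases h x hx (key x) with ⟨p, hp, h1, h2⟩ | h1
  · rw [h1]
    exact hV x _ _ _ (res_mem V hp x) (key x) h2 (hp x (h1 ▸ hx))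
  · exact h1

open Classical in
/-- `q` below `c`, `e` at `c`, and `p` above `c` -/
noncomputable def amal (q : Con C D) (c : C) (e : D) (p : Con C D) : Con C D :=
  ⟨fun x => if x < c then q.f x else if x = c then e else p.f x, by
    refine ((q.fin.union (finite_singleton c)).union p.fin).subset fun x hx => ?_
    simp only [mem_setOf_eq] at hx
    split_ifs at hx with h1 h2
    · exact Or.inl (Or.inl hx)
    · exact Or.inl (Or.inr h2)
    · exact Or.inr hx⟩

theorem amal_lt (q : Con C D) {c : C} (e : D) (p : Con C D) {x : C} (h : x < c) :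
    (amal q c e p).f x = q.f x := if_pos h

theorem amal_self (q : Con C D) (c : C) (e : D) (p : Con C D) : (amal q c e p).f c = e := by
  unfold amal; simp

theorem amal_gt (q : Con C D) {c : C} (e : D) (p : Con C D) {x : C} (h : c < x) :
    (amal q c e p).f x = p.f x := by
  unfold amal; simp [not_lt.2 h.le, h.ne']

theorem amal_res_le (q : Con C D) {c : C} (e : D) (p : Con C D) {y : C} (h : y ≤ c) :
    (amal q c e p).res y = q.res y := by
  apply Con.ext'
  intro x
  by_cases hx : x < y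
  · rw [Con.res_f _ hx, Con.res_f _ hx, amal_lt _ _ _ (hx.trans_le h)]
  · rw [Con.res_f' _ hx, Con.res_f' _ hx]

/-- Amalgamation of `q` below `c`, a valid value at `c` and `p` above `c`. -/
theorem amal_mem (hV : Anti V) {p q : Con C D} {c : C} {e : D} (hp : p ∈ PP V) (hq : q ∈ SS V c)
    (hqp : q ≤ p.res c) (he : e ≤ p.f c) (hval : e ≠ ⊤ → V c (SS V c) q e) :
    amal q c e p ∈ PP V ∧ amal q c e p ≤ p ∧ amal q c e p ≤ q ∧
      (amal q c e p).res c = q := by
  have hres : (amal q c e p).res c = q := by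
    rw [amal_res_le _ _ _ le_rfl, res_of_mem V hq]
  have hle : amal q c e p ≤ p := by
    intro x
    rcases lt_trichotomy x c with h | h | h
    · rw [amal_lt _ _ _ h]
      have := hqp x
      rwa [Con.res_f _ h] at this
    · subst h
      rw [amal_self]; exact he
    · rw [amal_gt _ _ _ h]
  refine ⟨?_, hle, ?_, hres⟩
  · apply mem_PP_of hV
    intro y hy hy'
    rcases lt_trichotomy y c with h | h | h
    · left
      refine ⟨q, SS_sub V c hq, amal_lt _ _ _ h, ?_⟩
      rw [amal_res_le _ _ _ h.le]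
    · right
      subst h
      rw [hres, amal_self]
      rw [amal_self] at hy
      exact hval hy
    · left
      exact ⟨p, hp, amal_gt _ _ _ h, Con.res_mono hle y⟩
  · intro x
    by_cases h : x < c
    · rw [amal_lt _ _ _ h]
    · have : q.f x = ⊤ := by
        by_contra h'
        exact h (((mem_SS_iff V).1 hq).2 x h')
      rw [this]; exact le_top

/-- Amalgamation without changing the value at `c`. -/
theorem amal_mem' (hV : Anti V) {p q : Con C D} {c : C} (hp : p ∈ PP V) (hq : q ∈ SS V c)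
    (hqp : q ≤ p.res c) :
    ∃ r ∈ PP V, r ≤ p ∧ r ≤ q ∧ r.res c = q ∧ (∀ x, c ≤ x → r.f x = p.f x) := by
  obtain ⟨h1, h2, h3, h4⟩ := amal_mem hV (e := p.f c) hp hq hqp le_rfl
    (fun h => hV c _ _ _ (res_mem V hp c) hq hqp (hp c h))
  refine ⟨_, h1, h2, h3, h4, fun x hx => ?_⟩
  rcases hx.eq_or_lt with rfl | h
  · exact amal_self _ _ _ _
  · exact amal_gt _ _ _ h

/-- Every family indexed by an uncountable set of countable ordinals contains two compatible
conditions. -/
def CC {X : Type} [Preorder X] (S : Set X) : Prop :=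
  ∀ A : Set W1, ¬ A.Countable → ∀ f : W1 → X, (∀ ξ ∈ A, f ξ ∈ S) →
    ∃ ξ ∈ A, ∃ η ∈ A, ξ < η ∧ ∃ r ∈ S, r ≤ f ξ ∧ r ≤ f η

variable (V) in
/-- the one-step property at `c` -/
def OneStep (c : C) : Prop :=
  ∀ A : Set W1, ¬ A.Countable → ∀ (f : W1 → Con C D) (d : W1 → D), (∀ ξ ∈ A, f ξ ∈ SS V c) →
    (∀ ξ ∈ A, V c (SS V c) (f ξ) (d ξ)) →
    ∃ ξ ∈ A, ∃ η ∈ A, ξ < η ∧ ∃ r ∈ SS V c, r ≤ f ξ ∧ r ≤ f η ∧
      ∃ e, e ≤ d ξ ∧ e ≤ d η ∧ V c (SS V c) r e

variable (V) in
/-- conditions with support in `I` -/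
def PI (I : Set C) : Set (Con C D) := {p | p ∈ PP V ∧ ∀ x, p.f x ≠ ⊤ → x ∈ I}

open Classical in
/-- union of two conditions -/
noncomputable def join (p q : Con C D) : Con C D :=
  ⟨fun x => if p.f x ≠ ⊤ then p.f x else q.f x, by
    refine (p.fin.union q.fin).subset fun x hx => ?_
    simp only [mem_setOf_eq] at hx
    split_ifs at hx with h1
    · exact Or.inl h1
    · exact Or.inr hx⟩

theorem join_left {p q : Con C D} {x : C} (h : p.f x ≠ ⊤) : (join p q).f x = p.f x := if_pos h

theorem join_right {p q : Con C D} {x : C} (h : p.f x = ⊤) : (join p q).f x = q.f x :=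
  if_neg (by simpa using h)

theorem join_le {p q : Con C D} {x : C} (h : p.f x = ⊤ ∨ q.f x = ⊤) :
    (join p q).f x ≤ p.f x ∧ (join p q).f x ≤ q.f x := by
  by_cases hp : p.f x = ⊤
  · rw [join_right hp, hp]; exact ⟨le_top, le_rfl⟩
  · rw [join_left hp, h.resolve_left hp]; exact ⟨le_rfl, le_top⟩

theorem cc_step (hV : Anti V) {I : Set C} (hI : ∀ x ∈ I, ∀ y ≤ x, y ∈ I)
    (h1 : ∀ c ∈ I, OneStep V c) : CC (PI V I) := by
  classical
  intro A hA f hf
  obtain ⟨B, hBA, hB, R, hRf, hR1, hR2⟩ := delta_system hA (fun ξ => {c | (f ξ).f c ≠ ⊤})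
    (fun ξ _ => (f ξ).fin)
  -- disjointness above the root
  have hdis : ∀ ξ ∈ B, ∀ η ∈ B, ξ ≠ η → ∀ x, x ∉ R → (f ξ).f x = ⊤ ∨ (f η).f x = ⊤ := by
    intro ξ hξ η hη hne x hx
    by_contra hcon
    push Not at hcon
    exact hx (hR2 ξ hξ η hη hne ⟨hcon.1, hcon.2⟩)
  by_cases hRe : R = ∅
  · obtain ⟨ξ, hξ⟩ : B.Nonempty := by
      by_contra he
      rw [not_nonempty_iff_eq_empty] at he
      exact hB (he ▸ countable_empty)
    obtain ⟨η, hη, hlt⟩ := W1_unb hB ξ
    have hle : join (f ξ) (f η) ≤ f ξ ∧ join (f ξ) (f η) ≤ f η := by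
      have : ∀ x, _ := fun x => join_le (hdis ξ hξ η hη hlt.ne x (by rw [hRe]; simp))
      exact ⟨fun x => (this x).1, fun x => (this x).2⟩
    refine ⟨ξ, hBA hξ, η, hBA hη, hlt, join (f ξ) (f η), ⟨?_, ?_⟩, hle.1, hle.2⟩
    · apply mem_PP_of hV
      intro y hy _
      left
      by_cases hp : (f ξ).f y = ⊤
      · exact ⟨f η, (hf η (hBA hη)).1, join_right hp, Con.res_mono hle.2 y⟩
      · exact ⟨f ξ, (hf ξ (hBA hξ)).1, join_left hp, Con.res_mono hle.1 y⟩
    · intro x hx
      by_cases hp : (f ξ).f x = ⊤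
      · rw [join_right hp] at hx
        exact (hf η (hBA hη)).2 x hx
      · exact (hf ξ (hBA hξ)).2 x hp
  · -- the largest element of the root
    obtain ⟨c, hcR, hcmax⟩ : ∃ c ∈ R, ∀ x ∈ R, x ≤ c := by
      obtain ⟨c, hc, hm⟩ := hRf.exists_maximal (nonempty_iff_ne_empty.2 hRe)
      refine ⟨c, hc, fun x hx => ?_⟩
      rcases le_total x c with h | h
      · exact h
      · exact hm hx h
    obtain ⟨ξ0, hξ0⟩ : B.Nonempty := by
      by_contra he
      rw [not_nonempty_iff_eq_empty] at he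
      exact hB (he ▸ countable_empty)
    have hcI : c ∈ I := (hf ξ0 (hBA hξ0)).2 c (hR1 ξ0 hξ0 hcR)
    obtain ⟨ξ, hξ, η, hη, hlt, r, hr, hr1, hr2, e, he1, he2, he3⟩ :=
      h1 c hcI B hB (fun ξ => (f ξ).res c) (fun ξ => (f ξ).f c)
        (fun ξ hξ => res_mem V (hf ξ (hBA hξ)).1 c)
        (fun ξ hξ => (hf ξ (hBA hξ)).1 c (hR1 ξ hξ hcR))
    set s := amal r c e (join (f ξ) (f η)) with hs
    have hgt : ∀ x, c < x → (f ξ).f x = ⊤ ∨ (f η).f x = ⊤ := fun x hx =>
      hdis ξ hξ η hη hlt.ne x fun h => absurd (hcmax x h) (not_le.2 hx)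
    have hle : s ≤ f ξ ∧ s ≤ f η := by
      have : ∀ x, s.f x ≤ (f ξ).f x ∧ s.f x ≤ (f η).f x := by
        intro x
        rcases lt_trichotomy x c with h | h | h
        · rw [hs, amal_lt _ _ _ h]
          have a1 := hr1 x
          have a2 := hr2 x
          rw [Con.res_f _ h] at a1 a2
          exact ⟨a1, a2⟩
        · subst h
          rw [hs, amal_self]
          exact ⟨he1, he2⟩
        · rw [hs, amal_gt _ _ _ h]
          exact join_le (hgt x h)
      exact ⟨fun x => (this x).1, fun x => (this x).2⟩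
    refine ⟨ξ, hBA hξ, η, hBA hη, hlt, s, ⟨?_, ?_⟩, hle.1, hle.2⟩
    · apply mem_PP_of hV
      intro y hy _
      rcases lt_trichotomy y c with h | h | h
      · left
        refine ⟨r, SS_sub V c hr, by rw [hs, amal_lt _ _ _ h], ?_⟩
        rw [hs, amal_res_le _ _ _ h.le]
      · right
        subst h
        rw [hs, amal_self, amal_res_le _ _ _ le_rfl, res_of_mem V hr]
        exact he3
      · left
        by_cases hp : (f ξ).f y = ⊤
        · exact ⟨f η, (hf η (hBA hη)).1, by rw [hs, amal_gt _ _ _ h, join_right hp],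
            Con.res_mono hle.2 y⟩
        · exact ⟨f ξ, (hf ξ (hBA hξ)).1, by rw [hs, amal_gt _ _ _ h, join_left hp],
            Con.res_mono hle.1 y⟩
    · intro x hx
      rcases lt_trichotomy x c with h | h | h
      · exact hI c hcI x h.le
      · exact h ▸ hcI
      · rw [hs, amal_gt _ _ _ h] at hx
        by_cases hp : (f ξ).f x = ⊤
        · rw [join_right hp] at hx
          exact (hf η (hBA hη)).2 x hx
        · exact (hf ξ (hBA hξ)).2 x hp

theorem PI_Iio (c : C) : PI V (Iio c) = SS V c := by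
  ext p
  rw [mem_SS_iff]
  exact Iff.rfl

theorem PI_univ : PI V (univ : Set C) = PP V := by
  ext p
  exact ⟨fun h => h.1, fun h => ⟨h, fun x _ => mem_univ x⟩⟩

/-- Finite support iterations of forcing notions with the one-step property are ccc. -/
theorem cc_main (hV : Anti V) (h1 : ∀ c, CC (SS V c) → OneStep V c) :
    (∀ c, CC (SS V c)) ∧ CC (PP V) := by
  have h2 : ∀ c, CC (SS V c) := by
    intro c
    induction c using WellFoundedLT.induction with
    | ind c ih =>
      rw [← PI_Iio]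
      exact cc_step hV (fun x hx y hy => lt_of_le_of_lt hy hx) fun x hx => h1 x (ih x hx)
  refine ⟨h2, ?_⟩
  rw [← PI_univ]
  exact cc_step hV (fun _ _ _ _ => mem_univ _) fun x _ => h1 x (h2 x)

end It

end Pool.Agent.H83.F
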