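import Pool.Agent.H83.F.ZFC
import Pool.Agent.H86.Rel
import Pool.Agent.H83.F.Defs

/-!
# Nice models: the interface between forcing and the internal development

`qd`, `iv`, `fs`, `nd` decode natural numbers into rationals, rational intervals, finite sets of
natural numbers and binary strings. `Nice 𝒯` is a model of ZFC with standard natural numbers,
containing (as sets of pairs of natural numbers) all members of the given family `𝒯` of sets of
natural numbers, and satisfying the principles established by the forcing construction.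
-/

open MeasureTheory

namespace Pool.Agent.H83.F

/-- the rational number with code `n` -/
def qd (n : ℕ) : ℚ := (Denumerable.eqv ℚ).symm n

/-- end points of the rational interval with code `n` -/
def iv (n : ℕ) : ℚ × ℚ := (Denumerable.eqv (ℚ × ℚ)).symm n

/-- the open rational interval with code `n` -/
def Iv (n : ℕ) : Set ℝ := Set.Ioo ((iv n).1 : ℝ) ((iv n).2 : ℝ)

/-- the finite set of natural numbers with code `n` -/
def fs (n : ℕ) : Finset ℕ := (Denumerable.eqv (Finset ℕ)).symm n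

/-- the binary string with code `n` -/
def nd (n : ℕ) : List Bool := (Encodable.decode (α := List Bool) n).getD []

/-- the open set coded by `z ⊆ ℕ` -/
def Op' (z : Set ℕ) : Set ℝ := ⋃ j ∈ z, Iv j

theorem qd_surj (q : ℚ) : ∃ n, qd n = q := (Denumerable.eqv ℚ).symm.surjective q

theorem iv_surj (q : ℚ × ℚ) : ∃ n, iv n = q :=
  (Denumerable.eqv (ℚ × ℚ)).symm.surjective q

theorem fs_surj (s : Finset ℕ) : ∃ n, fs n = s :=
  (Denumerable.eqv (Finset ℕ)).symm.surjective s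

theorem nd_surj (s : List Bool) : ∃ n, nd n = s :=
  ⟨Encodable.encode s, by simp [nd]⟩

/-- The binary string `σ` is an initial segment of the characteristic function of
`{m | (i, m) ∈ Z}`. -/
def InSeg {M : Type} (E : M → M → Prop) (nat : ℕ → M) (Z i : M) (σ : List Bool) : Prop :=
  ∀ m, ∀ h : m < σ.length, (σ[m] = true ↔ Rel E Z i (nat m))

/-- Nice models. -/
structure Nice (𝒯 : Set (Set ℕ)) where
  /-- the universe -/
  M : Type
  /-- membership -/
  E : M → M → Prop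
  /-- `ω` -/
  om : M
  /-- `ω₁` -/
  w1 : M
  /-- `ω₂` -/
  w2 : M
  /-- the natural numbers -/
  nat : ℕ → M
  /-- ranks of the elements of `ω₂` -/
  rk : M → Ordinal.{0}
  zfc : IsZFCModel E
  E_om : ∀ x, E x om ↔ ∃ n, x = nat n
  E_nat : ∀ x n, E x (nat n) ↔ ∃ m < n, x = nat m
  om_w1 : ∀ x, E x om → E x w1
  w1_w2 : ∀ x, E x w1 → E x w2
  w1_w2' : E w1 w2
  w1_trans : ∀ x y, E x y → E y w1 → E x w1
  w2_trans : ∀ x y, E x y → E y w2 → E x w2
  w2_ord : ∀ y, E y w2 → ∀ z, E z y → ∀ t, E t z → E t y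
  rk_lt : ∀ x y, E x w2 → E y w2 → (E x y ↔ rk x < rk y)
  rk_inj : ∀ x y, E x w2 → E y w2 → rk x = rk y → x = y
  w1_lim : ∀ x, E x w1 → ∃ y, E y w1 ∧ E x y
  w2_lim : ∀ x, E x w2 → ∃ y, E y w2 ∧ E x y
  /-- constants: binary relations on `ω` given by the members of `𝒯` -/
  const : ∀ T ∈ 𝒯, ∃ g, (∀ z, E z g → ∃ a b, IsPair E z (nat a) (nat b)) ∧
    ∀ a b, Rel E g (nat a) (nat b) ↔ Nat.pair a b ∈ T
  /-- `ω₁` is regular -/
  reg1 : ∀ f, IsFun E f om w1 → ∃ b, E b w1 ∧ ∀ x y, Rel E f x y → E y b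
  /-- `ω₂` is regular -/
  reg2 : ∀ d, E d w2 → ∀ f, IsFun E f d w2 → ∃ b, E b w2 ∧ ∀ x y, Rel E f x y → E y b
  /-- increasing `ω₁`-sequences closed under a given function on `ω₂` -/
  diag : ∀ f, IsFun E f w2 w2 → ∃ a, IsFun E a w1 w2 ∧ ∀ j i u v v', E i w1 → E j i →
    Rel E a j u → Rel E a i v → Rel E f u v' → E v' v
  /-- the principle for closed sets -/
  closedP : ∀ Z0 Z1 : M, (∀ k i, E i w1 → E k i →
      ∃ t, InSeg E nat Z0 k (nd t) ∧ Rel E Z1 i (nat t)) →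
    ∃ X J : M, Sub E X w1 ∧ Sub E J om ∧ (∀ k, E k w1 → ∃ i, E i X ∧ E k i) ∧
      (∀ i, E i X → ∀ n, E (nat n) J → ∃ s ∈ fs n, InSeg E nat Z0 i (nd s)) ∧
      ∀ i, E i X → ∀ m : ℕ, ∃ n, E (nat n) J ∧ (∀ s ∈ fs n, m ≤ (nd s).length) ∧
        (∑ s ∈ fs n, (1 / 2 : ℝ) ^ (nd s).length ≤ (1 / 2 : ℝ) ^ m) ∧
        ∀ s ∈ fs n, InSeg E nat Z0 i (nd s) ∨ ∃ t, nd t <+: nd s ∧ Rel E Z1 i (nat t)
  /-- Cohen reals: a filter in a countable poset meeting `ω₁` dense sets -/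
  cohenP : ∀ F B D : M, (∃ n, E (nat n) F) →
    (∀ i, E i w1 → ∀ n, E (nat n) F → ∃ m, E (nat m) F ∧ Rel E B (nat m) (nat n) ∧
      Rel E D i (nat m)) →
    ∃ g : ℕ → ℕ, (∃ γ, ∀ a b, Rel E γ (nat a) (nat b) ↔ b = g a) ∧ (∀ k, E (nat (g k)) F) ∧
      (∀ k, Rel E B (nat (g (k + 1))) (nat (g k))) ∧ ∀ i, E i w1 → ∃ k, Rel E D i (nat (g k))
  /-- the tower of null sets: `{j | (α, (n, j)) ∈ tow}` codes the `n`-th open set at level `α` -/
  tow : M
  tow_small : ∀ α, E α w2 → ∀ n : ℕ,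
    volume (Op' {j | Rel E tow α (nat (Nat.pair n j))}) ≤ ENNReal.ofReal ((1 / 2) ^ n)
  tow_mono : ∀ α β, E β w2 → E α β → ∀ n, ∃ m, ∀ j, Rel E tow α (nat (Nat.pair m j)) →
    Rel E tow β (nat (Nat.pair n j))
  tow_cof : ∀ z, (∀ m : ℕ, volume (Op' {j | E (nat (Nat.pair m j)) z}) ≤
      ENNReal.ofReal ((1 / 2) ^ m)) →
    ∃ α, E α w2 ∧ ∀ n, ∃ m, ∀ j, E (nat (Nat.pair m j)) z → Rel E tow α (nat (Nat.pair n j))

end Pool.Agent.H83.F
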