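import Pool.Agent.H83.F.It
import Pool.Agent.H83.F.Nice

/-!
# The one-step properties

`S` is a ccc set of conditions in a preorder `P`; events are sets `X` of conditions (the event
happens if some member of `X` belongs to the generic filter).
-/

set_option linter.unusedSectionVars false
set_option linter.unusedVariables false

open Set MeasureTheory

namespace Pool.Agent.H83.F

/-! ### Uncountable sets -/

/-- Uncountable homogeneous sets for relations with countable exceptional sets. -/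
theorem exists_unc_good {A : Set W1} (hA : ¬ A.Countable) (good : W1 → W1 → Prop)
    (h : ∀ ξ ∈ A, {η ∈ A | ¬ good ξ η}.Countable) :
    ∃ B ⊆ A, ¬ B.Countable ∧ ∀ ξ ∈ B, ∀ η ∈ B, ξ < η → good ξ η := by
  obtain ⟨B, hB⟩ : ∃ B : Set W1, Maximal (fun B : Set W1 => B ⊆ A ∧
      ∀ ξ ∈ B, ∀ η ∈ B, ξ < η → good ξ η) B := by
    apply zorn_subset
    intro c hc hchain
    refine ⟨⋃₀ c, ⟨sUnion_subset fun s hs => (hc hs).1, ?_⟩,
      fun s hs => subset_sUnion_of_mem hs⟩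
    rintro x ⟨s, hs, hxs⟩ y ⟨t, ht, hyt⟩ hxy
    rcases hchain.total hs ht with hst | hts
    · exact (hc ht).2 x (hst hxs) y hyt hxy
    · exact (hc hs).2 x hxs y (hts hyt) hxy
  refine ⟨B, hB.1.1, ?_, hB.1.2⟩
  intro hBc
  have hbad : (⋃ ξ ∈ B, {η ∈ A | ¬ good ξ η}).Countable :=
    hBc.biUnion fun ξ hξ => h ξ (hB.1.1 hξ)
  obtain ⟨a, ha⟩ := W1_bdd (hBc.union hbad)
  obtain ⟨b, hbA, hab⟩ := W1_unb hA a
  have hb1 : ∀ ξ ∈ B, ξ < b := fun ξ hξ => (ha ξ (Or.inl hξ)).trans hab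
  have hb2 : ∀ ξ ∈ B, good ξ b := by
    intro ξ hξ
    by_contra hcon
    exact absurd (ha b (Or.inr (mem_biUnion hξ ⟨hbA, hcon⟩))) (not_lt.2 hab.le)
  have hins : insert b B ⊆ A ∧ ∀ ξ ∈ insert b B, ∀ η ∈ insert b B, ξ < η → good ξ η := by
    refine ⟨insert_subset hbA hB.1.1, ?_⟩
    rintro ξ hξ η hη hlt
    rcases hξ with rfl | hξ
    · rcases hη with rfl | hη
      · exact absurd hlt (lt_irrefl _)
      · exact absurd hlt (not_lt.2 (hb1 η hη).le)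
    · rcases hη with rfl | hη
      · exact hb2 ξ hξ
      · exact hB.1.2 ξ hξ η hη hlt
  exact absurd (hb1 b (hB.2 hins (subset_insert _ _) (mem_insert _ _))) (lt_irrefl _)

theorem unc_tail {A : Set W1} (hA : ¬ A.Countable) (γ : W1) : ¬ {ξ ∈ A | γ ≤ ξ}.Countable := by
  intro h
  apply hA
  refine (h.union (W1_Iio γ)).mono fun ξ hξ => ?_
  rcases le_or_gt γ ξ with h' | h'
  · exact Or.inl ⟨hξ, h'⟩
  · exact Or.inr h'

section Abs

variable {P : Type} [Preorder P] {S : Set P}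

/-- `p` is below a member of `X` -/
def Pos (X : Set P) (p : P) : Prop := ∃ t ∈ X, p ≤ t

/-- no extension of `p` is below a member of `X` -/
def Neg (S X : Set P) (p : P) : Prop := ∀ q ∈ S, q ≤ p → ¬ Pos X q

/-- `p` decides the event `X`, with the answer `b` -/
def Bit (S X : Set P) (b : Bool) (p : P) : Prop := if b = true then Pos X p else Neg S X p

/-- `p` decides an initial segment of the sequence of events `x` -/
def Seg (S : Set P) (x : ℕ → Set P) (σ : List Bool) (p : P) : Prop :=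
  ∀ m, ∀ h : m < σ.length, Bit S (x m) σ[m] p

theorem Pos.mono {X : Set P} {p q : P} (h : q ≤ p) (hp : Pos X p) : Pos X q := by
  obtain ⟨t, ht, h'⟩ := hp
  exact ⟨t, ht, h.trans h'⟩

theorem Neg.mono {X : Set P} {p q : P} (h : q ≤ p) (hp : Neg S X p) : Neg S X q :=
  fun r hr hrq => hp r hr (hrq.trans h)

theorem Bit.mono {X : Set P} {b : Bool} {p q : P} (h : q ≤ p) (hp : Bit S X b p) :
    Bit S X b q := by
  unfold Bit at hp ⊢
  split_ifs with hb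
  · rw [if_pos hb] at hp; exact hp.mono h
  · rw [if_neg hb] at hp; exact hp.mono h

theorem Seg.mono {x : ℕ → Set P} {σ : List Bool} {p q : P} (h : q ≤ p) (hp : Seg S x σ p) :
    Seg S x σ q := fun m hm => (hp m hm).mono h

theorem bit_dec (X : Set P) {p : P} (hp : p ∈ S) : ∃ r ∈ S, r ≤ p ∧ ∃ b, Bit S X b r := by
  by_cases h : Neg S X p
  · exact ⟨p, hp, le_rfl, false, by unfold Bit; simpa using h⟩
  · unfold Neg at h
    push Not at h
    obtain ⟨q, hq, hqp, h'⟩ := h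
    exact ⟨q, hq, hqp, true, by unfold Bit; simpa using h'⟩

theorem bit_unique {X : Set P} {b b' : Bool} {p : P} (hp : p ∈ S) (h : Bit S X b p)
    (h' : Bit S X b' p) : b = b' := by
  unfold Bit at h h'
  cases b <;> cases b'
  · rfl
  · simp only [if_true] at h'
    simp only [Bool.false_eq_true, if_false] at h
    exact (h p hp le_rfl h').elim
  · simp only [if_true] at h
    simp only [Bool.false_eq_true, if_false] at h'
    exact (h' p hp le_rfl h).elim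
  · rfl

theorem seg_prefix {x : ℕ → Set P} {σ τ : List Bool} {p : P} (h : σ <+: τ) (hτ : Seg S x τ p) :
    Seg S x σ p := by
  intro m hm
  have h1 : m < τ.length := hm.trans_le h.length_le
  have h2 : σ[m] = τ[m] := by
    obtain ⟨t, rfl⟩ := h
    exact (List.getElem_append_left hm).symm
  rw [h2]
  exact hτ m h1

theorem seg_unique {x : ℕ → Set P} {σ τ : List Bool} {p : P} (hp : p ∈ S) (hσ : Seg S x σ p)
    (hτ : Seg S x τ p) (hlen : σ.length ≤ τ.length) : σ <+: τ := by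
  rw [List.prefix_iff_eq_take]
  apply List.ext_getElem
  · simp [hlen]
  · intro m h1 h2
    rw [List.getElem_take]
    exact bit_unique hp (hσ m h1) (hτ m (h1.trans_le hlen))

theorem seg_dec (x : ℕ → Set P) (N : ℕ) {p : P} (hp : p ∈ S) :
    ∃ r ∈ S, r ≤ p ∧ ∃ σ : List Bool, σ.length = N ∧ Seg S x σ r := by
  induction N with
  | zero => exact ⟨p, hp, le_rfl, [], rfl, fun m hm => absurd hm (Nat.not_lt_zero _)⟩
  | succ N ih =>
    obtain ⟨r, hr, hrp, σ, hσ, hseg⟩ := ih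
    obtain ⟨r', hr', hrr, b, hb⟩ := bit_dec (x N) hr
    refine ⟨r', hr', hrr.trans hrp, σ ++ [b], by simp [hσ], fun m hm => ?_⟩
    rcases Nat.lt_succ_iff_lt_or_eq.1 (show m < N + 1 by simpa [hσ] using hm) with h | h
    · rw [List.getElem_append_left (by omega)]
      exact (hseg m (by omega)).mono hrr
    · subst h
      rw [List.getElem_append_right (by omega)]
      simpa [hσ] using hb

theorem dense_finite {ι : Type} {p : P} (D : ι → P → Prop)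
    (hmono : ∀ a r r', r ∈ S → r' ∈ S → r' ≤ r → D a r → D a r') (s : Finset ι)
    (hd : ∀ a ∈ s, ∀ q ∈ S, q ≤ p → ∃ r ∈ S, r ≤ q ∧ D a r) (hp : p ∈ S) :
    ∃ r ∈ S, r ≤ p ∧ ∀ a ∈ s, D a r := by
  classical
  induction s using Finset.induction_on with
  | empty => exact ⟨p, hp, le_rfl, fun a ha => absurd ha (Finset.notMem_empty a)⟩
  | insert a s has ih =>
    obtain ⟨r, hr, hrp, h1⟩ := ih fun b hb => hd b (Finset.mem_insert_of_mem hb)
    obtain ⟨r', hr', hrr, h2⟩ := hd a (Finset.mem_insert_self _ _) r hr hrp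
    refine ⟨r', hr', hrr.trans hrp, fun b hb => ?_⟩
    rcases Finset.mem_insert.1 hb with rfl | hb
    · exact h2
    · exact hmono b r r' hr hr' hrr (h1 b hb)

/-- The tail lemma. -/
theorem tail_lemma (hS : CC S) {A : Set W1} (T : W1 → Set P) (hT : ∀ ξ ∈ A, T ξ ⊆ S) :
    ∃ γ : W1, ∀ ξ ∈ A, γ ≤ ξ → ∀ r ∈ T ξ, ∀ β, ∃ η ∈ A, β < η ∧
      ∃ r' ∈ T η, ∃ s ∈ S, s ≤ r ∧ s ≤ r' := by
  by_contra hcon
  push Not at hcon
  set A' : Set W1 := {ξ ∈ A | ∃ r ∈ T ξ, ∃ β, ∀ η ∈ A, β < η → ∀ r' ∈ T η, ∀ s ∈ S,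
    s ≤ r → ¬ s ≤ r'} with hA'
  have hA'u : ¬ A'.Countable := by
    intro hc
    obtain ⟨a, ha⟩ := W1_bdd hc
    obtain ⟨ξ, hξ, hle, r, hr, β, h⟩ := hcon a
    exact absurd (ha ξ ⟨hξ, r, hr, β, h⟩) (not_lt.2 hle)
  have hch : ∀ ξ : W1, ∃ (r : P) (β : W1), ξ ∈ A' → r ∈ T ξ ∧
      ∀ η ∈ A, β < η → ∀ r' ∈ T η, ∀ s ∈ S, s ≤ r → ¬ s ≤ r' := by
    intro ξ
    by_cases h : ξ ∈ A'
    · obtain ⟨r, hr, β, h'⟩ := h.2
      exact ⟨r, β, fun _ => ⟨hr, h'⟩⟩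
    · obtain ⟨ξ', hξ', -, r, -⟩ := hcon ξ
      exact ⟨r, ξ, fun h' => absurd h' h⟩
  choose r β hrβ using hch
  obtain ⟨B, hBA, hB, hgood⟩ := exists_unc_good hA'u (fun ξ η => β ξ < η) (by
    intro ξ _
    exact (W1_Iic (β ξ)).mono fun η hη => not_lt.1 hη.2)
  obtain ⟨ξ, hξ, η, hη, hlt, s, hs, h1, h2⟩ := hS B hB r
    (fun ξ hξ => hT ξ (hBA hξ).1 ((hrβ ξ (hBA hξ)).1))
  exact (hrβ ξ (hBA hξ)).2 η (hBA hη).1 (hgood ξ hξ η hη hlt) (r η) (hrβ η (hBA hη)).1 s hs h1 h2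

/-! ### The forcing notion for closed sets -/

/-- `p` forces `x_k ∉ K_i` -/
def Out (S : Set P) (x A : W1 → ℕ → Set P) (k i : W1) (p : P) : Prop :=
  ∃ t, Seg S (x k) (nd t) p ∧ Pos (A i t) p

/-- `p` forces that `x_k ∉ K_i` for all `k < i` -/
def Legit (S : Set P) (x A : W1 → ℕ → Set P) (p : P) : Prop :=
  ∀ k i, k < i → ∀ q ∈ S, q ≤ p → ∃ r ∈ S, r ≤ q ∧ Out S x A k i r

/-- `(J, F)` is a valid condition -/
def CV (S : Set P) (x A : W1 → ℕ → Set P) (J : Finset (List Bool)) (F : Finset W1) (p : P) :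
    Prop :=
  (∀ i ∈ F, ∃ σ ∈ J, Seg S (x i) σ p) ∧ (∀ i ∈ F, ∀ k ∈ F, k ≠ i → Out S x A k i p) ∧
    Legit S x A p

theorem Out.mono {x A : W1 → ℕ → Set P} {k i : W1} {p q : P} (h : q ≤ p)
    (hp : Out S x A k i p) : Out S x A k i q := by
  obtain ⟨t, h1, h2⟩ := hp
  exact ⟨t, h1.mono h, h2.mono h⟩

theorem Legit.mono {x A : W1 → ℕ → Set P} {p q : P} (h : q ≤ p) (hp : Legit S x A p) :
    Legit S x A q := fun k i hki r hr hrq => hp k i hki r hr (hrq.trans h)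

theorem CV.mono {x A : W1 → ℕ → Set P} {J : Finset (List Bool)} {F : Finset W1} {p q : P}
    (h : q ≤ p) (hp : CV S x A J F p) : CV S x A J F q := by
  obtain ⟨h1, h2, h3⟩ := hp
  refine ⟨fun i hi => ?_, fun i hi k hk hne => (h2 i hi k hk hne).mono h, h3.mono h⟩
  obtain ⟨σ, hσ, hs⟩ := h1 i hi
  exact ⟨σ, hσ, hs.mono h⟩

/-- Shrinking the finite set of nodes. -/
theorem shrink {x A : W1 → ℕ → Set P} {J : Finset (List Bool)} {F : Finset W1} {p : P}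
    (hp : p ∈ S) (h : CV S x A J F p) (N : ℕ) :
    ∃ r ∈ S, r ≤ p ∧ ∃ J' : Finset (List Bool), ∃ N' ≥ N, (∀ σ ∈ J', σ.length = N') ∧
      J'.card ≤ F.card ∧ (∀ σ ∈ J', ∃ τ ∈ J, τ <+: σ) ∧ CV S x A J' F r ∧
      ∀ i ∈ F, ∀ σ ∈ J', Seg S (x i) σ r ∨ ∃ t, nd t <+: σ ∧ Pos (A i t) r := by
  classical
  obtain ⟨h1, h2, h3⟩ := h
  choose! σ hσJ hσ using h1
  have h2' : ∀ i k, ∃ t, i ∈ F → k ∈ F → k ≠ i → Seg S (x k) (nd t) p ∧ Pos (A i t) p := by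
    intro i k
    by_cases h : i ∈ F ∧ k ∈ F ∧ k ≠ i
    · obtain ⟨t, ht⟩ := h2 i h.1 k h.2.1 h.2.2
      exact ⟨t, fun _ _ _ => ht⟩
    · exact ⟨0, fun a b c => absurd ⟨a, b, c⟩ h⟩
  choose t ht using h2'
  -- a large length
  obtain ⟨N', hN'1, hN'2, hN'3⟩ : ∃ N' ≥ N, (∀ i ∈ F, (σ i).length ≤ N') ∧
      ∀ i ∈ F, ∀ k ∈ F, (nd (t i k)).length ≤ N' := by
    refine ⟨max N (max (F.sup fun i => (σ i).length)
      (F.sup fun i => F.sup fun k => (nd (t i k)).length)), le_max_left _ _, ?_, ?_⟩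
    · intro i hi
      exact (Finset.le_sup (f := fun i => (σ i).length) hi).trans
        ((le_max_left _ _).trans (le_max_right _ _))
    · intro i hi k hk
      refine le_trans ?_ ((le_max_right _ _).trans (le_max_right _ _))
      exact (Finset.le_sup (f := fun k => (nd (t i k)).length) hk).trans
        (Finset.le_sup (f := fun i => F.sup fun k => (nd (t i k)).length) hi)
  obtain ⟨r, hr, hrp, hdec⟩ := dense_finite (S := S) (p := p)
    (fun (i : W1) r => ∃ σ : List Bool, σ.length = N' ∧ Seg S (x i) σ r)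
    (fun i r r' _ _ hle ⟨σ, h1, h2⟩ => ⟨σ, h1, h2.mono hle⟩) F
    (fun i _ q hq _ => seg_dec (x i) N' hq) hp
  choose! ρ hρ1 hρ2 using hdec
  have hpre : ∀ i ∈ F, σ i <+: ρ i := fun i hi =>
    seg_unique hr ((hσ i hi).mono hrp) (hρ2 i hi) (by rw [hρ1 i hi]; exact hN'2 i hi)
  refine ⟨r, hr, hrp, F.image ρ, N', hN'1, ?_, Finset.card_image_le, ?_, ⟨?_, ?_, h3.mono hrp⟩, ?_⟩
  · intro s hs
    obtain ⟨i, hi, rfl⟩ := Finset.mem_image.1 hs
    exact hρ1 i hi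
  · intro s hs
    obtain ⟨i, hi, rfl⟩ := Finset.mem_image.1 hs
    exact ⟨σ i, hσJ i hi, hpre i hi⟩
  · intro i hi
    exact ⟨ρ i, Finset.mem_image_of_mem _ hi, hρ2 i hi⟩
  · intro i hi k hk hne
    exact (h2 i hi k hk hne).mono hrp
  · intro i hi s hs
    obtain ⟨k, hk, rfl⟩ := Finset.mem_image.1 hs
    by_cases hki : k = i
    · subst hki; exact Or.inl (hρ2 k hk)
    · right
      obtain ⟨a1, a2⟩ := ht i k hi hk hki
      exact ⟨t i k, seg_unique hr (a1.mono hrp) (hρ2 k hk)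
        (by rw [hρ1 k hk]; exact hN'3 i hi k hk), a2.mono hrp⟩

/-- The forcing notion for closed sets is ccc. -/
theorem cond_onestep (hS : CC S) (x A : W1 → ℕ → Set P) {B : Set W1} (hB : ¬ B.Countable)
    (f : W1 → P) (J : W1 → Finset (List Bool)) (F : W1 → Finset W1) (hf : ∀ ξ ∈ B, f ξ ∈ S)
    (hv : ∀ ξ ∈ B, CV S x A (J ξ) (F ξ) (f ξ)) :
    ∃ ξ ∈ B, ∃ η ∈ B, ξ < η ∧ ∃ r ∈ S, r ≤ f ξ ∧ r ≤ f η ∧
      ∃ (J' : Finset (List Bool)) (F' : Finset W1), F ξ ⊆ F' ∧ F η ⊆ F' ∧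
        (∀ σ ∈ J', ∃ τ ∈ J ξ, τ <+: σ) ∧ (∀ σ ∈ J', ∃ τ ∈ J η, τ <+: σ) ∧ CV S x A J' F' r := by
  classical
  -- fix `J`
  obtain ⟨J0, hB1⟩ := unc_fiber hB J
  set B1 := {ξ ∈ B | J ξ = J0} with hB1d
  -- Δ-system
  obtain ⟨B2, hB2B, hB2, R, hRf, hR1, hR2⟩ := delta_system hB1 (fun ξ => (F ξ : Set W1))
    (fun ξ _ => (F ξ).finite_toSet)
  -- separation
  obtain ⟨B3, hB3B, hB3, hsep⟩ := exists_unc_good hB2
    (fun ξ η => ∀ i ∈ F ξ, ∀ j ∈ F η, j ∉ R → i < j) (by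
    intro ξ hξ
    obtain ⟨a, ha⟩ := W1_bdd ((F ξ).finite_toSet.countable)
    have h1 : ∀ j, j ∉ R → {η ∈ B2 | j ∈ F η}.Subsingleton := by
      intro j hj η hη η' hη'
      by_contra hne
      exact hj (hR2 η hη.1 η' hη'.1 hne ⟨hη.2, hη'.2⟩)
    refine ((W1_Iic a).biUnion (t := fun j _ => {η ∈ B2 | j ∈ F η ∧ j ∉ R}) ?_).mono ?_
    · intro j _
      by_cases hj : j ∈ R
      · refine countable_empty.mono ?_
        rintro η ⟨_, _, h⟩
        exact h hj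
      · refine (h1 j hj).countable.mono ?_
        rintro η ⟨a1, a2, _⟩
        exact ⟨a1, a2⟩
    · rintro η ⟨hη, hcon⟩
      push Not at hcon
      obtain ⟨i, hi, j, hj, hjR, hji⟩ := hcon
      exact mem_biUnion (show j ∈ Iic a from hji.trans (ha i hi).le) ⟨hη, hj, hjR⟩)
  -- number of new elements
  obtain ⟨n, hB4⟩ := unc_fiber hB3 (fun ξ => (F ξ \ hRf.toFinset).card)
  set B4 := {ξ ∈ B3 | (F ξ \ hRf.toFinset).card = n} with hB4d
  have hB4B : ∀ ξ ∈ B4, ξ ∈ B := fun ξ hξ => (hB2B (hB3B hξ.1)).1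
  have hB4J : ∀ ξ ∈ B4, J ξ = J0 := fun ξ hξ => (hB2B (hB3B hξ.1)).2
  have hen : ∀ ξ, ∃ e : Fin n → W1, ξ ∈ B4 → ∀ i, (i ∈ F ξ ∧ i ∉ R ↔ ∃ l, e l = i) := by
    intro ξ
    by_cases h : ξ ∈ B4
    · refine ⟨fun l => ((F ξ \ hRf.toFinset).equivFinOfCardEq h.2).symm l, fun _ i => ?_⟩
      constructor
      · intro hi
        have hi' : i ∈ F ξ \ hRf.toFinset := by simpa using hi
        exact ⟨(F ξ \ hRf.toFinset).equivFinOfCardEq h.2 ⟨i, hi'⟩, by simp⟩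
      · rintro ⟨l, rfl⟩
        have h2 := (((F ξ \ hRf.toFinset).equivFinOfCardEq h.2).symm l).2
        rw [Finset.mem_sdiff, Set.Finite.mem_toFinset] at h2
        exact h2
    · exact ⟨fun _ => ξ, fun h' => absurd h' h⟩
  choose e he using hen
  -- tails
  have htail : ∀ O : Fin n → List Bool, ∃ γ : W1, ∀ ξ ∈ B4, γ ≤ ξ →
      ∀ r ∈ {r | r ∈ S ∧ r ≤ f ξ ∧ ∀ l, Seg S (x (e ξ l)) (O l) r}, ∀ β, ∃ η ∈ B4, β < η ∧
      ∃ r' ∈ {r | r ∈ S ∧ r ≤ f η ∧ ∀ l, Seg S (x (e η l)) (O l) r},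
      ∃ s ∈ S, s ≤ r ∧ s ≤ r' := fun O =>
    tail_lemma hS (fun ξ => {r | r ∈ S ∧ r ≤ f ξ ∧ ∀ l, Seg S (x (e ξ l)) (O l) r})
      (fun ξ _ r hr => hr.1)
  choose γ hγ using htail
  obtain ⟨γ0, hγ0⟩ := W1_bdd (countable_range γ)
  -- two compatible conditions
  obtain ⟨ζ, hζ, ξ, hξ, hζξ, r0, hr0, h1, h2⟩ := hS _ (unc_tail hB4 γ0) f
    (fun ξ hξ => hf ξ (hB4B ξ hξ.1))
  have hleg : ∀ ξ ∈ B4, Legit S x A (f ξ) := fun ξ hξ => (hv ξ (hB4B ξ hξ)).2.2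
  have hlt : ∀ ξ ∈ B4, ∀ η ∈ B4, ξ < η → ∀ l j, e ξ l < e η j := by
    intro ξ hξ η hη hlt l j
    have a1 := (he ξ hξ (e ξ l)).2 ⟨l, rfl⟩
    have a2 := (he η hη (e η j)).2 ⟨j, rfl⟩
    exact hsep ξ hξ.1 η hη.1 hlt _ a1.1 _ a2.1 a2.2
  obtain ⟨r1, hr1, hr10, hout⟩ := dense_finite (S := S) (p := r0)
    (fun (a : Fin n × Fin n) r => Out S x A (e ζ a.1) (e ξ a.2) r)
    (fun a r r' _ _ hle h => h.mono hle) Finset.univ
    (fun a _ q hq hqr => hleg ζ hζ.1 _ _ (hlt ζ hζ.1 ξ hξ.1 hζξ a.1 a.2) q hq (hqr.trans h1)) hr0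
  have hout' : ∀ a : Fin n × Fin n, Out S x A (e ζ a.1) (e ξ a.2) r1 :=
    fun a => hout a (Finset.mem_univ a)
  choose t ht1 ht2 using hout'
  obtain ⟨N, hN⟩ : ∃ N, ∀ a, (nd (t a)).length ≤ N :=
    ⟨Finset.univ.sup fun a => (nd (t a)).length, fun a =>
      Finset.le_sup (f := fun a => (nd (t a)).length) (Finset.mem_univ a)⟩
  obtain ⟨r2, hr2, hr21, hdec⟩ := dense_finite (S := S) (p := r1)
    (fun (l : Fin n) r => ∃ σ : List Bool, σ.length = N ∧ Seg S (x (e ζ l)) σ r)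
    (fun i r r' _ _ hle ⟨σ, h1, h2⟩ => ⟨σ, h1, h2.mono hle⟩) Finset.univ
    (fun l _ q hq _ => seg_dec (x (e ζ l)) N hq) hr1
  have hdec' : ∀ l : Fin n, ∃ σ : List Bool, σ.length = N ∧ Seg S (x (e ζ l)) σ r2 :=
    fun l => hdec l (Finset.mem_univ l)
  choose O hO1 hO2 using hdec'
  obtain ⟨η, hη, hξη, r3, ⟨hr3, hr3f, hr3O⟩, s, hs, hs2, hs3⟩ := hγ O ζ hζ.1
    ((hγ0 _ (mem_range_self O)).le.trans hζ.2) r2
    ⟨hr2, hr21.trans (hr10.trans h1), hO2⟩ ξ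
  have hsξ : s ≤ f ξ := hs2.trans (hr21.trans (hr10.trans h2))
  have hsη : s ≤ f η := hs3.trans hr3f
  have hout1 : ∀ l j, Out S x A (e η l) (e ξ j) s := by
    intro l j
    refine ⟨t (l, j), ?_, (ht2 (l, j)).mono (hs2.trans hr21)⟩
    have hpre : nd (t (l, j)) <+: O l := seg_unique hr2 ((ht1 (l, j)).mono hr21) (hO2 l)
      (by rw [hO1]; exact hN _)
    exact seg_prefix hpre ((hr3O l).mono hs3)
  obtain ⟨s', hs', hs's, hout2⟩ := dense_finite (S := S) (p := s)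
    (fun (a : Fin n × Fin n) r => Out S x A (e ξ a.1) (e η a.2) r)
    (fun a r r' _ _ hle h => h.mono hle) Finset.univ
    (fun a _ q hq hqr => hleg ξ hξ.1 _ _ (hlt ξ hξ.1 η hη hξη a.1 a.2) q hq (hqr.trans hsξ)) hs
  have hvξ := (hv ξ (hB4B ξ hξ.1)).mono (hs's.trans hsξ)
  have hvη := (hv η (hB4B η hη)).mono (hs's.trans hsη)
  have hCV : CV S x A J0 (F ξ ∪ F η) s' := by
    refine ⟨?_, ?_, hvξ.2.2⟩
    · intro i hi
      rcases Finset.mem_union.1 hi with hi | hi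
      · obtain ⟨σ, a1, a2⟩ := hvξ.1 i hi
        exact ⟨σ, hB4J ξ hξ.1 ▸ a1, a2⟩
      · obtain ⟨σ, a1, a2⟩ := hvη.1 i hi
        exact ⟨σ, hB4J η hη ▸ a1, a2⟩
    · intro i hi k hk hne
      have hRF : ∀ j ∈ R, j ∈ F ξ ∧ j ∈ F η := fun j hj =>
        ⟨hR1 ξ (hB3B hξ.1.1) hj, hR1 η (hB3B hη.1) hj⟩
      by_cases hiR : i ∈ R
      · rcases Finset.mem_union.1 hk with hk | hk
        · exact hvξ.2.1 i (hRF i hiR).1 k hk hne
        · exact hvη.2.1 i (hRF i hiR).2 k hk hne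
      by_cases hkR : k ∈ R
      · rcases Finset.mem_union.1 hi with hi | hi
        · exact hvξ.2.1 i hi k (hRF k hkR).1 hne
        · exact hvη.2.1 i hi k (hRF k hkR).2 hne
      rcases Finset.mem_union.1 hi with hi | hi <;> rcases Finset.mem_union.1 hk with hk | hk
      · exact hvξ.2.1 i hi k hk hne
      · obtain ⟨j, rfl⟩ := (he ξ hξ.1 i).1 ⟨hi, hiR⟩
        obtain ⟨l, rfl⟩ := (he η hη k).1 ⟨hk, hkR⟩
        exact (hout1 l j).mono hs's
      · obtain ⟨j, rfl⟩ := (he η hη i).1 ⟨hi, hiR⟩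
        obtain ⟨l, rfl⟩ := (he ξ hξ.1 k).1 ⟨hk, hkR⟩
        exact hout2 (l, j) (Finset.mem_univ _)
      · exact hvη.2.1 i hi k hk hne
  refine ⟨ξ, hB4B ξ hξ.1, η, hB4B η hη, hξη, s', hs', hs's.trans hsξ, hs's.trans hsη,
    J0, F ξ ∪ F η, Finset.subset_union_left, Finset.subset_union_right, ?_, ?_, hCV⟩
  · intro σ hσ
    exact ⟨σ, (hB4J ξ hξ.1).symm ▸ hσ, List.prefix_rfl⟩
  · intro σ hσ
    exact ⟨σ, (hB4J η hη).symm ▸ hσ, List.prefix_rfl⟩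

end Abs

end Pool.Agent.H83.F
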