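import Pool.Agent.H83.F.Api

/-!
# Target statements of the internal development

The statements below are definitions of propositions (not proofs); each is the goal of one file.
`𝒯D` is the set of constants needed (each file defines its own finite or countable set of
constants, and assumes that it is contained in `𝒯`).
-/

open MeasureTheory

namespace Pool.Agent.H83.F

variable {𝒯 : Set (Set ℕ)}

/-- D1: the reals of a nice model. -/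
def TargetD1 (𝒯D : Set (Set ℕ)) : Prop :=
  ∀ (𝒯 : Set (Set ℕ)) (N : Nice 𝒯), 𝒯D ⊆ 𝒯 → ∃ R A T L : N.M, N.Reals R A T L

/-- D2: characterisation of null sets. -/
def TargetD2 (𝒯D : Set (Set ℕ)) : Prop :=
  ∀ (𝒯 : Set (Set ℕ)) (N : Nice 𝒯), 𝒯D ⊆ 𝒯 → ∀ R A T L : N.M, N.Reals R A T L →
    ∀ X, IsNull N.E N.om R A L X ↔ N.NullS R X

/-- D2': compactness. If the open set coded by `z` covers all reals of the model in `[a, b]`,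
then it covers `[a, b]`. -/
def TargetD2' (𝒯D : Set (Set ℕ)) : Prop :=
  ∀ (𝒯 : Set (Set ℕ)) (N : Nice 𝒯), 𝒯D ⊆ 𝒯 → ∀ z : Set ℕ, N.PM z → ∀ a b : ℚ,
    (∀ x ∈ N.RM, (a : ℝ) ≤ x → x ≤ b → x ∈ Op' z) → Set.Icc (a : ℝ) b ⊆ Op' z

/-- D3a: open sets with codes in the model are Borel in the model. -/
def TargetD3a (𝒯D : Set (Set ℕ)) : Prop :=
  ∀ (𝒯 : Set (Set ℕ)) (N : Nice 𝒯), 𝒯D ⊆ 𝒯 → ∀ R A T L : N.M, N.Reals R A T L →
    ∀ z : Set ℕ, N.PM z → ∃ U, IsBorel N.E N.om R L U ∧ ∀ c x, N.Cd c x → (N.E c U ↔ x ∈ Op' z)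

/-- D3b: a monotone Borel hull operation on the null sets. -/
def TargetD3b (𝒯D : Set (Set ℕ)) : Prop :=
  ∀ (𝒯 : Set (Set ℕ)) (N : Nice 𝒯), 𝒯D ⊆ 𝒯 → ∀ R A T L : N.M, N.Reals R A T L →
    (∀ X, IsNull N.E N.om R A L X ↔ N.NullS R X) →
    ∃ ψ, IsMonoHull N.E N.om R A L (IsNull N.E N.om R A L) ψ

/-- D3c: `add(𝒩) = cof(𝒩)`. -/
def TargetD3c (𝒯D : Set (Set ℕ)) : Prop :=
  ∀ (𝒯 : Set (Set ℕ)) (N : Nice 𝒯), 𝒯D ⊆ 𝒯 → ∀ R A T L : N.M, N.Reals R A T L →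
    (∀ X, IsNull N.E N.om R A L X ↔ N.NullS R X) →
    (∀ z : Set ℕ, N.PM z → ∀ a b : ℚ,
      (∀ x ∈ N.RM, (a : ℝ) ≤ x → x ≤ b → x ∈ Op' z) → Set.Icc (a : ℝ) b ⊆ Op' z) →
    ∃ κ, IsAddNull N.E N.om R A L κ ∧ IsCofNull N.E N.om R A L κ

/-- `W` is the graph of a function from natural numbers to natural numbers (with codes of
pairs). -/
def IsGraph (W : Set ℕ) : Prop := ∀ n, ∃! k, Nat.pair n k ∈ W

/-- `x` belongs to the Suslin set with code `T`: there is `W` in the model that is a graph, such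
that for all `t ∈ T`, `t = (j, τ)`: not both `x ∈ Iv j` and `fs τ ⊆ W`. -/
def Nice.Sus (N : Nice 𝒯) (T : Set ℕ) (x : ℝ) : Prop :=
  ∃ W, N.PM W ∧ IsGraph W ∧
    ∀ t ∈ T, ¬ (x ∈ Iv (Nat.unpair t).1 ∧ (fs (Nat.unpair t).2 : Set ℕ) ⊆ W)

/-- D4: Borel sets are Suslin sets. -/
def TargetD4 (𝒯D : Set (Set ℕ)) : Prop :=
  ∀ (𝒯 : Set (Set ℕ)) (N : Nice 𝒯), 𝒯D ⊆ 𝒯 → ∀ R A T L : N.M, N.Reals R A T L →
    ∀ X, IsBorel N.E N.om R L X →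
      ∃ S, N.PM S ∧ ∀ c x, N.Cd c x → (N.E c X ↔ N.Sus S x)

/-- D5: no monotone Borel hull operation on the measurable sets. -/
def TargetD5 (𝒯D : Set (Set ℕ)) : Prop :=
  ∀ (𝒯 : Set (Set ℕ)) (N : Nice 𝒯), 𝒯D ⊆ 𝒯 → ∀ R A T L : N.M, N.Reals R A T L →
    (∀ X, IsNull N.E N.om R A L X ↔ N.NullS R X) →
    (∀ z : Set ℕ, N.PM z → ∀ a b : ℚ,
      (∀ x ∈ N.RM, (a : ℝ) ≤ x → x ≤ b → x ∈ Op' z) → Set.Icc (a : ℝ) b ⊆ Op' z) →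
    (∀ z : Set ℕ, N.PM z → ∃ U, IsBorel N.E N.om R L U ∧
      ∀ c x, N.Cd c x → (N.E c U ↔ x ∈ Op' z)) →
    (∀ X, IsBorel N.E N.om R L X → ∃ S, N.PM S ∧ ∀ c x, N.Cd c x → (N.E c X ↔ N.Sus S x)) →
    ¬ ∃ ψ, IsMonoHull N.E N.om R A L (IsMeas N.E N.om R A L) ψ

end Pool.Agent.H83.F
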