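import Mathlib

/-!
# `ω₁`, `ω₂` as types, and the `Δ`-system lemma
-/

open Set

namespace Pool.Agent.H83.F

/-- `ω₁` as a type. -/
abbrev W1 : Type := (Cardinal.aleph 1).ord.ToType

/-- `ω₂` as a type. -/
abbrev W2 : Type := (Cardinal.aleph 2).ord.ToType

theorem W1_card : Cardinal.mk W1 = Cardinal.aleph 1 := Cardinal.mk_ord_toType _

theorem W2_card : Cardinal.mk W2 = Cardinal.aleph 2 := Cardinal.mk_ord_toType _

theorem W1_Iio (w : W1) : (Iio w).Countable := by
  rw [← Cardinal.le_aleph0_iff_set_countable]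
  have h1 : Cardinal.mk (Iio w) < Cardinal.aleph 1 := Cardinal.mk_Iio_ord_toType w
  exact Order.lt_succ_iff.1 (h1.trans_eq Cardinal.succ_aleph0.symm)

theorem W1_Iic (w : W1) : (Iic w).Countable := by
  rw [← Iio_insert]
  exact (W1_Iio w).insert w

theorem W1_unc : ¬ (univ : Set W1).Countable := by
  rw [← Cardinal.le_aleph0_iff_set_countable, Cardinal.mk_univ, W1_card]
  exact not_le.2 Cardinal.aleph0_lt_aleph_one

instance : Nonempty W1 := by
  by_contra h
  rw [not_nonempty_iff] at h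
  exact W1_unc (countable_univ)

theorem W1_bdd {s : Set W1} (hs : s.Countable) : ∃ a : W1, ∀ b ∈ s, b < a := by
  by_contra hcon
  push Not at hcon
  apply W1_unc
  refine (hs.biUnion fun b _ => W1_Iic b).mono ?_
  intro a _
  obtain ⟨b, hb, hab⟩ := hcon a
  exact mem_biUnion hb hab

/-- Uncountable subsets of `ω₁` are unbounded. -/
theorem W1_unb {A : Set W1} (hA : ¬ A.Countable) (a : W1) : ∃ b ∈ A, a < b := by
  by_contra hcon
  push Not at hcon
  exact hA ((W1_Iic a).mono fun b hb => hcon b hb)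

/-- Unbounded subsets of `ω₁` are uncountable. -/
theorem W1_unc_of {A : Set W1} (hA : ∀ a, ∃ b ∈ A, a < b) : ¬ A.Countable := by
  intro h
  obtain ⟨a, ha⟩ := W1_bdd h
  obtain ⟨b, hb, hab⟩ := hA a
  exact absurd (ha b hb) (not_lt.2 hab.le)

/-- Pigeonhole: an uncountable set split into countably many pieces. -/
theorem unc_fiber {X Y : Type*} [Countable Y] {A : Set X} (hA : ¬ A.Countable) (f : X → Y) :
    ∃ y, ¬ {x ∈ A | f x = y}.Countable := by
  by_contra hcon
  push Not at hcon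
  apply hA
  refine (countable_iUnion hcon).mono ?_
  intro x hx
  exact mem_iUnion.2 ⟨f x, hx, rfl⟩

/-- The `Δ`-system lemma for finite sets indexed by an uncountable set. -/
theorem delta_system {X C : Type*} {A : Set X} (hA : ¬ A.Countable) (f : X → Set C)
    (hf : ∀ x ∈ A, (f x).Finite) :
    ∃ B ⊆ A, ¬ B.Countable ∧ ∃ R : Set C, R.Finite ∧ (∀ x ∈ B, R ⊆ f x) ∧
      ∀ x ∈ B, ∀ y ∈ B, x ≠ y → f x ∩ f y ⊆ R := by
  classical
  -- fixed cardinality
  obtain ⟨n, hn⟩ := unc_fiber hA (fun x => (f x).ncard)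
  set A' : Set X := {x ∈ A | (f x).ncard = n} with hA'
  -- a maximal root
  let Q : ℕ → Prop := fun m => ∃ R : Set C, R.Finite ∧ R.ncard = m ∧
    ¬ {x ∈ A' | R ⊆ f x}.Countable
  have hQ0 : Q 0 := ⟨∅, finite_empty, by simp, by simpa using hn⟩
  have hQn : ∀ m, Q m → m ≤ n := by
    rintro m ⟨R, hRf, rfl, hR⟩
    obtain ⟨x, hx⟩ : {x ∈ A' | R ⊆ f x}.Nonempty := by
      by_contra he
      rw [not_nonempty_iff_eq_empty] at he
      exact hR (he ▸ countable_empty)
    rw [← hx.1.2]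
    exact ncard_le_ncard hx.2 (hf x hx.1.1)
  obtain ⟨R, hRf, hRm, hR⟩ : Q (Nat.findGreatest Q n) :=
    Nat.findGreatest_spec (P := Q) (hQn 0 hQ0) hQ0
  set A2 : Set X := {x ∈ A' | R ⊆ f x} with hA2
  have hcount : ∀ a, a ∉ R → {x ∈ A2 | a ∈ f x}.Countable := by
    intro a ha
    by_contra hunc
    have hQ : Q (R.ncard + 1) := by
      refine ⟨insert a R, hRf.insert a, ncard_insert_of_notMem ha hRf, ?_⟩
      intro h
      apply hunc
      refine h.mono ?_
      rintro x ⟨⟨hx, hRx⟩, hax⟩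
      exact ⟨hx, insert_subset hax hRx⟩
    have := Nat.le_findGreatest (hQn _ hQ) hQ
    omega
  -- a maximal subfamily with pairwise intersections inside `R`
  obtain ⟨B, hB⟩ : ∃ B : Set X, Maximal (fun B : Set X => B ⊆ A2 ∧
      ∀ x ∈ B, ∀ y ∈ B, x ≠ y → f x ∩ f y ⊆ R) B := by
    apply zorn_subset
    intro c hc hchain
    refine ⟨⋃₀ c, ⟨sUnion_subset fun s hs => (hc hs).1, ?_⟩,
      fun s hs => subset_sUnion_of_mem hs⟩
    rintro x ⟨s, hs, hxs⟩ y ⟨t, ht, hyt⟩ hxy
    rcases hchain.total hs ht with hst | hts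
    · exact (hc ht).2 x (hst hxs) y hyt hxy
    · exact (hc hs).2 x hxs y (hts hyt) hxy
  refine ⟨B, fun x hx => (hB.1.1 hx).1.1, ?_, R, hRf, fun x hx => (hB.1.1 hx).2, hB.1.2⟩
  intro hBc
  apply hR
  have hU : (⋃ x ∈ B, f x).Countable :=
    hBc.biUnion fun x hx => (hf x (hB.1.1 hx).1.1).countable
  have hsub : A2 ⊆ B ∪ ⋃ a ∈ (⋃ x ∈ B, f x) \ R, {x ∈ A2 | a ∈ f x} := by
    intro x hx
    by_contra hcon
    rw [mem_union, not_or] at hcon
    have hins : insert x B ⊆ A2 ∧
        ∀ u ∈ insert x B, ∀ v ∈ insert x B, u ≠ v → f u ∩ f v ⊆ R := by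
      have hxB : ∀ y ∈ B, f x ∩ f y ⊆ R := by
        rintro y hy a ⟨ha1, ha2⟩
        by_contra haR
        exact hcon.2 (mem_biUnion (show a ∈ (⋃ x ∈ B, f x) \ R from
          ⟨mem_biUnion hy ha2, haR⟩) ⟨hx, ha1⟩)
      refine ⟨insert_subset hx hB.1.1, ?_⟩
      intro u hu v hv huv
      rcases hu with rfl | hu
      · rcases hv with rfl | hv
        · exact absurd rfl huv
        · exact hxB v hv
      · rcases hv with rfl | hv
        · rw [inter_comm]; exact hxB u hu
        · exact hB.1.2 u hu v hv huv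
    exact hcon.1 (hB.2 hins (subset_insert _ _) (mem_insert _ _))
  refine Countable.mono hsub (hBc.union ?_)
  exact (hU.mono diff_subset).biUnion fun a ha => hcount a ha.2

end Pool.Agent.H83.F
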