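import Pool.Agent.H86.Model

/-!
# Models of ZFC
-/

universe v

namespace Pool.Agent.H83.F

open Pool.Agent.H86

/-- `(M, E)` is a model of Zermelo-Fraenkel set theory with choice: a model of ZF in which every
set of pairwise disjoint non-empty sets has a set that meets each of its members in exactly one
element. -/
structure IsZFCModel {M : Type v} (E : M → M → Prop) : Prop extends IsZFModel E where
  choice : ∀ x, (∀ y, E y x → ∃ z, E z y) →
    (∀ y y', E y x → E y' x → (∃ z, E z y ∧ E z y') → y = y') →
    ∃ c, ∀ y, E y x → ∃ z, (E z y ∧ E z c) ∧ ∀ z', E z' y → E z' c → z' = z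

end Pool.Agent.H83.F
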