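import Pool.Agent.H83.F.Base
import Pool.Agent.H83.F.ZFCDef
import Pool.Agent.H86.Check

/-!
# The axioms of ZFC are forced
-/

set_option linter.unusedVariables false
set_option linter.unusedSectionVars false

universe u v w

namespace Pool.Agent.H83.F

open Pool.Agent.H86 Pool.Agent.H86.Name

/-- The formula expressing the axiom of choice. -/
def fAC {N : Type v} {Ω : Type w} (L : LogicStr N Ω) : Ω := L.all fun x =>
  L.imp (L.all fun y => L.imp (L.mem y x) (L.ex fun z => L.mem z y))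
  (L.imp (L.all fun y => L.all fun y' => L.imp (L.mem y x) (L.imp (L.mem y' x)
      (L.imp (L.ex fun z => L.and (L.mem z y) (L.mem z y')) (L.eq y y'))))
    (L.ex fun c => L.all fun y => L.imp (L.mem y x) (L.ex fun z =>
      L.and (L.and (L.mem z y) (L.mem z c))
        (L.all fun z' => L.imp (L.mem z' y) (L.imp (L.mem z' c) (L.eq z' z))))))

variable {Q : Type u} [Preorder Q] [OrderTop Q]

theorem forced_ext (p : Q) : (fExt (FS Q)).holds p := by
  intro X Y q hq h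
  show feq X Y q
  rw [feq_iff_mem]
  refine ⟨fun i q' hq' hi => ?_, fun i q' hq' hi => ?_⟩
  · exact (h _).1 q' hq' (fmem_el hi)
  · exact (h _).2 q' hq' (fmem_el hi)

theorem forced_found (p : Q) : (fFound (FS Q)).holds p := by
  intro X q hq h
  have key : ∀ Y : Name Q, ∀ r, fmem Y X r → ∃ s ≤ r, ∃ Z : Name Q,
      ((FS Q).and ((FS Q).mem Z X)
        ((FS Q).all fun z => (FS Q).imp ((FS Q).mem z X)
          ((FS Q).imp ((FS Q).mem z Z) (FS Q).bot))).holds s := by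
    intro Y
    induction Y using ind with
    | h Y ih =>
      intro r hr
      by_cases hc : ((FS Q).all fun z =>
          (FS Q).imp ((FS Q).mem z X) ((FS Q).imp ((FS Q).mem z Y) (FS Q).bot)).holds r
      · exact ⟨r, le_rfl, Y, hr, hc⟩
      · have hc' : ∃ z : Name Q, ¬ ((FS Q).imp ((FS Q).mem z X)
            ((FS Q).imp ((FS Q).mem z Y) (FS Q).bot)).holds r := by
          by_contra h'
          push Not at h'
          exact hc h'
        obtain ⟨z, hz⟩ := hc'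
        have hz' : ∃ s ≤ r, fmem z X s ∧ fmem z Y s := by
          by_contra h'
          push Not at h'
          apply hz
          intro s hs hs1 t ht hs2
          exact (h' t (ht.trans hs) (fmem_mono ht hs1) hs2).elim
        obtain ⟨s, hs, h1, h2⟩ := hz'
        obtain ⟨t, ht, i, h3, h4⟩ := h2 s le_rfl
        obtain ⟨t', ht', Z, hZ⟩ := ih i t (fmem_congr_left h4 (fmem_mono ht h1))
        exact ⟨t', ht'.trans (ht.trans hs), Z, hZ⟩
  intro q' hq'
  obtain ⟨r, hr, Y, hY⟩ := h q' hq'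
  obtain ⟨s, hs, Z, hZ⟩ := key Y r hY
  exact ⟨s, hs.trans hr, Z, hZ⟩

theorem forced_pair (p : Q) : (fPair (FS Q)).holds p := by
  intro X Y q hq
  refine ⟨q, le_rfl, upair X Y, fun Z => ⟨fun r hr h => ?_, fun r hr h => ?_⟩⟩
  · exact fmem_upair.1 h
  · exact fmem_upair.2 h

theorem forced_union (p : Q) : (fUnion (FS Q)).holds p := by
  intro X q hq
  refine ⟨q, le_rfl, sUnion X, fun Z => ⟨fun r hr h => ?_, fun r hr h => ?_⟩⟩
  · intro s hs
    obtain ⟨t, ht, i, h1, h2⟩ := fmem_sUnion.1 h s hs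
    exact ⟨t, ht, _, fmem_el h1, h2⟩
  · refine fmem_sUnion.2 fun s hs => ?_
    obtain ⟨t, ht, Y, h1, h2⟩ := h s hs
    obtain ⟨t', ht', i, h3, h4⟩ := h1 t le_rfl
    exact ⟨t', ht'.trans ht, i, h3, fmem_congr_right h4 (fmem_mono ht' h2)⟩

theorem exists_sep (φ : Fml) (f : ℕ → Name Q) (X : Name Q) :
    ∃ Y : Name Q, ∀ (Z : Name Q) (p : Q),
      fmem Z Y p ↔ fmem Z X p ∧ (φ.eval (FS Q) (upd f 0 Z)).holds p := by
  set A : X.ι → Q → Prop := fun i q => (φ.eval (FS Q) (upd f 0 (X.el i))).holds q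
  have hA : ∀ i p q, q ≤ p → A i p → A i q := fun i p q h => (φ.eval (FS Q) _).mono h
  refine ⟨X.sub A, fun Z p => ?_⟩
  rw [fmem_sub hA]
  have hcong : ∀ i r, feq Z (X.el i) r →
      (A i r ↔ (φ.eval (FS Q) (upd f 0 Z)).holds r) := by
    intro i r hr
    apply eval_eq_iff
    intro k hk
    by_cases h0 : k = 0
    · subst h0; simpa using feq_symm hr
    · rw [upd_ne _ _ h0, upd_ne _ _ h0]; exact feq_refl _ _
  constructor
  · intro h
    refine ⟨fun q' hq' => ?_, (φ.eval (FS Q) _).reg fun q' hq' => ?_⟩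
    · obtain ⟨q2, a1, i, a2, a3, a4⟩ := h q' hq'
      exact ⟨q2, a1, i, a2, a4⟩
    · obtain ⟨q2, a1, i, a2, a3, a4⟩ := h q' hq'
      exact ⟨q2, a1, (hcong i q2 a4).1 a3⟩
  · rintro ⟨h3, h4⟩ q' hq'
    obtain ⟨q2, a1, i, a2, a3⟩ := h3 q' hq'
    exact ⟨q2, a1, i, a2, (hcong i q2 a3).2 ((φ.eval (FS Q) _).mono (a1.trans hq') h4), a3⟩

theorem forced_sep (φ : Fml) (f : ℕ → Name Q) (p : Q) : ((cSep φ).eval (FS Q) f).holds p := by
  rw [eval_cSep]
  intro X q hq
  obtain ⟨Y, hY⟩ := exists_sep φ f X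
  exact ⟨q, le_rfl, Y, fun Z => ⟨fun r hr h => (hY Z r).1 h, fun r hr h => (hY Z r).2 h⟩⟩

/-- powerset name -/
def pow (X : Name Q) : Name Q :=
  Name.mk {A : X.ι → Q → Prop // ∀ i p q, q ≤ p → A i p → A i q}
    (fun A => X.sub A.1) (fun _ => ⊤)

theorem fmem_pow {X : Name Q} (Z : Name Q) (p : Q) :
    fmem Z (pow X) p ↔ ∀ W : Name Q, ∀ q ≤ p, fmem W Z q → fmem W X q := by
  constructor
  · intro h W q hq hW
    apply fmem_reg
    intro q' hq'
    obtain ⟨q2, a1, ⟨A, hA⟩, a2, a3⟩ := h q' (hq'.trans hq)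
    refine ⟨q2, a1, ?_⟩
    have h1 : fmem W (X.sub A) q2 := fmem_congr_right a3 (fmem_mono (a1.trans hq') hW)
    rw [fmem_sub hA] at h1
    intro r hr
    obtain ⟨r', hr', i, b1, b2, b3⟩ := h1 r hr
    exact ⟨r', hr', i, b1, b3⟩
  · intro h
    set A : X.ι → Q → Prop := fun i r => fmem (X.el i) Z r
    have hA : ∀ i p q, q ≤ p → A i p → A i q := fun i p q hqp => fmem_mono hqp
    intro q' hq'
    refine ⟨q', le_rfl, ⟨A, hA⟩, le_top, ?_⟩
    show feq Z (X.sub A) q'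
    rw [feq_iff_mem]
    constructor
    · intro i q1 hq1 hi
      rw [fmem_sub hA]
      have h3 := h _ q1 (hq1.trans hq') (fmem_el hi)
      intro r hr
      obtain ⟨r', hr', j, b1, b2⟩ := h3 r hr
      exact ⟨r', hr', j, b1, fmem_congr_left b2 (fmem_el (hr'.trans (hr.trans hi))), b2⟩
    · rintro ⟨⟨i, r⟩, hr1, hr2⟩ q1 hq1 hi
      exact fmem_mono hi hr2

theorem forced_power (p : Q) : (fPower (FS Q)).holds p := by
  intro X q hq
  refine ⟨q, le_rfl, pow X, fun Z => ⟨fun r hr h => ?_, fun r hr h => ?_⟩⟩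
  · exact (fmem_pow (X := X) Z r).1 h
  · exact (fmem_pow (X := X) Z r).2 h

theorem exists_coll (φ : Fml) (f : ℕ → Name Q) (X : Name Q) :
    ∃ Y : Name Q, ∀ (Z : Name Q) (p : Q), fmem Z X p →
      ((FS Q).ex fun y => φ.eval (FS Q) (upd (upd f 0 Z) 1 y)).holds p →
      ((FS Q).ex fun y => (FS Q).and ((FS Q).mem y Y)
        (φ.eval (FS Q) (upd (upd f 0 Z) 1 y))).holds p := by
  classical
  have hch : ∀ (i : X.ι) (q : Q), ∃ y : Name Q,
      (∃ y' : Name Q, (φ.eval (FS Q) (upd (upd f 0 (X.el i)) 1 y')).holds q) →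
      (φ.eval (FS Q) (upd (upd f 0 (X.el i)) 1 y)).holds q := by
    intro i q
    by_cases h : ∃ y' : Name Q,
        (φ.eval (FS Q) (upd (upd f 0 (X.el i)) 1 y')).holds q
    · exact ⟨h.choose, fun _ => h.choose_spec⟩
    · exact ⟨f 0, fun h' => (h h').elim⟩
  choose F hF using hch
  refine ⟨Name.mk (X.ι × Q) (fun t => F t.1 t.2) fun _ => ⊤, ?_⟩
  intro Z p hZ hp q hq
  obtain ⟨q1, a1, i, a2, a3⟩ := hZ q hq
  obtain ⟨r, hr, y, hy⟩ := hp q1 (a1.trans hq)
  have hcong : ∀ y : Name Q, (φ.eval (FS Q) (upd (upd f 0 Z) 1 y)).holds r ↔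
      (φ.eval (FS Q) (upd (upd f 0 (X.el i)) 1 y)).holds r := by
    intro y
    apply eval_eq_iff
    intro k hk
    by_cases h1 : k = 1
    · subst h1; simpa using feq_refl _ _
    rw [upd_ne _ _ h1, upd_ne _ _ h1]
    by_cases h0 : k = 0
    · subst h0; simpa using feq_mono hr a3
    · rw [upd_ne _ _ h0, upd_ne _ _ h0]; exact feq_refl _ _
  refine ⟨r, hr.trans a1, F i r, ?_, ?_⟩
  · show fmem (F i r) _ r
    intro s hs
    exact ⟨s, le_rfl, ⟨i, r⟩, le_top, feq_refl _ _⟩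
  · rw [hcong]
    exact hF i r ⟨y, (hcong y).1 hy⟩

theorem forced_coll (φ : Fml) (f : ℕ → Name Q) (p : Q) :
    ((cColl φ).eval (FS Q) f).holds p := by
  rw [eval_cColl]
  intro X q hq h
  obtain ⟨Y, hY⟩ := exists_coll φ f X
  refine fun r hr => ⟨r, le_rfl, Y, fun Z s hs hZ => hY Z s hZ ?_⟩
  exact h Z s (hs.trans hr) hZ

theorem forced_inf (p : Q) : (fInf (FS Q)).holds p := by
  intro q hq
  refine ⟨q, le_rfl, oName Q Ordinal.omega0, ?_, ?_⟩
  · intro r hr
    refine ⟨r, le_rfl, oName Q 0, fmem_oName_of_lt Ordinal.omega0_pos r, ?_⟩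
    intro Z s hs h
    obtain ⟨t, _, β, hβ, _⟩ := fmem_oName.1 h s le_rfl
    exact absurd hβ (not_lt_of_ge (zero_le (a := β)))
  · intro Y r hr hY s hs
    obtain ⟨t, ht, β, hβ, h⟩ := fmem_oName.1 hY s hs
    refine ⟨t, ht, oName Q (β + 1), ?_, fun Z => ⟨fun t' ht' h' => ?_, fun t' ht' h' => ?_⟩⟩
    · exact fmem_oName_of_lt (Ordinal.isSuccLimit_omega0.add_one_lt hβ) t
    · intro a ha
      obtain ⟨b, hb, h2⟩ := fmem_oName_add_one.1 h' a ha
      have h3 : feq Y (oName Q β) b := feq_mono (hb.trans (ha.trans ht')) h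
      exact ⟨b, hb, h2.imp (fun h4 => fmem_congr_right (feq_symm h3) h4)
        (fun h4 => feq_trans h4 (feq_symm h3))⟩
    · show fmem Z (oName Q (β + 1)) t'
      rw [fmem_oName_add_one]
      intro a ha
      obtain ⟨b, hb, h2⟩ := h' a ha
      have h3 : feq Y (oName Q β) b := feq_mono (hb.trans (ha.trans ht')) h
      exact ⟨b, hb, h2.imp (fun h4 => fmem_congr_right h3 h4) (fun h4 => feq_trans h4 h3)⟩

/-- The axiom of choice is forced. -/
theorem forced_choice (p : Q) : (fAC (FS Q)).holds p := by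
  classical
  intro X p1 hp1 hne p2 hp2 hdis
  set U := X.sUnion with hU
  let lt : U.ι → U.ι → Prop := WellOrderingRel
  have hwf : WellFounded lt := IsWellFounded.wf
  set Same : Name Q → Name Q → Om Q := fun a b =>
    (FS Q).ex fun y => (FS Q).and ((FS Q).mem y X) ((FS Q).and ((FS Q).mem a y) ((FS Q).mem b y))
    with hSame
  set A : U.ι → Q → Prop := fun i q => ∀ j, lt j i → ∀ r ≤ q, r ≤ U.cd j →
    ¬ (Same (U.el j) (U.el i)).holds r with hA
  have hAm : ∀ i p q, q ≤ p → A i p → A i q := fun i p q hqp h j hj r hr hrj =>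
    h j hj r (hr.trans hqp) hrj
  intro p3 hp3
  refine ⟨p3, le_rfl, U.sub A, ?_⟩
  intro Y q hq hY
  -- membership in the union
  have hUmem : ∀ (Z : Name Q) (r : Q), fmem Y X r → fmem Z Y r → fmem Z U r := by
    intro Z r h1 h2
    rw [hU, fmem_sUnion]
    intro s hs
    obtain ⟨t, ht, i, h3, h4⟩ := h1 s hs
    exact ⟨t, ht, i, h3, fmem_congr_right h4 (fmem_mono (ht.trans hs) h2)⟩
  intro q' hq'
  have hYq' : fmem Y X q' := fmem_mono hq' hY
  -- minimal index
  have hex : ∃ i : U.ι, ∃ r ≤ q', r ≤ U.cd i ∧ fmem (U.el i) Y r := by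
    obtain ⟨r, hr, Z, hZ⟩ := hne Y q' (hq'.trans (hq.trans (hp3.trans hp2))) hYq' q' le_rfl
    have h1 := hUmem Z r (fmem_mono hr hYq') hZ
    obtain ⟨s, hs, i, h2, h3⟩ := h1 r le_rfl
    exact ⟨i, s, hs.trans hr, h2, fmem_congr_left h3 (fmem_mono hs hZ)⟩
  obtain ⟨i, ⟨r, hr, hri, hrY⟩, hmin⟩ := hwf.has_min
    {i : U.ι | ∃ r ≤ q', r ≤ U.cd i ∧ fmem (U.el i) Y r} hex
  -- equality of members that intersect
  have hjoin : ∀ (Y' Z : Name Q) (s : Q), s ≤ p2 → fmem Y X s → fmem Y' X s → fmem Z Y s →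
      fmem Z Y' s → feq Y Y' s := by
    intro Y' Z s hs h1 h2 h3 h4
    exact hdis Y Y' s hs h1 s le_rfl h2 s le_rfl (fun t ht =>
      ⟨t, le_rfl, Z, fmem_mono ht h3, fmem_mono ht h4⟩)
  have hAi : A i r := by
    intro j hj s hs hsj hsame
    obtain ⟨t, ht, Y', h1, h2, h3⟩ := hsame s le_rfl
    have htr : t ≤ r := ht.trans hs
    have htq : t ≤ q' := htr.trans hr
    have h4 : feq Y Y' t := hjoin Y' (U.el i) t
      (htq.trans (hq'.trans (hq.trans hp3))) (fmem_mono htq hYq') h1 (fmem_mono htr hrY) h3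
    exact hmin j ⟨t, htq, ht.trans hsj, fmem_congr_right (feq_symm h4) h2⟩ hj
  have hic : fmem (U.el i) (U.sub A) r := by
    rw [fmem_sub hAm]
    intro s hs
    exact ⟨s, le_rfl, i, hs.trans hri, hAm i _ _ hs hAi, feq_refl _ _⟩
  refine ⟨r, hr, U.el i, ⟨hrY, hic⟩, ?_⟩
  intro Z' s hs hZ'Y s' hs' hZ'c
  show feq Z' (U.el i) s'
  apply feq_reg
  intro t ht
  have hZ'c' : fmem Z' (U.sub A) s' := hZ'c
  rw [fmem_sub hAm] at hZ'c'
  obtain ⟨t1, ht1, j, h1, h2, h3⟩ := hZ'c' t ht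
  refine ⟨t1, ht1, ?_⟩
  have ht1s : t1 ≤ s := ht1.trans (ht.trans hs')
  have ht1r : t1 ≤ r := ht1s.trans hs
  have hYt : fmem Y X t1 := fmem_mono (ht1r.trans hr) hYq'
  have hZt : fmem (U.el j) Y t1 := fmem_congr_left h3 (fmem_mono ht1s hZ'Y)
  have hit : fmem (U.el i) Y t1 := fmem_mono ht1r hrY
  have hij : i = j := by
    rcases trichotomous_of lt i j with h | h | h
    · exfalso
      refine h2 i h t1 le_rfl (ht1r.trans hri) ?_
      intro a ha
      exact ⟨a, le_rfl, Y, fmem_mono ha hYt, fmem_mono ha hit, fmem_mono ha hZt⟩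
    · exact h
    · exfalso
      refine hAi j h t1 ht1r h1 ?_
      intro a ha
      exact ⟨a, le_rfl, Y, fmem_mono ha hYt, fmem_mono ha hZt, fmem_mono ha hit⟩
  rw [hij]
  exact h3

/-- Every structure in which all forced sentences (with parameters) hold is a model of ZFC. -/
theorem zfc_of_true {M : Type v} {E : M → M → Prop} {p₀ : Q} {Nm : M → Name Q → Prop}
    (h1 : ∀ m, ∃ x, Nm m x) (hM : Nonempty M)
    (h2 : ∀ (φ : Fml) (f : ℕ → M) (g : ℕ → Name Q), (∀ i, Nm (f i) (g i)) →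
        (φ.eval (FS Q) g).holds p₀ → φ.eval (propStr E) f) : IsZFCModel E := by
  choose g hg using h1
  obtain ⟨m⟩ := hM
  have hs : ∀ φ : Fml, (∀ g : ℕ → Name Q, (φ.eval (FS Q) g).holds p₀) →
      ∀ f : ℕ → M, φ.eval (propStr E) f :=
    fun φ hφ f => h2 φ f (fun i => g (f i)) (fun i => hg _) (hφ _)
  have hZF : IsZFModel E := by
    refine zf_of_true ?_ ?_ ?_ ?_ ?_ ?_ ?_ ?_
    · exact hs (fExt codeStr 0) (fun _ => forced_ext p₀) (fun _ => m)
    · exact hs (fFound codeStr 0) (fun _ => forced_found p₀) (fun _ => m)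
    · exact hs (fPair codeStr 0) (fun _ => forced_pair p₀) (fun _ => m)
    · exact hs (fUnion codeStr 0) (fun _ => forced_union p₀) (fun _ => m)
    · exact hs (fPower codeStr 0) (fun _ => forced_power p₀) (fun _ => m)
    · exact hs (fInf codeStr 0) (fun _ => forced_inf p₀) (fun _ => m)
    · exact fun φ => hs (cSep φ) (fun g => forced_sep φ g p₀)
    · exact fun φ => hs (cColl φ) (fun g => forced_coll φ g p₀)
  have hAC : fAC (propStr E) := hs (fAC codeStr 0) (fun _ => forced_choice p₀) (fun _ => m)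
  refine { toIsZFModel := hZF, choice := ?_ }
  intro x hx hd
  exact hAC x hx (fun y y' hy hy' h => hd y y' hy hy' h)

end Pool.Agent.H83.F
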